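import Mathlib

/-!
# Moments of sums over words

For weights `x : ι → ℝ` with `∑ x = 1` we consider the (signed) average
`∑_{w : Fin N → ι} (∏ x (w j)) F(w)` over words of length `N`.
-/

namespace Pool.Agent.H36.Fill

set_option linter.unusedSectionVars false

variable {ι : Type*} [Fintype ι]

/-- The weight of a word. -/
def wgt (x : ι → ℝ) {N : ℕ} (w : Fin N → ι) : ℝ := ∏ j, x (w j)

/-- The sum of the values of `g` along a word. -/
def wsum (g : ι → ℝ) {N : ℕ} (w : Fin N → ι) : ℝ := ∑ j, g (w j)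

lemma wgt_nonneg {x : ι → ℝ} (hx : ∀ i, 0 ≤ x i) {N : ℕ} (w : Fin N → ι) : 0 ≤ wgt x w :=
  Finset.prod_nonneg fun _ _ => hx _

lemma sum_words_succ {E : Type*} [AddCommMonoid E] {N : ℕ} (F : (Fin (N + 1) → ι) → E) :
    ∑ w, F w = ∑ i, ∑ w : Fin N → ι, F (Fin.cons i w) := by
  rw [← Fintype.sum_prod_type']
  exact (Fintype.sum_equiv (Fin.consEquiv fun _ => ι) _ _ fun _ => rfl).symm

@[simp] lemma wgt_cons (x : ι → ℝ) {N : ℕ} (i : ι) (w : Fin N → ι) :
    wgt x (Fin.cons i w : Fin (N + 1) → ι) = x i * wgt x w := by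
  simp [wgt, Fin.prod_univ_succ]

@[simp] lemma wsum_cons (g : ι → ℝ) {N : ℕ} (i : ι) (w : Fin N → ι) :
    wsum g (Fin.cons i w : Fin (N + 1) → ι) = g i + wsum g w := by
  simp [wsum, Fin.sum_univ_succ]

lemma sum_wgt {x : ι → ℝ} (hx : ∑ i, x i = 1) (N : ℕ) : ∑ w : Fin N → ι, wgt x w = 1 := by
  induction N with
  | zero => simp [wgt]
  | succ N ih =>
    rw [sum_words_succ]
    simp only [wgt_cons, ← Finset.mul_sum, ih, mul_one, hx]

lemma sum_wgt_wsum {x g : ι → ℝ} (hx : ∑ i, x i = 1) (hg : ∑ i, x i * g i = 0) (N : ℕ) :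
    ∑ w : Fin N → ι, wgt x w * wsum g w = 0 := by
  induction N with
  | zero => simp [wgt, wsum]
  | succ N ih =>
    rw [sum_words_succ]
    have e : ∀ i, ∑ w : Fin N → ι, wgt x (Fin.cons i w : Fin (N + 1) → ι) *
        wsum g (Fin.cons i w : Fin (N + 1) → ι) = x i * g i := by
      intro i
      have e1 : ∀ w : Fin N → ι, wgt x (Fin.cons i w : Fin (N + 1) → ι) *
        wsum g (Fin.cons i w : Fin (N + 1) → ι) =
          (x i * g i) * wgt x w + x i * (wgt x w * wsum g w) := by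
        intro w; rw [wgt_cons, wsum_cons]; ring
      simp only [e1, Finset.sum_add_distrib, ← Finset.mul_sum, ih, sum_wgt hx]
      ring
    simp only [e, hg]

lemma sum_wgt_wsum_wsum {x g h : ι → ℝ} (hx : ∑ i, x i = 1) (hg : ∑ i, x i * g i = 0)
    (hh : ∑ i, x i * h i = 0) (N : ℕ) :
    ∑ w : Fin N → ι, wgt x w * (wsum g w * wsum h w) = N * ∑ i, x i * (g i * h i) := by
  induction N with
  | zero => simp [wgt, wsum]
  | succ N ih =>
    rw [sum_words_succ]
    have e : ∀ i, ∑ w : Fin N → ι, wgt x (Fin.cons i w : Fin (N + 1) → ι) *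
        (wsum g (Fin.cons i w : Fin (N + 1) → ι) * wsum h (Fin.cons i w : Fin (N + 1) → ι)) =
        x i * (g i * h i) + x i * (N * ∑ i, x i * (g i * h i)) := by
      intro i
      have e1 : ∀ w : Fin N → ι, wgt x (Fin.cons i w : Fin (N + 1) → ι) *
          (wsum g (Fin.cons i w : Fin (N + 1) → ι) * wsum h (Fin.cons i w : Fin (N + 1) → ι)) =
          (x i * (g i * h i)) * wgt x w + (x i * g i) * (wgt x w * wsum h w) +
            (x i * h i) * (wgt x w * wsum g w) + x i * (wgt x w * (wsum g w * wsum h w)) := by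
        intro w; rw [wgt_cons, wsum_cons, wsum_cons]; ring
      simp only [e1, Finset.sum_add_distrib, ← Finset.mul_sum, ih, sum_wgt hx,
        sum_wgt_wsum hx hg, sum_wgt_wsum hx hh]
      ring
    simp only [e, Finset.sum_add_distrib, ← Finset.sum_mul, hx]
    push_cast
    ring

lemma sum_wgt_sq {x g : ι → ℝ} (hx0 : ∀ i, 0 ≤ x i) (hx : ∑ i, x i = 1)
    (hg : ∑ i, x i * g i = 0) {C : ℝ} (hC : ∀ i, |g i| ≤ C) (N : ℕ) :
    ∑ w : Fin N → ι, wgt x w * wsum g w ^ 2 ≤ N * C ^ 2 := by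
  have h := sum_wgt_wsum_wsum hx hg hg N
  simp only [← sq] at h
  rw [h]
  have h2 : ∑ i, x i * g i ^ 2 ≤ C ^ 2 := by
    calc ∑ i, x i * g i ^ 2 ≤ ∑ i, x i * C ^ 2 := by
          refine Finset.sum_le_sum fun i _ => mul_le_mul_of_nonneg_left ?_ (hx0 i)
          rw [← sq_abs (g i)]
          exact pow_le_pow_left₀ (abs_nonneg _) (hC i) 2
      _ = C ^ 2 := by rw [← Finset.sum_mul, hx, one_mul]
  exact mul_le_mul_of_nonneg_left h2 (Nat.cast_nonneg N)

lemma sum_wgt_pow_four {x g : ι → ℝ} (hx0 : ∀ i, 0 ≤ x i) (hx : ∑ i, x i = 1)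
    (hg : ∑ i, x i * g i = 0) {C : ℝ} (hC : ∀ i, |g i| ≤ C) (N : ℕ) :
    ∑ w : Fin N → ι, wgt x w * wsum g w ^ 4 ≤ 3 * N ^ 2 * C ^ 4 := by
  induction N with
  | zero => simp [wgt, wsum]
  | succ N ih =>
    rw [sum_words_succ]
    set A := ∑ w : Fin N → ι, wgt x w * wsum g w ^ 2 with hA
    set B := ∑ w : Fin N → ι, wgt x w * wsum g w ^ 3 with hB
    set D := ∑ w : Fin N → ι, wgt x w * wsum g w ^ 4 with hD
    have e : ∀ i, ∑ w : Fin N → ι, wgt x (Fin.cons i w : Fin (N + 1) → ι) *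
        wsum g (Fin.cons i w : Fin (N + 1) → ι) ^ 4 =
        x i * g i ^ 4 + 6 * A * (x i * g i ^ 2) + 4 * B * (x i * g i) + D * x i := by
      intro i
      have e1 : ∀ w : Fin N → ι, wgt x (Fin.cons i w : Fin (N + 1) → ι) *
          wsum g (Fin.cons i w : Fin (N + 1) → ι) ^ 4 =
          (x i * g i ^ 4) * wgt x w + (4 * x i * g i ^ 3) * (wgt x w * wsum g w) +
          (6 * (x i * g i ^ 2)) * (wgt x w * wsum g w ^ 2) +
          (4 * (x i * g i)) * (wgt x w * wsum g w ^ 3) + x i * (wgt x w * wsum g w ^ 4) := by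
        intro w; rw [wgt_cons, wsum_cons]; ring
      simp only [e1, Finset.sum_add_distrib, ← Finset.mul_sum, sum_wgt hx,
        sum_wgt_wsum hx hg, ← hA, ← hB, ← hD]
      ring
    simp only [e, Finset.sum_add_distrib, ← Finset.mul_sum, hx, hg]
    have hA' : A ≤ N * C ^ 2 := sum_wgt_sq hx0 hx hg hC N
    have hA0 : 0 ≤ A := Finset.sum_nonneg fun w _ => mul_nonneg (wgt_nonneg hx0 w) (sq_nonneg _)
    have h2 : ∑ i, x i * g i ^ 2 ≤ C ^ 2 := by
      calc ∑ i, x i * g i ^ 2 ≤ ∑ i, x i * C ^ 2 := by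
            refine Finset.sum_le_sum fun i _ => mul_le_mul_of_nonneg_left ?_ (hx0 i)
            rw [← sq_abs (g i)]
            exact pow_le_pow_left₀ (abs_nonneg _) (hC i) 2
        _ = C ^ 2 := by rw [← Finset.sum_mul, hx, one_mul]
    have h20 : 0 ≤ ∑ i, x i * g i ^ 2 :=
      Finset.sum_nonneg fun i _ => mul_nonneg (hx0 i) (sq_nonneg _)
    have h4 : ∑ i, x i * g i ^ 4 ≤ C ^ 4 := by
      calc ∑ i, x i * g i ^ 4 ≤ ∑ i, x i * C ^ 4 := by
            refine Finset.sum_le_sum fun i _ => mul_le_mul_of_nonneg_left ?_ (hx0 i)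
            rw [← (show Even 4 by decide).pow_abs (g i)]
            exact pow_le_pow_left₀ (abs_nonneg _) (hC i) 4
        _ = C ^ 4 := by rw [← Finset.sum_mul, hx, one_mul]
    have h6 : A * ∑ i, x i * g i ^ 2 ≤ (N * C ^ 2) * C ^ 2 :=
      mul_le_mul hA' h2 h20 (by positivity)
    have hC4 : 0 ≤ C ^ 4 := by positivity
    push_cast
    nlinarith

end Pool.Agent.H36.Fill
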