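import Pool.Agent.H36.Fill.Stokes
import Pool.Agent.H36.Fill.Words

/-!
# Bernstein polynomials of singular simplices

They are compatible with faces and their derivatives converge to the derivative of a Lipschitz
simplex at every interior point of differentiability.
-/

open MeasureTheory Set Filter
open scoped NNReal Topology

namespace Pool.Agent.H36.Fill

variable {k : ℕ}

/-- The average of the vertices along a word, a point of the standard simplex. -/
noncomputable def avg {N : ℕ} (w : Fin (N + 1) → Fin (k + 1)) : stdSimplex ℝ (Fin (k + 1)) :=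
  ⟨fun i => wsum (fun a => if a = i then 1 else 0) w / (N + 1), by
    constructor
    · intro i
      refine div_nonneg (Finset.sum_nonneg fun j _ => ?_) (by positivity)
      dsimp only
      split_ifs <;> simp
    · rw [← Finset.sum_div]
      simp only [wsum]
      rw [Finset.sum_comm]
      have : ((N : ℝ) + 1) ≠ 0 := by positivity
      simp [this]⟩

lemma avg_apply {N : ℕ} (w : Fin (N + 1) → Fin (k + 1)) (i : Fin (k + 1)) :
    (avg w).1 i = wsum (fun a => if a = i then 1 else 0) w / (N + 1) := rfl

lemma avg_succAbove {N : ℕ} (w : Fin (N + 1) → Fin (k + 1)) (j : Fin (k + 2)) :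
    avg (fun l => j.succAbove (w l)) = stdSimplex.map j.succAbove (avg w) := by
  apply Subtype.ext
  rw [coe_map_succAbove]
  funext i
  rw [avg_apply]
  rcases Fin.eq_self_or_eq_succAbove j i with rfl | ⟨l, rfl⟩
  · rw [Fin.insertNth_apply_same, wsum, Finset.sum_eq_zero, zero_div]
    intro a _
    rw [if_neg (Fin.succAbove_ne _ _)]
  · rw [Fin.insertNth_apply_succAbove, avg_apply]
    congr 1
    refine Finset.sum_congr rfl fun a _ => ?_
    simp

variable {W : Type*} [NormedAddCommGroup W] [NormedSpace ℝ W]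

/-- The Bernstein polynomial of degree `N + 1` of a singular simplex. -/
noncomputable def bern (N : ℕ) (σ : Simp W k) (x : Fin (k + 1) → ℝ) : W :=
  ∑ w : Fin (N + 1) → Fin (k + 1), wgt x w • σ (avg w)

lemma bern_insertNth (N : ℕ) (σ : Simp W (k + 1)) (j : Fin (k + 2)) (x : Fin (k + 1) → ℝ) :
    bern N σ (j.insertNth 0 x) = bern N (fun y => σ (stdSimplex.map j.succAbove y)) x := by
  symm
  refine Fintype.sum_of_injective (fun w l => j.succAbove (w l)) ?_ _ _ ?_ ?_
  · intro w w' h
    funext l
    have := congrFun h l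
    exact Fin.succAbove_right_injective this
  · intro w hw
    have : ∃ l, w l = j := by
      by_contra hcon
      push Not at hcon
      apply hw
      have : ∀ l, ∃ a, j.succAbove a = w l := fun l => Fin.exists_succAbove_eq (hcon l)
      choose a ha using this
      exact ⟨a, funext ha⟩
    obtain ⟨l, hl⟩ := this
    have : wgt (j.insertNth 0 x : Fin (k + 2) → ℝ) w = 0 := by
      apply Finset.prod_eq_zero (Finset.mem_univ l)
      rw [hl, Fin.insertNth_apply_same]
    rw [this, zero_smul]
  · intro w
    have : wgt (j.insertNth 0 x : Fin (k + 2) → ℝ) (fun l => j.succAbove (w l)) = wgt x w := by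
      simp [wgt]
    rw [this, avg_succAbove]

lemma contDiff_hat (m : ℕ) {n : WithTop ℕ∞} : ContDiff ℝ n (fun t : Fin k → ℝ => hat t m) := by
  unfold hat
  split_ifs
  · exact contDiff_const
  · exact contDiff_apply ℝ ℝ _
  · exact contDiff_const

lemma contDiff_ord {n : WithTop ℕ∞} : ContDiff ℝ n (ord : (Fin k → ℝ) → (Fin (k + 1) → ℝ)) := by
  rw [contDiff_pi]
  intro i
  simp only [ord_eq_hat]
  exact (contDiff_hat _).sub (contDiff_hat _)

lemma contDiff_bern (N : ℕ) (σ : Simp W k) {n : WithTop ℕ∞} : ContDiff ℝ n (bern N σ) := by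
  refine ContDiff.sum fun w _ => ContDiff.smul ?_ contDiff_const
  exact contDiff_prod fun j _ => contDiff_apply ℝ ℝ _

/-- The Bernstein polynomial in the coordinates of the ordered simplex. -/
noncomputable def bernC (N : ℕ) (σ : Simp W k) (t : Fin k → ℝ) : W := bern N σ (ord t)

lemma contDiff_bernC (N : ℕ) (σ : Simp W k) {n : WithTop ℕ∞} : ContDiff ℝ n (bernC N σ) :=
  (contDiff_bern N σ).comp contDiff_ord

lemma bernC_dup (N : ℕ) (σ : Simp W (k + 1)) (j : Fin (k + 2)) (t : Fin k → ℝ) :
    bernC N σ (dup j t) = bernC N (fun y => σ (stdSimplex.map j.succAbove y)) t := by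
  rw [bernC, bernC, ord_dup, bern_insertNth]

/-! ### The direction vectors -/

/-- The derivative of `ord` in the direction of the `l`-th coordinate. -/
def vv (l : Fin k) (i : Fin (k + 1)) : ℝ :=
  (if i = l.succ then 1 else 0) - (if i = l.castSucc then 1 else 0)

lemma hat_add_single (t : Fin k → ℝ) (s : ℝ) (l : Fin k) (m : ℕ) :
    hat (t + s • (Pi.single l 1 : Fin k → ℝ)) m = hat t m + s * if m = l + 1 then 1 else 0 := by
  rcases m with _ | m
  · simp
  · rw [hat_succ, hat_succ]
    by_cases h : m < k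
    · rw [dif_pos h, dif_pos h]
      simp only [Pi.add_apply, Pi.smul_apply, smul_eq_mul]
      congr 2
      by_cases h2 : m = l
      · have : (⟨m, h⟩ : Fin k) = l := Fin.ext h2
        rw [this, Pi.single_eq_same, if_pos (by omega)]
      · rw [Pi.single_eq_of_ne, if_neg (by omega)]
        intro h3
        exact h2 (congrArg Fin.val h3)
    · have := l.2
      rw [dif_neg h, dif_neg h, if_neg (by omega)]
      simp

lemma ord_add_single (t : Fin k → ℝ) (s : ℝ) (l : Fin k) :
    ord (t + s • (Pi.single l 1 : Fin k → ℝ)) = ord t + s • vv l := by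
  funext i
  simp only [Pi.add_apply, Pi.smul_apply, smul_eq_mul]
  rw [ord_eq_hat, ord_eq_hat, hat_add_single, hat_add_single, vv]
  have e1 : ((i : ℕ) = l + 1) ↔ i = l.succ := by
    rw [Fin.ext_iff]; simp
  have e2 : ((i : ℕ) + 1 = l + 1) ↔ i = l.castSucc := by
    rw [Fin.ext_iff]; simp
  simp only [e1, e2]
  ring

lemma sum_vv_smul (l : Fin k) (φ : Fin (k + 1) → W) :
    ∑ i, vv l i • φ i = φ l.succ - φ l.castSucc := by
  simp only [vv, sub_smul, Finset.sum_sub_distrib, ite_smul, one_smul, zero_smul,
    Finset.sum_ite_eq', Finset.mem_univ, if_true]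

lemma sum_vv_mul (l : Fin k) (φ : Fin (k + 1) → ℝ) :
    ∑ i, vv l i * φ i = φ l.succ - φ l.castSucc := by
  simpa only [smul_eq_mul] using sum_vv_smul l φ

lemma sum_vv (l : Fin k) : ∑ i, vv l i = 0 := by
  have := sum_vv_mul l (fun _ => 1)
  simpa using this

lemma hasDerivAt_bern (N : ℕ) (σ : Simp W k) (x v : Fin (k + 1) → ℝ) :
    HasDerivAt (fun s : ℝ => bern N σ (x + s • v))
      (∑ w : Fin (N + 1) → Fin (k + 1),
        (∑ j, (∏ i ∈ Finset.univ.erase j, x (w i)) * v (w j)) • σ (avg w)) 0 := by
  unfold bern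
  refine HasDerivAt.fun_sum fun w _ => ?_
  refine HasDerivAt.smul_const ?_ _
  have h : ∀ j ∈ (Finset.univ : Finset (Fin (N + 1))),
      HasDerivAt (fun s : ℝ => (x + s • v) (w j)) (v (w j)) 0 := by
    intro j _
    simp only [Pi.add_apply, Pi.smul_apply, smul_eq_mul]
    have := ((hasDerivAt_id (0 : ℝ)).mul_const (v (w j))).const_add (x (w j))
    simpa using this
  have := HasDerivAt.fun_finsetProd h
  simpa [wgt] using this

lemma fderiv_bernC (N : ℕ) (σ : Simp W k) (t : Fin k → ℝ) (l : Fin k) :
    fderiv ℝ (bernC N σ) t (Pi.single l 1) =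
      ∑ w : Fin (N + 1) → Fin (k + 1),
        (∑ j, (∏ i ∈ Finset.univ.erase j, ord t (w i)) * vv l (w j)) • σ (avg w) := by
  have h1 : HasDerivAt (fun s : ℝ => bernC N σ (t + s • (Pi.single l 1 : Fin k → ℝ)))
      (fderiv ℝ (bernC N σ) t (Pi.single l 1)) 0 := by
    have hd : HasFDerivAt (bernC N σ) (fderiv ℝ (bernC N σ) t)
        (t + (0 : ℝ) • (Pi.single l 1 : Fin k → ℝ)) := by
      rw [zero_smul, add_zero]
      exact ((contDiff_bernC N σ (n := 1)).differentiable one_ne_zero t).hasFDerivAt
    have h2 : HasDerivAt (fun s : ℝ => t + s • (Pi.single l 1 : Fin k → ℝ))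
        (Pi.single l 1) 0 := by
      have := ((hasDerivAt_id (0 : ℝ)).smul_const (Pi.single l 1 : Fin k → ℝ)).const_add t
      simpa using this
    exact hd.comp_hasDerivAt (0 : ℝ) h2
  have h2 := hasDerivAt_bern N σ (ord t) (vv l)
  simp only [← ord_add_single] at h2
  exact h1.unique h2

end Pool.Agent.H36.Fill
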