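import Pool.Agent.H36.Fill.Bernstein

/-!
# Convergence of the derivatives of Bernstein polynomials
-/

open MeasureTheory Set Filter
open scoped NNReal Topology

namespace Pool.Agent.H36.Fill

set_option linter.unusedSectionVars false

variable {k : ℕ} {W : Type*} [NormedAddCommGroup W] [NormedSpace ℝ W]

lemma wsum_insertNth {ι : Type*} [Fintype ι] (g : ι → ℝ) {N : ℕ} (j : Fin (N + 1)) (a : ι)
    (w : Fin N → ι) : wsum g (j.insertNth a w : Fin (N + 1) → ι) = g a + wsum g w := by
  simp [wsum, Fin.sum_univ_succAbove _ j]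

lemma prod_erase_insertNth {ι : Type*} (x : ι → ℝ) {N : ℕ} (j : Fin (N + 1)) (a : ι)
    (w : Fin N → ι) :
    ∏ i ∈ Finset.univ.erase j, x ((j.insertNth a w : Fin (N + 1) → ι) i) = wgt x w := by
  rw [Fin.univ_succAbove _ j, Finset.erase_cons, Finset.prod_map]
  simp [wgt]

lemma dist_avg_insertNth {N : ℕ} (j : Fin (N + 1)) (a b : Fin (k + 1)) (w : Fin N → Fin (k + 1)) :
    dist (avg (j.insertNth a w : Fin (N + 1) → Fin (k + 1)))
      (avg (j.insertNth b w : Fin (N + 1) → Fin (k + 1))) ≤ 1 / (N + 1) := by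
  rw [Subtype.dist_eq]
  refine (dist_pi_le_iff (by positivity)).mpr fun i => ?_
  rw [avg_apply, avg_apply, wsum_insertNth, wsum_insertNth, Real.dist_eq, ← sub_div,
    abs_div, abs_of_pos (show (0 : ℝ) < N + 1 by positivity)]
  gcongr
  split_ifs <;> simp

lemma norm_fderiv_bernC_le (N : ℕ) {σ : Simp W k} {K : ℝ≥0} (hσ : LipschitzWith K σ)
    {t : Fin k → ℝ} (ht : t ∈ ordSimplex k) (l : Fin k) :
    ‖fderiv ℝ (bernC N σ) t (Pi.single l 1)‖ ≤ K := by
  rw [fderiv_bernC]
  have e1 : ∑ w : Fin (N + 1) → Fin (k + 1),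
      (∑ j, (∏ i ∈ Finset.univ.erase j, ord t (w i)) * vv l (w j)) • σ (avg w) =
      ∑ j : Fin (N + 1), ∑ w : Fin N → Fin (k + 1), wgt (ord t) w •
        (σ (avg (j.insertNth l.succ w : Fin (N + 1) → Fin (k + 1))) -
          σ (avg (j.insertNth l.castSucc w : Fin (N + 1) → Fin (k + 1)))) := by
    simp only [Finset.sum_smul]
    rw [Finset.sum_comm]
    refine Finset.sum_congr rfl fun j _ => ?_
    rw [← Fintype.sum_equiv (Fin.insertNthEquiv (fun _ => Fin (k + 1)) j)
      (fun p => ((∏ i ∈ Finset.univ.erase j, ord t ((Fin.insertNthEquiv (fun _ => Fin (k + 1)) j p) i)) *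
        vv l ((Fin.insertNthEquiv (fun _ => Fin (k + 1)) j p) j)) •
          σ (avg (Fin.insertNthEquiv (fun _ => Fin (k + 1)) j p))) _ (fun _ => rfl)]
    rw [Fintype.sum_prod_type, Finset.sum_comm]
    refine Finset.sum_congr rfl fun w _ => ?_
    rw [← sum_vv_smul l (fun a => σ (avg (j.insertNth a w : Fin (N + 1) → Fin (k + 1)))),
      Finset.smul_sum]
    refine Finset.sum_congr rfl fun a _ => ?_
    have e3 : (Fin.insertNthEquiv (fun _ => Fin (k + 1)) j (a, w)) =
      (j.insertNth a w : Fin (N + 1) → Fin (k + 1)) := rfl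
    rw [e3, prod_erase_insertNth, Fin.insertNth_apply_same, mul_smul]
  rw [e1]
  have hpos : (0 : ℝ) < N + 1 := by positivity
  calc ‖∑ j : Fin (N + 1), ∑ w : Fin N → Fin (k + 1), wgt (ord t) w •
        (σ (avg (j.insertNth l.succ w : Fin (N + 1) → Fin (k + 1))) -
          σ (avg (j.insertNth l.castSucc w : Fin (N + 1) → Fin (k + 1))))‖
      ≤ ∑ j : Fin (N + 1), ∑ w : Fin N → Fin (k + 1), wgt (ord t) w * (K * (1 / (N + 1))) := by
        refine norm_sum_le_of_le _ fun j _ => norm_sum_le_of_le _ fun w _ => ?_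
        rw [norm_smul, Real.norm_of_nonneg (wgt_nonneg ht.1 w)]
        refine mul_le_mul_of_nonneg_left ?_ (wgt_nonneg ht.1 w)
        rw [← dist_eq_norm]
        exact (hσ.dist_le_mul _ _).trans
          (mul_le_mul_of_nonneg_left (dist_avg_insertNth _ _ _ _) K.2)
    _ = K := by
        simp only [← Finset.sum_mul, sum_wgt ht.2, one_mul, Finset.sum_const, Finset.card_univ,
          Fintype.card_fin, nsmul_eq_mul]
        push_cast
        field_simp

/-! ### Tail sums -/

/-- Tail sums: the inverse of `ord`. -/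
def tl (y : Fin (k + 1) → ℝ) (a : Fin k) : ℝ := ∑ i, if a.castSucc < i then y i else 0

lemma sum_range_ite_sub (a : ℕ → ℝ) (m K : ℕ) :
    ∑ i ∈ Finset.range K, (if m ≤ i then a i - a (i + 1) else 0) =
      if m ≤ K then a m - a K else 0 := by
  induction K with
  | zero =>
    by_cases h : m ≤ 0
    · rw [if_pos h]
      have : m = 0 := by omega
      simp [this]
    · rw [if_neg h]; simp
  | succ K ih =>
    rw [Finset.sum_range_succ, ih]
    by_cases h : m ≤ K
    · rw [if_pos h, if_pos h, if_pos (by omega)]; ring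
    · rw [if_neg h, if_neg h]
      by_cases h2 : m ≤ K + 1
      · have : m = K + 1 := by omega
        rw [if_pos h2, this]; ring
      · rw [if_neg h2]; ring

lemma sum_ite_ord (t : Fin k → ℝ) {m : ℕ} (hm : m ≤ k + 1) :
    ∑ i : Fin (k + 1), (if m ≤ (i : ℕ) then ord t i else 0) = hat t m := by
  simp only [ord_eq_hat]
  rw [Fin.sum_univ_eq_sum_range (fun i => if m ≤ i then hat t i - hat t (i + 1) else 0) (k + 1),
    sum_range_ite_sub, if_pos hm, hat_of_lt t (by omega : k < k + 1), sub_zero]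

lemma tl_ord (t : Fin k → ℝ) : tl (ord t) = t := by
  funext a
  have h := sum_ite_ord t (m := a + 1) (by have := a.2; omega)
  rw [hat_fin] at h
  rw [← h, tl]
  refine Finset.sum_congr rfl fun i _ => ?_
  congr 1

lemma hat_tl {y : Fin (k + 1) → ℝ} (hy : ∑ i, y i = 1) (m : ℕ) :
    hat (tl y) m = ∑ i : Fin (k + 1), if m ≤ (i : ℕ) then y i else 0 := by
  rcases m with _ | m
  · simp [hy]
  · rw [hat_succ]
    by_cases h : m < k
    · rw [dif_pos h, tl]
      refine Finset.sum_congr rfl fun i _ => ?_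
      congr 1
    · rw [dif_neg h, Finset.sum_eq_zero]
      intro i _
      have := i.2
      rw [if_neg (by omega)]

lemma ord_tl {y : Fin (k + 1) → ℝ} (hy : ∑ i, y i = 1) : ord (tl y) = y := by
  funext i
  rw [ord_eq_hat, hat_tl hy, hat_tl hy, ← Finset.sum_sub_distrib, Finset.sum_eq_single i]
  · rw [if_pos le_rfl, if_neg (by omega), sub_zero]
  · intro j _ hj
    have : (j : ℕ) ≠ i := fun h => hj (Fin.ext h)
    by_cases h : (i : ℕ) ≤ j
    · rw [if_pos h, if_pos (by omega), sub_self]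
    · rw [if_neg h, if_neg (by omega), sub_self]
  · simp

lemma tl_mem {y : Fin (k + 1) → ℝ} (hy : y ∈ stdSimplex ℝ (Fin (k + 1))) :
    tl y ∈ ordSimplex k := by
  rw [ordSimplex, mem_ofPred_eq, ord_tl hy.2]; exact hy

lemma inCoord_tl (σ : Simp W k) (y : stdSimplex ℝ (Fin (k + 1))) :
    inCoord σ (tl y.1) = σ y := by
  have h : ord (tl y.1) ∈ stdSimplex ℝ (Fin (k + 1)) := by rw [ord_tl y.2.2]; exact y.2
  rw [inCoord, dif_pos h]
  congr 1
  apply Subtype.ext
  exact ord_tl y.2.2

lemma dist_ord_le (s t : Fin k → ℝ) : dist (ord s) (ord t) ≤ 2 * dist s t := by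
  have hh : ∀ m, |hat s m - hat t m| ≤ dist s t := by
    intro m
    rcases m with _ | m
    · simp
    · rw [hat_succ, hat_succ]
      by_cases h : m < k
      · rw [dif_pos h, dif_pos h, ← Real.dist_eq]
        exact dist_le_pi_dist s t _
      · rw [dif_neg h, dif_neg h]; simp
  refine (dist_pi_le_iff (by positivity)).mpr fun i => ?_
  rw [ord_eq_hat, ord_eq_hat, Real.dist_eq]
  have h1 := abs_le.mp (hh i)
  have h2 := abs_le.mp (hh (i + 1))
  rw [abs_le]
  constructor <;> linarith [h1.1, h1.2, h2.1, h2.2]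

lemma lipschitzOnWith_inCoord {σ : Simp W k} {K : ℝ≥0} (hσ : LipschitzWith K σ) :
    LipschitzOnWith (K * 2) (inCoord σ) (ordSimplex k) := by
  refine LipschitzOnWith.of_dist_le_mul fun s hs t ht => ?_
  have hs' : ord s ∈ stdSimplex ℝ (Fin (k + 1)) := hs
  have ht' : ord t ∈ stdSimplex ℝ (Fin (k + 1)) := ht
  rw [inCoord, dif_pos hs', inCoord, dif_pos ht']
  refine (hσ.dist_le_mul _ _).trans ?_
  rw [Subtype.dist_eq]
  push_cast
  rw [mul_assoc]
  exact mul_le_mul_of_nonneg_left (dist_ord_le s t) K.2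

end Pool.Agent.H36.Fill
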