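import Pool.Agent.H36.Fill.Bernstein2

/-!
# Convergence of the derivatives of Bernstein polynomials at points of differentiability
-/

open MeasureTheory Set Filter
open scoped NNReal Topology

namespace Pool.Agent.H36.Fill

set_option linter.unusedSectionVars false

variable {k : ℕ} {W : Type*} [NormedAddCommGroup W] [NormedSpace ℝ W]

lemma fderiv_bernC_of_pos (N : ℕ) (σ : Simp W k) {t : Fin k → ℝ} (ht : ∀ i, 0 < ord t i)
    (l : Fin k) :
    fderiv ℝ (bernC N σ) t (Pi.single l 1) =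
      ∑ w : Fin (N + 1) → Fin (k + 1),
        (wgt (ord t) w * wsum (fun i => vv l i / ord t i) w) • inCoord σ (tl (avg w).1) := by
  rw [fderiv_bernC]
  refine Finset.sum_congr rfl fun w _ => ?_
  rw [inCoord_tl, wsum, Finset.mul_sum]
  congr 1
  refine Finset.sum_congr rfl fun j _ => ?_
  have h := Finset.mul_prod_erase Finset.univ (fun i => ord t (w i)) (Finset.mem_univ j)
  rw [wgt, ← h]
  have := (ht (w j)).ne'
  field_simp

/-- The centred function giving the coordinate `a` of the position of a vertex. -/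
def HH (t : Fin k → ℝ) (a : Fin k) (i : Fin (k + 1)) : ℝ :=
  (if a.castSucc < i then 1 else 0) - t a

lemma sum_ord_mul_HH (t : Fin k → ℝ) (a : Fin k) : ∑ i, ord t i * HH t a i = 0 := by
  have h := congrFun (tl_ord t) a
  rw [tl] at h
  have e : ∀ i, ord t i * HH t a i = (if a.castSucc < i then ord t i else 0) - ord t i * t a := by
    intro i
    rw [HH]
    split_ifs <;> ring
  simp only [e, Finset.sum_sub_distrib, h, ← Finset.sum_mul, sum_ord]
  ring

lemma abs_HH_le {t : Fin k → ℝ} (ht : t ∈ ordSimplex k) (a : Fin k) (i : Fin (k + 1)) :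
    |HH t a i| ≤ 1 := by
  have h := hat_mem_Icc ht (a + 1)
  rw [hat_fin] at h
  rw [HH, abs_le]
  split_ifs <;> constructor <;> linarith [h.1, h.2]

lemma tl_avg_sub (t : Fin k → ℝ) {N : ℕ} (w : Fin (N + 1) → Fin (k + 1)) (a : Fin k) :
    tl (avg w).1 a - t a = wsum (HH t a) w / (N + 1) := by
  have hN : (N : ℝ) + 1 ≠ 0 := by positivity
  have e1 : tl (avg w).1 a =
      (∑ j, (if a.castSucc < w j then (1 : ℝ) else 0)) / (N + 1) := by
    rw [tl]
    have e2 : ∀ i : Fin (k + 1), (if a.castSucc < i then (avg w).1 i else 0) =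
        (∑ j, if w j = i then (if a.castSucc < i then (1 : ℝ) else 0) else 0) / (N + 1) := by
      intro i
      rw [avg_apply, wsum]
      split_ifs with h
      · rfl
      · simp
    simp only [e2, ← Finset.sum_div]
    rw [Finset.sum_comm]
    simp
  rw [e1, wsum]
  simp only [HH, Finset.sum_sub_distrib, Finset.sum_const, Finset.card_univ, Fintype.card_fin,
    nsmul_eq_mul]
  push_cast
  field_simp

lemma pi_norm_sq_le (y : Fin k → ℝ) : ‖y‖ ^ 2 ≤ ∑ a, y a ^ 2 := by
  rcases isEmpty_or_nonempty (Fin k) with h | h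
  · have : y = 0 := Subsingleton.elim _ _
    simp [this]
  · obtain ⟨a, ha⟩ := Finite.exists_max (fun a => ‖y a‖)
    have h1 : ‖y‖ ≤ ‖y a‖ := (pi_norm_le_iff_of_nonneg (norm_nonneg _)).mpr ha
    calc ‖y‖ ^ 2 ≤ ‖y a‖ ^ 2 := pow_le_pow_left₀ (norm_nonneg _) h1 2
      _ = y a ^ 2 := by rw [Real.norm_eq_abs, sq_abs]
      _ ≤ ∑ a, y a ^ 2 := Finset.single_le_sum (f := fun a => y a ^ 2)
          (fun _ _ => sq_nonneg _) (Finset.mem_univ a)

lemma pi_norm_four_le (y : Fin k → ℝ) : ‖y‖ ^ 4 ≤ ∑ a, y a ^ 4 := by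
  rcases isEmpty_or_nonempty (Fin k) with h | h
  · have : y = 0 := Subsingleton.elim _ _
    simp [this]
  · obtain ⟨a, ha⟩ := Finite.exists_max (fun a => ‖y a‖)
    have h1 : ‖y‖ ≤ ‖y a‖ := (pi_norm_le_iff_of_nonneg (norm_nonneg _)).mpr ha
    calc ‖y‖ ^ 4 ≤ ‖y a‖ ^ 4 := pow_le_pow_left₀ (norm_nonneg _) h1 4
      _ = y a ^ 4 := by rw [Real.norm_eq_abs, (show Even 4 by decide).pow_abs]
      _ ≤ ∑ a, y a ^ 4 := Finset.single_le_sum (f := fun a => y a ^ 4)
          (fun _ _ => by positivity) (Finset.mem_univ a)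

section Est

variable {t : Fin k → ℝ} (ht : t ∈ ordSimplex k) {g : Fin (k + 1) → ℝ}
  (hg : ∑ i, ord t i * g i = 0) {C : ℝ} (hC : ∀ i, |g i| ≤ C)

include ht

lemma sum_wgt_norm_sq (N : ℕ) :
    ∑ w : Fin (N + 1) → Fin (k + 1), wgt (ord t) w * ‖tl (avg w).1 - t‖ ^ 2 ≤ k / (N + 1) := by
  have hN : (0 : ℝ) < N + 1 := by positivity
  calc ∑ w : Fin (N + 1) → Fin (k + 1), wgt (ord t) w * ‖tl (avg w).1 - t‖ ^ 2
      ≤ ∑ w : Fin (N + 1) → Fin (k + 1), wgt (ord t) w *
          ∑ a, (wsum (HH t a) w / (N + 1)) ^ 2 := by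
        refine Finset.sum_le_sum fun w _ => mul_le_mul_of_nonneg_left ?_ (wgt_nonneg ht.1 w)
        refine (pi_norm_sq_le _).trans (le_of_eq ?_)
        exact Finset.sum_congr rfl fun a _ => by rw [Pi.sub_apply, tl_avg_sub]
    _ = ∑ a, (∑ w : Fin (N + 1) → Fin (k + 1), wgt (ord t) w * wsum (HH t a) w ^ 2) /
          (N + 1) ^ 2 := by
        simp only [Finset.mul_sum, Finset.sum_div]
        rw [Finset.sum_comm]
        refine Finset.sum_congr rfl fun a _ => Finset.sum_congr rfl fun w _ => ?_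
        rw [div_pow]; ring
    _ ≤ ∑ _a : Fin k, ((N : ℝ) + 1) * 1 ^ 2 / (N + 1) ^ 2 := by
        refine Finset.sum_le_sum fun a _ => ?_
        gcongr
        have := sum_wgt_sq ht.1 ht.2 (sum_ord_mul_HH t a) (abs_HH_le ht a) (N + 1)
        push_cast at this
        exact this
    _ = k / (N + 1) := by
        simp only [Finset.sum_const, Finset.card_univ, Fintype.card_fin, nsmul_eq_mul]
        field_simp

lemma sum_wgt_norm_four (N : ℕ) :
    ∑ w : Fin (N + 1) → Fin (k + 1), wgt (ord t) w * ‖tl (avg w).1 - t‖ ^ 4 ≤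
      3 * k / (N + 1) ^ 2 := by
  have hN : (0 : ℝ) < N + 1 := by positivity
  calc ∑ w : Fin (N + 1) → Fin (k + 1), wgt (ord t) w * ‖tl (avg w).1 - t‖ ^ 4
      ≤ ∑ w : Fin (N + 1) → Fin (k + 1), wgt (ord t) w *
          ∑ a, (wsum (HH t a) w / (N + 1)) ^ 4 := by
        refine Finset.sum_le_sum fun w _ => mul_le_mul_of_nonneg_left ?_ (wgt_nonneg ht.1 w)
        refine (pi_norm_four_le _).trans (le_of_eq ?_)
        exact Finset.sum_congr rfl fun a _ => by rw [Pi.sub_apply, tl_avg_sub]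
    _ = ∑ a, (∑ w : Fin (N + 1) → Fin (k + 1), wgt (ord t) w * wsum (HH t a) w ^ 4) /
          (N + 1) ^ 4 := by
        simp only [Finset.mul_sum, Finset.sum_div]
        rw [Finset.sum_comm]
        refine Finset.sum_congr rfl fun a _ => Finset.sum_congr rfl fun w _ => ?_
        rw [div_pow]; ring
    _ ≤ ∑ _a : Fin k, (3 * ((N : ℝ) + 1) ^ 2 * 1 ^ 4) / (N + 1) ^ 4 := by
        refine Finset.sum_le_sum fun a _ => ?_
        gcongr
        have := sum_wgt_pow_four ht.1 ht.2 (sum_ord_mul_HH t a) (abs_HH_le ht a) (N + 1)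
        push_cast at this
        exact this
    _ = 3 * k / (N + 1) ^ 2 := by
        simp only [Finset.sum_const, Finset.card_univ, Fintype.card_fin, nsmul_eq_mul]
        field_simp

include hg hC

lemma sum_wgt_wsum_norm (N : ℕ) :
    ∑ w : Fin (N + 1) → Fin (k + 1), wgt (ord t) w * (|wsum g w| * ‖tl (avg w).1 - t‖) ≤
      (C ^ 2 + k) / 2 := by
  have hN : (0 : ℝ) < N + 1 := by positivity
  calc ∑ w : Fin (N + 1) → Fin (k + 1), wgt (ord t) w * (|wsum g w| * ‖tl (avg w).1 - t‖)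
      ≤ ∑ w : Fin (N + 1) → Fin (k + 1), ((wgt (ord t) w * wsum g w ^ 2) * (1 / (2 * (N + 1))) +
          (wgt (ord t) w * ‖tl (avg w).1 - t‖ ^ 2) * ((N + 1) / 2)) := by
        refine Finset.sum_le_sum fun w _ => ?_
        have h0 := wgt_nonneg ht.1 w
        set S := wsum g w
        set Y := ‖tl (avg w).1 - t‖
        have key : |S| * Y ≤ S ^ 2 * (1 / (2 * (N + 1))) + Y ^ 2 * ((N + 1) / 2) := by
          have h1 : 0 ≤ (|S| - (N + 1) * Y) ^ 2 * (1 / (2 * (N + 1))) := by positivity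
          have h2 : (|S| - (N + 1) * Y) ^ 2 * (1 / (2 * (N + 1))) =
              S ^ 2 * (1 / (2 * (N + 1))) + Y ^ 2 * ((N + 1) / 2) - |S| * Y := by
            rw [← sq_abs S]; field_simp; ring
          linarith
        calc wgt (ord t) w * (|S| * Y) ≤
              wgt (ord t) w * (S ^ 2 * (1 / (2 * (N + 1))) + Y ^ 2 * ((N + 1) / 2)) :=
              mul_le_mul_of_nonneg_left key h0
          _ = _ := by ring
    _ = (∑ w : Fin (N + 1) → Fin (k + 1), wgt (ord t) w * wsum g w ^ 2) * (1 / (2 * (N + 1))) +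
        (∑ w : Fin (N + 1) → Fin (k + 1), wgt (ord t) w * ‖tl (avg w).1 - t‖ ^ 2) *
          ((N + 1) / 2) := by
        rw [Finset.sum_add_distrib, Finset.sum_mul, Finset.sum_mul]
    _ ≤ (((N + 1 : ℕ) : ℝ) * C ^ 2) * (1 / (2 * (N + 1))) + (k / (N + 1)) * ((N + 1) / 2) := by
        gcongr
        · exact sum_wgt_sq ht.1 ht.2 hg hC (N + 1)
        · exact sum_wgt_norm_sq ht N
    _ = (C ^ 2 + k) / 2 := by push_cast; field_simp

lemma sum_wgt_wsum_norm_sq (N : ℕ) {ε : ℝ} (hε : 0 < ε) :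
    ∑ w : Fin (N + 1) → Fin (k + 1), wgt (ord t) w * (|wsum g w| * ‖tl (avg w).1 - t‖ ^ 2) ≤
      (ε * C ^ 2 + 3 * k / (ε * (N + 1))) / 2 := by
  have hN : (0 : ℝ) < N + 1 := by positivity
  calc ∑ w : Fin (N + 1) → Fin (k + 1), wgt (ord t) w * (|wsum g w| * ‖tl (avg w).1 - t‖ ^ 2)
      ≤ ∑ w : Fin (N + 1) → Fin (k + 1), ((wgt (ord t) w * wsum g w ^ 2) * (ε / (2 * (N + 1))) +
          (wgt (ord t) w * ‖tl (avg w).1 - t‖ ^ 4) * ((N + 1) / (2 * ε))) := by
        refine Finset.sum_le_sum fun w _ => ?_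
        have h0 := wgt_nonneg ht.1 w
        set S := wsum g w
        set Y := ‖tl (avg w).1 - t‖
        have key : |S| * Y ^ 2 ≤ S ^ 2 * (ε / (2 * (N + 1))) + Y ^ 4 * ((N + 1) / (2 * ε)) := by
          have h1 : 0 ≤ (|S| - ((N + 1) / ε) * Y ^ 2) ^ 2 * (ε / (2 * (N + 1))) := by positivity
          have h2 : (|S| - ((N + 1) / ε) * Y ^ 2) ^ 2 * (ε / (2 * (N + 1))) =
              S ^ 2 * (ε / (2 * (N + 1))) + Y ^ 4 * ((N + 1) / (2 * ε)) - |S| * Y ^ 2 := by
            rw [← sq_abs S]; field_simp; ring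
          linarith
        calc wgt (ord t) w * (|S| * Y ^ 2) ≤
              wgt (ord t) w * (S ^ 2 * (ε / (2 * (N + 1))) + Y ^ 4 * ((N + 1) / (2 * ε))) :=
              mul_le_mul_of_nonneg_left key h0
          _ = _ := by ring
    _ = (∑ w : Fin (N + 1) → Fin (k + 1), wgt (ord t) w * wsum g w ^ 2) * (ε / (2 * (N + 1))) +
        (∑ w : Fin (N + 1) → Fin (k + 1), wgt (ord t) w * ‖tl (avg w).1 - t‖ ^ 4) *
          ((N + 1) / (2 * ε)) := by
        rw [Finset.sum_add_distrib, Finset.sum_mul, Finset.sum_mul]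
    _ ≤ (((N + 1 : ℕ) : ℝ) * C ^ 2) * (ε / (2 * (N + 1))) +
          (3 * k / (N + 1) ^ 2) * ((N + 1) / (2 * ε)) := by
        gcongr
        · exact sum_wgt_sq ht.1 ht.2 hg hC (N + 1)
        · exact sum_wgt_norm_four ht N
    _ = (ε * C ^ 2 + 3 * k / (ε * (N + 1))) / 2 := by push_cast; field_simp

end Est

/-- The derivatives of the Bernstein polynomials converge to the derivative of a Lipschitz
simplex at interior points of differentiability. -/
theorem tendsto_fderiv_bernC {σ : Simp W k} {K : ℝ≥0} (hσ : LipschitzWith K σ)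
    {t : Fin k → ℝ} (ht : ∀ i, 0 < ord t i) {L : (Fin k → ℝ) →L[ℝ] W}
    (hL : HasFDerivAt (inCoord σ) L t) (l : Fin k) :
    Tendsto (fun N => fderiv ℝ (bernC N σ) t (Pi.single l 1)) atTop
      (𝓝 (L (Pi.single l 1))) := by
  have htm : t ∈ ordSimplex k := ⟨fun i => (ht i).le, sum_ord t⟩
  set g : Fin (k + 1) → ℝ := fun i => vv l i / ord t i with hgdef
  have hxg : ∀ i, ord t i * g i = vv l i := fun i => by
    rw [hgdef]; have := (ht i).ne'; field_simp
  have hg : ∑ i, ord t i * g i = 0 := by simp only [hxg, sum_vv]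
  obtain ⟨C, hC⟩ : ∃ C, ∀ i, |g i| ≤ C := by
    obtain ⟨i, hi⟩ := Finite.exists_max (fun i => |g i|)
    exact ⟨_, hi⟩
  -- the error function
  set err : (Fin k → ℝ) → W := fun s => inCoord σ s - inCoord σ t - L (s - t) with herr
  -- the main identity
  have hmain : ∀ N, fderiv ℝ (bernC N σ) t (Pi.single l 1) - L (Pi.single l 1) =
      ∑ w : Fin (N + 1) → Fin (k + 1), (wgt (ord t) w * wsum g w) • err (tl (avg w).1) := by
    intro N
    have hN : (N : ℝ) + 1 ≠ 0 := by positivity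
    have e0 : ∑ w : Fin (N + 1) → Fin (k + 1), wgt (ord t) w * wsum g w = 0 :=
      sum_wgt_wsum htm.2 hg (N + 1)
    have e1 : ∑ w : Fin (N + 1) → Fin (k + 1), (wgt (ord t) w * wsum g w) • (tl (avg w).1 - t) =
        (Pi.single l 1 : Fin k → ℝ) := by
      funext a
      simp only [Finset.sum_apply, Pi.smul_apply, Pi.sub_apply, smul_eq_mul, tl_avg_sub]
      have h1 := sum_wgt_wsum_wsum htm.2 hg (sum_ord_mul_HH t a) (N + 1)
      have e2 : ∀ w : Fin (N + 1) → Fin (k + 1), wgt (ord t) w * wsum g w *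
          (wsum (HH t a) w / (N + 1)) =
          (wgt (ord t) w * (wsum g w * wsum (HH t a) w)) / (N + 1) := by intro w; ring
      simp only [e2, ← Finset.sum_div]
      rw [h1]
      have e3 : ∀ i, ord t i * (g i * HH t a i) = vv l i * HH t a i := by
        intro i; rw [← mul_assoc, hxg]
      simp only [e3]
      rw [sum_vv_mul]
      push_cast
      rw [mul_comm, mul_div_assoc, div_self hN, mul_one, HH, HH]
      simp only [Fin.castSucc_lt_succ_iff, Fin.castSucc_lt_castSucc_iff]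
      by_cases hal : a = l
      · subst hal; simp
      · rw [Pi.single_eq_of_ne hal]
        rcases lt_or_gt_of_ne hal with h | h
        · rw [if_pos h.le, if_pos h]; ring
        · rw [if_neg (not_le.mpr h), if_neg (not_lt.mpr h.le)]; ring
    rw [fderiv_bernC_of_pos N σ ht l]
    have e4 : ∀ w : Fin (N + 1) → Fin (k + 1),
        (wgt (ord t) w * wsum g w) • err (tl (avg w).1) =
        (wgt (ord t) w * wsum g w) • inCoord σ (tl (avg w).1) -
        (wgt (ord t) w * wsum g w) • inCoord σ t -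
        L ((wgt (ord t) w * wsum g w) • (tl (avg w).1 - t)) := by
      intro w
      rw [herr, map_smul]
      simp only [smul_sub]
    simp only [e4, Finset.sum_sub_distrib]
    rw [← Finset.sum_smul, e0, zero_smul, sub_zero, ← map_sum, e1]
  -- the estimate of the error function
  have hgrow : ∀ s ∈ ordSimplex k, ‖err s‖ ≤ (2 * K + ‖L‖) * ‖s - t‖ := by
    intro s hs
    have h1 : ‖inCoord σ s - inCoord σ t‖ ≤ 2 * K * ‖s - t‖ := by
      have := (lipschitzOnWith_inCoord hσ).dist_le_mul s hs t htm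
      rw [dist_eq_norm, dist_eq_norm] at this
      push_cast at this
      linarith [this]
    calc ‖err s‖ ≤ ‖inCoord σ s - inCoord σ t‖ + ‖L (s - t)‖ := norm_sub_le _ _
      _ ≤ 2 * K * ‖s - t‖ + ‖L‖ * ‖s - t‖ := add_le_add h1 (L.le_opNorm _)
      _ = _ := by ring
  have herrb : ∀ η : ℝ, 0 < η → ∃ A : ℝ, 0 ≤ A ∧ ∀ s ∈ ordSimplex k,
      ‖err s‖ ≤ η * ‖s - t‖ + A * ‖s - t‖ ^ 2 := by
    intro η hη
    have h1 := hL.isLittleO.def hη
    rw [Metric.eventually_nhds_iff] at h1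
    obtain ⟨δ, hδ, h1⟩ := h1
    refine ⟨(2 * K + ‖L‖) / δ, by positivity, fun s hs => ?_⟩
    by_cases hsδ : dist s t < δ
    · have h2 := h1 hsδ
      calc ‖err s‖ ≤ η * ‖s - t‖ := h2
        _ ≤ η * ‖s - t‖ + (2 * K + ‖L‖) / δ * ‖s - t‖ ^ 2 :=
          le_add_of_nonneg_right (by positivity)
    · rw [not_lt, dist_eq_norm] at hsδ
      have h3 : (2 * K + ‖L‖) * ‖s - t‖ ≤ (2 * K + ‖L‖) / δ * ‖s - t‖ ^ 2 := by
        rw [div_mul_eq_mul_div, le_div_iff₀ hδ, sq]
        have h4 : 0 ≤ (2 * K + ‖L‖) * ‖s - t‖ := by positivity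
        nlinarith
      calc ‖err s‖ ≤ (2 * K + ‖L‖) * ‖s - t‖ := hgrow s hs
        _ ≤ (2 * K + ‖L‖) / δ * ‖s - t‖ ^ 2 := h3
        _ ≤ _ := le_add_of_nonneg_left (by positivity)
  rw [Metric.tendsto_atTop]
  intro δ hδ
  obtain ⟨A, hA, hAerr⟩ := herrb (δ / (3 * (C ^ 2 + k + 1))) (by positivity)
  set η := δ / (3 * (C ^ 2 + k + 1)) with hη
  set ε := δ / (3 * (A + 1) * (C ^ 2 + 1)) with hε
  have hεpos : 0 < ε := by positivity
  obtain ⟨N₀, hN₀⟩ := exists_nat_gt (A * (3 * k / ε) / (δ / 3))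
  refine ⟨N₀, fun N hN => ?_⟩
  rw [dist_eq_norm, hmain N]
  have hNpos : (0 : ℝ) < N + 1 := by positivity
  calc ‖∑ w : Fin (N + 1) → Fin (k + 1), (wgt (ord t) w * wsum g w) • err (tl (avg w).1)‖
      ≤ ∑ w : Fin (N + 1) → Fin (k + 1),
          (η * (wgt (ord t) w * (|wsum g w| * ‖tl (avg w).1 - t‖)) +
            A * (wgt (ord t) w * (|wsum g w| * ‖tl (avg w).1 - t‖ ^ 2))) := by
        refine norm_sum_le_of_le _ fun w _ => ?_
        rw [norm_smul, norm_mul, Real.norm_of_nonneg (wgt_nonneg htm.1 w), Real.norm_eq_abs]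
        have := hAerr (tl (avg w).1) (tl_mem (avg w).2)
        calc wgt (ord t) w * |wsum g w| * ‖err (tl (avg w).1)‖
            ≤ wgt (ord t) w * |wsum g w| * (η * ‖tl (avg w).1 - t‖ +
                A * ‖tl (avg w).1 - t‖ ^ 2) :=
              mul_le_mul_of_nonneg_left this
                (mul_nonneg (wgt_nonneg htm.1 w) (abs_nonneg _))
          _ = _ := by ring
    _ = η * ∑ w : Fin (N + 1) → Fin (k + 1),
          (wgt (ord t) w * (|wsum g w| * ‖tl (avg w).1 - t‖)) +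
        A * ∑ w : Fin (N + 1) → Fin (k + 1),
          (wgt (ord t) w * (|wsum g w| * ‖tl (avg w).1 - t‖ ^ 2)) := by
        rw [Finset.sum_add_distrib, Finset.mul_sum, Finset.mul_sum]
    _ ≤ η * ((C ^ 2 + k) / 2) + A * ((ε * C ^ 2 + 3 * k / (ε * (N + 1))) / 2) := by
        gcongr
        · exact sum_wgt_wsum_norm htm hg hC N
        · exact sum_wgt_wsum_norm_sq htm hg hC N hεpos
    _ < δ := by
        have h1 : η * ((C ^ 2 + k) / 2) ≤ δ / 3 := by
          rw [hη, div_mul_div_comm, div_le_div_iff₀ (by positivity) (by norm_num)]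
          nlinarith [sq_nonneg C, (Nat.cast_nonneg k : (0 : ℝ) ≤ k)]
        have h2 : A * (ε * C ^ 2) ≤ δ / 3 := by
          rw [hε, div_mul_eq_mul_div, mul_div_assoc', div_le_div_iff₀ (by positivity) (by norm_num)]
          have : A * (δ * C ^ 2) ≤ δ * ((A + 1) * (C ^ 2 + 1)) := by
            have : 0 ≤ δ * (A + C ^ 2 + 1) := by positivity
            nlinarith
          nlinarith
        have h3 : A * (3 * k / (ε * (N + 1))) < δ / 3 := by
          have h4 : (N₀ : ℝ) < N + 1 := by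
            have : (N₀ : ℝ) ≤ N := by exact_mod_cast hN
            linarith
          have h5 : A * (3 * k / ε) / (δ / 3) < N + 1 := hN₀.trans h4
          rw [div_lt_iff₀ (by positivity)] at h5
          have e : A * (3 * k / (ε * (N + 1))) = A * (3 * k / ε) / (N + 1) := by
            field_simp
          rw [e, div_lt_iff₀ hNpos]
          linarith
        linarith

end Pool.Agent.H36.Fill
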