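import Pool.Agent.H36.Fill.Defs

/-!
# Algebra of singular chains
-/

open Set Filter
open scoped NNReal

namespace Pool.Agent.H36.Fill

variable {V : Type*} {k : ℕ}

/-- The boundary as a homomorphism. -/
noncomputable def bdryHom : Chain V (k + 1) →+ Chain V k :=
  Finsupp.liftAddHom fun σ =>
    { toFun := fun m => ∑ j : Fin (k + 2),
        Finsupp.single (fun x => σ (stdSimplex.map j.succAbove x)) ((-1) ^ (j : ℕ) * m)
      map_zero' := by simp
      map_add' := fun m n => by
        rw [← Finset.sum_add_distrib]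
        exact Finset.sum_congr rfl fun j _ => by rw [mul_add, Finsupp.single_add] }

lemma bdry_eq_bdryHom (c : Chain V (k + 1)) : bdry c = bdryHom c := rfl

@[simp] lemma bdry_zero : bdry (0 : Chain V (k + 1)) = 0 := by
  rw [bdry_eq_bdryHom, map_zero]

lemma bdry_add (a b : Chain V (k + 1)) : bdry (a + b) = bdry a + bdry b := by
  simp only [bdry_eq_bdryHom, map_add]

lemma bdry_sub (a b : Chain V (k + 1)) : bdry (a - b) = bdry a - bdry b := by
  simp only [bdry_eq_bdryHom, map_sub]

lemma bdry_neg (a : Chain V (k + 1)) : bdry (-a) = -bdry a := by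
  simp only [bdry_eq_bdryHom, map_neg]

lemma bdry_zsmul (n : ℤ) (a : Chain V (k + 1)) : bdry (n • a) = n • bdry a := by
  simp only [bdry_eq_bdryHom, map_zsmul]

lemma bdry_sum {ι : Type*} (s : Finset ι) (f : ι → Chain V (k + 1)) :
    bdry (∑ i ∈ s, f i) = ∑ i ∈ s, bdry (f i) := by
  simp only [bdry_eq_bdryHom, map_sum]

lemma bdry_single (σ : Simp V (k + 1)) (m : ℤ) :
    bdry (Finsupp.single σ m) = ∑ j : Fin (k + 2),
      Finsupp.single (fun x => σ (stdSimplex.map j.succAbove x)) ((-1) ^ (j : ℕ) * m) := by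
  rw [bdry]
  rw [Finsupp.sum_single_index]
  simp

/-- Linear extension of a real function on simplices to chains. -/
noncomputable def evalC (Φ : Simp V k → ℝ) : Chain V k →+ ℝ :=
  Finsupp.liftAddHom fun τ => (AddMonoidHom.mulRight (Φ τ)).comp (Int.castAddHom ℝ)

lemma evalC_apply (Φ : Simp V k → ℝ) (c : Chain V k) :
    evalC Φ c = ∑ τ ∈ c.support, (c τ : ℝ) * Φ τ := rfl

@[simp] lemma evalC_single (Φ : Simp V k → ℝ) (τ : Simp V k) (m : ℤ) :
    evalC Φ (Finsupp.single τ m) = m * Φ τ := by
  simp [evalC]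

lemma evalC_bdry (Φ : Simp V k → ℝ) (c : Chain V (k + 1)) :
    evalC Φ (bdry c) =
      evalC (fun σ => ∑ j : Fin (k + 2),
        (-1) ^ (j : ℕ) * Φ (fun x => σ (stdSimplex.map j.succAbove x))) c := by
  rw [bdry_eq_bdryHom]
  have : (evalC Φ).comp bdryHom = evalC (fun σ => ∑ j : Fin (k + 2),
        (-1) ^ (j : ℕ) * Φ (fun x => σ (stdSimplex.map j.succAbove x))) := by
    apply Finsupp.addHom_ext
    intro σ m
    rw [AddMonoidHom.comp_apply, ← bdry_eq_bdryHom, bdry_single, map_sum, evalC_single,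
      Finset.mul_sum]
    refine Finset.sum_congr rfl fun j _ => ?_
    rw [evalC_single]
    push_cast
    ring
  exact DFunLike.congr_fun this c

section Lip

variable [PseudoEMetricSpace V]

lemma IsLip.zero : IsLip (0 : Chain V k) := by
  intro σ hσ; simp at hσ

lemma IsLip.single {σ : Simp V k} (h : ∃ K : ℝ≥0, LipschitzWith K σ) (m : ℤ) :
    IsLip (Finsupp.single σ m) := by
  intro τ hτ
  have := Finsupp.support_single_subset hτ
  rw [Finset.mem_singleton] at this
  rw [this]; exact h

lemma IsLip.add {a b : Chain V k} (ha : IsLip a) (hb : IsLip b) : IsLip (a + b) := by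
  classical
  intro σ hσ
  rcases Finset.mem_union.mp (Finsupp.support_add hσ) with h | h
  · exact ha σ h
  · exact hb σ h

lemma IsLip.neg {a : Chain V k} (ha : IsLip a) : IsLip (-a) := by
  intro σ hσ
  rw [Finsupp.support_neg] at hσ
  exact ha σ hσ

lemma IsLip.sub {a b : Chain V k} (ha : IsLip a) (hb : IsLip b) : IsLip (a - b) := by
  rw [sub_eq_add_neg]; exact ha.add hb.neg

lemma IsLip.zsmul {a : Chain V k} (ha : IsLip a) (n : ℤ) : IsLip (n • a) := by
  intro σ hσ
  exact ha σ (Finsupp.support_smul hσ)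

lemma IsLip.sum {ι : Type*} (s : Finset ι) {f : ι → Chain V k} (h : ∀ i ∈ s, IsLip (f i)) :
    IsLip (∑ i ∈ s, f i) := by
  classical
  induction s using Finset.induction_on with
  | empty => simpa using IsLip.zero
  | insert a s ha ih =>
    rw [Finset.sum_insert ha]
    exact (h a (Finset.mem_insert_self _ _)).add (ih fun i hi => h i (Finset.mem_insert_of_mem hi))

end Lip

/-! ### Alternating sums over faces of a tuple -/

/-- The alternating sum over the faces of a tuple. -/
def altSum {A : Type*} [AddCommGroup A] (F : (Fin k → V) → A) (p : Fin (k + 1) → V) : A :=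
  ∑ j : Fin (k + 1), (-1 : ℤ) ^ (j : ℕ) • F (fun i => p (j.succAbove i))

lemma altSum_altSum {A : Type*} [AddCommGroup A] (F : (Fin k → V) → A) (p : Fin (k + 2) → V) :
    altSum (altSum F) p = 0 := by
  simp only [altSum, Finset.smul_sum, smul_smul]
  rw [← Fintype.sum_prod_type' (f := fun (j : Fin (k + 2)) (i : Fin (k + 1)) =>
    ((-1 : ℤ) ^ (j : ℕ) * (-1) ^ (i : ℕ)) • F (fun l => p (j.succAbove (i.succAbove l))))]
  refine Finset.sum_involution (fun x _ => (x.1.succAbove x.2, x.2.predAbove x.1)) ?_ ?_ ?_ ?_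
  · rintro ⟨j, i⟩ _
    have h1 : (-1 : ℤ) ^ ((j.succAbove i : Fin (k + 2)) : ℕ) *
        (-1) ^ ((i.predAbove j : Fin (k + 1)) : ℕ) = -((-1) ^ (j : ℕ) * (-1) ^ (i : ℕ)) := by
      rw [← pow_add, Fin.neg_one_pow_succAbove_add_predAbove, pow_add]
    simp only
    rw [h1]
    have h2 : (fun l => p ((j.succAbove i).succAbove ((i.predAbove j).succAbove l))) =
        fun l => p (j.succAbove (i.succAbove l)) := by
      funext l
      rw [Fin.succAbove_succAbove_succAbove_predAbove]
    rw [h2, neg_smul, add_neg_cancel]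
  · rintro ⟨j, i⟩ _ _ heq
    have := congrArg Prod.fst heq
    exact Fin.succAbove_ne j i this
  · intro x _; exact Finset.mem_univ _
  · rintro ⟨j, i⟩ _
    simp only [Prod.mk.injEq]
    exact ⟨Fin.succAbove_succAbove_predAbove j i, Fin.predAbove_predAbove_succAbove j i⟩

end Pool.Agent.H36.Fill
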