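import Pool.Agent.H36.Fill.Near

/-!
# Every point is reached at linear cost (a quantitative form of Chow's theorem)
-/

open MeasureTheory Set Filter
open scoped NNReal Topology ENNReal ContDiff

namespace Pool.Agent.H36.Fill

set_option linter.unusedSectionVars false

variable {V : Type*} [NormedAddCommGroup V] [InnerProductSpace ℝ V] [FiniteDimensional ℝ V]

namespace StratifiedGroup

variable (G : StratifiedGroup V)

/-- Tangent vectors at `0` of curves of bounded cost. -/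
def IsTang (v : V) : Prop :=
  ∃ γ : ℝ → V, ContDiff ℝ 1 γ ∧ γ 0 = 0 ∧ HasDerivAt γ v 0 ∧
    ∃ M : ℝ≥0, ∀ᶠ t in 𝓝 (0 : ℝ), G.Cost M (γ t)

lemma hasDerivAt_mul_curve {γ₁ γ₂ : ℝ → V} {v₁ v₂ : V} (h₁ : HasDerivAt γ₁ v₁ 0)
    (h₂ : HasDerivAt γ₂ v₂ 0) (h₁0 : γ₁ 0 = 0) (h₂0 : γ₂ 0 = 0) :
    HasDerivAt (fun t => G.mul (γ₁ t) (γ₂ t)) (v₁ + v₂) 0 := by
  have h3 : HasFDerivAt (fun p : V × V => G.mul p.1 p.2)
      (ContinuousLinearMap.fst ℝ V V + ContinuousLinearMap.snd ℝ V V) (γ₁ 0, γ₂ 0) := by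
    rw [h₁0, h₂0]; exact G.hasFDerivAt_mul_zero
  exact h3.comp_hasDerivAt (0 : ℝ) (h₁.prodMk h₂)

/-- The subspace of tangent vectors of curves of bounded cost. -/
def tang : Submodule ℝ V where
  carrier := {v | G.IsTang v}
  add_mem' := by
    rintro v₁ v₂ ⟨γ₁, h₁, h₁0, hd₁, M₁, hM₁⟩ ⟨γ₂, h₂, h₂0, hd₂, M₂, hM₂⟩
    refine ⟨fun t => G.mul (γ₁ t) (γ₂ t), G.contDiff_mul (by simp) h₁ h₂, ?_,
      G.hasDerivAt_mul_curve hd₁ hd₂ h₁0 h₂0, M₁ + M₂, ?_⟩
    · simp only [h₁0, h₂0, G.mul_zero]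
    · filter_upwards [hM₁, hM₂] with t a b
      exact a.mul b
  zero_mem' := ⟨fun _ => 0, contDiff_const, rfl, hasDerivAt_const _ _, 0,
    Eventually.of_forall fun _ => Cost.zero 0⟩
  smul_mem' := by
    rintro c v ⟨γ, h, h0, hd, M, hM⟩
    have hlin : HasDerivAt (fun t : ℝ => c * t) c 0 := by
      simpa using (hasDerivAt_id (0 : ℝ)).const_mul c
    refine ⟨fun t => γ (c * t), h.comp (contDiff_const.mul contDiff_id), by simp [h0], ?_, M, ?_⟩
    · have hd' : HasDerivAt γ v (c * 0) := by rw [MulZeroClass.mul_zero]; exact hd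
      exact hd'.scomp (0 : ℝ) hlin
    · have ht : Tendsto (fun t : ℝ => c * t) (𝓝 0) (𝓝 0) := by
        have := hlin.continuousAt.tendsto
        simpa using this
      exact ht.eventually hM

lemma mem_tang {v : V} : v ∈ G.tang ↔ G.IsTang v := Iff.rfl

lemma isClosed_tang : IsClosed (G.tang : Set V) := G.tang.closed_of_finiteDimensional

lemma ad_mem_tang {h w : V} {M : ℝ≥0} (hh : G.Cost M h) (hw : w ∈ G.tang) :
    fderiv ℝ G.mulP (h, -h) (G.dL h w, 0) ∈ G.tang := by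
  obtain ⟨γ, hγ, h0, hd, M', hM'⟩ := hw
  refine ⟨fun t => G.mul (G.mul h (γ t)) (-h), G.contDiff_mul (by simp)
    (G.contDiff_mul (by simp) contDiff_const hγ) contDiff_const, ?_, ?_, M + M' + M, ?_⟩
  · simp only [h0, G.mul_zero, G.mul_neg_self]
  · have a : HasFDerivAt (G.mul h) (G.dL h) (γ 0) := by
      rw [h0]; exact (G.differentiable_mul_left _ _).hasFDerivAt
    have b := a.comp_hasDerivAt (0 : ℝ) hd
    have c : HasDerivAt (fun t => (G.mul h (γ t), -h)) (G.dL h w, (0 : V)) 0 :=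
      b.prodMk (hasDerivAt_const _ _)
    have d : HasFDerivAt G.mulP (fderiv ℝ G.mulP (h, -h)) (G.mul h (γ 0), -h) := by
      rw [h0, G.mul_zero]; exact G.hasFDerivAt_mulP _
    exact d.comp_hasDerivAt (0 : ℝ) c
  · filter_upwards [hM'] with t ht
    exact (hh.mul ht).mul hh.neg

lemma layer_one_le_tang : G.layer 1 ≤ G.tang := by
  intro v hv
  refine ⟨fun t => t • v, contDiff_id.smul contDiff_const, by simp, ?_, segC * ‖v‖₊, ?_⟩
  · have := (hasDerivAt_id (0 : ℝ)).smul_const v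
    simpa using this
  · have : ∀ᶠ t : ℝ in 𝓝 0, t ∈ Metric.closedBall (0 : ℝ) 1 :=
      Metric.closedBall_mem_nhds _ one_pos
    filter_upwards [this] with t ht
    refine (G.cost_of_mem_layer_one ((G.layer 1).smul_mem t hv)).mono ?_
    have h1 : ‖t‖₊ ≤ 1 := by rw [← NNReal.coe_le_coe]; simpa using ht
    rw [nnnorm_smul]
    calc segC * (‖t‖₊ * ‖v‖₊) ≤ segC * (1 * ‖v‖₊) := by gcongr
      _ = _ := by rw [one_mul]

lemma bracket_mem_tang {v w : V} (hv : v ∈ G.layer 1) (hw : w ∈ G.tang) :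
    lieBracket G.mul v w ∈ G.tang := by
  have h := G.hasDerivAt_ad v w
  have hmem : ∀ s : ℝ, fderiv ℝ G.mulP (s • (v, -v)) (G.dL (s • v) w, 0) ∈ G.tang := by
    intro s
    have e : s • ((v, -v) : V × V) = (s • v, -(s • v)) := by simp
    rw [e]
    exact G.ad_mem_tang (G.cost_of_mem_layer_one ((G.layer 1).smul_mem s hv)) hw
  rw [hasDerivAt_iff_tendsto_slope] at h
  refine G.isClosed_tang.mem_of_tendsto h (Eventually.of_forall fun s => ?_)
  rw [slope_def_module]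
  exact G.tang.smul_mem _ (G.tang.sub_mem (hmem s) (hmem 0))

lemma tang_eq_top : G.tang = ⊤ := by
  have h : ∀ i, G.layer i ≤ G.tang := by
    intro i
    induction i with
    | zero => rw [G.layer_zero]; exact bot_le
    | succ i ih =>
      rcases Nat.eq_zero_or_pos i with rfl | hi
      · exact G.layer_one_le_tang
      · rw [← G.span_bracket i hi, Submodule.span_le]
        rintro z ⟨x, hx, y, hy, rfl⟩
        exact G.bracket_mem_tang hx (ih hy)
  rw [eq_top_iff, ← G.iSup_layer]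
  exact iSup_le h

lemma exists_good_map (s : Finset (Fin (Module.finrank ℝ V))) :
    ∃ Φ : V → V, ContDiff ℝ 1 Φ ∧ Φ 0 = 0 ∧
      HasFDerivAt Φ (∑ i ∈ s,
        (LinearMap.toContinuousLinearMap (G.bas.coord i)).smulRight (G.bas i)) 0 ∧
      ∃ M : ℝ≥0, ∀ᶠ x in 𝓝 (0 : V), G.Cost M (Φ x) := by
  classical
  induction s using Finset.induction_on with
  | empty =>
    refine ⟨fun _ => 0, contDiff_const, rfl, ?_, 0, Eventually.of_forall fun _ => Cost.zero 0⟩
    rw [Finset.sum_empty]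
    exact hasFDerivAt_const _ _
  | insert i s hi ih =>
    obtain ⟨Φ, h1, h2, h3, M, hM⟩ := ih
    have hb : G.bas i ∈ G.tang := by rw [G.tang_eq_top]; exact Submodule.mem_top
    obtain ⟨γ, hγ, h0, hd, M', hM'⟩ := hb
    set c := LinearMap.toContinuousLinearMap (G.bas.coord i) with hc
    have hcd : HasFDerivAt (fun x => γ (c x)) (c.smulRight (G.bas i)) 0 := by
      have a : HasDerivAt γ (G.bas i) (c 0) := by rw [map_zero]; exact hd
      have b := a.hasFDerivAt.comp (0 : V) c.hasFDerivAt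
      have e : (ContinuousLinearMap.toSpanSingleton ℝ (G.bas i)).comp c =
          c.smulRight (G.bas i) := by
        ext x; simp
      rw [e] at b
      exact b
    refine ⟨fun x => G.mul (γ (c x)) (Φ x), G.contDiff_mul (by simp) (hγ.comp c.contDiff) h1, ?_,
      ?_, M' + M, ?_⟩
    · simp only [map_zero, h0, h2, G.mul_zero]
    · rw [Finset.sum_insert hi]
      exact G.hasFDerivAt_mul_comp hcd h3 (by simp [h0]) h2
    · have ht : Tendsto (fun x : V => c x) (𝓝 0) (𝓝 0) := by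
        have := c.continuous.tendsto 0
        rwa [map_zero] at this
      filter_upwards [hM, ht.eventually hM'] with x a b
      exact b.mul a

lemma eventually_cost : ∃ M : ℝ≥0, ∀ᶠ x in 𝓝 (0 : V), G.Cost M x := by
  obtain ⟨Φ, h1, h2, h3, M, hM⟩ := G.exists_good_map Finset.univ
  refine ⟨M, ?_⟩
  have hid : ∑ i, (LinearMap.toContinuousLinearMap (G.bas.coord i)).smulRight (G.bas i) =
      ContinuousLinearMap.id ℝ V := by
    ext x
    rw [sum_apply]
    simp only [ContinuousLinearMap.smulRight_apply, ContinuousLinearMap.id_apply]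
    exact G.bas.sum_repr x
  rw [hid] at h3
  have hs : HasStrictFDerivAt Φ ((ContinuousLinearEquiv.refl ℝ V : V ≃L[ℝ] V) : V →L[ℝ] V) 0 :=
    h1.contDiffAt.hasStrictFDerivAt' h3 one_ne_zero
  have hmap := hs.map_nhds_eq_of_equiv
  rw [h2] at hmap
  rw [← hmap, eventually_map]
  exact hM

/-! ### Norms of dilations -/

lemma exists_norm_dil_le : ∃ C : ℝ, 0 ≤ C ∧ ∀ t ∈ Icc (0 : ℝ) 1, ∀ x : V,
    ‖G.dil t x‖ ≤ C * t * ‖x‖ := by
  set cL := fun i => LinearMap.toContinuousLinearMap (G.bas.coord i)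
  refine ⟨∑ i, ‖cL i‖ * ‖G.bas i‖, by positivity, fun t ht x => ?_⟩
  rw [G.dil_eq_sum]
  refine (norm_sum_le _ _).trans ?_
  rw [Finset.sum_mul, Finset.sum_mul]
  refine Finset.sum_le_sum fun i _ => ?_
  rw [norm_smul, norm_mul, Real.norm_eq_abs, Real.norm_eq_abs, abs_pow, abs_of_nonneg ht.1]
  have h1 : t ^ G.wt i ≤ t := by
    calc t ^ G.wt i ≤ t ^ 1 := pow_le_pow_of_le_one ht.1 ht.2 (G.one_le_wt i)
      _ = t := pow_one t
  have h2 : |G.bas.coord i x| ≤ ‖cL i‖ * ‖x‖ := (cL i).le_opNorm x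
  calc t ^ G.wt i * |G.bas.coord i x| * ‖G.bas i‖
      ≤ t * (‖cL i‖ * ‖x‖) * ‖G.bas i‖ := by
        refine mul_le_mul_of_nonneg_right ?_ (norm_nonneg _)
        exact mul_le_mul h1 h2 (abs_nonneg _) ht.1
    _ = _ := by ring

/-- Elements of bounded norm are reached at linear cost, at all scales. -/
theorem exists_cost (r : ℝ) : ∃ M : ℝ≥0, ∀ g : V, ‖g‖ ≤ r → G.Cost M g := by
  obtain ⟨M, hM⟩ := G.eventually_cost
  obtain ⟨r₀, hr₀, hball⟩ := Metric.eventually_nhds_iff_ball.mp hM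
  obtain ⟨C, hC, hdil⟩ := G.exists_norm_dil_le
  set lam : ℝ≥0 := (max 1 (C * |r| / r₀ + 1)).toNNReal with hlam
  have hlamR : (lam : ℝ) = max 1 (C * |r| / r₀ + 1) :=
    Real.coe_toNNReal _ (le_max_of_le_left zero_le_one)
  have hlam1 : 1 ≤ lam := by
    rw [← NNReal.coe_le_coe, hlamR]; exact le_max_left _ _
  have hlam0 : (0 : ℝ) < lam := by
    rw [hlamR]; exact lt_of_lt_of_le one_pos (le_max_left _ _)
  have hlamr : C * |r| < r₀ * lam := by
    have h1 : C * |r| / r₀ + 1 ≤ lam := by rw [hlamR]; exact le_max_right _ _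
    have h2 : C * |r| / r₀ < lam := by linarith
    rw [div_lt_iff₀ hr₀] at h2
    linarith
  refine ⟨M * lam, fun g hg R hR => ?_⟩
  have hmem : G.dil (lam : ℝ)⁻¹ g ∈ Metric.ball (0 : V) r₀ := by
    rw [mem_ball_zero_iff]
    have hI : (lam : ℝ)⁻¹ ∈ Icc (0 : ℝ) 1 := by
      refine ⟨by positivity, inv_le_one_of_one_le₀ ?_⟩
      exact_mod_cast hlam1
    calc ‖G.dil (lam : ℝ)⁻¹ g‖ ≤ C * (lam : ℝ)⁻¹ * ‖g‖ := hdil _ hI g
      _ ≤ C * (lam : ℝ)⁻¹ * |r| := by
          refine mul_le_mul_of_nonneg_left (hg.trans (le_abs_self r)) (by positivity)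
      _ = (C * |r|) / lam := by field_simp
      _ < r₀ := by rw [div_lt_iff₀ hlam0]; exact hlamr
  have h1 := hball _ hmem (R * lam) (by
    calc (1 : ℝ≥0) = 1 * 1 := by rw [_root_.mul_one]
      _ ≤ R * lam := mul_le_mul' hR hlam1)
  have h2 : G.dil ((R * lam : ℝ≥0) : ℝ) (G.dil (lam : ℝ)⁻¹ g) = G.dil R g := by
    rw [G.dil_dil]
    congr 2
    push_cast
    field_simp
  rw [h2] at h1
  refine h1.mono (le_of_eq ?_)
  congr 1
  ring

end StratifiedGroup

end Pool.Agent.H36.Fill
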