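import Mathlib

/-!
# Filling functions of stratified nilpotent Lie groups: definitions
-/

open MeasureTheory Set
open scoped ContDiff ENNReal NNReal

namespace Pool.Agent.H36.Fill

variable {V : Type*}

/-! ### Singular chains with integer coefficients -/

/-- Singular `k`-simplices in `V`: maps from the standard simplex
`Δ^k = {x ∈ ℝ^(k+1) : x i ≥ 0, ∑ x i = 1}` to `V`. -/
abbrev Simp (V : Type*) (k : ℕ) := stdSimplex ℝ (Fin (k + 1)) → V

/-- Singular `k`-chains with integer coefficients: finite formal sums of singular simplices. -/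
abbrev Chain (V : Type*) (k : ℕ) := Simp V k →₀ ℤ

/-- The boundary `∂ σ = ∑ j (-1)^j (σ restricted to the face opposite to the vertex j)`,
extended linearly. -/
noncomputable def bdry {k : ℕ} (c : Chain V (k + 1)) : Chain V k :=
  c.sum fun σ m => ∑ j : Fin (k + 2),
    Finsupp.single (fun x => σ (stdSimplex.map j.succAbove x)) ((-1) ^ (j : ℕ) * m)

/-- Cycles: chains with zero boundary (no condition in dimension `0`). -/
def IsCycle : {k : ℕ} → Chain V k → Prop
  | 0, _ => True
  | _ + 1, c => bdry c = 0

/-- Lipschitz chains: all simplices which occur are Lipschitz maps (a condition which does not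
depend on the choice of the Riemannian metric or of the norm, the simplex being compact). -/
def IsLip [PseudoEMetricSpace V] {k : ℕ} (c : Chain V k) : Prop :=
  ∀ σ ∈ c.support, ∃ K : ℝ≥0, LipschitzWith K σ

/-! ### Parametrisation of the standard simplex -/

/-- The affine parametrisation `(t_1, ..., t_k) ↦ (1 - t_1, t_1 - t_2, ..., t_(k-1) - t_k, t_k)`
of the standard simplex `Δ^k` by the ordered simplex `1 ≥ t_1 ≥ ... ≥ t_k ≥ 0`. -/
def ord {k : ℕ} (t : Fin k → ℝ) : Fin (k + 1) → ℝ :=
  fun i => (Fin.cons 1 t : Fin (k + 1) → ℝ) i - (Fin.snoc t 0 : Fin (k + 1) → ℝ) i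

/-- The ordered simplex `{t : 1 ≥ t_1 ≥ ... ≥ t_k ≥ 0}` in `ℝ^k`. -/
def ordSimplex (k : ℕ) : Set (Fin k → ℝ) := {t | ord t ∈ stdSimplex ℝ (Fin (k + 1))}

open scoped Classical in
/-- A singular simplex in the coordinates of the ordered simplex (extended by `0`). -/
noncomputable def inCoord [Zero V] {k : ℕ} (σ : Simp V k) (t : Fin k → ℝ) : V :=
  if h : ord t ∈ stdSimplex ℝ (Fin (k + 1)) then σ ⟨ord t, h⟩ else 0

/-! ### Stratified groups -/

variable [NormedAddCommGroup V] [InnerProductSpace ℝ V]

/-- The Lie bracket on the tangent space at `0` of a smooth group law on a vector space with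
neutral element `0`: the antisymmetrised mixed second derivative of the group law. -/
noncomputable def lieBracket (mul : V → V → V) (x y : V) : V :=
  deriv (fun s : ℝ => deriv (fun t : ℝ => mul (s • x) (t • y)) 0) 0 -
    deriv (fun s : ℝ => deriv (fun t : ℝ => mul (s • y) (t • x)) 0) 0

/-- A stratified nilpotent Lie group (Carnot group) in exponential coordinates, with a
left-invariant Riemannian metric. The group is the vector space `V` (its own Lie algebra, the
exponential map being the identity) with a smooth group law `mul`; lines through `0` are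
one-parameter subgroups; `V` is the direct sum of the subspaces `layer i`, `i ≥ 1`; the
dilations `dil t`, equal to `t ^ i` on `layer i`, are automorphisms for `t > 0`; and
`[layer 1, layer i] = layer (i + 1)` for all `i ≥ 1`. The inner product of `V` is the
left-invariant metric at the neutral element. -/
structure StratifiedGroup (V : Type*) [NormedAddCommGroup V] [InnerProductSpace ℝ V] where
  /-- the group law -/
  mul : V → V → V
  mul_assoc : ∀ x y z, mul (mul x y) z = mul x (mul y z)
  mul_zero : ∀ x, mul x 0 = x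
  zero_mul : ∀ x, mul 0 x = x
  smooth : ContDiff ℝ ∞ (fun p : V × V => mul p.1 p.2)
  mul_smul_smul : ∀ (a b : ℝ) (x : V), mul (a • x) (b • x) = (a + b) • x
  /-- the layers of the stratification -/
  layer : ℕ → Submodule ℝ V
  layer_zero : layer 0 = ⊥
  isInternal : DirectSum.IsInternal layer
  /-- the dilations -/
  dil : ℝ → V →ₗ[ℝ] V
  dil_layer : ∀ (t : ℝ) (i : ℕ) (x : V), x ∈ layer i → dil t x = t ^ i • x
  dil_mul : ∀ (t : ℝ) (x y : V), 0 < t → dil t (mul x y) = mul (dil t x) (dil t y)
  span_bracket : ∀ i, 1 ≤ i →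
    Submodule.span ℝ {z | ∃ x ∈ layer 1, ∃ y ∈ layer i, z = lieBracket mul x y} = layer (i + 1)

namespace StratifiedGroup

variable (G : StratifiedGroup V)

/-- The identification of the tangent space at `g` with the tangent space `V` at the neutral
element: the derivative at `g` of the left translation by `g⁻¹ = -g`. -/
noncomputable def toLie (g : V) : V →L[ℝ] V := fderiv ℝ (G.mul (-g)) g

/-- The `k`-dimensional Riemannian volume of a singular simplex `σ`: the integral of the Jacobian
`√ det ⟨∂_i σ, ∂_j σ⟩`, the scalar product being the left-invariant one. -/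
noncomputable def vol {k : ℕ} (σ : Simp V k) : ℝ≥0∞ :=
  ∫⁻ t in ordSimplex k, ENNReal.ofReal √(Matrix.gram ℝ fun j : Fin k =>
    G.toLie (inCoord σ t) (fderiv ℝ (inCoord σ) t (Pi.single j 1))).det

/-- The mass of a chain `∑ m_i σ_i` is `∑ |m_i| vol σ_i`. -/
noncomputable def mass {k : ℕ} (c : Chain V k) : ℝ≥0∞ :=
  c.sum fun σ m => (m.natAbs : ℝ≥0∞) * G.vol σ

/-- The filling function `FV^(k+1)`: the supremum over all Lipschitz `k`-cycles `a` of mass at
most `r` of the infimum of the masses of the Lipschitz `(k+1)`-chains with boundary `a`. -/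
noncomputable def FV (k : ℕ) (r : ℝ≥0) : ℝ≥0∞ :=
  ⨆ (a : Chain V k) (_ : IsLip a ∧ IsCycle a ∧ G.mass a ≤ r),
    ⨅ (b : Chain V (k + 1)) (_ : IsLip b ∧ bdry b = a), G.mass b

end StratifiedGroup

/-- The relation `f ≼ g`: there is `C > 0` with `f r ≤ C g (C r + C) + C r + C` for all `r`. -/
def Dominated (f g : ℝ≥0 → ℝ≥0∞) : Prop :=
  ∃ C : ℝ≥0, 0 < C ∧ ∀ r : ℝ≥0, f r ≤ C * g (C * r + C) + C * r + C

end Pool.Agent.H36.Fill
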