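import Pool.Agent.H36.Fill.Chow

/-!
# Filling simplices
-/

open MeasureTheory Set Filter
open scoped NNReal Topology ENNReal ContDiff

namespace Pool.Agent.H36.Fill

set_option linter.unusedSectionVars false

variable {V : Type*} [NormedAddCommGroup V] [InnerProductSpace ℝ V] [FiniteDimensional ℝ V]

lemma bdry_altSum {X : Type*} {k l : ℕ} (F : (Fin k → X) → Chain V (l + 1)) (p : Fin (k + 1) → X) :
    bdry (altSum F p) = altSum (fun q => bdry (F q)) p := by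
  rw [altSum, bdry_sum, altSum]
  exact Finset.sum_congr rfl fun j _ => bdry_zsmul _ _

lemma IsLip.altSum {X : Type*} {k l : ℕ} {F : (Fin k → X) → Chain V l} (h : ∀ q, IsLip (F q))
    (p : Fin (k + 1) → X) : IsLip (altSum F p) :=
  IsLip.sum _ fun _ _ => (h _).zsmul _

lemma map_altSum {X : Type*} {k : ℕ} {A B : Type*} [AddCommGroup A] [AddCommGroup B] (f : A →+ B)
    (F : (Fin k → X) → A) (p : Fin (k + 1) → X) :
    f (altSum F p) = altSum (fun q => f (F q)) p := by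
  rw [altSum, map_sum, altSum]
  exact Finset.sum_congr rfl fun j _ => map_zsmul f _ _

lemma altSum_sub {X : Type*} {k : ℕ} {A : Type*} [AddCommGroup A] (F F' : (Fin k → X) → A)
    (p : Fin (k + 1) → X) : altSum (fun q => F q - F' q) p = altSum F p - altSum F' p := by
  simp only [altSum, smul_sub, Finset.sum_sub_distrib]

namespace StratifiedGroup

variable (G : StratifiedGroup V)

lemma mass_altSum_le' {X : Type*} {k l : ℕ} (F : (Fin l → X) → Chain V k) (p : Fin (l + 1) → X) :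
    G.mass (altSum F p) ≤ ∑ j : Fin (l + 1), G.mass (F fun i => p (j.succAbove i)) := by
  refine (G.mass_sum_le _ _).trans (le_of_eq ?_)
  exact Finset.sum_congr rfl fun j _ => G.mass_neg_one_pow_smul _ _

/-- The infimum of the masses of the fillings of `z`. -/
noncomputable def fillInf {k : ℕ} (z : Chain V k) : ℝ≥0∞ :=
  ⨅ (b : Chain V (k + 1)) (_ : IsLip b ∧ bdry b = z), G.mass b

/-- Almost optimal fillings. -/
def IsFillOf {k : ℕ} (z : Chain V k) (b : Chain V (k + 1)) : Prop :=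
  (IsLip b ∧ bdry b = z) ∧ G.mass b ≤ G.fillInf z + 1

open scoped Classical in
/-- A chosen almost optimal filling. -/
noncomputable def fillOf {k : ℕ} (z : Chain V k) : Chain V (k + 1) :=
  if h : ∃ b, G.IsFillOf z b then h.choose else 0

lemma fillInf_le {k : ℕ} {z : Chain V k} {b : Chain V (k + 1)} (h1 : IsLip b) (h2 : bdry b = z) :
    G.fillInf z ≤ G.mass b := iInf₂_le b ⟨h1, h2⟩

lemma exists_of_fillInf_lt {k : ℕ} {z : Chain V k} {A : ℝ≥0∞} (h : G.fillInf z < A) :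
    ∃ b, IsLip b ∧ bdry b = z ∧ G.mass b < A := by
  rw [fillInf, iInf_lt_iff] at h
  obtain ⟨b, hb⟩ := h
  rw [iInf_lt_iff] at hb
  obtain ⟨⟨h1, h2⟩, h3⟩ := hb
  exact ⟨b, h1, h2, h3⟩

lemma fillOf_spec {k : ℕ} {z : Chain V k} {A : ℝ≥0∞}
    (h : ∃ b : Chain V (k + 1), IsLip b ∧ bdry b = z ∧ G.mass b ≤ A) :
    IsLip (G.fillOf z) ∧ bdry (G.fillOf z) = z ∧ G.mass (G.fillOf z) ≤ A + 1 := by
  obtain ⟨b, h1, h2, h3⟩ := h
  have hex : ∃ b, G.IsFillOf z b := by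
    by_cases htop : G.fillInf z = ⊤
    · refine ⟨b, ⟨h1, h2⟩, ?_⟩
      rw [htop]; simp
    · have hlt : G.fillInf z < G.fillInf z + 1 := ENNReal.lt_add_right htop one_ne_zero
      obtain ⟨b', h1', h2', h3'⟩ := G.exists_of_fillInf_lt hlt
      exact ⟨b', ⟨h1', h2'⟩, h3'.le⟩
  have e : G.fillOf z = hex.choose := by rw [fillOf, dif_pos hex]
  have hs := hex.choose_spec
  rw [← e] at hs
  refine ⟨hs.1.1, hs.1.2, hs.2.trans ?_⟩
  gcongr
  exact (G.fillInf_le h1 h2).trans h3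

/-- The filling inequality in the form in which it is used. -/
lemma fill_bound {k : ℕ} (hdom : Dominated (G.FV (k + 1))
      (fun r => (r : ℝ≥0∞) ^ ((((k + 1 : ℕ) : ℝ) + 1) / ((k + 1 : ℕ) : ℝ)))) (a : ℝ≥0) :
    ∃ K : ℝ≥0, ∀ A : ℝ≥0, 1 ≤ A → ∀ z : Chain V (k + 1), IsLip z → bdry z = 0 →
      G.mass z ≤ ((a * A ^ (k + 1) : ℝ≥0) : ℝ≥0∞) →
      ∃ b, IsLip b ∧ bdry b = z ∧ G.mass b ≤ ((K * A ^ (k + 2) : ℝ≥0) : ℝ≥0∞) := by
  obtain ⟨C, hC, hd⟩ := hdom
  set e : ℝ := (((k + 1 : ℕ) : ℝ) + 1) / ((k + 1 : ℕ) : ℝ) with he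
  have he0 : 0 ≤ e := by positivity
  refine ⟨C * (C * a + C) ^ e + C * a + C + 1, fun A hA z h1 h2 h3 => ?_⟩
  have hA1 : 1 ≤ A ^ (k + 1) := one_le_pow₀ hA
  have hA2 : 1 ≤ A ^ (k + 2) := one_le_pow₀ hA
  have hA12 : A ^ (k + 1) ≤ A ^ (k + 2) := pow_le_pow_right₀ hA (by omega)
  set r : ℝ≥0 := a * A ^ (k + 1) with hr
  have hle : G.fillInf z ≤ G.FV (k + 1) r := by
    rw [FV]
    exact le_iSup₂_of_le z ⟨h1, h2, h3⟩ le_rfl
  have hpow : (A ^ (k + 1)) ^ e = A ^ (k + 2) := by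
    rw [← NNReal.rpow_natCast, ← NNReal.rpow_mul, ← NNReal.rpow_natCast]
    congr 1
    rw [he]
    have : ((k + 1 : ℕ) : ℝ) ≠ 0 := by positivity
    field_simp
    push_cast
    ring
  have hub : C * (C * r + C) ^ e + C * r + C ≤
      (C * (C * a + C) ^ e + C * a + C) * A ^ (k + 2) := by
    have h4 : C * r + C ≤ (C * a + C) * A ^ (k + 1) := by
      calc C * r + C = C * a * A ^ (k + 1) + C * 1 := by rw [hr]; ring
        _ ≤ C * a * A ^ (k + 1) + C * A ^ (k + 1) := by gcongr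
        _ = _ := by ring
    have h5 : (C * r + C) ^ e ≤ (C * a + C) ^ e * A ^ (k + 2) := by
      calc (C * r + C) ^ e ≤ ((C * a + C) * A ^ (k + 1)) ^ e := NNReal.rpow_le_rpow h4 he0
        _ = (C * a + C) ^ e * (A ^ (k + 1)) ^ e := NNReal.mul_rpow
        _ = _ := by rw [hpow]
    calc C * (C * r + C) ^ e + C * r + C
        ≤ C * ((C * a + C) ^ e * A ^ (k + 2)) + (C * a + C) * A ^ (k + 1) := by
          rw [add_assoc]; gcongr
      _ ≤ C * ((C * a + C) ^ e * A ^ (k + 2)) + (C * a + C) * A ^ (k + 2) := by gcongr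
      _ = _ := by ring
  have hlt : G.fillInf z < (((C * (C * a + C) ^ e + C * a + C + 1) * A ^ (k + 2) : ℝ≥0) : ℝ≥0∞) := by
    refine lt_of_le_of_lt (hle.trans (hd r)) ?_
    have e1 : (C : ℝ≥0∞) * ((C * r + C : ℝ≥0) : ℝ≥0∞) ^ e + C * r + C =
        ((C * (C * r + C) ^ e + C * r + C : ℝ≥0) : ℝ≥0∞) := by
      rw [← ENNReal.coe_rpow_of_nonneg _ he0]
      push_cast
      rfl
    rw [e1, ENNReal.coe_lt_coe]
    calc C * (C * r + C) ^ e + C * r + C ≤
        (C * (C * a + C) ^ e + C * a + C) * A ^ (k + 2) := hub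
      _ < (C * (C * a + C) ^ e + C * a + C) * A ^ (k + 2) + A ^ (k + 2) := by
        exact lt_add_of_pos_right _ (lt_of_lt_of_le one_pos hA2)
      _ = _ := by ring
  obtain ⟨b, hb1, hb2, hb3⟩ := G.exists_of_fillInf_lt hlt
  exact ⟨b, hb1, hb2, hb3.le⟩

/-! ### The simplices -/

/-- The filling simplices. -/
noncomputable def phi : (k : ℕ) → (Fin (k + 1) → V) → Chain V k
  | 0, p => pt (p 0)
  | k + 1, p => G.fillOf (altSum (phi k) p)

/-- All vertices are close. -/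
def NearT (A : ℝ≥0) {k : ℕ} (p : Fin (k + 1) → V) : Prop :=
  ∀ i j, G.Near (A : ℝ≥0∞) (p i) (p j)

/-- Bounded tuples. -/
def Bd (r : ℝ) {k : ℕ} (p : Fin k → V) : Prop := ∀ i j, ‖G.mul (-(p i)) (p j)‖ ≤ r

lemma Bd.face {r : ℝ} {k : ℕ} {p : Fin (k + 1) → V} (h : G.Bd r p) (j : Fin (k + 1)) :
    G.Bd r (fun i => p (j.succAbove i)) := fun _ _ => h _ _

lemma NearT.face {A : ℝ≥0} {k : ℕ} {p : Fin (k + 2) → V} (h : G.NearT A p) (j : Fin (k + 2)) :
    G.NearT A (fun i => p (j.succAbove i)) := fun _ _ => h _ _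

lemma exists_nearT_dil (r : ℝ) : ∃ M : ℝ≥0, 1 ≤ M ∧ ∀ {k : ℕ} (p : Fin (k + 1) → V), G.Bd r p →
    ∀ R : ℝ≥0, 1 ≤ R → G.NearT (M * R) (fun i => G.dil R (p i)) := by
  obtain ⟨M, hM⟩ := G.exists_cost r
  refine ⟨M + 1, by simp, fun p hp R hR i j => ?_⟩
  have h := (hM _ (hp i j) R hR).lt (G.dil R (p i))
  have hR0 : (0 : ℝ) < R := by
    have : (1 : ℝ) ≤ R := by exact_mod_cast hR
    linarith
  rw [G.mul_zero, ← G.dil_mul _ _ _ hR0, G.mul_neg_cancel] at h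
  refine h.mono ?_
  gcongr
  exact le_self_add

lemma exists_nearT (r : ℝ) : ∃ M : ℝ≥0, 1 ≤ M ∧ ∀ {k : ℕ} (p : Fin (k + 1) → V), G.Bd r p →
    G.NearT M p := by
  obtain ⟨M, hM1, hM⟩ := G.exists_nearT_dil r
  refine ⟨M, hM1, fun p hp => ?_⟩
  have h := hM p hp 1 le_rfl
  rw [_root_.mul_one] at h
  have e : (fun i => G.dil ((1 : ℝ≥0) : ℝ) (p i)) = p := by
    funext i
    rw [NNReal.coe_one, G.dil_one]; rfl
  rwa [e] at h

lemma exists_bd {k : ℕ} (p : Fin (k + 1) → V) : ∃ r, G.Bd r p := by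
  refine ⟨∑ i, ∑ j, ‖G.mul (-(p i)) (p j)‖, fun i j => ?_⟩
  calc ‖G.mul (-(p i)) (p j)‖ ≤ ∑ j, ‖G.mul (-(p i)) (p j)‖ :=
        Finset.single_le_sum (f := fun j => ‖G.mul (-(p i)) (p j)‖)
          (fun _ _ => norm_nonneg _) (Finset.mem_univ j)
    _ ≤ _ := Finset.single_le_sum (f := fun i => ∑ j, ‖G.mul (-(p i)) (p j)‖)
          (fun _ _ => Finset.sum_nonneg fun _ _ => norm_nonneg _) (Finset.mem_univ i)

/-- The hypothesis to be refuted. -/
def Hyp (m : ℕ) : Prop := ∀ k : ℕ, 1 ≤ k → k ≤ m →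
  Dominated (G.FV k) (fun r => (r : ℝ≥0∞) ^ (((k : ℝ) + 1) / k))

variable {m : ℕ}

lemma altSum_phi_zero (p : Fin 2 → V) : altSum (G.phi 0) p = pt (p 1) - pt (p 0) := by
  rw [altSum, Fin.sum_univ_two]
  simp only [Fin.val_zero, pow_zero, one_smul, Fin.val_one, pow_one, neg_smul]
  rw [sub_eq_add_neg]
  rfl

lemma phi_spec (hG : G.Hyp m) : ∀ k : ℕ, k ≤ m + 1 →
    (∀ p, IsLip (G.phi k p)) ∧
    (∃ C : ℝ≥0, ∀ A : ℝ≥0, 1 ≤ A → ∀ p, G.NearT A p →
      G.mass (G.phi k p) ≤ ((C * A ^ k : ℝ≥0) : ℝ≥0∞)) ∧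
    (∀ k' (_ : k = k' + 1) (p : Fin (k' + 2) → V),
      bdry (G.phi (k' + 1) p) = altSum (G.phi k') p) := by
  intro k
  induction k with
  | zero =>
    intro _
    refine ⟨fun p => isLip_pt _, ?_, fun k' hk => by omega⟩
    refine ⟨(G.mass (pt (0 : V))).toNNReal, fun A hA p hp => ?_⟩
    have e : G.mass (pt (p 0)) = G.mass (pt (0 : V)) := by
      have h := G.mass_ltC (p 0) (pt (0 : V))
      rw [ltC_pt, G.mul_zero] at h
      exact h
    have hfin : G.mass (pt (0 : V)) ≠ ⊤ := by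
      rw [pt, mass_single]
      have hv : G.vol (fun _ : stdSimplex ℝ (Fin 1) => (0 : V)) < ⊤ := by
        obtain ⟨B, hB, h⟩ := G.exists_vol_mdlS_le 0 0
        refine lt_of_le_of_lt (h (fun _ => 0) (by simp [G.mul_zero])) hB
      exact ENNReal.mul_ne_top (by simp) hv.ne
    rw [phi, e, pow_zero, _root_.mul_one, ENNReal.coe_toNNReal hfin]
  | succ k ih =>
    intro hk
    obtain ⟨ih1, ⟨C, ihC⟩, ih3⟩ := ih (by omega)
    -- existence of fillings with good bounds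
    have key : ∃ K : ℝ≥0, ∀ A : ℝ≥0, 1 ≤ A → ∀ p : Fin (k + 2) → V, G.NearT A p →
        ∃ b, IsLip b ∧ bdry b = altSum (G.phi k) p ∧
          G.mass b ≤ ((K * A ^ (k + 1) : ℝ≥0) : ℝ≥0∞) := by
      rcases k with _ | k
      · refine ⟨1, fun A hA p hp => ?_⟩
        obtain ⟨b, h1, h2, h3⟩ := hp 0 1
        refine ⟨b, h1, ?_, ?_⟩
        · rw [altSum_phi_zero]; exact h2
        · simpa using h3
      · have hdom := hG (k + 1) (by omega) (by omega)
        obtain ⟨K, hK⟩ := G.fill_bound hdom ((k + 3 : ℕ) * C)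
        refine ⟨K, fun A hA p hp => hK A hA _ (IsLip.altSum ih1 p) ?_ ?_⟩
        · rw [bdry_altSum]
          have : (fun q => bdry (G.phi (k + 1) q)) = altSum (G.phi k) := by
            funext q; exact ih3 k rfl q
          rw [this, altSum_altSum]
        · have h1 : G.mass (altSum (G.phi (k + 1)) p) ≤
              ∑ j : Fin (k + 3), G.mass (G.phi (k + 1) fun i => p (j.succAbove i)) :=
            G.mass_altSum_le' (G.phi (k + 1)) p
          have h2 : ∑ j : Fin (k + 3), G.mass (G.phi (k + 1) fun i => p (j.succAbove i)) ≤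
              ∑ _j : Fin (k + 3), ((C * A ^ (k + 1) : ℝ≥0) : ℝ≥0∞) :=
            Finset.sum_le_sum fun j _ => ihC A hA _ (NearT.face G hp j)
          have h3 : ∑ _j : Fin (k + 3), ((C * A ^ (k + 1) : ℝ≥0) : ℝ≥0∞) =
              (((k + 3 : ℕ) * C * A ^ (k + 1) : ℝ≥0) : ℝ≥0∞) := by
            rw [Finset.sum_const, Finset.card_univ, Fintype.card_fin, nsmul_eq_mul]
            push_cast
            ring
          exact (h1.trans h2).trans h3.le
    obtain ⟨K, hK⟩ := key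
    have hall : ∀ p : Fin (k + 2) → V, ∃ A : ℝ≥0, 1 ≤ A ∧ G.NearT A p := by
      intro p
      obtain ⟨r, hr⟩ := G.exists_bd p
      obtain ⟨M, hM1, hM⟩ := G.exists_nearT r
      exact ⟨M, hM1, hM p hr⟩
    refine ⟨fun p => ?_, ⟨K + 1, fun A hA p hp => ?_⟩, fun k' hk' p => ?_⟩
    · obtain ⟨A, hA, hp⟩ := hall p
      exact (G.fillOf_spec (hK A hA p hp)).1
    · refine (G.fillOf_spec (hK A hA p hp)).2.2.trans ?_
      rw [add_mul]
      push_cast
      gcongr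
      rw [_root_.one_mul]
      exact_mod_cast one_le_pow₀ hA
    · obtain rfl : k = k' := by omega
      obtain ⟨A, hA, hp⟩ := hall p
      exact (G.fillOf_spec (hK A hA p hp)).2.1

end StratifiedGroup

end Pool.Agent.H36.Fill
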