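import Pool.Agent.H36.Fill.Fill

/-!
# Homotopy to the model simplices, and the resulting cochains
-/

open MeasureTheory Set Filter
open scoped NNReal Topology ENNReal ContDiff

namespace Pool.Agent.H36.Fill

set_option linter.unusedSectionVars false

variable {V : Type*} [NormedAddCommGroup V] [InnerProductSpace ℝ V] [FiniteDimensional ℝ V]

namespace StratifiedGroup

variable (G : StratifiedGroup V)

/-- The model simplex as a chain. -/
noncomputable def iS (k : ℕ) (p : Fin (k + 1) → V) : Chain V k :=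
  Finsupp.single (G.mdlS k p) 1

lemma bdry_iS (k : ℕ) (p : Fin (k + 2) → V) : bdry (G.iS (k + 1) p) = altSum (G.iS k) p := by
  rw [iS, bdry_single, altSum]
  refine Finset.sum_congr rfl fun j _ => ?_
  rw [G.mdlS_face, iS, Finsupp.smul_single, smul_eq_mul]

lemma isLip_iS (k : ℕ) (p : Fin (k + 1) → V) : IsLip (G.iS k p) :=
  IsLip.single (G.isLip_mdlS k p) 1

lemma exists_mass_iS_le (k : ℕ) (r : ℝ) :
    ∃ B : ℝ≥0, ∀ p : Fin (k + 1) → V, G.Bd r p → G.mass (G.iS k p) ≤ (B : ℝ≥0∞) := by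
  obtain ⟨B, hB, h⟩ := G.exists_vol_mdlS_le k r
  refine ⟨B.toNNReal, fun p hp => ?_⟩
  rw [ENNReal.coe_toNNReal hB.ne, iS, mass_single]
  simpa using h p fun i => hp 0 i

/-- The homotopies between the filling simplices and the model simplices. -/
noncomputable def hh : (k : ℕ) → (Fin (k + 1) → V) → Chain V (k + 1)
  | 0, _ => 0
  | k + 1, p => G.fillOf (G.phi (k + 1) p - G.iS (k + 1) p - altSum (hh k) p)

variable {m : ℕ}

lemma hh_spec (hG : G.Hyp m) : ∀ k : ℕ, k ≤ m →
    (∀ p, IsLip (G.hh k p)) ∧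
    (∀ r : ℝ, ∃ C : ℝ≥0, ∀ p, G.Bd r p → G.mass (G.hh k p) ≤ (C : ℝ≥0∞)) ∧
    (∃ E : (Fin (k + 1) → V) → Chain V k, altSum E = 0 ∧
      ∀ p, bdry (G.hh k p) = G.phi k p - G.iS k p - E p) := by
  intro k
  induction k with
  | zero =>
    intro _
    refine ⟨fun p => IsLip.zero, fun r => ⟨0, fun p _ => by simp [hh]⟩, 0, ?_, fun p => ?_⟩
    · funext p
      simp [altSum]
    · rw [hh, bdry_zero]
      simp only [Pi.zero_apply, sub_zero]
      have : G.iS 0 p = G.phi 0 p := rfl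
      rw [this, sub_self]
  | succ k ih =>
    intro hk
    obtain ⟨ih1, ih2, E, hE, ih3⟩ := ih (by omega)
    obtain ⟨hp1, ⟨Cp, hCp⟩, hp3⟩ := G.phi_spec hG (k + 1) (by omega)
    have hdom := hG (k + 1) (by omega) (by omega)
    set z : (Fin (k + 2) → V) → Chain V (k + 1) := fun p =>
      G.phi (k + 1) p - G.iS (k + 1) p - altSum (G.hh k) p with hz
    have hzlip : ∀ p, IsLip (z p) := fun p =>
      ((hp1 p).sub (G.isLip_iS _ p)).sub (IsLip.altSum ih1 p)
    have hzcyc : ∀ p, bdry (z p) = 0 := by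
      intro p
      rw [hz]
      simp only
      rw [bdry_sub, bdry_sub, hp3 k rfl, bdry_iS, bdry_altSum]
      have e : (fun q => bdry (G.hh k q)) = fun q => (G.phi k q - G.iS k q) - E q := by
        funext q; exact ih3 q
      rw [e, altSum_sub, altSum_sub, congrFun hE p]
      simp
    have key : ∀ r : ℝ, ∃ K : ℝ≥0, ∀ p, G.Bd r p →
        ∃ b, IsLip b ∧ bdry b = z p ∧ G.mass b ≤ (K : ℝ≥0∞) := by
      intro r
      obtain ⟨M, hM1, hM⟩ := G.exists_nearT r
      obtain ⟨B, hB⟩ := G.exists_mass_iS_le (k + 1) r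
      obtain ⟨Ch, hCh⟩ := ih2 r
      obtain ⟨K, hK⟩ := G.fill_bound hdom (Cp * M ^ (k + 1) + B + (k + 2 : ℕ) * Ch)
      refine ⟨K, fun p hp => ?_⟩
      have h1 := hK 1 le_rfl (z p) (hzlip p) (hzcyc p) ?_
      · simpa using h1
      · have a1 : G.mass (z p) ≤ G.mass (G.phi (k + 1) p) + G.mass (G.iS (k + 1) p) +
            G.mass (altSum (G.hh k) p) := by
          rw [hz]
          simp only
          refine (G.mass_sub_le _ _).trans ?_
          gcongr
          exact G.mass_sub_le _ _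
        have a2 : G.mass (altSum (G.hh k) p) ≤ (((k + 2 : ℕ) * Ch : ℝ≥0) : ℝ≥0∞) := by
          refine (G.mass_altSum_le' (G.hh k) p).trans ?_
          calc ∑ j : Fin (k + 2), G.mass (G.hh k fun i => p (j.succAbove i))
              ≤ ∑ _j : Fin (k + 2), (Ch : ℝ≥0∞) :=
                Finset.sum_le_sum fun j _ => hCh _ (Bd.face G hp j)
            _ = _ := by
              rw [Finset.sum_const, Finset.card_univ, Fintype.card_fin, nsmul_eq_mul]
              push_cast
              rfl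
        have a3 := hCp M hM1 p (hM p hp)
        have a4 := hB p hp
        refine a1.trans ((add_le_add (add_le_add a3 a4) a2).trans ?_)
        rw [one_pow, _root_.mul_one]
        push_cast
        exact le_rfl
    refine ⟨fun p => ?_, fun r => ?_, altSum (G.hh k), ?_, fun p => ?_⟩
    · obtain ⟨r, hr⟩ := G.exists_bd p
      obtain ⟨K, hK⟩ := key r
      exact (G.fillOf_spec (hK p hr)).1
    · obtain ⟨K, hK⟩ := key r
      refine ⟨K + 1, fun p hp => ?_⟩
      push_cast
      exact (G.fillOf_spec (hK p hp)).2.2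
    · funext p
      exact altSum_altSum (G.hh k) p
    · obtain ⟨r, hr⟩ := G.exists_bd p
      obtain ⟨K, hK⟩ := key r
      exact (G.fillOf_spec (hK p hr)).2.1

lemma exists_evalC_volInt_le' {n : ℕ} (hn : Module.finrank ℝ V = n) (D : V [⋀^Fin n]→L[ℝ] ℝ) :
    ∃ C : ℝ, 0 ≤ C ∧ ∀ c : Chain V n,
      ENNReal.ofReal |evalC (volInt D) c| ≤ ENNReal.ofReal C * G.mass c := by
  subst hn
  exact G.exists_evalC_volInt_le D

/-- Proposition A: the existence of a cochain which grows slowly and is cohomologous to the volume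
cochain of the model simplices. -/
theorem propA (hm : Module.finrank ℝ V = m + 1) (hG : G.Hyp m)
    (D : V [⋀^Fin (m + 1)]→L[ℝ] ℝ) :
    ∃ (c : (Fin (m + 2) → V) → ℝ) (b : (Fin (m + 1) → V) → ℝ),
      (∀ p, c p - G.cc D p = altSum b p) ∧
      (∀ r : ℝ, ∃ C : ℝ, ∀ R : ℝ, 1 ≤ R → ∀ p, G.Bd r p →
        |c (fun i => G.dil R (p i))| ≤ C * R ^ (m + 1)) ∧
      (∀ r : ℝ, ∃ C : ℝ, ∀ p, G.Bd r p → |b p| ≤ C) := by
  obtain ⟨hh1, hh2, E, hE, hh3⟩ := G.hh_spec hG m le_rfl
  obtain ⟨hp1, ⟨Cp, hCp⟩, hp3⟩ := G.phi_spec hG (m + 1) le_rfl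
  obtain ⟨CD, hCD0, hCD⟩ := G.exists_evalC_volInt_le' hm D
  refine ⟨fun p => evalC (volInt D) (G.phi (m + 1) p), fun p => evalC (volInt D) (G.hh m p),
    fun p => ?_, fun r => ?_, fun r => ?_⟩
  · set y := G.phi (m + 1) p - G.iS (m + 1) p - altSum (G.hh m) p with hy
    have hlip : IsLip y := ((hp1 p).sub (G.isLip_iS _ p)).sub (IsLip.altSum hh1 p)
    have hcyc : bdry y = 0 := by
      rw [hy, bdry_sub, bdry_sub, hp3 m rfl, bdry_iS, bdry_altSum]
      have e : (fun q => bdry (G.hh m q)) = fun q => (G.phi m q - G.iS m q) - E q := by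
        funext q; exact hh3 q
      rw [e, altSum_sub, altSum_sub, congrFun hE p]
      simp
    have h := evalC_volInt_eq_zero D hlip hcyc
    rw [hy, map_sub, map_sub, map_altSum] at h
    have e2 : evalC (volInt D) (G.iS (m + 1) p) = G.cc D p := by
      rw [iS, evalC_single, cc]; simp
    rw [e2] at h
    linarith
  · obtain ⟨M, hM1, hM⟩ := G.exists_nearT_dil r
    refine ⟨CD * (Cp * M ^ (m + 1)), fun R hR p hp => ?_⟩
    obtain ⟨R', rfl⟩ : ∃ R' : ℝ≥0, (R' : ℝ) = R :=
      ⟨R.toNNReal, Real.coe_toNNReal R (by linarith)⟩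
    have hR1 : 1 ≤ R' := by rw [← NNReal.coe_le_coe]; exact hR
    have h1 := hM p hp R' hR1
    have h2 := hCp (M * R') (by
      calc (1 : ℝ≥0) = 1 * 1 := by rw [_root_.mul_one]
        _ ≤ M * R' := mul_le_mul' hM1 hR1) _ h1
    have h3 := hCD (G.phi (m + 1) fun i => G.dil R' (p i))
    have h4 : ENNReal.ofReal |evalC (volInt D) (G.phi (m + 1) fun i => G.dil R' (p i))| ≤
        ENNReal.ofReal (CD * (Cp * M ^ (m + 1)) * R' ^ (m + 1)) := by
      refine h3.trans ?_
      have e : ENNReal.ofReal (CD * (Cp * M ^ (m + 1)) * R' ^ (m + 1)) =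
          ENNReal.ofReal CD * ((Cp * (M * R') ^ (m + 1) : ℝ≥0) : ℝ≥0∞) := by
        rw [_root_.mul_assoc CD, ENNReal.ofReal_mul hCD0, ← ENNReal.ofReal_coe_nnreal]
        congr 2
        push_cast
        ring
      rw [e]
      gcongr
    exact (ENNReal.ofReal_le_ofReal_iff (by positivity)).mp h4
  · obtain ⟨C, hC⟩ := hh2 r
    refine ⟨CD * C, fun p hp => ?_⟩
    have h3 := hCD (G.hh m p)
    have h4 : ENNReal.ofReal |evalC (volInt D) (G.hh m p)| ≤ ENNReal.ofReal (CD * C) := by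
      refine h3.trans ?_
      rw [ENNReal.ofReal_mul hCD0, ENNReal.ofReal_coe_nnreal]
      gcongr
      exact hC p hp
    exact (ENNReal.ofReal_le_ofReal_iff (by positivity)).mp h4

end StratifiedGroup

end Pool.Agent.H36.Fill
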