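import Pool.Agent.H36.Fill.Defs

/-!
# Basic facts on stratified groups in exponential coordinates
-/

open MeasureTheory Set Filter
open scoped ContDiff NNReal Topology

namespace Pool.Agent.H36.Fill

variable {V : Type*} [NormedAddCommGroup V] [InnerProductSpace ℝ V]

namespace StratifiedGroup

variable (G : StratifiedGroup V)

lemma neg_mul_self (x : V) : G.mul (-x) x = 0 := by
  have := G.mul_smul_smul (-1) 1 x
  simpa using this

lemma mul_neg_self (x : V) : G.mul x (-x) = 0 := by
  have := G.mul_smul_smul 1 (-1) x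
  simpa using this

@[simp] lemma neg_mul_cancel (x y : V) : G.mul (-x) (G.mul x y) = y := by
  rw [← G.mul_assoc, G.neg_mul_self, G.zero_mul]

@[simp] lemma mul_neg_cancel (x y : V) : G.mul x (G.mul (-x) y) = y := by
  rw [← G.mul_assoc, G.mul_neg_self, G.zero_mul]

@[simp] lemma mul_cancel_neg (x y : V) : G.mul (G.mul x y) (-y) = x := by
  rw [G.mul_assoc, G.mul_neg_self, G.mul_zero]

@[simp] lemma mul_cancel_neg' (x y : V) : G.mul (G.mul x (-y)) y = x := by
  rw [G.mul_assoc, G.neg_mul_self, G.mul_zero]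

lemma neg_mul_rev (x y : V) : -(G.mul x y) = G.mul (-y) (-x) := by
  have h : G.mul (G.mul (-y) (-x)) (G.mul x y) = 0 := by
    rw [G.mul_assoc, G.neg_mul_cancel, G.neg_mul_self]
  calc -(G.mul x y) = G.mul (G.mul (G.mul (-y) (-x)) (G.mul x y)) (-(G.mul x y)) := by
        rw [h, G.zero_mul]
    _ = G.mul (-y) (-x) := by rw [G.mul_cancel_neg]

lemma mul_left_injective' (g : V) : Function.Injective (G.mul g) := by
  intro x y h
  have := congrArg (G.mul (-g)) h
  simpa using this

lemma mul_left_surjective (g : V) : Function.Surjective (G.mul g) := fun y =>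
  ⟨G.mul (-g) y, by simp⟩

/-! ### Smoothness -/

lemma contDiff_mul {E : Type*} [NormedAddCommGroup E] [NormedSpace ℝ E] {n : WithTop ℕ∞}
    (hn : n ≤ ∞) {f g : E → V} (hf : ContDiff ℝ n f) (hg : ContDiff ℝ n g) :
    ContDiff ℝ n (fun x => G.mul (f x) (g x)) :=
  (G.smooth.of_le hn).comp (hf.prodMk hg)

lemma contDiff_mul_left (g : V) : ContDiff ℝ ∞ (G.mul g) :=
  G.contDiff_mul le_rfl contDiff_const contDiff_id

lemma continuous_mul : Continuous (fun p : V × V => G.mul p.1 p.2) := G.smooth.continuous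

lemma differentiable_mul_left (g : V) : Differentiable ℝ (G.mul g) :=
  (G.contDiff_mul_left g).differentiable (by simp)

/-- The derivative of the left translation by `g` at the neutral element. -/
noncomputable def dL (g : V) : V →L[ℝ] V := fderiv ℝ (G.mul g) 0

lemma toLie_comp_dL (x : V) : (G.toLie x).comp (G.dL x) = ContinuousLinearMap.id ℝ V := by
  have h : (fun y => G.mul (-x) (G.mul x y)) = fun y => y := by funext y; simp
  have h1 : fderiv ℝ (fun y => G.mul (-x) (G.mul x y)) 0 =
      (fderiv ℝ (G.mul (-x)) (G.mul x 0)).comp (fderiv ℝ (G.mul x) 0) :=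
    fderiv_comp (0 : V) (G.differentiable_mul_left (-x) _) (G.differentiable_mul_left x _)
  rw [h, G.mul_zero] at h1
  rw [toLie, dL, ← h1]
  exact fderiv_fun_id

lemma toLie_mul (g x : V) :
    (G.toLie (G.mul g x)).comp (fderiv ℝ (G.mul g) x) = G.toLie x := by
  have h : (fun y => G.mul (-(G.mul g x)) (G.mul g y)) = fun y => G.mul (-x) y := by
    funext y
    rw [G.neg_mul_rev, G.mul_assoc, G.neg_mul_cancel]
  have h1 : fderiv ℝ (fun y => G.mul (-(G.mul g x)) (G.mul g y)) x =
      (fderiv ℝ (G.mul (-(G.mul g x))) (G.mul g x)).comp (fderiv ℝ (G.mul g) x) :=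
    fderiv_comp (x : V) (G.differentiable_mul_left _ _) (G.differentiable_mul_left g _)
  rw [h] at h1
  rw [toLie, toLie, ← h1]

lemma fderiv_mul_comp_dL (g x : V) :
    (fderiv ℝ (G.mul g) x).comp (G.dL x) = G.dL (G.mul g x) := by
  have h : (fun y => G.mul g (G.mul x y)) = G.mul (G.mul g x) := by
    funext y; rw [G.mul_assoc]
  have h1 : fderiv ℝ (fun y => G.mul g (G.mul x y)) 0 =
      (fderiv ℝ (G.mul g) (G.mul x 0)).comp (fderiv ℝ (G.mul x) 0) :=
    fderiv_comp (0 : V) (G.differentiable_mul_left g _) (G.differentiable_mul_left x _)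
  rw [h, G.mul_zero] at h1
  rw [dL, dL, ← h1]

/-- The partial derivative of a smooth two-variable function depends smoothly on the first. -/
lemma contDiff_fderiv_mul {n : WithTop ℕ∞} (hn : n ≤ ∞) {E : Type*} [NormedAddCommGroup E]
    [NormedSpace ℝ E] {f g : E → V} (hf : ContDiff ℝ n f) (hg : ContDiff ℝ n g) :
    ContDiff ℝ n (fun x => fderiv ℝ (G.mul (f x)) (g x)) := by
  have h : ContDiff ℝ ∞ (fun p : V × V => fderiv ℝ (G.mul p.1) p.2) := by
    have : ContDiff ℝ ∞ (Function.uncurry fun (p : V × V) (y : V) => G.mul p.1 y) :=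
      G.contDiff_mul le_rfl (contDiff_fst.comp contDiff_fst) contDiff_snd
    exact ContDiff.fderiv (m := ∞) this contDiff_snd (by simp)
  exact (h.of_le hn).comp (hf.prodMk hg)

lemma continuous_dL : Continuous G.dL := by
  have := G.contDiff_fderiv_mul (n := 0) (E := V) (by simp) contDiff_id
    (contDiff_const (c := (0 : V)))
  exact this.continuous

lemma continuous_toLie : Continuous G.toLie := by
  have := G.contDiff_fderiv_mul (n := 0) (E := V) (by simp) contDiff_neg contDiff_id
  exact this.continuous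

lemma mul_eq_id : G.mul 0 = id := funext fun x => G.zero_mul x

@[simp] lemma dL_zero : G.dL 0 = ContinuousLinearMap.id ℝ V := by
  rw [dL, G.mul_eq_id]; exact fderiv_id

@[simp] lemma toLie_zero : G.toLie 0 = ContinuousLinearMap.id ℝ V := by
  rw [toLie, neg_zero, G.mul_eq_id]; exact fderiv_id

/-- The total derivative of the group law at the neutral element is addition. -/
lemma hasFDerivAt_mul_zero : HasFDerivAt (fun p : V × V => G.mul p.1 p.2)
    (ContinuousLinearMap.fst ℝ V V + ContinuousLinearMap.snd ℝ V V) (0, 0) := by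
  have hd : DifferentiableAt ℝ (fun p : V × V => G.mul p.1 p.2) (0, 0) :=
    (G.smooth.differentiable (by simp)) _
  have h := hd.hasFDerivAt
  set D := fderiv ℝ (fun p : V × V => G.mul p.1 p.2) (0, 0) with hD
  have h1 : D.comp (ContinuousLinearMap.inl ℝ V V) = ContinuousLinearMap.id ℝ V := by
    have e : HasFDerivAt (fun u : V => G.mul u 0) (D.comp (ContinuousLinearMap.inl ℝ V V)) 0 := by
      have h2 : HasFDerivAt (fun u : V => ((u, 0) : V × V)) (ContinuousLinearMap.inl ℝ V V) 0 := by
        exact (ContinuousLinearMap.inl ℝ V V).hasFDerivAt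
      exact HasFDerivAt.comp (0 : V) (g := fun p : V × V => G.mul p.1 p.2)
        (f := fun u : V => ((u, 0) : V × V)) h h2
    have e2 : HasFDerivAt (fun u : V => G.mul u 0) (ContinuousLinearMap.id ℝ V) 0 := by
      simp only [G.mul_zero]; exact hasFDerivAt_id 0
    exact e.unique e2
  have h2 : D.comp (ContinuousLinearMap.inr ℝ V V) = ContinuousLinearMap.id ℝ V := by
    have e : HasFDerivAt (fun u : V => G.mul 0 u) (D.comp (ContinuousLinearMap.inr ℝ V V)) 0 := by
      have h2 : HasFDerivAt (fun u : V => ((0, u) : V × V)) (ContinuousLinearMap.inr ℝ V V) 0 := by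
        exact (ContinuousLinearMap.inr ℝ V V).hasFDerivAt
      exact HasFDerivAt.comp (0 : V) (g := fun p : V × V => G.mul p.1 p.2)
        (f := fun u : V => ((0, u) : V × V)) h h2
    have e2 : HasFDerivAt (fun u : V => G.mul 0 u) (ContinuousLinearMap.id ℝ V) 0 := by
      simp only [G.zero_mul]; exact hasFDerivAt_id 0
    exact e.unique e2
  have h3 : D = ContinuousLinearMap.fst ℝ V V + ContinuousLinearMap.snd ℝ V V := by
    ext u
    · have := congrArg (fun L => L u) h1
      simpa using this
    · have := congrArg (fun L => L u) h2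
      simpa using this
  rw [h3] at h
  exact h

/-! ### Dilations -/

lemma iSup_layer : ⨆ i, G.layer i = ⊤ :=
  G.isInternal.submodule_iSup_eq_top

/-- Linear maps agreeing on all layers are equal. -/
lemma ext_layer {W : Type*} [AddCommGroup W] [Module ℝ W] {f g : V →ₗ[ℝ] W}
    (h : ∀ i, ∀ x ∈ G.layer i, f x = g x) : f = g := by
  apply LinearMap.ext
  intro x
  have hx : x ∈ ⨆ i, G.layer i := by rw [G.iSup_layer]; trivial
  refine Submodule.iSup_induction G.layer (motive := fun x => f x = g x) hx h (by simp) ?_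
  intro x y hx hy
  rw [map_add, map_add, hx, hy]

lemma dil_comp (s t : ℝ) : (G.dil s).comp (G.dil t) = G.dil (s * t) := by
  apply G.ext_layer
  intro i x hx
  rw [LinearMap.comp_apply, G.dil_layer t i x hx, map_smul, G.dil_layer s i x hx,
    G.dil_layer (s * t) i x hx, smul_smul, mul_pow, mul_comm]

lemma dil_dil (s t : ℝ) (x : V) : G.dil s (G.dil t x) = G.dil (s * t) x := by
  rw [← G.dil_comp]; rfl

@[simp] lemma dil_one : G.dil 1 = LinearMap.id := by
  apply G.ext_layer
  intro i x hx
  rw [G.dil_layer 1 i x hx]; simp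

@[simp] lemma dil_zero : G.dil 0 = 0 := by
  apply G.ext_layer
  intro i x hx
  rcases Nat.eq_zero_or_pos i with rfl | hi
  · rw [G.layer_zero] at hx
    rw [(Submodule.mem_bot ℝ).mp hx]; simp
  · rw [G.dil_layer 0 i x hx, zero_pow hi.ne']; simp

lemma dil_mem {t : ℝ} {i : ℕ} {x : V} (hx : x ∈ G.layer i) : G.dil t x ∈ G.layer i := by
  rw [G.dil_layer t i x hx]; exact Submodule.smul_mem _ _ hx

end StratifiedGroup

end Pool.Agent.H36.Fill
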