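import Pool.Agent.H36.Fill.Group

/-!
# Adapted bases, determinants and the invariance of the Lebesgue measure
-/

open MeasureTheory Set Filter
open scoped ContDiff NNReal Topology

namespace Pool.Agent.H36.Fill

variable {V : Type*} [NormedAddCommGroup V] [InnerProductSpace ℝ V] [FiniteDimensional ℝ V]

set_option linter.unusedSectionVars false

namespace StratifiedGroup

variable (G : StratifiedGroup V)

/-- A basis consisting of elements of the layers. -/
lemma exists_adapted : ∃ (b : Module.Basis (Fin (Module.finrank ℝ V)) ℝ V)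
    (w : Fin (Module.finrank ℝ V) → ℕ), ∀ i, b i ∈ G.layer (w i) := by
  classical
  let B := G.isInternal.collectedBasis (fun i => Module.finBasis ℝ (G.layer i))
  let _ : Fintype (Σ i, Fin (Module.finrank ℝ (G.layer i))) :=
    FiniteDimensional.fintypeBasisIndex B
  have hc : Fintype.card (Σ i, Fin (Module.finrank ℝ (G.layer i))) = Module.finrank ℝ V :=
    (Module.finrank_eq_card_basis B).symm
  let e := Fintype.equivFinOfCardEq hc
  refine ⟨B.reindex e, fun k => (e.symm k).1, fun k => ?_⟩
  rw [Module.Basis.reindex_apply]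
  exact G.isInternal.collectedBasis_mem _ _

/-- The adapted basis. -/
noncomputable def bas : Module.Basis (Fin (Module.finrank ℝ V)) ℝ V := G.exists_adapted.choose

/-- The weights of the adapted basis. -/
noncomputable def wt : Fin (Module.finrank ℝ V) → ℕ := G.exists_adapted.choose_spec.choose

lemma bas_mem (i : Fin (Module.finrank ℝ V)) : G.bas i ∈ G.layer (G.wt i) :=
  G.exists_adapted.choose_spec.choose_spec i

lemma one_le_wt (i : Fin (Module.finrank ℝ V)) : 1 ≤ G.wt i := by
  rcases Nat.eq_zero_or_pos (G.wt i) with h | h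
  · have := G.bas_mem i
    rw [h, G.layer_zero] at this
    exact absurd ((Submodule.mem_bot ℝ).mp this) (G.bas.ne_zero i)
  · exact h

lemma dil_bas (t : ℝ) (i : Fin (Module.finrank ℝ V)) : G.dil t (G.bas i) = t ^ G.wt i • G.bas i :=
  G.dil_layer t _ _ (G.bas_mem i)

lemma dil_eq_sum (t : ℝ) (x : V) :
    G.dil t x = ∑ i, (t ^ G.wt i * G.bas.coord i x) • G.bas i := by
  conv_lhs => rw [← G.bas.sum_repr x, map_sum]
  refine Finset.sum_congr rfl fun i _ => ?_
  rw [map_smul, G.dil_bas, smul_smul, mul_comm]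
  rfl

/-- The homogeneous dimension. -/
noncomputable def homDim : ℕ := ∑ i, G.wt i

lemma det_dil (t : ℝ) : LinearMap.det (G.dil t) = t ^ G.homDim := by
  have h1 := G.bas.det_comp (G.dil t) G.bas
  have h2 : (G.dil t) ∘ G.bas = fun i => t ^ G.wt i • G.bas i := by
    funext i; exact G.dil_bas t i
  rw [h2, AlternatingMap.map_smul_univ, G.bas.det_self, smul_eq_mul, mul_one, mul_one] at h1
  rw [← h1, homDim, Finset.prod_pow_eq_pow_sum]

lemma contDiff_dil {E : Type*} [NormedAddCommGroup E] [NormedSpace ℝ E] {n : WithTop ℕ∞}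
    {f : E → ℝ} {g : E → V} (hf : ContDiff ℝ n f) (hg : ContDiff ℝ n g) :
    ContDiff ℝ n (fun x => G.dil (f x) (g x)) := by
  simp only [G.dil_eq_sum]
  refine ContDiff.sum fun i _ => ?_
  refine ContDiff.smul (ContDiff.mul (hf.pow _) ?_) contDiff_const
  exact (LinearMap.toContinuousLinearMap (G.bas.coord i)).contDiff.comp hg

lemma continuous_dil {E : Type*} [TopologicalSpace E]
    {f : E → ℝ} {g : E → V} (hf : Continuous f) (hg : Continuous g) :
    Continuous (fun x => G.dil (f x) (g x)) := by
  have h : Continuous (fun p : ℝ × V => G.dil p.1 p.2) :=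
    (G.contDiff_dil (n := 0) contDiff_fst contDiff_snd).continuous
  exact h.comp (hf.prodMk hg)

/-- The dilation as a continuous linear map. -/
noncomputable def dilL (t : ℝ) : V →L[ℝ] V := LinearMap.toContinuousLinearMap (G.dil t)

@[simp] lemma dilL_apply (t : ℝ) (x : V) : G.dilL t x = G.dil t x := rfl

lemma det_dilL (t : ℝ) : (G.dilL t).det = t ^ G.homDim := by
  rw [← G.det_dil]; rfl

lemma dil_inv_cancel {t : ℝ} (ht : 0 < t) (x : V) : G.dil t (G.dil t⁻¹ x) = x := by
  rw [G.dil_dil, mul_inv_cancel₀ ht.ne', G.dil_one]; rfl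

lemma dil_cancel_inv {t : ℝ} (ht : 0 < t) (x : V) : G.dil t⁻¹ (G.dil t x) = x := by
  rw [G.dil_dil, inv_mul_cancel₀ ht.ne', G.dil_one]; rfl

lemma dL_dil {t : ℝ} (ht : 0 < t) (g : V) :
    G.dL (G.dil t g) = (G.dilL t).comp ((G.dL g).comp (G.dilL t⁻¹)) := by
  have h : G.mul (G.dil t g) = fun x => G.dilL t (G.mul g (G.dilL t⁻¹ x)) := by
    funext x
    rw [dilL_apply, dilL_apply, G.dil_mul t _ _ ht, G.dil_inv_cancel ht]
  have h1 : HasFDerivAt (fun x => G.dilL t (G.mul g (G.dilL t⁻¹ x)))
      ((G.dilL t).comp ((G.dL g).comp (G.dilL t⁻¹))) 0 := by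
    have a1 : HasFDerivAt (fun x => G.dilL t⁻¹ x) (G.dilL t⁻¹) 0 := (G.dilL t⁻¹).hasFDerivAt
    have a2 : HasFDerivAt (G.mul g) (G.dL g) (G.dilL t⁻¹ 0) := by
      rw [map_zero]; exact (G.differentiable_mul_left g 0).hasFDerivAt
    have a3 := HasFDerivAt.comp (0 : V) a2 a1
    exact (G.dilL t).hasFDerivAt.comp (0 : V) a3
  rw [dL, h, h1.fderiv]

lemma det_dL (g : V) : (G.dL g).det = 1 := by
  have h1 : ∀ t : ℝ, 0 < t → (G.dL (G.dil t g)).det = (G.dL g).det := by
    intro t ht
    rw [G.dL_dil ht]
    have e : ∀ A B : V →L[ℝ] V, (A.comp B).det = A.det * B.det := by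
      intro A B
      exact LinearMap.det_comp _ _
    rw [e, e, G.det_dilL, G.det_dilL, inv_pow]
    have := pow_ne_zero G.homDim ht.ne'
    field_simp
  have h2 : Tendsto (fun t : ℝ => (G.dL (G.dil t g)).det) (𝓝[>] 0) (𝓝 1) := by
    have hc : Continuous (fun t : ℝ => (G.dL (G.dil t g)).det) :=
      ContinuousLinearMap.continuous_det.comp
        (G.continuous_dL.comp (G.continuous_dil continuous_id continuous_const))
    have := hc.tendsto 0
    simp only [G.dil_zero, LinearMap.zero_apply, G.dL_zero] at this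
    rw [show (ContinuousLinearMap.id ℝ V).det = 1 from LinearMap.det_id] at this
    exact this.mono_left nhdsWithin_le_nhds
  have h3 : Tendsto (fun t : ℝ => (G.dL (G.dil t g)).det) (𝓝[>] 0) (𝓝 (G.dL g).det) := by
    refine tendsto_const_nhds.congr' ?_
    filter_upwards [self_mem_nhdsWithin] with t ht
    exact (h1 t ht).symm
  exact tendsto_nhds_unique h3 h2

lemma det_toLie (g : V) : (G.toLie g).det = 1 := by
  have h := congrArg ContinuousLinearMap.det (G.toLie_comp_dL g)
  have e : ((G.toLie g).comp (G.dL g)).det = (G.toLie g).det * (G.dL g).det :=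
    LinearMap.det_comp _ _
  rw [e, G.det_dL, mul_one] at h
  rw [h]; exact LinearMap.det_id

lemma det_fderiv_mul (g x : V) : (fderiv ℝ (G.mul g) x).det = 1 := by
  have h := congrArg ContinuousLinearMap.det (G.fderiv_mul_comp_dL g x)
  have e : ((fderiv ℝ (G.mul g) x).comp (G.dL x)).det =
    (fderiv ℝ (G.mul g) x).det * (G.dL x).det := LinearMap.det_comp _ _
  rw [e, G.det_dL, G.det_dL, mul_one] at h
  exact h

section Measure

variable [MeasurableSpace V] [BorelSpace V] (μ : Measure V) [μ.IsAddHaarMeasure]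

lemma measurePreserving_mul (g : V) : MeasurePreserving (G.mul g) μ μ := by
  refine ⟨(G.contDiff_mul_left g).continuous.measurable, ?_⟩
  have h := map_withDensity_abs_det_fderiv_eq_addHaar μ (s := univ) (f := G.mul g)
    (f' := fun x => fderiv ℝ (G.mul g) x) MeasurableSet.univ.nullMeasurableSet
    (fun x _ => (G.differentiable_mul_left g x).hasFDerivAt.hasFDerivWithinAt)
    (G.mul_left_injective' g).injOn
  simp only [G.det_fderiv_mul, abs_one, ENNReal.ofReal_one, Measure.restrict_univ, image_univ,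
    (G.mul_left_surjective g).range_eq] at h
  rwa [show (fun _ : V => (1 : ENNReal)) = 1 from rfl, withDensity_one] at h

lemma integral_mul_left {E : Type*} [NormedAddCommGroup E] [NormedSpace ℝ E] (g : V) (f : V → E) :
    ∫ x, f (G.mul g x) ∂μ = ∫ x, f x ∂μ := by
  refine (G.measurePreserving_mul μ g).integral_comp ?_ f
  have hc : Continuous (G.mul g) := (G.contDiff_mul_left g).continuous
  let e : V ≃ₜ V :=
    { toFun := G.mul g
      invFun := G.mul (-g)
      left_inv := fun x => by simp
      right_inv := fun x => by simp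
      continuous_toFun := hc
      continuous_invFun := (G.contDiff_mul_left (-g)).continuous }
  exact e.measurableEmbedding

end Measure

/-! ### Non-commutativity and the homogeneous dimension -/

/-- If all weights are `1` the group law is addition. -/
lemma mul_eq_add_of_wt (h : ∀ i, G.wt i = 1) (x y : V) : G.mul x y = x + y := by
  have hd : ∀ t : ℝ, ∀ z, G.dil t z = t • z := by
    intro t z
    have : G.dil t = t • LinearMap.id := by
      apply G.bas.ext
      intro i
      rw [G.dil_bas, h i]; simp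
    rw [this]; rfl
  have h1 : HasDerivAt (fun t : ℝ => G.mul (t • x) (t • y)) (x + y) 0 := by
    have hp : HasDerivAt (fun t : ℝ => ((t • x, t • y) : V × V)) (x, y) 0 := by
      have a := (hasDerivAt_id (0 : ℝ)).smul_const x
      have b := (hasDerivAt_id (0 : ℝ)).smul_const y
      simp only [id, one_smul] at a b
      exact a.prodMk b
    have h2 : HasFDerivAt (fun p : V × V => G.mul p.1 p.2)
        (ContinuousLinearMap.fst ℝ V V + ContinuousLinearMap.snd ℝ V V)
        ((0 : ℝ) • x, (0 : ℝ) • y) := by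
      rw [zero_smul, zero_smul]; exact G.hasFDerivAt_mul_zero
    have h3 := h2.comp_hasDerivAt (0 : ℝ) hp
    have e : (ContinuousLinearMap.fst ℝ V V + ContinuousLinearMap.snd ℝ V V) (x, y) = x + y := rfl
    rw [e] at h3
    exact h3
  have h3 : HasDerivAt (fun t : ℝ => t • G.mul x y) (G.mul x y) 0 := by
    have a := (hasDerivAt_id (0 : ℝ)).smul_const (G.mul x y)
    simpa using a
  have h4 := (h1.hasDerivWithinAt (s := Ioi 0))
  have h5 := (h3.hasDerivWithinAt (s := Ioi 0))
  have h6 : HasDerivWithinAt (fun t : ℝ => G.mul (t • x) (t • y)) (G.mul x y) (Ioi 0) 0 := by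
    refine h5.congr (fun t ht => ?_) ?_
    · have := G.dil_mul t x y ht
      rw [hd, hd, hd] at this
      exact this.symm
    · simp [G.mul_zero]
  exact (uniqueDiffWithinAt_Ioi (0 : ℝ)).eq_deriv _ h6 h4

lemma finrank_lt_homDim (h : ∃ x y, G.mul x y ≠ G.mul y x) :
    Module.finrank ℝ V < G.homDim := by
  have h1 : ∃ i, G.wt i ≠ 1 := by
    by_contra hcon
    push Not at hcon
    obtain ⟨x, y, hxy⟩ := h
    apply hxy
    rw [G.mul_eq_add_of_wt hcon, G.mul_eq_add_of_wt hcon, add_comm]
  obtain ⟨i, hi⟩ := h1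
  calc Module.finrank ℝ V = ∑ _i : Fin (Module.finrank ℝ V), 1 := by simp
    _ < G.homDim := by
      refine Finset.sum_lt_sum (fun j _ => G.one_le_wt j) ⟨i, Finset.mem_univ i, ?_⟩
      have := G.one_le_wt i
      omega

end StratifiedGroup

end Pool.Agent.H36.Fill
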