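import Pool.Agent.H36.Fill.Param

/-!
# Left-invariant smoothing kernels
-/

open MeasureTheory Set Filter
open scoped NNReal Topology ENNReal ContDiff

namespace Pool.Agent.H36.Fill

set_option linter.unusedSectionVars false

variable {V : Type*} [NormedAddCommGroup V] [InnerProductSpace ℝ V] [FiniteDimensional ℝ V]
  [MeasurableSpace V] [BorelSpace V] (μ : Measure V) [μ.IsAddHaarMeasure]

/-- Normalised nonnegative smooth functions supported in the ball of radius `ε`. -/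
structure IsKer (ρ : V → ℝ) (ε : ℝ) : Prop where
  smooth : ContDiff ℝ ∞ ρ
  nonneg : ∀ x, 0 ≤ ρ x
  supp : ∀ x, ε < ‖x‖ → ρ x = 0
  int : ∫ x, ρ x ∂μ = 1

variable {μ}

lemma IsKer.hasCompactSupport {ρ : V → ℝ} {ε : ℝ} (h : IsKer μ ρ ε) : HasCompactSupport ρ := by
  refine HasCompactSupport.of_support_subset_isCompact (isCompact_closedBall (0 : V) ε) ?_
  intro x hx
  rw [mem_closedBall_zero_iff]
  by_contra hcon
  exact hx (h.supp x (not_le.mp hcon))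

lemma IsKer.integrable {ρ : V → ℝ} {ε : ℝ} (h : IsKer μ ρ ε) : Integrable ρ μ :=
  h.smooth.continuous.integrable_of_hasCompactSupport h.hasCompactSupport

lemma IsKer.fderiv_eq_zero {ρ : V → ℝ} {ε : ℝ} (h : IsKer μ ρ ε) {x : V} (hx : ε < ‖x‖) :
    fderiv ℝ ρ x = 0 := by
  have hev : ρ =ᶠ[𝓝 x] fun _ => 0 := by
    have : {y : V | ε < ‖y‖} ∈ 𝓝 x := (isOpen_lt continuous_const continuous_norm).mem_nhds hx
    filter_upwards [this] with y hy
    exact h.supp y hy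
  rw [hev.fderiv_eq]; simp

lemma IsKer.continuous_fderiv {ρ : V → ℝ} {ε : ℝ} (h : IsKer μ ρ ε) : Continuous (fderiv ℝ ρ) :=
  h.smooth.continuous_fderiv (by simp)

lemma IsKer.integrable_fderiv {ρ : V → ℝ} {ε : ℝ} (h : IsKer μ ρ ε) :
    Integrable (fun x => ‖fderiv ℝ ρ x‖) μ := by
  refine h.continuous_fderiv.norm.integrable_of_hasCompactSupport ?_
  exact (h.hasCompactSupport.fderiv (𝕜 := ℝ)).norm

variable (μ) in
lemma exists_ker : ∃ C : ℝ, 0 ≤ C ∧ ∀ ε : ℝ, 0 < ε → ∃ ρ : V → ℝ, IsKer μ ρ ε ∧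
    ∫ x, ‖fderiv ℝ ρ x‖ ∂μ ≤ C / ε := by
  let b : ContDiffBump (0 : V) := ⟨1 / 2, 1, by norm_num, by norm_num⟩
  set ρ₁ : V → ℝ := b.normed μ with hρ₁
  have hs1 : ContDiff ℝ ∞ ρ₁ := b.contDiff_normed
  refine ⟨∫ x, ‖fderiv ℝ ρ₁ x‖ ∂μ, integral_nonneg fun _ => norm_nonneg _, fun ε hε => ?_⟩
  set d := Module.finrank ℝ V
  set ρ : V → ℝ := fun x => (ε⁻¹) ^ d * ρ₁ (ε⁻¹ • x) with hρ
  have habs : |((ε⁻¹ : ℝ) ^ d)⁻¹| = ((ε⁻¹ : ℝ) ^ d)⁻¹ := abs_of_pos (by positivity)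
  have hpos : (0 : ℝ) < (ε⁻¹) ^ d := by positivity
  refine ⟨ρ, ⟨?_, ?_, ?_, ?_⟩, ?_⟩
  · exact contDiff_const.mul (hs1.comp (contDiff_const_smul _))
  · intro x
    exact mul_nonneg (by positivity) (b.nonneg_normed _)
  · intro x hx
    have : ρ₁ (ε⁻¹ • x) = 0 := by
      have hns : ε⁻¹ • x ∉ Function.support (b.normed μ) := by
        rw [b.support_normed_eq, mem_ball_zero_iff, norm_smul, norm_inv, Real.norm_eq_abs,
          abs_of_pos hε, not_lt]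
        change (1 : ℝ) ≤ _
        rw [inv_mul_eq_div, le_div_iff₀ hε]
        linarith
      exact Function.notMem_support.mp hns
    rw [hρ]
    simp only
    rw [this, mul_zero]
  · rw [hρ, integral_const_mul, Measure.integral_comp_smul μ ρ₁ ε⁻¹, habs, b.integral_normed,
      smul_eq_mul, mul_one]
    exact mul_inv_cancel₀ hpos.ne'
  · have hfd : ∀ x, ‖fderiv ℝ ρ x‖ = (ε⁻¹) ^ d * ε⁻¹ * ‖fderiv ℝ ρ₁ (ε⁻¹ • x)‖ := by
      intro x
      have h1 : HasFDerivAt (fun x : V => ε⁻¹ • x) (ε⁻¹ • ContinuousLinearMap.id ℝ V) x :=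
        (ε⁻¹ • ContinuousLinearMap.id ℝ V).hasFDerivAt
      have h2 : HasFDerivAt ρ₁ (fderiv ℝ ρ₁ (ε⁻¹ • x)) (ε⁻¹ • x) :=
        (hs1.differentiable (by simp) _).hasFDerivAt
      have h3 := (h2.comp x h1).const_mul ((ε⁻¹) ^ d)
      have h4 : fderiv ℝ ρ x = (ε⁻¹) ^ d •
          (fderiv ℝ ρ₁ (ε⁻¹ • x)).comp (ε⁻¹ • ContinuousLinearMap.id ℝ V) := h3.fderiv
      rw [h4, ContinuousLinearMap.comp_smul, ContinuousLinearMap.comp_id, norm_smul, norm_smul,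
        Real.norm_eq_abs, Real.norm_eq_abs, abs_of_pos hpos, abs_of_pos (by positivity : 0 < ε⁻¹)]
      ring
    simp only [hfd]
    rw [integral_const_mul, Measure.integral_comp_smul μ (fun x => ‖fderiv ℝ ρ₁ x‖) ε⁻¹, habs,
      smul_eq_mul]
    apply le_of_eq
    field_simp

namespace StratifiedGroup

variable (G : StratifiedGroup V)

/-- The kernel `ρ (x⁻¹ q)`. -/
noncomputable def PP (ρ : V → ℝ) (p : V × V) : ℝ := ρ (G.mul (-p.1) p.2)

lemma contDiff_PP {ρ : V → ℝ} (hρ : ContDiff ℝ ∞ ρ) : ContDiff ℝ ∞ (G.PP ρ) :=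
  hρ.comp (G.contDiff_mul le_rfl contDiff_fst.neg contDiff_snd)

/-- The derivative of the kernel at `x = 0`. -/
noncomputable def gg (ρ : V → ℝ) (v z : V) : ℝ := pd (G.PP ρ) (0, z) v

lemma continuous_gg {ρ : V → ℝ} (hρ : ContDiff ℝ ∞ ρ) (v : V) : Continuous (G.gg ρ v) := by
  have h : Continuous (pd (G.PP ρ)) :=
    (contDiff_pd (G.contDiff_PP hρ) (m := 0) (by simp)).continuous
  exact (h.comp (Continuous.prodMk_right (0 : V))).clm_apply continuous_const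

lemma pd_PP_dL {ρ : V → ℝ} (hρ : ContDiff ℝ ∞ ρ) (x q v : V) :
    pd (G.PP ρ) (x, q) (G.dL x v) = G.gg ρ v (G.mul (-x) q) := by
  have hd : Differentiable ℝ (G.PP ρ) := (G.contDiff_PP hρ).differentiable (by simp)
  have h1 : HasFDerivAt (fun h => G.PP ρ (G.mul x h, q)) ((pd (G.PP ρ) (x, q)).comp (G.dL x)) 0 := by
    have a : HasFDerivAt (G.mul x) (G.dL x) 0 := (G.differentiable_mul_left x 0).hasFDerivAt
    have b : HasFDerivAt (fun x => G.PP ρ (x, q)) (pd (G.PP ρ) (x, q)) (G.mul x 0) := by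
      rw [G.mul_zero]; exact hasFDerivAt_pd hd x q
    exact b.comp (0 : V) a
  have h2 : HasFDerivAt (fun h => G.PP ρ (h, G.mul (-x) q)) (pd (G.PP ρ) (0, G.mul (-x) q)) 0 :=
    hasFDerivAt_pd hd 0 _
  have e : (fun h => G.PP ρ (G.mul x h, q)) = fun h => G.PP ρ (h, G.mul (-x) q) := by
    funext h
    rw [PP, PP]
    simp only
    rw [G.neg_mul_rev, G.mul_assoc]
  rw [e] at h1
  exact congrArg (fun A => A v) (h1.unique h2)

/-- The derivative at `0` of the right translation by `z`. -/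
noncomputable def dR (z v : V) : V := fderiv ℝ G.mulP (0, z) (v, 0)

lemma gg_eq {ρ : V → ℝ} (hρ : ContDiff ℝ ∞ ρ) (v z : V) :
    G.gg ρ v z = -(fderiv ℝ ρ z (G.dR z v)) := by
  have hd : Differentiable ℝ (G.PP ρ) := (G.contDiff_PP hρ).differentiable (by simp)
  have h2 : HasFDerivAt (fun h => G.PP ρ (h, z)) (pd (G.PP ρ) (0, z)) 0 := hasFDerivAt_pd hd 0 _
  have a : HasFDerivAt (fun h : V => (-h, z)) ((-ContinuousLinearMap.id ℝ V).prod 0) 0 :=
    (hasFDerivAt_id (0 : V)).neg.prodMk (hasFDerivAt_const z (0 : V))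
  have b : HasFDerivAt G.mulP (fderiv ℝ G.mulP (0, z)) (-0, z) := by
    rw [neg_zero]; exact G.hasFDerivAt_mulP _
  have c := b.comp (0 : V) a
  have d : HasFDerivAt ρ (fderiv ℝ ρ z) ((G.mulP ∘ fun h : V => (-h, z)) 0) := by
    have : (G.mulP ∘ fun h : V => (-h, z)) 0 = z := by
      simp only [Function.comp_apply, neg_zero, mulP, G.zero_mul]
    rw [this]
    exact (hρ.differentiable (by simp) z).hasFDerivAt
  have e := d.comp (0 : V) c
  have f := congrArg (fun A => A v) (h2.unique e)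
  rw [gg, f]
  simp only [ContinuousLinearMap.comp_apply, ContinuousLinearMap.prod_apply, neg_apply,
    ContinuousLinearMap.id_apply, zero_apply]
  rw [dR, ← map_neg, ← map_neg]
  congr 2
  simp

lemma dR_zero (v : V) : G.dR 0 v = v := G.fderiv_mulP_left 0 v

lemma exists_norm_dR_sub_le : ∃ C : ℝ, 0 ≤ C ∧ ∀ z v : V, ‖z‖ ≤ 1 →
    ‖G.dR z v - v‖ ≤ C * ‖z‖ * ‖v‖ := by
  set F : V → V →L[ℝ] V := fun z => (fderiv ℝ G.mulP (0, z)).comp (ContinuousLinearMap.inl ℝ V V)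
    with hF
  have hFc : ContDiff ℝ 1 F := by
    refine ContDiff.clm_comp ?_ contDiff_const
    exact (G.contDiff_fderiv_mulP.of_le (by simp)).comp (contDiff_const.prodMk contDiff_id)
  obtain ⟨K, hK⟩ := lipschitzOnWith_ball hFc 1
  refine ⟨K, K.2, fun z v hz => ?_⟩
  have h1 := hK.dist_le_mul z (by simpa using hz) 0 (by simp)
  rw [dist_eq_norm, dist_zero_right] at h1
  have h2 : G.dR z v - v = (F z - F 0) v := by
    rw [sub_apply]
    congr 1
    exact (G.dR_zero v).symm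
  rw [h2]
  exact ((F z - F 0).le_opNorm v).trans (mul_le_mul_of_nonneg_right h1 (norm_nonneg _))

lemma continuous_dR (v : V) : Continuous (fun z => G.dR z v) := by
  have h : Continuous fun z : V => fderiv ℝ G.mulP (0, z) :=
    G.contDiff_fderiv_mulP.continuous.comp (Continuous.prodMk_right (0 : V))
  exact h.clm_apply continuous_const

/-- The bounds for the derivative of the kernel. -/
lemma exists_gg_le : ∃ C : ℝ, 0 ≤ C ∧ ∀ ε : ℝ, ε ≤ 1 → ∀ ρ : V → ℝ, IsKer μ ρ ε →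
    ∀ v z, |G.gg ρ v z| ≤ C * ‖v‖ * ‖fderiv ℝ ρ z‖ := by
  obtain ⟨C, hC0, hC⟩ := G.exists_norm_dR_sub_le
  refine ⟨C + 1, by positivity, fun ε hε ρ hρ v z => ?_⟩
  rw [G.gg_eq hρ.smooth, abs_neg]
  by_cases hz : ‖z‖ ≤ 1
  · have h1 := hC z v hz
    have h2 : ‖G.dR z v‖ ≤ (C + 1) * ‖v‖ := by
      calc ‖G.dR z v‖ = ‖(G.dR z v - v) + v‖ := by rw [sub_add_cancel]
        _ ≤ ‖G.dR z v - v‖ + ‖v‖ := norm_add_le _ _
        _ ≤ C * ‖z‖ * ‖v‖ + ‖v‖ := by linarith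
        _ ≤ C * 1 * ‖v‖ + ‖v‖ := by gcongr
        _ = _ := by ring
    calc |fderiv ℝ ρ z (G.dR z v)| ≤ ‖fderiv ℝ ρ z‖ * ‖G.dR z v‖ :=
          (fderiv ℝ ρ z).le_opNorm _
      _ ≤ ‖fderiv ℝ ρ z‖ * ((C + 1) * ‖v‖) := by gcongr
      _ = _ := by ring
  · rw [hρ.fderiv_eq_zero (by linarith [not_le.mp hz])]
    simp

lemma gg_eq_zero {ρ : V → ℝ} {ε : ℝ} (hρ : IsKer μ ρ ε) (v : V) {z : V} (hz : ε < ‖z‖) :
    G.gg ρ v z = 0 := by
  rw [G.gg_eq hρ.smooth, hρ.fderiv_eq_zero hz]; simp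

lemma hasCompactSupport_gg {ρ : V → ℝ} {ε : ℝ} (hρ : IsKer μ ρ ε) (v : V) :
    HasCompactSupport (G.gg ρ v) := by
  refine HasCompactSupport.of_support_subset_isCompact (isCompact_closedBall (0 : V) ε) ?_
  intro x hx
  rw [mem_closedBall_zero_iff]
  by_contra hcon
  exact hx (G.gg_eq_zero hρ v (not_le.mp hcon))

lemma integrable_gg {ρ : V → ℝ} {ε : ℝ} (hρ : IsKer μ ρ ε) (v : V) :
    Integrable (G.gg ρ v) μ :=
  (G.continuous_gg hρ.smooth v).integrable_of_hasCompactSupport (G.hasCompactSupport_gg hρ v)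

end StratifiedGroup

end Pool.Agent.H36.Fill
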