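import Pool.Agent.H36.Fill.Kernel

/-!
# The first moment of the derivative of the kernel
-/

open MeasureTheory Set Filter
open scoped NNReal Topology ENNReal ContDiff

namespace Pool.Agent.H36.Fill

set_option linter.unusedSectionVars false

variable {V : Type*} [NormedAddCommGroup V] [InnerProductSpace ℝ V] [FiniteDimensional ℝ V]
  [MeasurableSpace V] [BorelSpace V] {μ : Measure V} [μ.IsAddHaarMeasure]

namespace StratifiedGroup

variable (G : StratifiedGroup V)

lemma exists_norm_mul_le (r : ℝ) : ∃ R : ℝ, 1 ≤ R ∧ ∀ x y : V, ‖x‖ ≤ r → ‖y‖ ≤ r →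
    ‖G.mul x y‖ ≤ R := by
  obtain ⟨C, hC⟩ := ((isCompact_closedBall (0 : V) r).prod
    (isCompact_closedBall (0 : V) r)).bddAbove_image G.continuous_mul.norm.continuousOn
  refine ⟨max C 1, le_max_right _ _, fun x y hx hy => ?_⟩
  refine le_trans ?_ (le_max_left _ _)
  exact hC (mem_image_of_mem _ (mk_mem_prod (by simpa using hx) (by simpa using hy)))

lemma integral_gg_smul {ρ : V → ℝ} {ε : ℝ} (hε : ε ≤ 1) (hρ : IsKer μ ρ ε) (v : V) :
    ∫ z, G.gg ρ v z • z ∂μ = ∫ z, ρ z • G.dR z v ∂μ := by
  obtain ⟨R, hR1, hR⟩ := G.exists_norm_mul_le 1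
  set T0 := Metric.closedBall (0 : V) R with hT0
  set T1 := Metric.closedBall (0 : V) 1 with hT1
  set F1 : V × V → V := fun p => G.PP ρ p • p.2 with hF1
  set F2 : V × V → V := fun p => ρ p.2 • G.mulP p with hF2
  have hF1s : ContDiff ℝ ∞ F1 := (G.contDiff_PP hρ.smooth).smul contDiff_snd
  have hF2s : ContDiff ℝ ∞ F2 := (hρ.smooth.comp contDiff_snd).smul G.contDiff_mulP
  have hd1 := hasFDerivAt_setIntegral μ (hF1s.of_le (by simp)) (T := T0)
    Metric.isBounded_closedBall measurableSet_closedBall 0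
  have hd2 := hasFDerivAt_setIntegral μ (hF2s.of_le (by simp)) (T := T1)
    Metric.isBounded_closedBall measurableSet_closedBall 0
  have hev : (fun h => ∫ z in T0, F1 (h, z) ∂μ) =ᶠ[𝓝 0] fun h => ∫ z in T1, F2 (h, z) ∂μ := by
    filter_upwards [Metric.closedBall_mem_nhds (0 : V) one_pos] with h hh
    rw [mem_closedBall_zero_iff] at hh
    have e1 : ∫ z in T0, F1 (h, z) ∂μ = ∫ z, F1 (h, z) ∂μ := by
      refine setIntegral_eq_integral_of_forall_compl_eq_zero fun z hz => ?_
      have h0 : ρ (G.mul (-h) z) = 0 := by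
        apply hρ.supp
        by_contra hcon
        apply hz
        rw [hT0, mem_closedBall_zero_iff]
        have := hR h (G.mul (-h) z) hh (by linarith [not_lt.mp hcon])
        rwa [G.mul_neg_cancel] at this
      rw [hF1]
      simp only [PP]
      rw [h0, zero_smul]
    have e2 : ∫ z in T1, F2 (h, z) ∂μ = ∫ z, F2 (h, z) ∂μ := by
      refine setIntegral_eq_integral_of_forall_compl_eq_zero fun z hz => ?_
      have h0 : ρ z = 0 := by
        apply hρ.supp
        rw [hT1, mem_closedBall_zero_iff, not_le] at hz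
        linarith
      rw [hF2]
      simp only
      rw [h0, zero_smul]
    rw [e1, e2, ← G.integral_mul_left μ h]
    congr 1
    funext w
    rw [hF1, hF2]
    simp only [PP, mulP, G.neg_mul_cancel]
  have huniq := (hd1.congr_of_eventuallyEq hev.symm).unique hd2
  have hv := DFunLike.congr_fun huniq v
  have hp1 : Continuous (pd F1) := (contDiff_pd hF1s (m := 0) (by simp)).continuous
  have hp2 : Continuous (pd F2) := (contDiff_pd hF2s (m := 0) (by simp)).continuous
  have hI1 : Integrable (fun q => pd F1 (0, q)) (μ.restrict T0) :=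
    ((hp1.comp (Continuous.prodMk_right (0 : V))).continuousOn).integrableOn_compact
        (isCompact_closedBall _ _)
  have hI2 : Integrable (fun q => pd F2 (0, q)) (μ.restrict T1) :=
    ((hp2.comp (Continuous.prodMk_right (0 : V))).continuousOn).integrableOn_compact
        (isCompact_closedBall _ _)
  rw [ContinuousLinearMap.integral_apply hI1, ContinuousLinearMap.integral_apply hI2] at hv
  have hpd1 : ∀ z, pd F1 (0, z) v = G.gg ρ v z • z := by
    intro z
    have a : HasFDerivAt (fun h => F1 (h, z)) (pd F1 (0, z)) 0 :=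
      hasFDerivAt_pd (hF1s.differentiable (by simp)) 0 z
    have b : HasFDerivAt (fun h => G.PP ρ (h, z)) (pd (G.PP ρ) (0, z)) 0 :=
      hasFDerivAt_pd ((G.contDiff_PP hρ.smooth).differentiable (by simp)) 0 z
    have c := b.smul_const z
    exact congrArg (fun A => A v) (a.unique c)
  have hpd2 : ∀ z, pd F2 (0, z) v = ρ z • G.dR z v := by
    intro z
    have a : HasFDerivAt (fun h => F2 (h, z)) (pd F2 (0, z)) 0 :=
      hasFDerivAt_pd (hF2s.differentiable (by simp)) 0 z
    have b : HasFDerivAt (fun h => G.mulP (h, z)) (pd G.mulP (0, z)) 0 :=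
      hasFDerivAt_pd (G.contDiff_mulP.differentiable (by simp)) 0 z
    have c := b.const_smul (ρ z)
    exact congrArg (fun A => A v) (a.unique c)
  simp only [hpd1, hpd2] at hv
  rw [setIntegral_eq_integral_of_forall_compl_eq_zero (fun z hz => ?_),
    setIntegral_eq_integral_of_forall_compl_eq_zero (fun z hz => ?_)] at hv
  · exact hv
  · rw [hT1, mem_closedBall_zero_iff, not_le] at hz
    rw [hρ.supp z (by linarith), zero_smul]
  · rw [hT0, mem_closedBall_zero_iff, not_le] at hz
    rw [G.gg_eq_zero hρ v (by linarith), zero_smul]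

lemma exists_moment_le : ∃ C : ℝ, 0 ≤ C ∧ ∀ ε : ℝ, 0 ≤ ε → ε ≤ 1 → ∀ ρ : V → ℝ, IsKer μ ρ ε →
    ∀ v, ‖∫ z, G.gg ρ v z • z ∂μ - v‖ ≤ C * ε * ‖v‖ := by
  obtain ⟨C, hC0, hC⟩ := G.exists_norm_dR_sub_le
  refine ⟨C, hC0, fun ε hε0 hε ρ hρ v => ?_⟩
  rw [G.integral_gg_smul hε hρ]
  have hint1 : Integrable (fun z => ρ z • G.dR z v) μ := by
    refine (hρ.smooth.continuous.smul (G.continuous_dR v)).integrable_of_hasCompactSupport ?_
    exact hρ.hasCompactSupport.smul_right
  have hint2 : Integrable (fun z => ρ z • v) μ := hρ.integrable.smul_const v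
  have e : ∫ z, ρ z • G.dR z v ∂μ - v = ∫ z, ρ z • (G.dR z v - v) ∂μ := by
    have h1 : ∫ z, ρ z • v ∂μ = v := by rw [integral_smul_const, hρ.int, one_smul]
    simp only [smul_sub]
    rw [integral_sub hint1 hint2, h1]
  rw [e]
  calc ‖∫ z, ρ z • (G.dR z v - v) ∂μ‖ ≤ ∫ z, ρ z * (C * ε * ‖v‖) ∂μ := by
        refine norm_integral_le_of_norm_le (hρ.integrable.mul_const _) ?_
        refine Eventually.of_forall fun z => ?_
        rw [norm_smul, Real.norm_eq_abs, abs_of_nonneg (hρ.nonneg z)]
        by_cases hz : ε < ‖z‖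
        · rw [hρ.supp z hz]; simp
        · refine mul_le_mul_of_nonneg_left ?_ (hρ.nonneg z)
          have hz' := not_lt.mp hz
          refine (hC z v (hz'.trans hε)).trans ?_
          gcongr
    _ = C * ε * ‖v‖ := by rw [integral_mul_const, hρ.int, one_mul]

end StratifiedGroup

end Pool.Agent.H36.Fill
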