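import Pool.Agent.H36.Fill.Bernstein3
import Pool.Agent.H36.Fill.Chain

/-!
# Stokes' theorem for Lipschitz cycles in top dimension
-/

open MeasureTheory Set Filter
open scoped NNReal Topology

namespace Pool.Agent.H36.Fill

set_option linter.unusedSectionVars false

variable {k : ℕ} {W : Type*} [NormedAddCommGroup W] [NormedSpace ℝ W]

/-- The integral of a constant-coefficient form over a singular simplex. -/
noncomputable def volInt (D : W [⋀^Fin k]→L[ℝ] ℝ) (σ : Simp W k) : ℝ :=
  ∫ t in ordSimplex k, D fun i => fderiv ℝ (inCoord σ) t (Pi.single i 1)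

lemma convex_ordSimplex : Convex ℝ (ordSimplex k) := by
  intro s hs t ht a b ha hb hab
  rw [mem_ordSimplex_iff] at *
  intro m hm
  have e : ∀ m, hat (a • s + b • t) m = a * hat s m + b * hat t m := by
    intro m
    rcases m with _ | m
    · simp [hab]
    · simp only [hat_succ]
      split_ifs <;> simp
  rw [e, e]
  have h1 := mul_le_mul_of_nonneg_left (hs m hm) ha
  have h2 := mul_le_mul_of_nonneg_left (ht m hm) hb
  linarith

lemma pos_of_mem_interior {t : Fin k → ℝ} (ht : t ∈ interior (ordSimplex k)) (i : Fin (k + 1)) :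
    0 < ord t i := by
  have hcl := interior_subset ht
  refine lt_of_le_of_ne (hcl.1 i) ?_
  intro h0
  -- a direction in which the coordinate decreases
  have key : ∀ (l : Fin k) (c : ℝ), c * vv l i < 0 → False := by
    intro l c hc
    have hcont : Tendsto (fun s : ℝ => t + s • (c • (Pi.single l 1 : Fin k → ℝ))) (𝓝 0)
        (𝓝 (t + (0 : ℝ) • (c • (Pi.single l 1 : Fin k → ℝ)))) := by
      have : Continuous (fun s : ℝ => t + s • (c • (Pi.single l 1 : Fin k → ℝ))) := by fun_prop
      exact this.tendsto 0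
    rw [zero_smul, add_zero] at hcont
    have hev : ∀ᶠ s in 𝓝[>] (0 : ℝ),
        t + s • (c • (Pi.single l 1 : Fin k → ℝ)) ∈ ordSimplex k :=
      (hcont.mono_left nhdsWithin_le_nhds).eventually (mem_interior_iff_mem_nhds.mp ht)
    obtain ⟨s, hs, hs0⟩ := (hev.and self_mem_nhdsWithin).exists
    have h1 := hs.1 i
    rw [smul_smul, ord_add_single] at h1
    simp only [Pi.add_apply, Pi.smul_apply, smul_eq_mul, ← h0, zero_add] at h1
    have hs0' : (0 : ℝ) < s := hs0
    nlinarith
  rcases k with _ | k
  · have hi : i = 0 := Subsingleton.elim (α := Fin 1) i 0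
    subst hi
    have h5 : ∑ i : Fin 1, ord t i = 1 := sum_ord t
    rw [Fin.sum_univ_one] at h5
    rw [h5] at h0
    exact zero_ne_one h0
  · refine Fin.cases (motive := fun i => 0 = ord t i → (∀ (l : Fin (k + 1)) (c : ℝ),
      c * vv l i < 0 → False) → False) ?_ ?_ i h0 key
    · intro _ key
      apply key 0 1
      rw [vv]
      simp
    · intro l _ key
      apply key l (-1)
      rw [vv, if_pos rfl, if_neg]
      · norm_num
      · intro h
        have := congrArg Fin.val h
        simp at this

lemma ae_mem_interior : ∀ᵐ t ∂(volume.restrict (ordSimplex k)), t ∈ interior (ordSimplex k) := by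
  have h := (convex_ordSimplex (k := k)).addHaar_frontier volume
  rw [ae_restrict_iff' measurableSet_ordSimplex]
  have h2 : ∀ᵐ t ∂(volume : Measure (Fin k → ℝ)), t ∉ frontier (ordSimplex k) :=
    measure_eq_zero_iff_ae_notMem.mp h
  filter_upwards [h2] with t ht hmem
  by_contra hcon
  exact ht ⟨subset_closure hmem, hcon⟩

lemma ae_hasFDerivAt [FiniteDimensional ℝ W] {σ : Simp W k} {K : ℝ≥0} (hσ : LipschitzWith K σ) :
    ∀ᵐ t ∂(volume.restrict (ordSimplex k)),
      (∀ i, 0 < ord t i) ∧ HasFDerivAt (inCoord σ) (fderiv ℝ (inCoord σ) t) t := by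
  have h1 := (lipschitzOnWith_inCoord hσ).ae_differentiableWithinAt_of_mem (μ := volume)
  have h2 : ∀ᵐ t ∂(volume.restrict (ordSimplex k)),
      DifferentiableWithinAt ℝ (inCoord σ) (ordSimplex k) t := by
    rw [ae_restrict_iff' measurableSet_ordSimplex]
    exact h1
  filter_upwards [h2, ae_mem_interior] with t ht hti
  exact ⟨pos_of_mem_interior hti,
    (ht.differentiableAt (mem_interior_iff_mem_nhds.mp hti)).hasFDerivAt⟩

lemma tendsto_volInt [FiniteDimensional ℝ W] (D : W [⋀^Fin k]→L[ℝ] ℝ) {σ : Simp W k} {K : ℝ≥0}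
    (hσ : LipschitzWith K σ) :
    Tendsto (fun N => ∫ t in ordSimplex k, D fun i => fderiv ℝ (bernC N σ) t (Pi.single i 1))
      atTop (𝓝 (volInt D σ)) := by
  refine tendsto_integral_of_dominated_convergence (fun _ => ‖D‖ * ∏ _i : Fin k, (K : ℝ)) ?_ ?_ ?_ ?_
  · intro N
    have : Continuous fun t => D fun i => fderiv ℝ (bernC N σ) t (Pi.single i 1) := by
      refine D.cont.comp (continuous_pi fun i => ?_)
      exact ((contDiff_bernC N σ (n := 1)).continuous_fderiv one_ne_zero).clm_apply
        continuous_const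
    exact this.aestronglyMeasurable
  · exact integrableOn_const (isCompact_ordSimplex.measure_lt_top.ne)
  · intro N
    rw [ae_restrict_iff' measurableSet_ordSimplex]
    refine Eventually.of_forall fun t ht => ?_
    refine (D.le_opNorm _).trans ?_
    gcongr with i
    exact norm_fderiv_bernC_le N hσ ht i
  · filter_upwards [ae_hasFDerivAt hσ] with t ht
    refine (D.cont.tendsto _).comp ?_
    rw [tendsto_pi_nhds]
    intro i
    exact tendsto_fderiv_bernC hσ ht.1 ht.2 i

/-- Stokes' theorem: the integral of a constant-coefficient form of degree `k + 1` over a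
Lipschitz `(k + 1)`-cycle is zero. -/
theorem evalC_volInt_eq_zero [FiniteDimensional ℝ W] (D : W [⋀^Fin (k + 1)]→L[ℝ] ℝ)
    {c : Chain W (k + 1)} (hc : IsLip c) (hcyc : bdry c = 0) : evalC (volInt D) c = 0 := by
  have h1 : ∀ N, evalC (fun σ => ∫ t in ordSimplex (k + 1),
      D fun i => fderiv ℝ (bernC N σ) t (Pi.single i 1)) c = 0 := by
    intro N
    have h2 : evalC (fun σ => ∑ j : Fin (k + 2), (-1) ^ (j : ℕ) *
        bdInt D (bernC N (fun x => σ (stdSimplex.map j.succAbove x)))) c = 0 := by
      rw [← evalC_bdry (fun τ => bdInt D (bernC N τ)), hcyc, map_zero]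
    have h3 : ∀ σ : Simp W (k + 1), (k + 1 : ℝ) * ∫ t in ordSimplex (k + 1),
        D (fun i => fderiv ℝ (bernC N σ) t (Pi.single i 1)) =
        ∑ j : Fin (k + 2), (-1) ^ (j : ℕ) *
          bdInt D (bernC N (fun x => σ (stdSimplex.map j.succAbove x))) := by
      intro σ
      rw [stokes_map D (contDiff_bernC N σ)]
      refine Finset.sum_congr rfl fun j _ => ?_
      congr 2
      funext t
      exact bernC_dup N σ j t
    have h4 : (k + 1 : ℝ) * evalC (fun σ => ∫ t in ordSimplex (k + 1),
        D fun i => fderiv ℝ (bernC N σ) t (Pi.single i 1)) c = 0 := by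
      rw [← h2, evalC_apply, evalC_apply, Finset.mul_sum]
      refine Finset.sum_congr rfl fun σ _ => ?_
      rw [← h3 σ]
      ring
    have hk : (k + 1 : ℝ) ≠ 0 := by positivity
    exact (mul_eq_zero.mp h4).resolve_left hk
  have h5 : Tendsto (fun N => evalC (fun σ => ∫ t in ordSimplex (k + 1),
      D fun i => fderiv ℝ (bernC N σ) t (Pi.single i 1)) c) atTop (𝓝 (evalC (volInt D) c)) := by
    simp only [evalC_apply]
    refine tendsto_finsetSum _ fun σ hσ => ?_
    obtain ⟨K, hK⟩ := hc σ hσ
    exact (tendsto_volInt D hK).const_mul _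
  simp only [h1] at h5
  exact (tendsto_nhds_unique h5 tendsto_const_nhds)

end Pool.Agent.H36.Fill
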