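import Pool.Agent.H36.Fill.LipStokes
import Pool.Agent.H36.Fill.Group2

/-!
# Mass: subadditivity, left invariance, bounds
-/

open MeasureTheory Set Filter
open scoped NNReal Topology ENNReal

namespace Pool.Agent.H36.Fill

set_option linter.unusedSectionVars false

variable {V : Type*} [NormedAddCommGroup V] [InnerProductSpace ℝ V] {k : ℕ}

namespace StratifiedGroup

variable (G : StratifiedGroup V)

lemma mass_eq_sum (c : Chain V k) :
    G.mass c = ∑ σ ∈ c.support, ((c σ).natAbs : ℝ≥0∞) * G.vol σ := rfl

@[simp] lemma mass_zero : G.mass (0 : Chain V k) = 0 := by simp [mass_eq_sum]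

lemma mass_eq_sum_of_subset {c : Chain V k} {s : Finset (Simp V k)} (h : c.support ⊆ s) :
    G.mass c = ∑ σ ∈ s, ((c σ).natAbs : ℝ≥0∞) * G.vol σ := by
  rw [mass_eq_sum]
  refine Finset.sum_subset h fun σ _ hσ => ?_
  rw [Finsupp.notMem_support_iff.mp hσ]
  simp

lemma mass_add_le (a b : Chain V k) : G.mass (a + b) ≤ G.mass a + G.mass b := by
  classical
  rw [G.mass_eq_sum_of_subset (Finsupp.support_add (g₁ := a) (g₂ := b)),
    G.mass_eq_sum_of_subset (Finset.subset_union_left (s₁ := a.support) (s₂ := b.support)),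
    G.mass_eq_sum_of_subset (Finset.subset_union_right (s₁ := a.support) (s₂ := b.support)),
    ← Finset.sum_add_distrib]
  refine Finset.sum_le_sum fun σ _ => ?_
  rw [← add_mul]
  gcongr
  rw [Finsupp.add_apply]
  exact_mod_cast Int.natAbs_add_le _ _

@[simp] lemma mass_neg (a : Chain V k) : G.mass (-a) = G.mass a := by
  rw [mass_eq_sum, mass_eq_sum, Finsupp.support_neg]
  simp

lemma mass_sub_le (a b : Chain V k) : G.mass (a - b) ≤ G.mass a + G.mass b := by
  rw [sub_eq_add_neg]
  exact (G.mass_add_le a (-b)).trans (by rw [mass_neg])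

lemma mass_sum_le {ι : Type*} (s : Finset ι) (f : ι → Chain V k) :
    G.mass (∑ i ∈ s, f i) ≤ ∑ i ∈ s, G.mass (f i) := by
  classical
  induction s using Finset.induction_on with
  | empty => simp
  | insert a s ha ih =>
    rw [Finset.sum_insert ha, Finset.sum_insert ha]
    exact (G.mass_add_le _ _).trans (by gcongr)

lemma mass_neg_one_pow_smul (j : ℕ) (a : Chain V k) : G.mass ((-1 : ℤ) ^ j • a) = G.mass a := by
  rcases neg_one_pow_eq_or ℤ j with h | h
  · rw [h, one_smul]
  · rw [h, neg_smul, one_smul, mass_neg]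

lemma mass_altSum_le {X : Type*} (F : (Fin k → X) → Chain V k) (p : Fin (k + 1) → X) :
    G.mass (altSum F p) ≤ ∑ j : Fin (k + 1), G.mass (F fun i => p (j.succAbove i)) := by
  refine (G.mass_sum_le _ _).trans (le_of_eq ?_)
  exact Finset.sum_congr rfl fun j _ => G.mass_neg_one_pow_smul _ _

lemma mass_single (σ : Simp V k) (m : ℤ) :
    G.mass (Finsupp.single σ m) = (m.natAbs : ℝ≥0∞) * G.vol σ := by
  classical
  rw [G.mass_eq_sum_of_subset (Finsupp.support_single_subset (a := σ) (b := m)),
    Finset.sum_singleton, Finsupp.single_eq_same]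

/-! ### Left translations -/

/-- Left translation of a singular simplex. -/
def lt (g : V) (σ : Simp V k) : Simp V k := fun x => G.mul g (σ x)

/-- Left translation of a chain. -/
noncomputable def ltC (g : V) (c : Chain V k) : Chain V k := Finsupp.mapDomain (G.lt g) c

lemma lt_injective (g : V) : Function.Injective (G.lt (k := k) g) := by
  intro σ τ h
  funext x
  exact G.mul_left_injective' g (congrFun h x)

lemma fderiv_mul_left_comp (g : V) (f : (Fin k → ℝ) → V) (t : Fin k → ℝ) :
    fderiv ℝ (fun s => G.mul g (f s)) t =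
      (fderiv ℝ (G.mul g) (f t)).comp (fderiv ℝ f t) := by
  by_cases h : DifferentiableAt ℝ f t
  · exact fderiv_comp t (G.differentiable_mul_left g _) h
  · have h2 : ¬ DifferentiableAt ℝ (fun s => G.mul g (f s)) t := by
      intro h3
      apply h
      have h4 := (G.differentiable_mul_left (-g) (G.mul g (f t))).comp t h3
      have e : (G.mul (-g)) ∘ (fun s => G.mul g (f s)) = f := by
        funext s; simp
      rwa [e] at h4
    rw [fderiv_zero_of_not_differentiableAt h, fderiv_zero_of_not_differentiableAt h2]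
    simp

lemma vol_lt (g : V) (σ : Simp V k) : G.vol (G.lt g σ) = G.vol σ := by
  unfold vol
  refine lintegral_congr_ae ?_
  filter_upwards [ae_mem_interior (k := k)] with t ht
  have hev : inCoord (G.lt g σ) =ᶠ[𝓝 t] fun s => G.mul g (inCoord σ s) := by
    filter_upwards [mem_interior_iff_mem_nhds.mp ht] with s hs
    have hs' : ord s ∈ stdSimplex ℝ (Fin (k + 1)) := hs
    rw [inCoord, dif_pos hs', inCoord, dif_pos hs', lt]
  have h1 : fderiv ℝ (inCoord (G.lt g σ)) t =
      (fderiv ℝ (G.mul g) (inCoord σ t)).comp (fderiv ℝ (inCoord σ) t) := by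
    rw [hev.fderiv_eq, G.fderiv_mul_left_comp]
  have h2 : inCoord (G.lt g σ) t = G.mul g (inCoord σ t) := hev.self_of_nhds
  have h3 : ∀ u, G.toLie (inCoord (G.lt g σ) t) (fderiv ℝ (inCoord (G.lt g σ)) t u) =
      G.toLie (inCoord σ t) (fderiv ℝ (inCoord σ) t u) := by
    intro u
    rw [h1, h2, ContinuousLinearMap.comp_apply, ← ContinuousLinearMap.comp_apply,
      G.toLie_mul]
  simp only [h3]

lemma mass_ltC (g : V) (c : Chain V k) : G.mass (G.ltC g c) = G.mass c := by
  classical
  rw [ltC, mass, Finsupp.sum_mapDomain_index_inj (G.lt_injective g)]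
  simp only [G.vol_lt]
  rfl

lemma bdry_ltC (g : V) (c : Chain V (k + 1)) : bdry (G.ltC g c) = G.ltC g (bdry c) := by
  have h : (bdryHom (V := V) (k := k)).comp (Finsupp.mapDomain.addMonoidHom (G.lt g)) =
      (Finsupp.mapDomain.addMonoidHom (G.lt g)).comp bdryHom := by
    apply Finsupp.addHom_ext
    intro σ m
    simp only [AddMonoidHom.comp_apply, Finsupp.mapDomain.addMonoidHom_apply,
      Finsupp.mapDomain_single]
    rw [← bdry_eq_bdryHom, ← bdry_eq_bdryHom, bdry_single, bdry_single,
      ← Finsupp.mapDomain.addMonoidHom_apply, map_sum]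
    refine Finset.sum_congr rfl fun j _ => ?_
    rw [Finsupp.mapDomain.addMonoidHom_apply, Finsupp.mapDomain_single]
    rfl
  exact DFunLike.congr_fun h c

end StratifiedGroup

end Pool.Agent.H36.Fill
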