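import Pool.Agent.H36.Fill.Mass

/-!
# Bounds for volumes, and the comparison with integrals of the volume form
-/

open MeasureTheory Set Filter
open scoped NNReal Topology ENNReal

namespace Pool.Agent.H36.Fill

set_option linter.unusedSectionVars false

variable {V : Type*} [NormedAddCommGroup V] [InnerProductSpace ℝ V] [FiniteDimensional ℝ V]
  {k : ℕ}

/-- A smooth function is Lipschitz on balls. -/
lemma lipschitzOnWith_ball {E F : Type*} [NormedAddCommGroup E] [NormedSpace ℝ E]
    [FiniteDimensional ℝ E] [NormedAddCommGroup F] [NormedSpace ℝ F] {f : E → F}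
    (hf : ContDiff ℝ 1 f) (R : ℝ) :
    ∃ K : ℝ≥0, LipschitzOnWith K f (Metric.closedBall 0 R) := by
  have hc : Continuous fun x => ‖fderiv ℝ f x‖₊ :=
    (hf.continuous_fderiv one_ne_zero).nnnorm
  obtain ⟨K, hK⟩ := (isCompact_closedBall (0 : E) R).bddAbove_image hc.continuousOn
  refine ⟨K, (convex_closedBall (0 : E) R).lipschitzOnWith_of_nnnorm_fderiv_le
    (fun x _ => hf.differentiable one_ne_zero x) fun x hx => ?_⟩
  exact hK (mem_image_of_mem _ hx)

/-- Composition of a Lipschitz simplex with a smooth map is Lipschitz. -/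
lemma lip_comp {F : V → V} (hF : ContDiff ℝ 1 F) {σ : Simp V k} (hσ : ∃ K : ℝ≥0, LipschitzWith K σ) :
    ∃ K : ℝ≥0, LipschitzWith K (fun x => F (σ x)) := by
  obtain ⟨K, hK⟩ := hσ
  have hcomp : IsCompact (range σ) := isCompact_range hK.continuous
  obtain ⟨R, hR⟩ := hcomp.isBounded.subset_closedBall 0
  obtain ⟨L, hL⟩ := lipschitzOnWith_ball hF R
  refine ⟨L * K, LipschitzWith.of_dist_le_mul fun x y => ?_⟩
  have h1 := hL.dist_le_mul (σ x) (hR (mem_range_self x)) (σ y) (hR (mem_range_self y))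
  have h2 := hK.dist_le_mul x y
  push_cast
  calc dist (F (σ x)) (F (σ y)) ≤ L * dist (σ x) (σ y) := h1
    _ ≤ L * (K * dist x y) := mul_le_mul_of_nonneg_left h2 L.2
    _ = _ := by ring

namespace StratifiedGroup

variable (G : StratifiedGroup V)

lemma isLip_ltC (g : V) {c : Chain V k} (hc : IsLip c) : IsLip (G.ltC g c) := by
  classical
  intro σ hσ
  have h1 := Finsupp.mapDomain_support hσ
  rw [Finset.mem_image] at h1
  obtain ⟨τ, hτ, rfl⟩ := h1
  exact lip_comp ((G.contDiff_mul_left g).of_le (by simp)) (hc τ hτ)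

/-! ### Gram determinants -/

lemma sqrt_det_gram_le {M : ℝ} (hM : 0 ≤ M) {v : Fin k → V} (hv : ∀ i, ‖v i‖ ≤ M) :
    √(Matrix.gram ℝ v).det ≤ √(k.factorial) * M ^ k := by
  have h1 : |(Matrix.gram ℝ v).det| ≤ (k.factorial : ℝ) * (M ^ 2) ^ k := by
    have h := Matrix.det_le (A := Matrix.gram ℝ v) (abv := AbsoluteValue.abs) (x := M ^ 2) ?_
    · rw [Fintype.card_fin, nsmul_eq_mul] at h
      exact h
    · intro i j
      rw [Matrix.gram_apply]
      calc |inner ℝ (v i) (v j)| ≤ ‖v i‖ * ‖v j‖ := abs_real_inner_le_norm _ _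
        _ ≤ M * M := mul_le_mul (hv i) (hv j) (norm_nonneg _) hM
        _ = M ^ 2 := by ring
  calc √(Matrix.gram ℝ v).det ≤ √((k.factorial : ℝ) * (M ^ 2) ^ k) :=
        Real.sqrt_le_sqrt ((le_abs_self _).trans h1)
    _ = √(k.factorial) * M ^ k := by
        rw [Real.sqrt_mul (by positivity), ← pow_mul, mul_comm 2 k, pow_mul,
          Real.sqrt_sq (by positivity)]

/-- Bound for the volume of a simplex in terms of the lengths of the partial derivatives. -/
lemma vol_le_of_norm_le {σ : Simp V k} {M : ℝ} (hM : 0 ≤ M)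
    (h : ∀ᵐ t ∂(volume.restrict (ordSimplex k)), ∀ i,
      ‖G.toLie (inCoord σ t) (fderiv ℝ (inCoord σ) t (Pi.single i 1))‖ ≤ M) :
    G.vol σ ≤ ENNReal.ofReal (√(k.factorial) * M ^ k) * volume (ordSimplex k) := by
  unfold vol
  calc ∫⁻ t in ordSimplex k, ENNReal.ofReal √(Matrix.gram ℝ fun j : Fin k =>
          G.toLie (inCoord σ t) (fderiv ℝ (inCoord σ) t (Pi.single j 1))).det
      ≤ ∫⁻ _t in ordSimplex k, ENNReal.ofReal (√(k.factorial) * M ^ k) := by
        refine lintegral_mono_ae ?_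
        filter_upwards [h] with t ht
        exact ENNReal.ofReal_le_ofReal (sqrt_det_gram_le hM ht)
    _ = _ := by rw [setLIntegral_const]

lemma volume_ordSimplex_lt_top : volume (ordSimplex k) < ⊤ := isCompact_ordSimplex.measure_lt_top

/-- The Gram determinant is the square of the determinant in an orthonormal basis. -/
lemma det_gram_eq (v : Fin (Module.finrank ℝ V) → V) :
    (Matrix.gram ℝ v).det = ((stdOrthonormalBasis ℝ V).toBasis.det v) ^ 2 := by
  set e := stdOrthonormalBasis ℝ V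
  have h : Matrix.gram ℝ v = (e.toBasis.toMatrix v).transpose * (e.toBasis.toMatrix v) := by
    ext i j
    rw [Matrix.gram_apply, Matrix.mul_apply]
    simp only [Matrix.transpose_apply, Module.Basis.toMatrix_apply, OrthonormalBasis.coe_toBasis_repr_apply,
      OrthonormalBasis.repr_apply_apply]
    rw [← e.sum_inner_mul_inner (v i) (v j)]
    refine Finset.sum_congr rfl fun l _ => ?_
    rw [real_inner_comm (v i)]
  rw [h, Matrix.det_mul, Matrix.det_transpose, Module.Basis.det_apply, sq]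

lemma alternating_comp_det (D : V [⋀^Fin (Module.finrank ℝ V)]→L[ℝ] ℝ) (L : V →L[ℝ] V)
    (u : Fin (Module.finrank ℝ V) → V) : D (fun i => L (u i)) = L.det * D u := by
  set e := (stdOrthonormalBasis ℝ V).toBasis
  have h := D.toAlternatingMap.eq_smul_basis_det e
  have h1 : ∀ w, D w = D e * e.det w := fun w => by
    have := congrArg (fun f => f w) h
    simpa using this
  rw [h1, h1 u]
  have := e.det_comp (L : V →ₗ[ℝ] V) u
  have e2 : e.det (fun i => L (u i)) = L.det * e.det u := this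
  rw [e2]; ring

/-- A constant-coefficient form of top degree is bounded by the Riemannian volume. -/
lemma exists_alternating_bound (D : V [⋀^Fin (Module.finrank ℝ V)]→L[ℝ] ℝ) :
    ∃ C : ℝ, 0 ≤ C ∧ ∀ (g : V) (u : Fin (Module.finrank ℝ V) → V),
      |D u| = C * √(Matrix.gram ℝ fun i => G.toLie g (u i)).det := by
  set e := (stdOrthonormalBasis ℝ V).toBasis with he
  have h := D.toAlternatingMap.eq_smul_basis_det e
  have h1 : ∀ w, D w = D e * e.det w := fun w => by
    have := congrArg (fun f => f w) h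
    simpa using this
  refine ⟨|D e|, abs_nonneg _, fun g u => ?_⟩
  rw [det_gram_eq, Real.sqrt_sq_eq_abs, ← abs_mul, ← he, ← h1 (fun i => G.toLie g (u i)),
    alternating_comp_det, G.det_toLie, one_mul]

/-- The integral of a form over a chain is bounded by the mass. -/
lemma exists_evalC_volInt_le (D : V [⋀^Fin (Module.finrank ℝ V)]→L[ℝ] ℝ) :
    ∃ C : ℝ, 0 ≤ C ∧ ∀ c : Chain V (Module.finrank ℝ V),
      ENNReal.ofReal |evalC (volInt D) c| ≤ ENNReal.ofReal C * G.mass c := by
  obtain ⟨C, hC, hCD⟩ := G.exists_alternating_bound D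
  refine ⟨C, hC, fun c => ?_⟩
  have h1 : ∀ σ : Simp V (Module.finrank ℝ V),
      ENNReal.ofReal |volInt D σ| ≤ ENNReal.ofReal C * G.vol σ := by
    intro σ
    rw [volInt, ← Real.enorm_eq_ofReal_abs]
    refine (enorm_integral_le_lintegral_enorm _).trans ?_
    rw [vol, ← lintegral_const_mul' _ _ ENNReal.ofReal_ne_top]
    refine lintegral_mono fun t => ?_
    rw [Real.enorm_eq_ofReal_abs, hCD (inCoord σ t), ENNReal.ofReal_mul hC]
  rw [evalC_apply]
  calc ENNReal.ofReal |∑ τ ∈ c.support, (c τ : ℝ) * volInt D τ|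
      ≤ ENNReal.ofReal (∑ τ ∈ c.support, |(c τ : ℝ) * volInt D τ|) :=
        ENNReal.ofReal_le_ofReal (Finset.abs_sum_le_sum_abs _ _)
    _ = ∑ τ ∈ c.support, ENNReal.ofReal |(c τ : ℝ) * volInt D τ| :=
        ENNReal.ofReal_sum_of_nonneg fun _ _ => abs_nonneg _
    _ ≤ ∑ τ ∈ c.support, ENNReal.ofReal C * (((c τ).natAbs : ℝ≥0∞) * G.vol τ) := by
        refine Finset.sum_le_sum fun τ _ => ?_
        rw [abs_mul, ENNReal.ofReal_mul (abs_nonneg _)]
        have e1 : ENNReal.ofReal |(c τ : ℝ)| = ((c τ).natAbs : ℝ≥0∞) := by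
          have e2 : |(c τ : ℝ)| = ((c τ).natAbs : ℝ) := by rw [Nat.cast_natAbs, Int.cast_abs]
          rw [e2, ENNReal.ofReal_natCast]
        rw [e1]
        calc ((c τ).natAbs : ℝ≥0∞) * ENNReal.ofReal |volInt D τ|
            ≤ ((c τ).natAbs : ℝ≥0∞) * (ENNReal.ofReal C * G.vol τ) := by
              gcongr; exact h1 τ
          _ = _ := by ring
    _ = ENNReal.ofReal C * G.mass c := by rw [← Finset.mul_sum]; rfl

end StratifiedGroup

end Pool.Agent.H36.Fill
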