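import Pool.Agent.H36.Fill.Mass2

/-!
# Model simplices

The simplex with vertices `p_0, ..., p_k` is
`p_0 · δ_{t_1}(p_0⁻¹ p_1) · δ_{t_2}(p_1⁻¹ p_2) ⋯ δ_{t_k}(p_{k-1}⁻¹ p_k)`
in the coordinates `1 ≥ t_1 ≥ ... ≥ t_k ≥ 0` of the ordered simplex. It is smooth, equivariant
under left translations and dilations, and compatible with faces.
-/

open MeasureTheory Set Filter
open scoped NNReal Topology

namespace Pool.Agent.H36.Fill

set_option linter.unusedSectionVars false

variable {V : Type*} [NormedAddCommGroup V] [InnerProductSpace ℝ V]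

namespace StratifiedGroup

variable (G : StratifiedGroup V)

/-- The model simplex, as a function of arbitrary barycentric coordinates. -/
noncomputable def mdl : (k : ℕ) → (Fin (k + 1) → V) → (Fin (k + 1) → ℝ) → V
  | 0, p, _ => p 0
  | k + 1, p, x =>
    G.mul (G.mul (p 0) (G.dil (∑ l : Fin (k + 1), x l.succ) (G.mul (-(p 0)) (p 1))))
      (G.mul (-(p 1)) (mdl k (fun i => p i.succ) (fun i => x i.succ)))

lemma mdl_succ (k : ℕ) (p : Fin (k + 2) → V) (x : Fin (k + 2) → ℝ) :
    G.mdl (k + 1) p x =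
      G.mul (G.mul (p 0) (G.dil (∑ l : Fin (k + 1), x l.succ) (G.mul (-(p 0)) (p 1))))
        (G.mul (-(p 1)) (G.mdl k (fun i => p i.succ) (fun i => x i.succ))) := rfl

lemma mul_neg_mul (g x y : V) : G.mul (-(G.mul g x)) (G.mul g y) = G.mul (-x) y := by
  rw [G.neg_mul_rev, G.mul_assoc, G.neg_mul_cancel]

lemma mdl_mul (g : V) : ∀ (k : ℕ) (p : Fin (k + 1) → V) (x : Fin (k + 1) → ℝ),
    G.mdl k (fun i => G.mul g (p i)) x = G.mul g (G.mdl k p x)
  | 0, p, x => rfl
  | k + 1, p, x => by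
    rw [mdl_succ, mdl_succ, mdl_mul g k (fun i => p i.succ), mul_neg_mul, mul_neg_mul,
      G.mul_assoc g, G.mul_assoc g]

lemma mdl_dil {R : ℝ} (hR : 0 < R) : ∀ (k : ℕ) (p : Fin (k + 1) → V) (x : Fin (k + 1) → ℝ),
    G.mdl k (fun i => G.dil R (p i)) x = G.dil R (G.mdl k p x)
  | 0, p, x => rfl
  | k + 1, p, x => by
    rw [mdl_succ, mdl_succ, mdl_dil hR k (fun i => p i.succ), ← map_neg, ← map_neg,
      ← G.dil_mul R _ _ hR, ← G.dil_mul R _ _ hR, G.dil_dil, mul_comm _ R, ← G.dil_dil,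
      ← G.dil_mul R _ _ hR, ← G.dil_mul R _ _ hR]

lemma dil_mul_of_nonneg {s : ℝ} (hs : 0 ≤ s) (x y : V) :
    G.dil s (G.mul x y) = G.mul (G.dil s x) (G.dil s y) := by
  rcases hs.eq_or_lt with h | h
  · rw [← h, G.dil_zero]; simp [G.mul_zero]
  · exact G.dil_mul s x y h

lemma tail_insertNth_succ {k : ℕ} (j : Fin (k + 1)) (a : ℝ) (x : Fin (k + 1) → ℝ) :
    (fun i : Fin (k + 1) => (j.succ.insertNth a x : Fin (k + 2) → ℝ) i.succ) =
      (j.insertNth a (fun i : Fin k => x i.succ) : Fin (k + 1) → ℝ) := by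
  funext i
  rcases Fin.eq_self_or_eq_succAbove j i with rfl | ⟨l, rfl⟩
  · rw [Fin.insertNth_apply_same, Fin.insertNth_apply_same]
  · rw [Fin.insertNth_apply_succAbove, ← Fin.succ_succAbove_succ, Fin.insertNth_apply_succAbove]

lemma mdl_face_succ : ∀ (k : ℕ) (p : Fin (k + 2) → V) (x : Fin (k + 1) → ℝ)
    (_ : ∀ i, 0 ≤ x i) (j : Fin (k + 1)),
    G.mdl (k + 1) p (j.succ.insertNth 0 x) = G.mdl k (fun i => p (j.succ.succAbove i)) x
  | 0, p, x, _, j => by
    have hj : j = 0 := Subsingleton.elim (α := Fin 1) j 0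
    subst hj
    rw [mdl_succ]
    have e1 : ∑ l : Fin 1, ((0 : Fin 1).succ.insertNth 0 x : Fin 2 → ℝ) l.succ = 0 := by
      rw [Fin.sum_univ_one]
      exact Fin.insertNth_apply_same (n := 1) (α := fun _ => ℝ) _ _ _
    rw [e1, G.dil_zero]
    simp only [mdl, LinearMap.zero_apply, G.mul_zero]
    have e2 : G.mul (-(p 1)) (p (0 : Fin 1).succ) = 0 := G.neg_mul_self (p 1)
    rw [e2, G.mul_zero]
    rfl
  | k + 1, p, x, hx, j => by
    rw [mdl_succ, tail_insertNth_succ]
    have hsum : ∑ l : Fin (k + 2),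
        (j.insertNth 0 (fun i : Fin (k + 1) => x i.succ) : Fin (k + 2) → ℝ) l =
        ∑ l : Fin (k + 1), x l.succ := by
      rw [Fin.sum_univ_succAbove _ j]
      simp
    rw [hsum]
    rcases Fin.eq_zero_or_eq_succ j with rfl | ⟨j', rfl⟩
    · -- the face opposite to the second vertex
      rw [G.mdl_succ k (fun i => p ((0 : Fin (k + 2)).succ.succAbove i)) x, G.mdl_succ k
        (fun i => p i.succ) ((0 : Fin (k + 2)).insertNth 0 fun i => x i.succ)]
      have hs2 : ∑ l : Fin (k + 1),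
          ((0 : Fin (k + 2)).insertNth 0 (fun i : Fin (k + 1) => x i.succ) : Fin (k + 2) → ℝ)
            l.succ = ∑ l : Fin (k + 1), x l.succ := by
        refine Finset.sum_congr rfl fun l _ => ?_
        rw [Fin.insertNth_zero', Fin.cons_succ]
      rw [hs2]
      have ht : (fun i : Fin (k + 1) => ((0 : Fin (k + 2)).insertNth 0
          (fun i : Fin (k + 1) => x i.succ) : Fin (k + 2) → ℝ) i.succ) = fun i => x i.succ := by
        funext i
        rw [Fin.insertNth_zero', Fin.cons_succ]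
      rw [ht]
      have h0 : (0 : Fin (k + 2)).succ.succAbove (0 : Fin (k + 2)) = 0 := rfl
      have h1 : (0 : Fin (k + 2)).succ.succAbove (1 : Fin (k + 2)) = 2 := by
        rw [Fin.succAbove_of_le_castSucc]
        · rfl
        · exact le_rfl
      have h2 : ∀ i : Fin (k + 1), (0 : Fin (k + 2)).succ.succAbove i.succ = i.succ.succ := by
        intro i
        rw [Fin.succ_succAbove_succ, Fin.succAbove_zero]
      simp only [h0, h1, h2]
      set s := ∑ l : Fin (k + 1), x l.succ with hs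
      have hs0 : 0 ≤ s := Finset.sum_nonneg fun i _ => hx _
      set M := G.mdl k (fun i => p i.succ.succ) fun i => x i.succ
      have e1 : p (0 : Fin (k + 2)).succ = p 1 := rfl
      have e2 : p (1 : Fin (k + 2)).succ = p 2 := rfl
      rw [e1, e2]
      have e3 : G.mul (-(p 0)) (p 2) = G.mul (G.mul (-(p 0)) (p 1)) (G.mul (-(p 1)) (p 2)) := by
        rw [G.mul_assoc, G.mul_neg_cancel]
      rw [e3, G.dil_mul_of_nonneg hs0 (G.mul (-(p 0)) (p 1)) (G.mul (-(p 1)) (p 2))]
      generalize G.dil s (G.mul (-(p 0)) (p 1)) = A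
      generalize G.dil s (G.mul (-(p 1)) (p 2)) = B
      simp only [G.mul_assoc, G.neg_mul_cancel]
    · have h0 : (j'.succ.succ).succAbove (0 : Fin (k + 2)) = 0 := rfl
      have h1 : (j'.succ.succ).succAbove (1 : Fin (k + 2)) = 1 := by
        rw [show (1 : Fin (k + 2)) = (0 : Fin (k + 1)).succ from rfl, Fin.succ_succAbove_succ,
          Fin.succ_succAbove_zero]
        rfl
      have h2 : ∀ i : Fin (k + 1), (j'.succ.succ).succAbove i.succ = (j'.succ.succAbove i).succ :=
        fun i => Fin.succ_succAbove_succ _ _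
      rw [mdl_face_succ k (fun i => p i.succ) (fun i => x i.succ) (fun i => hx _) j',
        G.mdl_succ k (fun i => p ((j'.succ.succ).succAbove i)) x]
      simp only [h0, h1, h2]

lemma mdl_face {k : ℕ} (p : Fin (k + 2) → V) {x : Fin (k + 1) → ℝ}
    (hx : x ∈ stdSimplex ℝ (Fin (k + 1))) (j : Fin (k + 2)) :
    G.mdl (k + 1) p (j.insertNth 0 x) = G.mdl k (fun i => p (j.succAbove i)) x := by
  rcases Fin.eq_zero_or_eq_succ j with rfl | ⟨j', rfl⟩
  · rw [mdl_succ]
    have hs : ∑ l : Fin (k + 1), ((0 : Fin (k + 2)).insertNth 0 x : Fin (k + 2) → ℝ) l.succ = 1 := by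
      rw [← hx.2]
      refine Finset.sum_congr rfl fun l _ => ?_
      rw [Fin.insertNth_zero', Fin.cons_succ]
    have ht : (fun i : Fin (k + 1) => ((0 : Fin (k + 2)).insertNth 0 x : Fin (k + 2) → ℝ) i.succ) =
        x := by
      funext i
      rw [Fin.insertNth_zero', Fin.cons_succ]
    rw [hs, ht, G.dil_one]
    simp only [LinearMap.id_apply, G.mul_neg_cancel, Fin.succAbove_zero]
  · exact G.mdl_face_succ k p x hx.1 j'

/-- The model simplex as a singular simplex. -/
noncomputable def mdlS (k : ℕ) (p : Fin (k + 1) → V) : Simp V k := fun y => G.mdl k p y.1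

lemma mdlS_face {k : ℕ} (p : Fin (k + 2) → V) (j : Fin (k + 2)) :
    (fun y => G.mdlS (k + 1) p (stdSimplex.map j.succAbove y)) =
      G.mdlS k (fun i => p (j.succAbove i)) := by
  funext y
  rw [mdlS, mdlS, coe_map_succAbove, G.mdl_face p y.2]

lemma lt_mdlS (g : V) (k : ℕ) (p : Fin (k + 1) → V) :
    G.lt g (G.mdlS k p) = G.mdlS k (fun i => G.mul g (p i)) := by
  funext y
  rw [lt, mdlS, mdlS, mdl_mul]

lemma inCoord_mdlS {k : ℕ} (p : Fin (k + 1) → V) {t : Fin k → ℝ} (ht : t ∈ ordSimplex k) :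
    inCoord (G.mdlS k p) t = G.mdl k p (ord t) := by
  have ht' : ord t ∈ stdSimplex ℝ (Fin (k + 1)) := ht
  rw [inCoord, dif_pos ht']
  rfl

lemma fderiv_inCoord_mdlS {k : ℕ} (p : Fin (k + 1) → V) {t : Fin k → ℝ}
    (ht : t ∈ interior (ordSimplex k)) :
    fderiv ℝ (inCoord (G.mdlS k p)) t = fderiv ℝ (fun s => G.mdl k p (ord s)) t := by
  apply Filter.EventuallyEq.fderiv_eq
  filter_upwards [mem_interior_iff_mem_nhds.mp ht] with s hs
  exact G.inCoord_mdlS p hs

section Smooth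

variable [FiniteDimensional ℝ V]

lemma contDiff_mdl {E : Type*} [NormedAddCommGroup E] [NormedSpace ℝ E] {n : WithTop ℕ∞}
    (hn : n ≤ ((⊤ : ℕ∞) : WithTop ℕ∞)) : ∀ (k : ℕ) {f : E → Fin (k + 1) → V}
    {g : E → Fin (k + 1) → ℝ} (_ : ContDiff ℝ n f) (_ : ContDiff ℝ n g),
    ContDiff ℝ n (fun x => G.mdl k (f x) (g x))
  | 0, f, g, hf, _ => (contDiff_pi.mp hf) 0
  | k + 1, f, g, hf, hg => by
    have hf' := contDiff_pi.mp hf
    have hg' := contDiff_pi.mp hg
    simp only [mdl_succ]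
    refine G.contDiff_mul hn (G.contDiff_mul hn (hf' 0) (G.contDiff_dil ?_
      (G.contDiff_mul hn (hf' 0).neg (hf' 1)))) (G.contDiff_mul hn (hf' 1).neg ?_)
    · exact ContDiff.sum fun i _ => hg' i.succ
    · exact contDiff_mdl hn k (contDiff_pi.mpr fun i => hf' i.succ)
        (contDiff_pi.mpr fun i => hg' i.succ)

end Smooth

end StratifiedGroup

end Pool.Agent.H36.Fill
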