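import Pool.Agent.H36.Fill.Model

/-!
# Estimates for the model simplices
-/

open MeasureTheory Set Filter
open scoped NNReal Topology ENNReal

namespace Pool.Agent.H36.Fill

set_option linter.unusedSectionVars false

variable {V : Type*} [NormedAddCommGroup V] [InnerProductSpace ℝ V] [FiniteDimensional ℝ V]

/-- Second order Taylor estimate on balls. -/
lemma taylor_two {E F : Type*} [NormedAddCommGroup E] [NormedSpace ℝ E] [FiniteDimensional ℝ E]
    [NormedAddCommGroup F] [NormedSpace ℝ F] {Φ : E → F} (hΦ : ContDiff ℝ 2 Φ) (R : ℝ) :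
    ∃ C : ℝ, 0 ≤ C ∧ ∀ x ∈ Metric.closedBall (0 : E) R, ∀ y ∈ Metric.closedBall (0 : E) R,
      ‖Φ y - Φ x - fderiv ℝ Φ x (y - x)‖ ≤ C * ‖y - x‖ ^ 2 := by
  have hΦ' : ContDiff ℝ 1 (fderiv ℝ Φ) := hΦ.fderiv_right (by norm_num)
  obtain ⟨K, hK⟩ := lipschitzOnWith_ball hΦ' R
  refine ⟨K, K.2, fun x hx y hy => ?_⟩
  set S := Metric.closedBall (0 : E) R ∩ Metric.closedBall x ‖y - x‖ with hS
  have hconv : Convex ℝ S := (convex_closedBall _ _).inter (convex_closedBall _ _)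
  have hxS : x ∈ S := ⟨hx, Metric.mem_closedBall_self (norm_nonneg _)⟩
  have hyS : y ∈ S := ⟨hy, by rw [Metric.mem_closedBall, dist_eq_norm]⟩
  have hd : ∀ z ∈ S, HasFDerivWithinAt (fun z => Φ z - fderiv ℝ Φ x z)
      (fderiv ℝ Φ z - fderiv ℝ Φ x) S z := by
    intro z _
    exact ((hΦ.differentiable two_ne_zero z).hasFDerivAt.sub
      (fderiv ℝ Φ x).hasFDerivAt).hasFDerivWithinAt
  have hb : ∀ z ∈ S, ‖fderiv ℝ Φ z - fderiv ℝ Φ x‖ ≤ K * ‖y - x‖ := by
    intro z hz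
    have h1 := hK.dist_le_mul z hz.1 x hx
    rw [dist_eq_norm] at h1
    exact h1.trans (mul_le_mul_of_nonneg_left (Metric.mem_closedBall.mp hz.2) K.2)
  have h2 := hconv.norm_image_sub_le_of_norm_hasFDerivWithin_le hd hb hxS hyS
  have e : Φ y - fderiv ℝ Φ x y - (Φ x - fderiv ℝ Φ x x) = Φ y - Φ x - fderiv ℝ Φ x (y - x) := by
    rw [map_sub]; abel
  rw [e] at h2
  calc _ ≤ K * ‖y - x‖ * ‖y - x‖ := h2
    _ = _ := by ring

namespace StratifiedGroup

variable (G : StratifiedGroup V)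

lemma isLip_mdlS (k : ℕ) (p : Fin (k + 1) → V) : ∃ K : ℝ≥0, LipschitzWith K (G.mdlS k p) := by
  have h : ContDiff ℝ 1 (fun x : Fin (k + 1) → ℝ => G.mdl k p x) :=
    G.contDiff_mdl (by simp) k contDiff_const contDiff_id
  obtain ⟨K, hK⟩ := lipschitzOnWith_ball h 1
  refine ⟨K, LipschitzWith.of_dist_le_mul fun x y => ?_⟩
  exact hK.dist_le_mul x.1 (stdSimplex_subset_closedBall x.2) y.1
    (stdSimplex_subset_closedBall y.2)

/-- The model map in the coordinates of the ordered simplex, jointly in all variables. -/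
noncomputable def mm (k : ℕ) (q : (Fin (k + 1) → V) × (Fin k → ℝ)) : V := G.mdl k q.1 (ord q.2)

lemma contDiff_mm (k : ℕ) : ContDiff ℝ ((⊤ : ℕ∞) : WithTop ℕ∞) (G.mm k) :=
  G.contDiff_mdl le_rfl k contDiff_fst (contDiff_ord.comp contDiff_snd)

/-- The partial derivatives of the model map. -/
noncomputable def JJ (k : ℕ) (i : Fin k) (q : (Fin (k + 1) → V) × (Fin k → ℝ)) : V :=
  fderiv ℝ (G.mm k) q (0, Pi.single i 1)

lemma contDiff_JJ (k : ℕ) (i : Fin k) : ContDiff ℝ 2 (G.JJ k i) := by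
  have h : ContDiff ℝ 2 (fderiv ℝ (G.mm k)) :=
    (G.contDiff_mm k).fderiv_right (m := 2) (by norm_cast)
  exact h.clm_apply contDiff_const

lemma hasFDerivAt_mm (k : ℕ) (q) : HasFDerivAt (G.mm k) (fderiv ℝ (G.mm k) q) q :=
  ((G.contDiff_mm k).differentiable (by simp) q).hasFDerivAt

lemma fderiv_mdl_ord (k : ℕ) (p : Fin (k + 1) → V) (t : Fin k → ℝ) (i : Fin k) :
    fderiv ℝ (fun s => G.mdl k p (ord s)) t (Pi.single i 1) = G.JJ k i (p, t) := by
  have h1 : HasFDerivAt (fun s : Fin k → ℝ => (p, s)) (ContinuousLinearMap.inr ℝ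
      (Fin (k + 1) → V) (Fin k → ℝ)) t := hasFDerivAt_prodMk_right p t
  have h2 := (G.hasFDerivAt_mm k (p, t)).comp t h1
  have h3 : (G.mm k ∘ fun s : Fin k → ℝ => (p, s)) = fun s => G.mdl k p (ord s) := rfl
  rw [h3] at h2
  rw [h2.fderiv, JJ]
  rfl

lemma norm_le_one_of_mem {k : ℕ} {t : Fin k → ℝ} (ht : t ∈ ordSimplex k) : ‖t‖ ≤ 1 := by
  have h := ordSimplex_subset_Icc ht
  refine (pi_norm_le_iff_of_nonneg zero_le_one).mpr fun i => ?_
  rw [Real.norm_eq_abs, abs_le]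
  constructor
  · have := h.1 i; simp at this; linarith
  · exact h.2 i

/-- Uniform bound for the volumes of model simplices with vertices in a ball. -/
lemma exists_vol_mdlS_le_ball (k : ℕ) (r : ℝ) :
    ∃ B : ℝ≥0∞, B < ⊤ ∧ ∀ p : Fin (k + 1) → V, (∀ i, ‖p i‖ ≤ r) → G.vol (G.mdlS k p) ≤ B := by
  classical
  have hcont : Continuous (fun q : (Fin (k + 1) → V) × (Fin k → ℝ) =>
      ∑ i, ‖G.toLie (G.mm k q) (G.JJ k i q)‖) := by
    refine continuous_finsetSum _ fun i _ => ?_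
    refine Continuous.norm ?_
    exact (G.continuous_toLie.comp (G.contDiff_mm k).continuous).clm_apply
      (G.contDiff_JJ k i).continuous
  obtain ⟨M, hM⟩ := ((isCompact_closedBall (0 : Fin (k + 1) → V) r).prod
    (isCompact_ordSimplex (k := k))).bddAbove_image hcont.continuousOn
  refine ⟨ENNReal.ofReal (√(k.factorial) * (max M 0) ^ k) * volume (ordSimplex k),
    ENNReal.mul_lt_top ENNReal.ofReal_lt_top volume_ordSimplex_lt_top, fun p hp => ?_⟩
  refine G.vol_le_of_norm_le (le_max_right _ _) ?_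
  filter_upwards [ae_mem_interior (k := k)] with t ht i
  have htm := interior_subset ht
  rw [G.inCoord_mdlS p htm, G.fderiv_inCoord_mdlS p ht, G.fderiv_mdl_ord]
  refine le_trans ?_ (le_max_left _ _)
  have hr : 0 ≤ r := (norm_nonneg _).trans (hp 0)
  have hmem : (p, t) ∈ (Metric.closedBall (0 : Fin (k + 1) → V) r) ×ˢ (ordSimplex k) := by
    refine ⟨?_, htm⟩
    rw [mem_closedBall_zero_iff]
    exact (pi_norm_le_iff_of_nonneg hr).mpr hp
  have h1 := hM (mem_image_of_mem _ hmem)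
  refine le_trans ?_ h1
  exact Finset.single_le_sum (f := fun i => ‖G.toLie (G.mm k (p, t)) (G.JJ k i (p, t))‖)
    (fun _ _ => norm_nonneg _) (Finset.mem_univ i)

/-- Uniform bound for the volumes of model simplices of bounded size. -/
lemma exists_vol_mdlS_le (k : ℕ) (r : ℝ) :
    ∃ B : ℝ≥0∞, B < ⊤ ∧ ∀ p : Fin (k + 1) → V, (∀ i, ‖G.mul (-(p 0)) (p i)‖ ≤ r) →
      G.vol (G.mdlS k p) ≤ B := by
  obtain ⟨B, hB, h⟩ := G.exists_vol_mdlS_le_ball k r
  refine ⟨B, hB, fun p hp => ?_⟩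
  have e : G.mdlS k p = G.lt (p 0) (G.mdlS k fun i => G.mul (-(p 0)) (p i)) := by
    rw [lt_mdlS]; simp
  rw [e, G.vol_lt]
  exact h _ hp

/-! ### The linearised model -/

/-- The linearisation of the model simplex at `p = 0`. -/
noncomputable def mdl0 : (k : ℕ) → (Fin (k + 1) → V) → (Fin (k + 1) → ℝ) → V
  | 0, p, _ => p 0
  | k + 1, p, x => p 0 + G.dil (∑ l : Fin (k + 1), x l.succ) (-(p 0) + p 1) +
      (-(p 1) + mdl0 k (fun i => p i.succ) (fun i => x i.succ))

lemma mdl_zero : ∀ (k : ℕ) (x : Fin (k + 1) → ℝ), G.mdl k 0 x = 0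
  | 0, x => rfl
  | k + 1, x => by
    rw [mdl_succ]
    have := mdl_zero k (fun i => x i.succ)
    simp only [Pi.zero_apply, neg_zero, G.zero_mul, map_zero]
    exact this

lemma hasFDerivAt_mul_comp {E : Type*} [NormedAddCommGroup E] [NormedSpace ℝ E] {f g : E → V}
    {f' g' : E →L[ℝ] V} (hf : HasFDerivAt f f' 0) (hg : HasFDerivAt g g' 0) (hf0 : f 0 = 0)
    (hg0 : g 0 = 0) : HasFDerivAt (fun x => G.mul (f x) (g x)) (f' + g') 0 := by
  have h := G.hasFDerivAt_mul_zero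
  have h1 : HasFDerivAt (fun x => (f x, g x)) (f'.prod g') 0 := hf.prodMk hg
  have h2 : HasFDerivAt (fun p : V × V => G.mul p.1 p.2)
      (ContinuousLinearMap.fst ℝ V V + ContinuousLinearMap.snd ℝ V V) (f 0, g 0) := by
    rw [hf0, hg0]; exact h
  have h3 := h2.comp (0 : E) h1
  have e : (ContinuousLinearMap.fst ℝ V V + ContinuousLinearMap.snd ℝ V V).comp (f'.prod g') =
      f' + g' := by ext x; simp
  rw [e] at h3
  exact h3

lemma hasFDerivAt_mdl : ∀ (k : ℕ) (x : Fin (k + 1) → ℝ),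
    ∃ L : (Fin (k + 1) → V) →L[ℝ] V, (∀ p, L p = G.mdl0 k p x) ∧
      HasFDerivAt (fun p => G.mdl k p x) L 0
  | 0, x => ⟨ContinuousLinearMap.proj 0, fun p => rfl,
      (ContinuousLinearMap.proj (R := ℝ) (φ := fun _ : Fin 1 => V) 0).hasFDerivAt⟩
  | k + 1, x => by
    obtain ⟨L, hL, hd⟩ := hasFDerivAt_mdl k (fun i => x i.succ)
    let pr : Fin (k + 2) → ((Fin (k + 2) → V) →L[ℝ] V) := fun i =>
      ContinuousLinearMap.proj (R := ℝ) (φ := fun _ : Fin (k + 2) => V) i
    let tlL : (Fin (k + 2) → V) →L[ℝ] (Fin (k + 1) → V) :=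
      ContinuousLinearMap.pi fun i => pr i.succ
    set s := ∑ l : Fin (k + 1), x l.succ with hs
    have hpr : ∀ i, HasFDerivAt (fun p : Fin (k + 2) → V => p i) (pr i) 0 := fun i =>
      (pr i).hasFDerivAt
    have h1 : HasFDerivAt (fun p : Fin (k + 2) → V => G.mul (-(p 0)) (p 1)) (-(pr 0) + pr 1) 0 :=
      G.hasFDerivAt_mul_comp (hpr 0).neg (hpr 1) (by simp) rfl
    have h2 : HasFDerivAt (fun p : Fin (k + 2) → V => G.dil s (G.mul (-(p 0)) (p 1)))
        ((G.dilL s).comp (-(pr 0) + pr 1)) 0 := (G.dilL s).hasFDerivAt.comp _ h1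
    have h3 := G.hasFDerivAt_mul_comp (hpr 0) h2 rfl (by simp [G.mul_zero])
    have h4 : HasFDerivAt (fun p : Fin (k + 2) → V => G.mdl k (fun i => p i.succ)
        (fun i => x i.succ)) (L.comp tlL) 0 := by
      have h5 : HasFDerivAt (fun p : Fin (k + 2) → V => (fun i => p i.succ : Fin (k + 1) → V))
        tlL 0 := tlL.hasFDerivAt
      exact HasFDerivAt.comp (0 : Fin (k + 2) → V)
        (g := fun p => G.mdl k p (fun i => x i.succ)) hd h5
    have h6 := G.hasFDerivAt_mul_comp (hpr 1).neg h4 (by simp) (G.mdl_zero k _)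
    have h7 := G.hasFDerivAt_mul_comp h3 h6 (by simp [G.mul_zero])
      (by
        have h8 := G.mdl_zero k (fun i => x i.succ)
        have h9 : ((-fun p : Fin (k + 2) → V => p 1) 0) = 0 := by simp
        rw [h9, G.zero_mul]
        exact h8)
    refine ⟨_, fun p => ?_, h7⟩
    rw [mdl0]
    simp only [add_apply, ContinuousLinearMap.comp_apply, neg_apply, hL]
    rfl

lemma mdl0_eq : ∀ (k : ℕ) (p : Fin (k + 1) → V) (x : Fin (k + 1) → ℝ),
    G.mdl0 k p x = p 0 + ∑ i : Fin k, G.dil (tl x i) (p i.succ - p i.castSucc)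
  | 0, p, x => by simp [mdl0]
  | k + 1, p, x => by
    rw [mdl0, mdl0_eq k (fun i => p i.succ) (fun i => x i.succ)]
    have h0 := Fin.sum_univ_succ (fun i : Fin (k + 1) => G.dil (tl x i) (p i.succ - p i.castSucc))
    rw [h0]
    have h1 : tl x 0 = ∑ l : Fin (k + 1), x l.succ := by
      rw [tl, Fin.sum_univ_succ]
      simp
    have h2 : ∀ i : Fin k, tl x i.succ = tl (fun i => x i.succ) i := by
      intro i
      rw [tl, tl, Fin.sum_univ_succ]
      have : ¬ (i.succ.castSucc < (0 : Fin (k + 2))) := by simp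
      rw [if_neg this, zero_add]
      refine Finset.sum_congr rfl fun l _ => ?_
      have h4 : (i.succ.castSucc < l.succ) ↔ (i.castSucc < l) := by
        rw [← Fin.succ_castSucc, Fin.succ_lt_succ_iff]
      by_cases h5 : i.castSucc < l
      · rw [if_pos (h4.mpr h5), if_pos h5]
      · rw [if_neg (fun h => h5 (h4.mp h)), if_neg h5]
    have e1 : (0 : Fin (k + 1)).succ = 1 := rfl
    have e2 : (0 : Fin (k + 1)).castSucc = 0 := rfl
    have h3 : ∑ i : Fin k, G.dil (tl x i.succ) (p i.succ.succ - p i.succ.castSucc) =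
        ∑ i : Fin k, G.dil (tl (fun i => x i.succ) i) (p i.succ.succ - p i.castSucc.succ) := by
      refine Finset.sum_congr rfl fun i _ => ?_
      rw [h2, Fin.succ_castSucc]
    rw [h1, h3, e1, e2, neg_add_eq_sub]
    abel

end StratifiedGroup

end Pool.Agent.H36.Fill
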