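import Pool.Agent.H36.Fill.Model2

/-!
# The volume of small model simplices
-/

open MeasureTheory Set Filter
open scoped NNReal Topology ENNReal

namespace Pool.Agent.H36.Fill

set_option linter.unusedSectionVars false

variable {V : Type*} [NormedAddCommGroup V] [InnerProductSpace ℝ V] [FiniteDimensional ℝ V]

namespace StratifiedGroup

variable (G : StratifiedGroup V)

/-- The derivative of the dilations with respect to the parameter. -/
noncomputable def ddil (t : ℝ) : V →L[ℝ] V :=
  ∑ i, (G.wt i * t ^ (G.wt i - 1) : ℝ) •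
    (LinearMap.toContinuousLinearMap (G.bas.coord i)).smulRight (G.bas i)

lemma ddil_apply (t : ℝ) (x : V) :
    G.ddil t x = ∑ i, (G.wt i * t ^ (G.wt i - 1) * G.bas.coord i x : ℝ) • G.bas i := by
  rw [ddil, sum_apply]
  refine Finset.sum_congr rfl fun i _ => ?_
  rw [smul_apply, ContinuousLinearMap.smulRight_apply, smul_smul]
  rfl

lemma hasDerivAt_dil (t : ℝ) (x : V) : HasDerivAt (fun s => G.dil s x) (G.ddil t x) t := by
  simp only [G.dil_eq_sum, G.ddil_apply]
  refine HasDerivAt.fun_sum fun i _ => ?_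
  exact ((hasDerivAt_pow (G.wt i) t).mul_const _).smul_const _

lemma continuous_ddil : Continuous G.ddil := by
  unfold ddil
  refine continuous_finsetSum _ fun i _ => ?_
  exact (continuous_const.mul (continuous_pow _)).smul continuous_const

lemma ddil_bas (t : ℝ) (i : Fin (Module.finrank ℝ V)) :
    G.ddil t (G.bas i) = (G.wt i * t ^ (G.wt i - 1) : ℝ) • G.bas i := by
  rw [G.ddil_apply, Finset.sum_eq_single i]
  · simp
  · intro j _ hj
    simp [Module.Basis.coord_apply, hj.symm]
  · intro h; exact absurd (Finset.mem_univ i) h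

lemma fderiv_mm_apply (k : ℕ) (p : Fin (k + 1) → V) (t : Fin k → ℝ) :
    fderiv ℝ (G.mm k) (0, t) (p, 0) = p 0 + ∑ i : Fin k, G.dil (t i) (p i.succ - p i.castSucc) := by
  obtain ⟨L, hL, hd⟩ := G.hasFDerivAt_mdl k (ord t)
  have h1 : HasFDerivAt (fun s : Fin (k + 1) → V => (s, t)) (ContinuousLinearMap.inl ℝ
      (Fin (k + 1) → V) (Fin k → ℝ)) 0 := hasFDerivAt_prodMk_left 0 t
  have h2 := (G.hasFDerivAt_mm k (0, t)).comp (0 : Fin (k + 1) → V) h1
  have h3 : (G.mm k ∘ fun s : Fin (k + 1) → V => (s, t)) = fun p => G.mdl k p (ord t) := rfl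
  rw [h3] at h2
  have h4 := congrArg (fun A => A p) (h2.unique hd)
  simp only [ContinuousLinearMap.comp_apply, ContinuousLinearMap.inl_apply] at h4
  rw [h4, hL, G.mdl0_eq, tl_ord]

lemma JJ_zero (k : ℕ) (i : Fin k) (t : Fin k → ℝ) : G.JJ k i (0, t) = 0 := by
  rw [← fderiv_mdl_ord]
  have h : (fun s : Fin k → ℝ => G.mdl k 0 (ord s)) = fun _ => 0 := by
    funext s; exact G.mdl_zero k _
  rw [h]
  simp

lemma fderiv_JJ (k : ℕ) (i : Fin k) (p : Fin (k + 1) → V) (t : Fin k → ℝ) :
    fderiv ℝ (G.JJ k i) (0, t) (p, 0) = G.ddil (t i) (p i.succ - p i.castSucc) := by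
  have hsm : ContDiff ℝ 1 (fderiv ℝ (G.mm k)) :=
    (G.contDiff_mm k).fderiv_right (m := 1) (by norm_cast)
  have hd : DifferentiableAt ℝ (fderiv ℝ (G.mm k)) (0, t) := hsm.differentiable one_ne_zero _
  have hap : ∀ v w, fderiv ℝ (fun q => fderiv ℝ (G.mm k) q v) (0, t) w =
      fderiv ℝ (fderiv ℝ (G.mm k)) (0, t) w v := by
    intro v w
    have h := hd.hasFDerivAt.clm_apply (hasFDerivAt_const v ((0, t) : (Fin (k + 1) → V) × _))
    rw [h.fderiv]
    simp
  have hsymm : fderiv ℝ (fderiv ℝ (G.mm k)) (0, t) (p, 0) (0, Pi.single i 1) =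
      fderiv ℝ (fderiv ℝ (G.mm k)) (0, t) (0, Pi.single i 1) (p, 0) := by
    have h := (G.contDiff_mm k).contDiffAt.isSymmSndFDerivAt (x := (0, t))
      (by
        rw [minSmoothness_of_isRCLikeNormedField]
        exact WithTop.coe_le_coe.mpr (le_top : (2 : ℕ∞) ≤ ⊤))
    exact h _ _
  have e1 : fderiv ℝ (G.JJ k i) (0, t) (p, 0) =
      fderiv ℝ (fun q => fderiv ℝ (G.mm k) q (p, 0)) (0, t) (0, Pi.single i 1) := by
    rw [hap, ← hsymm, ← hap]
    rfl
  rw [e1]
  -- the derivative along a line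
  have hd2 : DifferentiableAt ℝ (fun q => fderiv ℝ (G.mm k) q (p, 0)) (0, t) :=
    hd.clm_apply (differentiableAt_const _)
  have hline : HasDerivAt (fun s : ℝ => ((0 : Fin (k + 1) → V), t + s • Pi.single i (1 : ℝ)))
      (0, Pi.single i 1) 0 := by
    have a : HasDerivAt (fun s : ℝ => t + s • (Pi.single i (1 : ℝ) : Fin k → ℝ))
        (Pi.single i 1) 0 := by
      have := ((hasDerivAt_id (0 : ℝ)).smul_const (Pi.single i (1 : ℝ) : Fin k → ℝ)).const_add t
      simpa using this
    exact (hasDerivAt_const (0 : ℝ) (0 : Fin (k + 1) → V)).prodMk a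
  have hF : HasFDerivAt (fun q => fderiv ℝ (G.mm k) q (p, 0))
      (fderiv ℝ (fun q => fderiv ℝ (G.mm k) q (p, 0)) (0, t))
      ((0 : Fin (k + 1) → V), t + (0 : ℝ) • Pi.single i (1 : ℝ)) := by
    rw [zero_smul, add_zero]; exact hd2.hasFDerivAt
  have h1 := hF.comp_hasDerivAt (0 : ℝ) hline
  have h2 : HasDerivAt (fun s : ℝ => p 0 + ∑ l : Fin k,
      G.dil ((t + s • (Pi.single i (1 : ℝ) : Fin k → ℝ)) l) (p l.succ - p l.castSucc))
      (G.ddil (t i) (p i.succ - p i.castSucc)) 0 := by
    have h3 : HasDerivAt (fun s : ℝ => ∑ l : Fin k,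
        G.dil ((t + s • (Pi.single i (1 : ℝ) : Fin k → ℝ)) l) (p l.succ - p l.castSucc))
        (∑ l : Fin k, if l = i then G.ddil (t i) (p i.succ - p i.castSucc) else 0) 0 := by
      refine HasDerivAt.fun_sum fun l _ => ?_
      by_cases hl : l = i
      · subst hl
        rw [if_pos rfl]
        have a : HasDerivAt (fun s : ℝ => (t + s • (Pi.single l (1 : ℝ) : Fin k → ℝ)) l) 1 0 := by
          have := (hasDerivAt_id (0 : ℝ)).const_add (t l)
          simpa using this
        have b : HasDerivAt (fun s => G.dil s (p l.succ - p l.castSucc))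
            (G.ddil (t l) (p l.succ - p l.castSucc))
            ((t + (0 : ℝ) • (Pi.single l (1 : ℝ) : Fin k → ℝ)) l) := by
          rw [zero_smul, add_zero]; exact G.hasDerivAt_dil _ _
        have c := b.scomp (0 : ℝ) a
        rw [one_smul] at c
        exact c
      · rw [if_neg hl]
        have : (fun s : ℝ => G.dil ((t + s • (Pi.single i (1 : ℝ) : Fin k → ℝ)) l)
            (p l.succ - p l.castSucc)) = fun _ => G.dil (t l) (p l.succ - p l.castSucc) := by
          funext s
          simp [Pi.single_eq_of_ne hl]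
        rw [this]
        exact hasDerivAt_const _ _
    rw [Finset.sum_ite_eq' Finset.univ i, if_pos (Finset.mem_univ i)] at h3
    exact h3.const_add _
  have h4 : (fun q => fderiv ℝ (G.mm k) q (p, 0)) ∘
      (fun s : ℝ => ((0 : Fin (k + 1) → V), t + s • Pi.single i (1 : ℝ))) =
      fun s : ℝ => p 0 + ∑ l : Fin k,
      G.dil ((t + s • (Pi.single i (1 : ℝ) : Fin k → ℝ)) l) (p l.succ - p l.castSucc) := by
    funext s
    exact G.fderiv_mm_apply k p _
  rw [h4] at h1
  exact h1.unique h2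

/-! ### The linearised volume -/

variable {n : ℕ}

/-- The integral of the form `D` over the model simplex. -/
noncomputable def cc (D : V [⋀^Fin n]→L[ℝ] ℝ) (p : Fin (n + 1) → V) : ℝ := volInt D (G.mdlS n p)

lemma cc_eq (D : V [⋀^Fin n]→L[ℝ] ℝ) (p : Fin (n + 1) → V) :
    G.cc D p = ∫ t in ordSimplex n, D fun i => G.JJ n i (p, t) := by
  rw [cc, volInt]
  refine integral_congr_ae ?_
  filter_upwards [ae_mem_interior (k := n)] with t ht
  congr 1
  funext i
  rw [G.fderiv_inCoord_mdlS p ht, G.fderiv_mdl_ord]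

lemma continuous_ddil_apply (D : V [⋀^Fin n]→L[ℝ] ℝ) (u : Fin n → V) :
    Continuous fun t : Fin n → ℝ => D fun i => G.ddil (t i) (u i) := by
  refine D.cont.comp (continuous_pi fun i => ?_)
  exact (G.continuous_ddil.comp (continuous_apply i)).clm_apply continuous_const

lemma integrableOn_ddil (D : V [⋀^Fin n]→L[ℝ] ℝ) (u : Fin n → V) :
    IntegrableOn (fun t : Fin n → ℝ => D fun i => G.ddil (t i) (u i)) (ordSimplex n) :=
  (G.continuous_ddil_apply D u).continuousOn.integrableOn_compact isCompact_ordSimplex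

/-- The linearised volume, as a multilinear function of the increments. -/
noncomputable def BB (D : V [⋀^Fin n]→L[ℝ] ℝ) : MultilinearMap ℝ (fun _ : Fin n => V) ℝ :=
  MultilinearMap.mk' (fun u => ∫ t in ordSimplex n, D fun i => G.ddil (t i) (u i))
    (fun u i x y => by
      rw [← integral_add (G.integrableOn_ddil D _) (G.integrableOn_ddil D _)]
      congr 1
      funext t
      have h : ∀ z : V, (fun l => G.ddil (t l) (Function.update u i z l)) =
          Function.update (fun l => G.ddil (t l) (u l)) i (G.ddil (t i) z) := by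
        intro z
        funext l
        by_cases hl : l = i
        · subst hl; simp
        · simp [Function.update_of_ne hl]
      rw [h, h, h, map_add, D.map_update_add])
    (fun u i c x => by
      rw [smul_eq_mul, ← integral_const_mul]
      congr 1
      funext t
      have h : ∀ z : V, (fun l => G.ddil (t l) (Function.update u i z l)) =
          Function.update (fun l => G.ddil (t l) (u l)) i (G.ddil (t i) z) := by
        intro z
        funext l
        by_cases hl : l = i
        · subst hl; simp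
        · simp [Function.update_of_ne hl]
      rw [h, h, map_smul, D.map_update_smul, smul_eq_mul])

lemma BB_apply (D : V [⋀^Fin n]→L[ℝ] ℝ) (u : Fin n → V) :
    G.BB D u = ∫ t in ordSimplex n, D fun i => G.ddil (t i) (u i) := rfl

lemma exists_norm_ddil_le : ∃ M : ℝ, 0 ≤ M ∧ ∀ s ∈ Icc (0 : ℝ) 1, ‖G.ddil s‖ ≤ M := by
  obtain ⟨M, hM⟩ := (isCompact_Icc (a := (0 : ℝ)) (b := 1)).bddAbove_image
    (G.continuous_ddil.norm).continuousOn
  exact ⟨max M 0, le_max_right _ _, fun s hs => (hM (mem_image_of_mem _ hs)).trans (le_max_left _ _)⟩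

lemma exists_cc_sub_le {m : ℕ} (D : V [⋀^Fin (m + 1)]→L[ℝ] ℝ) :
    ∃ C : ℝ, 0 ≤ C ∧ ∀ p : Fin (m + 2) → V, ‖p‖ ≤ 1 →
      |G.cc D p - G.BB D (fun i => p i.succ - p i.castSucc)| ≤ C * ‖p‖ ^ (m + 2) := by
  obtain ⟨M, hM0, hM⟩ := G.exists_norm_ddil_le
  choose Ci hCi0 hCi using fun i : Fin (m + 1) => taylor_two (G.contDiff_JJ (m + 1) i) 1
  set C := ∑ i, Ci i with hC
  have hC0 : 0 ≤ C := Finset.sum_nonneg fun i _ => hCi0 i
  have hCle : ∀ i, Ci i ≤ C := fun i =>
    Finset.single_le_sum (f := Ci) (fun i _ => hCi0 i) (Finset.mem_univ i)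
  set K := (2 * M + C) with hK
  have hK0 : 0 ≤ K := by positivity
  refine ⟨‖D.toContinuousMultilinearMap‖ * (m + 1) * K ^ m * C *
    (volume (ordSimplex (m + 1))).toReal, by positivity, fun p hp => ?_⟩
  have hest : ∀ t ∈ ordSimplex (m + 1), ∀ i,
      ‖G.JJ (m + 1) i (p, t) - G.ddil (t i) (p i.succ - p i.castSucc)‖ ≤ C * ‖p‖ ^ 2 := by
    intro t ht i
    have h := hCi i ((0 : Fin (m + 2) → V), t)
      (by
        rw [mem_closedBall_zero_iff, Prod.norm_def]
        simpa using norm_le_one_of_mem ht)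
      (p, t)
      (by
        rw [mem_closedBall_zero_iff, Prod.norm_def]
        exact max_le hp (norm_le_one_of_mem ht))
    have e : ((p, t) : (Fin (m + 2) → V) × (Fin (m + 1) → ℝ)) - (0, t) = (p, 0) := by simp
    rw [e, G.JJ_zero, G.fderiv_JJ, sub_zero] at h
    refine h.trans ?_
    have e2 : ‖((p, 0) : (Fin (m + 2) → V) × (Fin (m + 1) → ℝ))‖ = ‖p‖ := by
      rw [Prod.norm_def]; simp
    rw [e2]
    exact mul_le_mul_of_nonneg_right (hCle i) (by positivity)
  have hdd : ∀ t ∈ ordSimplex (m + 1), ∀ i : Fin (m + 1),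
      ‖G.ddil (t i) (p i.succ - p i.castSucc)‖ ≤ 2 * M * ‖p‖ := by
    intro t ht i
    have h1 : ‖G.ddil (t i)‖ ≤ M := hM _ ⟨(ordSimplex_subset_Icc ht).1 i, (ordSimplex_subset_Icc ht).2 i⟩
    have h2 : ‖p i.succ - p i.castSucc‖ ≤ 2 * ‖p‖ := by
      refine (norm_sub_le _ _).trans ?_
      have a := norm_le_pi_norm p i.succ
      have b := norm_le_pi_norm p i.castSucc
      linarith
    calc ‖G.ddil (t i) (p i.succ - p i.castSucc)‖
        ≤ ‖G.ddil (t i)‖ * ‖p i.succ - p i.castSucc‖ := ContinuousLinearMap.le_opNorm _ _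
      _ ≤ M * (2 * ‖p‖) := mul_le_mul h1 h2 (norm_nonneg _) hM0
      _ = _ := by ring
  have hpt : ∀ t ∈ ordSimplex (m + 1),
      ‖(D fun i => G.JJ (m + 1) i (p, t)) - D fun i => G.ddil (t i) (p i.succ - p i.castSucc)‖ ≤
        ‖D.toContinuousMultilinearMap‖ * (m + 1) * K ^ m * C * ‖p‖ ^ (m + 2) := by
    intro t ht
    have h := D.toContinuousMultilinearMap.norm_image_sub_le (fun i => G.JJ (m + 1) i (p, t))
      (fun i => G.ddil (t i) (p i.succ - p i.castSucc))
    refine h.trans ?_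
    have h1 : ‖(fun i => G.ddil (t i) (p i.succ - p i.castSucc))‖ ≤ K * ‖p‖ := by
      refine (pi_norm_le_iff_of_nonneg (by positivity)).mpr fun i => ?_
      refine (hdd t ht i).trans ?_
      rw [hK, add_mul]
      have : 0 ≤ C * ‖p‖ := by positivity
      linarith
    have h2 : ‖(fun i => G.JJ (m + 1) i (p, t))‖ ≤ K * ‖p‖ := by
      refine (pi_norm_le_iff_of_nonneg (by positivity)).mpr fun i => ?_
      have a := hest t ht i
      have b := hdd t ht i
      have c : C * ‖p‖ ^ 2 ≤ C * ‖p‖ := by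
        refine mul_le_mul_of_nonneg_left ?_ hC0
        nlinarith [norm_nonneg p]
      calc ‖G.JJ (m + 1) i (p, t)‖ = ‖(G.JJ (m + 1) i (p, t) -
            G.ddil (t i) (p i.succ - p i.castSucc)) + G.ddil (t i) (p i.succ - p i.castSucc)‖ := by
            rw [sub_add_cancel]
        _ ≤ _ := norm_add_le _ _
        _ ≤ C * ‖p‖ + 2 * M * ‖p‖ := by linarith
        _ = _ := by rw [hK]; ring
    have h3 : ‖(fun i => G.JJ (m + 1) i (p, t)) -
        (fun i => G.ddil (t i) (p i.succ - p i.castSucc))‖ ≤ C * ‖p‖ ^ 2 := by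
      refine (pi_norm_le_iff_of_nonneg (by positivity)).mpr fun i => ?_
      exact hest t ht i
    rw [Fintype.card_fin, Nat.add_sub_cancel]
    push_cast
    calc _ ≤ ‖D.toContinuousMultilinearMap‖ * (m + 1) * (K * ‖p‖) ^ m * (C * ‖p‖ ^ 2) := by
          refine mul_le_mul ?_ h3 (norm_nonneg _) (by positivity)
          refine mul_le_mul_of_nonneg_left ?_ (by positivity)
          exact pow_le_pow_left₀ (le_max_of_le_left (norm_nonneg _)) (max_le h2 h1) _
      _ = _ := by ring
  rw [G.cc_eq, G.BB_apply, ← integral_sub]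
  · have h := norm_setIntegral_le_of_norm_le_const (μ := volume) (s := ordSimplex (m + 1))
      volume_ordSimplex_lt_top hpt
    rw [Real.norm_eq_abs] at h
    refine h.trans (le_of_eq ?_)
    rw [measureReal_def]
    ring
  · have hc : Continuous fun t : Fin (m + 1) → ℝ => D fun i => G.JJ (m + 1) i (p, t) := by
      refine D.cont.comp (continuous_pi fun i => ?_)
      exact (G.contDiff_JJ (m + 1) i).continuous.comp (by fun_prop)
    exact hc.continuousOn.integrableOn_compact isCompact_ordSimplex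
  · exact G.integrableOn_ddil D _

lemma exists_BB_le (D : V [⋀^Fin n]→L[ℝ] ℝ) :
    ∃ C : ℝ, 0 ≤ C ∧ ∀ u : Fin n → V, |G.BB D u| ≤ C * ∏ i, ‖u i‖ := by
  obtain ⟨M, hM0, hM⟩ := G.exists_norm_ddil_le
  refine ⟨‖D‖ * M ^ n * (volume (ordSimplex n)).toReal, by positivity, fun u => ?_⟩
  have h := norm_setIntegral_le_of_norm_le_const (μ := volume) (s := ordSimplex n)
      (f := fun t => D fun i => G.ddil (t i) (u i)) (C := ‖D‖ * M ^ n * ∏ i, ‖u i‖)
      volume_ordSimplex_lt_top ?_
  · rw [G.BB_apply]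
    rw [Real.norm_eq_abs] at h
    refine h.trans (le_of_eq ?_)
    rw [measureReal_def]
    ring
  · intro t ht
    refine (D.le_opNorm _).trans ?_
    rw [_root_.mul_assoc]
    refine mul_le_mul_of_nonneg_left ?_ (norm_nonneg _)
    have : M ^ n * ∏ i, ‖u i‖ = ∏ i : Fin n, (M * ‖u i‖) := by
      rw [Finset.prod_mul_distrib, Finset.prod_const, Finset.card_univ, Fintype.card_fin]
    rw [this]
    refine Finset.prod_le_prod (fun i _ => norm_nonneg _) fun i _ => ?_
    refine (ContinuousLinearMap.le_opNorm _ _).trans ?_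
    exact mul_le_mul_of_nonneg_right
      (hM _ ⟨(ordSimplex_subset_Icc ht).1 i, (ordSimplex_subset_Icc ht).2 i⟩) (norm_nonneg _)

lemma continuous_ord : Continuous (ord : (Fin n → ℝ) → Fin (n + 1) → ℝ) := by
  refine continuous_pi fun i => ?_
  simp only [ord_eq_hat]
  exact (continuous_hat _).sub (continuous_hat _)

/-- The interior points of the ordered simplex form a nonempty open set. -/
lemma exists_pos_ord : ({t : Fin n → ℝ | ∀ i, 0 < ord t i}).Nonempty := by
  have hsum : ∑ _i : Fin (n + 1), (1 / (n + 1) : ℝ) = 1 := by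
    rw [Finset.sum_const, Finset.card_univ, Fintype.card_fin, nsmul_eq_mul]
    have : ((n : ℝ) + 1) ≠ 0 := by positivity
    push_cast
    field_simp
  refine ⟨tl fun _ => 1 / (n + 1), fun i => ?_⟩
  rw [ord_tl hsum]
  positivity

lemma pos_of_ord_pos {t : Fin n → ℝ} (h : ∀ i, 0 < ord t i) (a : Fin n) : 0 < t a := by
  rw [← congrFun (tl_ord t) a, tl]
  refine Finset.sum_pos' (fun i _ => ?_) ⟨Fin.last n, Finset.mem_univ _, ?_⟩
  · split_ifs
    · exact (h i).le
    · exact le_rfl
  · rw [if_pos (Fin.castSucc_lt_last a)]; exact h _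

lemma sum_sign_BB_pos (D : V [⋀^Fin (Module.finrank ℝ V)]→L[ℝ] ℝ) (hD : D G.bas = 1) :
    0 < ∑ σ : Equiv.Perm (Fin (Module.finrank ℝ V)),
      ((Equiv.Perm.sign σ : ℤ) : ℝ) * G.BB D (fun i => G.bas (σ i)) := by
  have h1 : ∀ σ : Equiv.Perm (Fin (Module.finrank ℝ V)),
      ((Equiv.Perm.sign σ : ℤ) : ℝ) * G.BB D (fun i => G.bas (σ i)) =
      ∫ t in ordSimplex (Module.finrank ℝ V),
        ∏ i, (G.wt (σ i) * t i ^ (G.wt (σ i) - 1) : ℝ) := by
    intro σ
    rw [G.BB_apply, ← integral_const_mul]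
    congr 1
    funext t
    have e1 : (fun i => G.ddil (t i) (G.bas (σ i))) =
        fun i => (G.wt (σ i) * t i ^ (G.wt (σ i) - 1) : ℝ) • G.bas (σ i) := by
      funext i; exact G.ddil_bas _ _
    have e2 : D (fun i => G.bas (σ i)) = ((Equiv.Perm.sign σ : ℤ) : ℝ) := by
      have h := D.toAlternatingMap.map_perm G.bas σ
      have h' : D (fun i => G.bas (σ i)) = Equiv.Perm.sign σ • D G.bas := h
      rw [h', hD, Units.smul_def, zsmul_eq_mul, mul_one]
    have e3 : D (fun i => (G.wt (σ i) * t i ^ (G.wt (σ i) - 1) : ℝ) • G.bas (σ i)) =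
        (∏ i, (G.wt (σ i) * t i ^ (G.wt (σ i) - 1) : ℝ)) • D (fun i => G.bas (σ i)) :=
      D.toMultilinearMap.map_smul_univ _ _
    rw [e1, e3, e2, smul_eq_mul]
    have e4 : ((Equiv.Perm.sign σ : ℤ) : ℝ) * ((Equiv.Perm.sign σ : ℤ) : ℝ) = 1 := by
      rw [← Int.cast_mul]
      have : (Equiv.Perm.sign σ : ℤ) * (Equiv.Perm.sign σ : ℤ) = 1 := Int.units_coe_mul_self _
      rw [this]; simp
    linear_combination (∏ i, (G.wt (σ i) * t i ^ (G.wt (σ i) - 1) : ℝ)) * e4
  simp only [h1]
  refine Finset.sum_pos (fun σ _ => ?_) ⟨1, Finset.mem_univ _⟩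
  have hnn : ∀ t ∈ ordSimplex (Module.finrank ℝ V),
      0 ≤ ∏ i, (G.wt (σ i) * t i ^ (G.wt (σ i) - 1) : ℝ) := by
    intro t ht
    refine Finset.prod_nonneg fun i _ => ?_
    have : 0 ≤ t i := (ordSimplex_subset_Icc ht).1 i
    positivity
  rw [setIntegral_pos_iff_support_of_nonneg_ae]
  · set U := {t : Fin (Module.finrank ℝ V) → ℝ | ∀ i, 0 < ord t i} with hU
    have hUo : IsOpen U := by
      have : U = ⋂ i, {t | 0 < ord t i} := by ext t; simp [hU]
      rw [this]
      exact isOpen_iInter_of_finite fun i =>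
        isOpen_lt continuous_const ((continuous_apply i).comp continuous_ord)
    refine lt_of_lt_of_le (hUo.measure_pos volume exists_pos_ord) (measure_mono ?_)
    intro t ht
    refine ⟨?_, ?_⟩
    · rw [Function.mem_support]
      refine (Finset.prod_pos fun i _ => ?_).ne'
      have h2 := pos_of_ord_pos ht i
      have h3 : (0 : ℝ) < G.wt (σ i) := by exact_mod_cast G.one_le_wt (σ i)
      positivity
    · exact ⟨fun i => (ht i).le, sum_ord t⟩
  · exact (ae_restrict_mem measurableSet_ordSimplex).mono hnn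
  · refine ContinuousOn.integrableOn_compact isCompact_ordSimplex ?_
    exact (continuous_finsetProd _ fun i _ => continuous_const.mul
      ((continuous_apply i).pow _)).continuousOn

/-! ### Invariance -/

lemma cc_eq_volInt (D : V [⋀^Fin n]→L[ℝ] ℝ) (p : Fin (n + 1) → V) :
    G.cc D p = ∫ t in ordSimplex n, D fun i =>
      fderiv ℝ (fun s => G.mdl n p (ord s)) t (Pi.single i 1) := by
  rw [G.cc_eq]
  simp only [G.fderiv_mdl_ord]

lemma differentiable_mdl_ord (p : Fin (n + 1) → V) :
    Differentiable ℝ (fun s : Fin n → ℝ => G.mdl n p (ord s)) := by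
  have h : ContDiff ℝ 1 (fun s : Fin n → ℝ => G.mdl n p (ord s)) :=
    G.contDiff_mdl (by simp) n contDiff_const contDiff_ord
  exact h.differentiable one_ne_zero

lemma cc_mul (D : V [⋀^Fin n]→L[ℝ] ℝ) (hn : Module.finrank ℝ V = n) (g : V)
    (p : Fin (n + 1) → V) : G.cc D (fun i => G.mul g (p i)) = G.cc D p := by
  subst hn
  rw [G.cc_eq_volInt, G.cc_eq_volInt]
  congr 1
  funext t
  have h1 : (fun s : Fin (Module.finrank ℝ V) → ℝ =>
      G.mdl _ (fun i => G.mul g (p i)) (ord s)) = fun s => G.mul g (G.mdl _ p (ord s)) := by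
    funext s; exact G.mdl_mul g _ p _
  rw [h1, G.fderiv_mul_left_comp]
  have h2 := alternating_comp_det D (fderiv ℝ (G.mul g) (G.mdl _ p (ord t)))
    (fun i => fderiv ℝ (fun s => G.mdl _ p (ord s)) t (Pi.single i 1))
  rw [G.det_fderiv_mul, one_mul] at h2
  exact h2

lemma cc_dil (D : V [⋀^Fin n]→L[ℝ] ℝ) (hn : Module.finrank ℝ V = n) {R : ℝ} (hR : 0 < R)
    (p : Fin (n + 1) → V) : G.cc D (fun i => G.dil R (p i)) = R ^ G.homDim * G.cc D p := by
  subst hn
  rw [G.cc_eq_volInt, G.cc_eq_volInt, ← integral_const_mul]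
  congr 1
  funext t
  have h1 : (fun s : Fin (Module.finrank ℝ V) → ℝ =>
      G.mdl _ (fun i => G.dil R (p i)) (ord s)) = fun s => G.dilL R (G.mdl _ p (ord s)) := by
    funext s; exact G.mdl_dil hR _ p _
  have h3 : fderiv ℝ (fun s => G.dilL R (G.mdl _ p (ord s))) t =
      (G.dilL R).comp (fderiv ℝ (fun s => G.mdl _ p (ord s)) t) :=
    ((G.dilL R).hasFDerivAt.comp t (G.differentiable_mdl_ord p t).hasFDerivAt).fderiv
  rw [h1, h3]
  have h2 := alternating_comp_det D (G.dilL R)
    (fun i => fderiv ℝ (fun s => G.mdl _ p (ord s)) t (Pi.single i 1))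
  rw [G.det_dilL] at h2
  exact h2

/-- The volume form, normalised on the adapted basis. -/
noncomputable def volForm : V [⋀^Fin (Module.finrank ℝ V)]→L[ℝ] ℝ :=
  { G.bas.det with
    cont := by
      show Continuous (fun v => G.bas.det v)
      simp only [Module.Basis.det_apply]
      refine Continuous.matrix_det (continuous_matrix fun i j => ?_)
      exact (LinearMap.continuous_of_finiteDimensional (G.bas.coord i)).comp (continuous_apply j) }

lemma volForm_bas : G.volForm G.bas = 1 := G.bas.det_self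

end StratifiedGroup

end Pool.Agent.H36.Fill
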