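import Pool.Agent.H36.Fill.Model3

/-!
# Horizontal connectivity with linear bounds
-/

open MeasureTheory Set Filter
open scoped NNReal Topology ENNReal ContDiff

namespace Pool.Agent.H36.Fill

set_option linter.unusedSectionVars false

variable {V : Type*} [NormedAddCommGroup V] [InnerProductSpace ℝ V] [FiniteDimensional ℝ V]

/-- A point as a `0`-chain. -/
noncomputable def pt (a : V) : Chain V 0 := Finsupp.single (fun _ => a) 1

lemma isLip_pt (a : V) : IsLip (pt a) :=
  IsLip.single ⟨0, LipschitzWith.const a⟩ 1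

namespace StratifiedGroup

variable (G : StratifiedGroup V)

/-- There is a Lipschitz `1`-chain of mass at most `A` with boundary `b - a`. -/
def Near (A : ℝ≥0∞) (a b : V) : Prop :=
  ∃ c : Chain V 1, IsLip c ∧ bdry c = pt b - pt a ∧ G.mass c ≤ A

variable {G}

lemma Near.mono {A A' : ℝ≥0∞} {a b : V} (h : G.Near A a b) (hA : A ≤ A') : G.Near A' a b := by
  obtain ⟨c, h1, h2, h3⟩ := h
  exact ⟨c, h1, h2, h3.trans hA⟩

lemma Near.refl (A : ℝ≥0∞) (a : V) : G.Near A a a :=
  ⟨0, IsLip.zero, by simp, by simp⟩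

lemma Near.symm {A : ℝ≥0∞} {a b : V} (h : G.Near A a b) : G.Near A b a := by
  obtain ⟨c, h1, h2, h3⟩ := h
  exact ⟨-c, h1.neg, by rw [bdry_neg, h2, neg_sub], by rw [mass_neg]; exact h3⟩

lemma Near.trans {A A' : ℝ≥0∞} {a b d : V} (h : G.Near A a b) (h' : G.Near A' b d) :
    G.Near (A + A') a d := by
  obtain ⟨c, h1, h2, h3⟩ := h
  obtain ⟨c', h1', h2', h3'⟩ := h'
  refine ⟨c + c', h1.add h1', ?_, (G.mass_add_le _ _).trans (add_le_add h3 h3')⟩
  rw [bdry_add, h2, h2']
  abel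

lemma ltC_pt (g a : V) : G.ltC g (pt a) = pt (G.mul g a) := by
  rw [ltC, pt, Finsupp.mapDomain_single]
  rfl

lemma ltC_sub {k : ℕ} (g : V) (a b : Chain V k) : G.ltC g (a - b) = G.ltC g a - G.ltC g b :=
  map_sub (Finsupp.mapDomain.addMonoidHom (G.lt g)) a b

lemma Near.lt {A : ℝ≥0∞} {a b : V} (h : G.Near A a b) (g : V) :
    G.Near A (G.mul g a) (G.mul g b) := by
  obtain ⟨c, h1, h2, h3⟩ := h
  refine ⟨G.ltC g c, G.isLip_ltC g h1, ?_, by rw [mass_ltC]; exact h3⟩
  rw [bdry_ltC, h2, ltC_sub, ltC_pt, ltC_pt]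

variable (G)

/-! ### Straight paths -/

/-- The straight path from `0` to `w`. -/
noncomputable def seg (w : V) : Simp V 1 := fun x => x.1 1 • w

lemma isLip_seg (w : V) : ∃ K : ℝ≥0, LipschitzWith K (seg w) := by
  refine ⟨‖w‖₊, LipschitzWith.of_dist_le_mul fun x y => ?_⟩
  rw [seg, seg, dist_eq_norm, ← sub_smul, norm_smul, mul_comm, coe_nnnorm]
  refine mul_le_mul_of_nonneg_left ?_ (norm_nonneg _)
  rw [Subtype.dist_eq, dist_eq_norm]
  exact norm_le_pi_norm (x.1 - y.1) 1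

lemma bdry_seg (w : V) : bdry (Finsupp.single (seg w) 1) = pt w - pt 0 := by
  rw [bdry_single, Fin.sum_univ_two]
  have h0 : (fun x : stdSimplex ℝ (Fin 1) => seg w (stdSimplex.map (0 : Fin 2).succAbove x)) =
      fun _ => w := by
    funext x
    have hx : x.1 0 = 1 := by
      have := x.2.2
      simpa using this
    rw [seg, coe_map_succAbove]
    have : ((0 : Fin 2).insertNth 0 x.1 : Fin 2 → ℝ) 1 = x.1 0 := by
      rw [Fin.insertNth_zero']
      rfl
    rw [this, hx, one_smul]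
  have h1 : (fun x : stdSimplex ℝ (Fin 1) => seg w (stdSimplex.map (1 : Fin 2).succAbove x)) =
      fun _ => 0 := by
    funext x
    rw [seg, coe_map_succAbove]
    have : ((1 : Fin 2).insertNth 0 x.1 : Fin 2 → ℝ) 1 = 0 :=
      Fin.insertNth_apply_same (α := fun _ => ℝ) _ _ _
    rw [this, zero_smul]
  rw [h0, h1, pt, pt]
  simp only [Fin.val_zero, pow_zero, mul_one, Fin.val_one, pow_one]
  rw [Finsupp.single_neg, sub_eq_add_neg]

lemma toLie_smul_self (t : ℝ) (w : V) : G.toLie (t • w) w = w := by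
  have h1 : HasDerivAt (fun s : ℝ => (t + s) • w) w 0 := by
    have := ((hasDerivAt_id (0 : ℝ)).const_add t).smul_const w
    simpa using this
  have h2 : HasFDerivAt (G.mul (-(t • w))) (fderiv ℝ (G.mul (-(t • w))) (t • w))
      ((t + 0) • w) := by
    rw [add_zero]
    exact (G.differentiable_mul_left _ _).hasFDerivAt
  have h3 := h2.comp_hasDerivAt (0 : ℝ) h1
  have h4 : (G.mul (-(t • w))) ∘ (fun s : ℝ => (t + s) • w) = fun s => s • w := by
    funext s
    simp only [Function.comp_apply]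
    rw [← neg_smul, G.mul_smul_smul]
    congr 1
    ring
  rw [h4] at h3
  have h5 : HasDerivAt (fun s : ℝ => s • w) w 0 := by
    have := (hasDerivAt_id (0 : ℝ)).smul_const w
    simpa using this
  exact h3.unique h5

/-- The constant in the bound of the length of straight paths. -/
noncomputable def segC : ℝ≥0 :=
  (√((Nat.factorial 1 : ℕ) : ℝ)).toNNReal * (volume (ordSimplex 1)).toNNReal

lemma vol_seg_le (w : V) : G.vol (seg w) ≤ ((segC * ‖w‖₊ : ℝ≥0) : ℝ≥0∞) := by
  have h := G.vol_le_of_norm_le (σ := seg w) (M := ‖w‖) (norm_nonneg _) ?_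
  · refine h.trans (le_of_eq ?_)
    rw [segC]
    push_cast
    rw [ENNReal.ofReal_mul (by positivity), pow_one, ENNReal.coe_toNNReal
      volume_ordSimplex_lt_top.ne, ofReal_norm]
    have e : ENNReal.ofReal √((Nat.factorial 1 : ℕ) : ℝ) =
      (((√((Nat.factorial 1 : ℕ) : ℝ)).toNNReal : ℝ≥0) : ℝ≥0∞) := rfl
    rw [e]
    have e2 : ‖w‖ₑ = (‖w‖₊ : ℝ≥0∞) := rfl
    rw [e2]
    ring
  · filter_upwards [ae_mem_interior (k := 1)] with t ht i
    have hi : i = 0 := Subsingleton.elim (α := Fin 1) i 0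
    subst hi
    have hev : inCoord (seg w) =ᶠ[𝓝 t] fun s => s 0 • w := by
      filter_upwards [mem_interior_iff_mem_nhds.mp ht] with s hs
      have hs' : ord s ∈ stdSimplex ℝ (Fin 2) := hs
      rw [inCoord, dif_pos hs', seg]
      congr 1
      have : ord s 1 = hat s 1 - hat s 2 := ord_eq_hat s 1
      change ord s 1 = s 0
      rw [this, hat_of_lt s (m := 2) (by norm_num), sub_zero]
      exact hat_fin s 0
    have h1 : HasFDerivAt (fun s : Fin 1 → ℝ => s 0 • w)
        ((ContinuousLinearMap.proj (R := ℝ) (φ := fun _ : Fin 1 => ℝ) 0).smulRight w) t :=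
      ((ContinuousLinearMap.proj (R := ℝ) (φ := fun _ : Fin 1 => ℝ) 0).smulRight w).hasFDerivAt
    rw [hev.fderiv_eq, hev.self_of_nhds, h1.fderiv]
    simp only [ContinuousLinearMap.smulRight_apply, ContinuousLinearMap.proj_apply,
      Pi.single_eq_same, one_smul]
    rw [G.toLie_smul_self]

lemma near_zero (w : V) : G.Near ((segC * ‖w‖₊ : ℝ≥0) : ℝ≥0∞) 0 w :=
  ⟨Finsupp.single (seg w) 1, IsLip.single (isLip_seg w) 1, bdry_seg w, by
    rw [mass_single]; simpa using G.vol_seg_le w⟩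

/-! ### Elements reached at linear cost at all scales -/

/-- The dilates of `g` by `R ≥ 1` are at distance at most `M R` from `0`. -/
def Cost (M : ℝ≥0) (g : V) : Prop :=
  ∀ R : ℝ≥0, 1 ≤ R → G.Near ((M * R : ℝ≥0) : ℝ≥0∞) 0 (G.dil R g)

variable {G}

lemma Cost.mono {M M' : ℝ≥0} {g : V} (h : G.Cost M g) (hM : M ≤ M') : G.Cost M' g :=
  fun R hR => (h R hR).mono (by gcongr)

lemma Cost.zero (M : ℝ≥0) : G.Cost M 0 := fun R _ => by
  rw [map_zero]; exact Near.refl _ _

lemma Cost.mul {M M' : ℝ≥0} {g h : V} (hg : G.Cost M g) (hh : G.Cost M' h) :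
    G.Cost (M + M') (G.mul g h) := by
  intro R hR
  have hR0 : (0 : ℝ) < R := by
    have : (1 : ℝ) ≤ R := by exact_mod_cast hR
    linarith
  have h1 := (hh R hR).lt (G.dil R g)
  rw [G.mul_zero, ← G.dil_mul R g h hR0] at h1
  have h2 := (hg R hR).trans h1
  rw [add_mul]
  push_cast at *
  exact h2

lemma Cost.neg {M : ℝ≥0} {g : V} (hg : G.Cost M g) : G.Cost M (-g) := by
  intro R hR
  have h1 := (hg R hR).lt (-(G.dil R g))
  rw [G.mul_zero, G.neg_mul_self] at h1
  rw [map_neg]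
  exact h1.symm

variable (G)

lemma cost_of_mem_layer_one {v : V} (hv : v ∈ G.layer 1) : G.Cost (segC * ‖v‖₊) v := by
  intro R hR
  rw [G.dil_layer _ _ _ hv, pow_one]
  have h := G.near_zero ((R : ℝ) • v)
  refine h.mono ?_
  rw [nnnorm_smul]
  have : ‖(R : ℝ)‖₊ = R := by
    ext; simp
  rw [this]
  apply le_of_eq
  congr 1
  ring

/-! ### The second derivative of the group law -/

omit G [FiniteDimensional ℝ V] [InnerProductSpace ℝ V] [NormedAddCommGroup V] in
lemma hasDerivAt_clm_line {W Z : Type*} [NormedAddCommGroup W] [NormedSpace ℝ W]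
    [NormedAddCommGroup Z] [NormedSpace ℝ Z] (F : W → (W →L[ℝ] Z)) (D : W →L[ℝ] W →L[ℝ] Z)
    (p : W) (h2 : HasFDerivAt F D 0) (u : ℝ → W) (u' : W) (hu : HasDerivAt u u' 0) :
    HasDerivAt (fun s : ℝ => F (s • p) (u s)) (D p (u 0) + F 0 u') 0 := by
  have h : HasDerivAt (fun s : ℝ => s • p) p 0 := by
    have := (hasDerivAt_id (0 : ℝ)).smul_const p
    simpa using this
  have h2' : HasFDerivAt F D ((0 : ℝ) • p) := by rw [zero_smul]; exact h2
  have h3 := HasFDerivAt.comp_hasDerivAt (0 : ℝ) h2' h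
  have h4 := h3.clm_apply hu
  simpa using h4

/-- The group law as a function on pairs. -/
def mulP (p : V × V) : V := G.mul p.1 p.2

lemma contDiff_mulP : ContDiff ℝ ∞ G.mulP := G.smooth

lemma hasFDerivAt_mulP (p : V × V) : HasFDerivAt G.mulP (fderiv ℝ G.mulP p) p :=
  (G.contDiff_mulP.differentiable (by simp) p).hasFDerivAt

lemma contDiff_fderiv_mulP : ContDiff ℝ ∞ (fderiv ℝ G.mulP) :=
  G.contDiff_mulP.fderiv_right (m := ∞) (by simp)

lemma dL_eq (g w : V) : G.dL g w = fderiv ℝ G.mulP (g, 0) (0, w) := by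
  have h1 : HasFDerivAt (fun y : V => (g, y)) (ContinuousLinearMap.inr ℝ V V) 0 :=
    hasFDerivAt_prodMk_right g 0
  have h2 := (G.hasFDerivAt_mulP (g, 0)).comp (0 : V) h1
  have h3 : (G.mulP ∘ fun y : V => (g, y)) = G.mul g := rfl
  rw [h3] at h2
  rw [dL, h2.fderiv]
  rfl

lemma fderiv_mulP_left (g w : V) : fderiv ℝ G.mulP (g, 0) (w, 0) = w := by
  have h1 : HasFDerivAt (fun x : V => (x, (0 : V))) (ContinuousLinearMap.inl ℝ V V) g :=
    hasFDerivAt_prodMk_left g 0
  have h2 := (G.hasFDerivAt_mulP (g, 0)).comp g h1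
  have h3 : (G.mulP ∘ fun x : V => (x, (0 : V))) = id := by
    funext x; exact G.mul_zero x
  rw [h3] at h2
  have h4 := congrArg (fun A => A w) (h2.unique (hasFDerivAt_id g))
  simpa using h4

/-- The second derivative of the group law at the neutral element. -/
noncomputable def D2 : V × V →L[ℝ] V × V →L[ℝ] V := fderiv ℝ (fderiv ℝ G.mulP) 0

lemma D2_symm (p q : V × V) : G.D2 p q = G.D2 q p := by
  have h := (G.contDiff_mulP).contDiffAt.isSymmSndFDerivAt (x := (0 : V × V))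
    (by
      rw [minSmoothness_of_isRCLikeNormedField]
      exact WithTop.coe_le_coe.mpr (le_top : (2 : ℕ∞) ≤ ⊤))
  exact h _ _

lemma hasFDerivAt_fderiv_mulP : HasFDerivAt (fderiv ℝ G.mulP) G.D2 0 :=
  (G.contDiff_fderiv_mulP.differentiable (by simp) 0).hasFDerivAt

lemma hasDerivAt_fderiv_mulP (p q : V × V) :
    HasDerivAt (fun s : ℝ => fderiv ℝ G.mulP (s • p) q) (G.D2 p q) 0 := by
  have h := hasDerivAt_clm_line (fderiv ℝ G.mulP) G.D2 p G.hasFDerivAt_fderiv_mulP
    (fun _ => q) 0 (hasDerivAt_const _ _)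
  simpa using h

lemma hasDerivAt_dL (x y : V) :
    HasDerivAt (fun s : ℝ => G.dL (s • x) y) (G.D2 (x, 0) (0, y)) 0 := by
  have h := G.hasDerivAt_fderiv_mulP (x, 0) (0, y)
  have e : (fun s : ℝ => G.dL (s • x) y) = fun s => fderiv ℝ G.mulP (s • (x, 0)) (0, y) := by
    funext s
    rw [G.dL_eq, Prod.smul_mk, smul_zero]
  rw [e]
  exact h

lemma D2_left (x y : V) : G.D2 (x, 0) (y, 0) = 0 := by
  have h := G.hasDerivAt_fderiv_mulP (x, 0) (y, 0)
  have e : (fun s : ℝ => fderiv ℝ G.mulP (s • (x, 0)) (y, 0)) = fun _ => y := by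
    funext s
    rw [Prod.smul_mk, smul_zero, G.fderiv_mulP_left]
  rw [e] at h
  exact h.unique (hasDerivAt_const _ _)

lemma deriv_deriv_mul (x y : V) :
    deriv (fun s : ℝ => deriv (fun t : ℝ => G.mul (s • x) (t • y)) 0) 0 =
      G.D2 (x, 0) (0, y) := by
  have h1 : ∀ s : ℝ, deriv (fun t : ℝ => G.mul (s • x) (t • y)) 0 = G.dL (s • x) y := by
    intro s
    have a : HasDerivAt (fun t : ℝ => t • y) y 0 := by
      have := (hasDerivAt_id (0 : ℝ)).smul_const y
      simpa using this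
    have b : HasFDerivAt (G.mul (s • x)) (G.dL (s • x)) ((0 : ℝ) • y) := by
      rw [zero_smul]; exact (G.differentiable_mul_left _ _).hasFDerivAt
    exact (b.comp_hasDerivAt (0 : ℝ) a).deriv
  simp only [h1]
  exact (G.hasDerivAt_dL x y).deriv

lemma lieBracket_eq (x y : V) :
    lieBracket G.mul x y = G.D2 (x, 0) (0, y) - G.D2 (y, 0) (0, x) := by
  rw [lieBracket, G.deriv_deriv_mul, G.deriv_deriv_mul]

/-- The derivative of `s ↦ Ad(s v) w` at `0` is the bracket `[v, w]`. -/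
lemma hasDerivAt_ad (v w : V) :
    HasDerivAt (fun s : ℝ => fderiv ℝ G.mulP (s • (v, -v)) (G.dL (s • v) w, 0))
      (lieBracket G.mul v w) 0 := by
  have h4 : HasDerivAt (fun s : ℝ => (G.dL (s • v) w, (0 : V))) (G.D2 (v, 0) (0, w), 0) 0 :=
    (G.hasDerivAt_dL v w).prodMk (hasDerivAt_const _ _)
  have h5 := hasDerivAt_clm_line (fderiv ℝ G.mulP) G.D2 (v, -v) G.hasFDerivAt_fderiv_mulP
    _ _ h4
  simp only [zero_smul, G.dL_zero, ContinuousLinearMap.id_apply] at h5
  have e0 : fderiv ℝ G.mulP 0 (G.D2 (v, 0) (0, w), 0) = G.D2 (v, 0) (0, w) :=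
    G.fderiv_mulP_left 0 _
  have e1 : G.D2 (v, -v) (w, 0) = - G.D2 (w, 0) (0, v) := by
    have a : ((v, -v) : V × V) = (v, 0) - (0, v) := by simp
    rw [a, map_sub, sub_apply, G.D2_left, G.D2_symm (0, v) (w, 0), zero_sub]
  rw [e0, e1] at h5
  rw [G.lieBracket_eq, sub_eq_neg_add]
  exact h5

end StratifiedGroup

end Pool.Agent.H36.Fill
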