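import Pool.Agent.H36.Fill.Fill2

/-!
# Sums over tuples of indices
-/

open MeasureTheory Set Filter
open scoped NNReal Topology ENNReal ContDiff

namespace Pool.Agent.H36.Fill

variable {M : Type*} [Fintype M] {n : ℕ}

/-- The pairing of a family of weights with a function of tuples. -/
noncomputable def pairT (w : Fin n → M → ℝ) (F : (Fin n → M) → ℝ) : ℝ :=
  ∑ μ : Fin n → M, (∏ i, w i (μ i)) * F μ

lemma pairT_sub (w : Fin n → M → ℝ) (F F' : (Fin n → M) → ℝ) :
    pairT w (fun μ => F μ - F' μ) = pairT w F - pairT w F' := by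
  simp only [pairT, mul_sub, Finset.sum_sub_distrib]

lemma pairT_const_mul (w : Fin n → M → ℝ) (c : ℝ) (F : (Fin n → M) → ℝ) :
    pairT w (fun μ => c * F μ) = c * pairT w F := by
  rw [pairT, pairT, Finset.mul_sum]
  exact Finset.sum_congr rfl fun μ _ => by ring

lemma pairT_sum {ι : Type*} (s : Finset ι) (w : Fin n → M → ℝ) (F : ι → (Fin n → M) → ℝ) :
    pairT w (fun μ => ∑ j ∈ s, F j μ) = ∑ j ∈ s, pairT w (F j) := by
  simp only [pairT, Finset.mul_sum]
  exact Finset.sum_comm

lemma sum_abs_prod_eq [DecidableEq M] (w : Fin n → M → ℝ) :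
    ∑ μ : Fin n → M, |∏ i, w i (μ i)| = ∏ i, ∑ a, |w i a| := by
  rw [Finset.prod_univ_sum, Fintype.piFinset_univ]
  exact Finset.sum_congr rfl fun μ _ => Finset.abs_prod _ _

lemma abs_pairT_le (w : Fin n → M → ℝ) (F : (Fin n → M) → ℝ) {A : ℝ}
    (hF : ∀ μ, (∀ i, w i (μ i) ≠ 0) → |F μ| ≤ A) :
    |pairT w F| ≤ A * ∏ i, ∑ a, |w i a| := by
  classical
  rw [← sum_abs_prod_eq, Finset.mul_sum]
  refine (Finset.abs_sum_le_sum_abs _ _).trans (Finset.sum_le_sum fun μ _ => ?_)
  rw [abs_mul, mul_comm]
  by_cases h : ∀ i, w i (μ i) ≠ 0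
  · exact mul_le_mul_of_nonneg_right (hF μ h) (abs_nonneg _)
  · push Not at h
    obtain ⟨i, hi⟩ := h
    have : ∏ i, w i (μ i) = 0 := Finset.prod_eq_zero (Finset.mem_univ i) hi
    rw [this]; simp

lemma pairT_insertNth (w : Fin (n + 1) → M → ℝ) (F : (Fin (n + 1) → M) → ℝ) (j : Fin (n + 1)) :
    pairT w F = ∑ a, w j a * pairT (fun i => w (j.succAbove i))
      (fun μ => F (j.insertNth a μ : Fin (n + 1) → M)) := by
  rw [pairT, ← (Fin.insertNthEquiv (fun _ : Fin (n + 1) => M) j).sum_comp,
    Fintype.sum_prod_type]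
  refine Finset.sum_congr rfl fun a _ => ?_
  rw [pairT, Finset.mul_sum]
  refine Finset.sum_congr rfl fun μ _ => ?_
  have e : (Fin.insertNthEquiv (fun _ : Fin (n + 1) => M) j) (a, μ) =
    (j.insertNth a μ : Fin (n + 1) → M) := rfl
  rw [Fin.prod_univ_succAbove _ j, e]
  simp only [Fin.insertNth_apply_same, Fin.insertNth_apply_succAbove]
  ring

lemma pairT_of_indep (w : Fin (n + 1) → M → ℝ) (F : (Fin (n + 1) → M) → ℝ) (j : Fin (n + 1))
    (F' : (Fin n → M) → ℝ) (h : ∀ a μ, F (j.insertNth a μ : Fin (n + 1) → M) = F' μ) :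
    pairT w F = (∑ a, w j a) * pairT (fun i => w (j.succAbove i)) F' := by
  rw [pairT_insertNth w F j, Finset.sum_mul]
  simp only [h]

lemma pairT_eq_zero_of_update (w : Fin (n + 1) → M → ℝ) (F : (Fin (n + 1) → M) → ℝ)
    (j : Fin (n + 1)) (hj : ∑ a, w j a = 0)
    (h : ∀ a μ, F (Function.update μ j a) = F μ) : pairT w F = 0 := by
  classical
  rcases isEmpty_or_nonempty M with hM | ⟨⟨a₀⟩⟩
  · rw [pairT]
    have : IsEmpty (Fin (n + 1) → M) := ⟨fun μ => hM.false (μ 0)⟩
    simp
  · rw [pairT_of_indep w F j (fun μ => F (j.insertNth a₀ μ : Fin (n + 1) → M)) ?_, hj, zero_mul]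
    intro a μ
    rw [← h a (j.insertNth a₀ μ : Fin (n + 1) → M)]
    congr 1
    funext i
    rcases Fin.eq_self_or_eq_succAbove j i with rfl | ⟨l, rfl⟩
    · simp
    · rw [Function.update_of_ne (Fin.succAbove_ne j l)]
      simp

/-- The pairing with a coboundary. -/
lemma pairT_altSum {X : Type*} (w : Fin (n + 1) → M → ℝ) (N : M → X) (b : (Fin n → X) → ℝ)
    (h0 : ∑ a, w 0 a = 1) (h1 : ∀ i : Fin n, ∑ a, w i.succ a = 0) :
    pairT w (fun μ => altSum b (fun i => N (μ i))) =
      pairT (fun i => w i.succ) (fun μ => b fun i => N (μ i)) := by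
  have e : (fun μ : Fin (n + 1) → M => altSum b (fun i => N (μ i))) =
      fun μ => ∑ j : Fin (n + 1), (-1 : ℝ) ^ (j : ℕ) * b (fun i => N (μ (j.succAbove i))) := by
    funext μ
    rw [altSum]
    refine Finset.sum_congr rfl fun j _ => ?_
    rw [zsmul_eq_mul]
    push_cast
    rfl
  rw [e, pairT_sum]
  simp only [pairT_const_mul]
  have h2 : ∀ j : Fin (n + 1), pairT w (fun μ => b fun i => N (μ (j.succAbove i))) =
      (∑ a, w j a) * pairT (fun i => w (j.succAbove i)) (fun μ => b fun i => N (μ i)) := by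
    intro j
    refine pairT_of_indep w _ j _ fun a μ => ?_
    simp only [Fin.insertNth_apply_succAbove]
  simp only [h2]
  rw [Fin.sum_univ_succ]
  simp only [h1, h0]
  simp

section Multilinear

variable {W : Type*} [AddCommGroup W] [Module ℝ W]

/-- The partially reduced increments. -/
def incr (y : M → W) (j : ℕ) (μ : Fin (n + 1) → M) : Fin n → W :=
  fun i => y (μ i.succ) - (if (i : ℕ) < j then y (μ i.castSucc) else 0)

lemma pairT_incr (w : Fin (n + 1) → M → ℝ) (h1 : ∀ i : Fin n, ∑ a, w i.succ a = 0)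
    (B : MultilinearMap ℝ (fun _ : Fin n => W) ℝ) (y : M → W) (j : ℕ) (hj : j ≤ n) :
    pairT w (fun μ => B (incr y j μ)) = pairT w (fun μ => B (incr y 0 μ)) := by
  induction j with
  | zero => rfl
  | succ j ih =>
    rw [← ih (by omega)]
    set jj : Fin n := ⟨j, by omega⟩ with hjj
    have e1 : ∀ μ : Fin (n + 1) → M, incr y (j + 1) μ =
        Function.update (incr y j μ) jj (y (μ jj.succ) - y (μ jj.castSucc)) := by
      intro μ
      funext i
      by_cases hi : i = jj
      · subst hi
        rw [Function.update_self, incr, if_pos (by simp [hjj])]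
      · rw [Function.update_of_ne hi, incr, incr]
        have hne : (i : ℕ) ≠ j := fun h => hi (Fin.ext h)
        by_cases h2 : (i : ℕ) < j
        · rw [if_pos h2, if_pos (by omega)]
        · rw [if_neg h2, if_neg (by omega)]
    have e2 : ∀ μ : Fin (n + 1) → M, incr y j μ =
        Function.update (incr y j μ) jj (y (μ jj.succ)) := by
      intro μ
      funext i
      by_cases hi : i = jj
      · subst hi
        rw [Function.update_self, incr, if_neg (by simp [hjj]), sub_zero]
      · rw [Function.update_of_ne hi]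
    have e3 : (fun μ => B (incr y (j + 1) μ)) = fun μ => B (incr y j μ) -
        B (Function.update (incr y j μ) jj (y (μ jj.castSucc))) := by
      funext μ
      rw [e1, B.map_update_sub, ← e2]
    rw [e3, pairT_sub]
    have e4 : pairT w (fun μ => B (Function.update (incr y j μ) jj (y (μ jj.castSucc)))) = 0 := by
      refine pairT_eq_zero_of_update w _ jj.succ (h1 jj) fun a μ => ?_
      congr 1
      funext i
      by_cases hi : i = jj
      · subst hi
        rw [Function.update_self, Function.update_self, Function.update_of_ne]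
        exact (Fin.castSucc_lt_succ (i := jj)).ne
      · rw [Function.update_of_ne hi, Function.update_of_ne hi, incr, incr]
        have h3 : i.succ ≠ jj.succ := fun h => hi (Fin.succ_injective _ h)
        rw [Function.update_of_ne h3]
        by_cases h2 : (i : ℕ) < j
        · rw [if_pos h2, if_pos h2]
          have h4 : i.castSucc ≠ jj.succ := by
            intro h
            have := congrArg Fin.val h
            simp [hjj] at this
            omega
          rw [Function.update_of_ne h4]
        · rw [if_neg h2, if_neg h2]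
    rw [e4, sub_zero]

/-- The pairing with a multilinear function of the increments. -/
lemma pairT_multilinear (w : Fin (n + 1) → M → ℝ) (h0 : ∑ a, w 0 a = 1)
    (h1 : ∀ i : Fin n, ∑ a, w i.succ a = 0)
    (B : MultilinearMap ℝ (fun _ : Fin n => W) ℝ) (y : M → W) :
    pairT w (fun μ => B fun i => y (μ i.succ) - y (μ i.castSucc)) =
      B fun i => ∑ a, w i.succ a • y a := by
  classical
  have e1 : (fun μ : Fin (n + 1) → M => B fun i => y (μ i.succ) - y (μ i.castSucc)) =
      fun μ => B (incr y n μ) := by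
    funext μ
    congr 1
    funext i
    rw [incr, if_pos i.2]
  rw [e1, pairT_incr w h1 B y n le_rfl,
    pairT_of_indep w _ 0 (fun μ => B fun i => y (μ i)) (fun a μ => ?_), h0, one_mul]
  · rw [B.map_sum, pairT]
    refine Finset.sum_congr rfl fun μ _ => ?_
    rw [B.map_smul_univ (fun i => w i.succ (μ i)) (fun i => y (μ i)), smul_eq_mul]
    rfl
  · congr 1
    funext i
    rw [incr, if_neg (by omega), sub_zero]
    simp

end Multilinear

end Pool.Agent.H36.Fill
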