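import Pool.Agent.H36.Fill.StokesC

/-!
# Differentiation of integrals over bounded sets with respect to parameters
-/

open MeasureTheory Set Filter
open scoped NNReal Topology ENNReal ContDiff

namespace Pool.Agent.H36.Fill

set_option linter.unusedSectionVars false

variable {P E W : Type*} [NormedAddCommGroup P] [NormedSpace ℝ P] [FiniteDimensional ℝ P]
  [NormedAddCommGroup E] [NormedSpace ℝ E] [FiniteDimensional ℝ E]
  [MeasurableSpace E] [BorelSpace E] (μ : Measure E) [IsFiniteMeasureOnCompacts μ]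
  [NormedAddCommGroup W] [NormedSpace ℝ W]

/-- The partial derivative with respect to the parameter. -/
noncomputable def pd (F : P × E → W) (p : P × E) : P →L[ℝ] W :=
  (fderiv ℝ F p).comp (ContinuousLinearMap.inl ℝ P E)

lemma contDiff_pd {F : P × E → W} {n m : WithTop ℕ∞} (hF : ContDiff ℝ n F) (hmn : m + 1 ≤ n) :
    ContDiff ℝ m (pd F) :=
  (hF.fderiv_right hmn).clm_comp contDiff_const

lemma hasFDerivAt_pd {F : P × E → W} (hF : Differentiable ℝ F) (x : P) (q : E) :
    HasFDerivAt (fun x => F (x, q)) (pd F (x, q)) x := by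
  have h1 : HasFDerivAt (fun x : P => (x, q)) (ContinuousLinearMap.inl ℝ P E) x :=
    hasFDerivAt_prodMk_left x q
  exact (hF (x, q)).hasFDerivAt.comp x h1

lemma hasFDerivAt_setIntegral {F : P × E → W} (hF : ContDiff ℝ 1 F) {T : Set E}
    (hT : Bornology.IsBounded T) (hTm : MeasurableSet T) (x : P) :
    HasFDerivAt (fun x => ∫ q in T, F (x, q) ∂μ) (∫ q in T, pd F (x, q) ∂μ) x := by
  obtain ⟨R, hR⟩ := hT.subset_closedBall (0 : E)
  have hpd : Continuous (pd F) := (contDiff_pd hF (m := 0) (by simp)).continuous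
  obtain ⟨C, hC⟩ := ((isCompact_closedBall x 1).prod (isCompact_closedBall (0 : E) R)).bddAbove_image
    hpd.norm.continuousOn
  have hfin : μ T < ⊤ := (measure_mono hR).trans_lt (isCompact_closedBall _ _).measure_lt_top
  have : IsFiniteMeasure (μ.restrict T) := ⟨by simpa using hfin⟩
  refine hasFDerivAt_integral_of_dominated_of_fderiv_le (𝕜 := ℝ) (μ := μ.restrict T)
    (F := fun x q => F (x, q)) (F' := fun x q => pd F (x, q)) (x₀ := x) (bound := fun _ => C)
    (s := Metric.closedBall x 1) (Metric.closedBall_mem_nhds x one_pos) ?_ ?_ ?_ ?_ ?_ ?_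
  · refine Eventually.of_forall fun y => ?_
    exact (hF.continuous.comp (Continuous.prodMk_right y)).aestronglyMeasurable
  · have hcont : Continuous fun q => F (x, q) := hF.continuous.comp (Continuous.prodMk_right x)
    exact (hcont.continuousOn.integrableOn_compact (isCompact_closedBall (0 : E) R)).mono_set hR
  · exact (hpd.comp (Continuous.prodMk_right x)).aestronglyMeasurable
  · filter_upwards [ae_restrict_mem hTm] with q hq y hy
    exact hC (mem_image_of_mem _ (mk_mem_prod hy (hR hq)))
  · exact integrable_const C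
  · exact Eventually.of_forall fun q y _ => hasFDerivAt_pd (hF.differentiable one_ne_zero) y q

lemma contDiff_one_setIntegral {F : P × E → W} (hF : ContDiff ℝ 2 F) {T : Set E}
    (hT : Bornology.IsBounded T) (hTm : MeasurableSet T) :
    ContDiff ℝ 1 (fun x => ∫ q in T, F (x, q) ∂μ) := by
  have h1 := hasFDerivAt_setIntegral μ (hF.of_le one_le_two) hT hTm
  have h2 := hasFDerivAt_setIntegral μ (contDiff_pd hF (m := 1) (by norm_num)) hT hTm
  rw [contDiff_one_iff_fderiv]
  refine ⟨fun x => (h1 x).differentiableAt, ?_⟩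
  have e : fderiv ℝ (fun x => ∫ q in T, F (x, q) ∂μ) = fun x => ∫ q in T, pd F (x, q) ∂μ :=
    funext fun x => (h1 x).fderiv
  rw [e]
  exact continuous_iff_continuousAt.mpr fun x => (h2 x).continuousAt

lemma contDiff_two_setIntegral {F : P × E → W} (hF : ContDiff ℝ 3 F) {T : Set E}
    (hT : Bornology.IsBounded T) (hTm : MeasurableSet T) :
    ContDiff ℝ 2 (fun x => ∫ q in T, F (x, q) ∂μ) := by
  have h1 := hasFDerivAt_setIntegral μ (hF.of_le (by norm_num)) hT hTm
  have h2 := contDiff_one_setIntegral μ (contDiff_pd hF (m := 2) (by norm_num)) hT hTm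
  have e : fderiv ℝ (fun x => ∫ q in T, F (x, q) ∂μ) = fun x => ∫ q in T, pd F (x, q) ∂μ :=
    funext fun x => (h1 x).fderiv
  rw [show (2 : WithTop ℕ∞) = 1 + 1 by norm_num, contDiff_succ_iff_fderiv]
  refine ⟨fun x => (h1 x).differentiableAt, by simp, ?_⟩
  rw [e]
  exact h2

end Pool.Agent.H36.Fill
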