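import Pool.Agent.H36.Fill.Tiles

/-!
# The partition of unity associated with a tiling and a kernel
-/

open MeasureTheory Set Filter
open scoped NNReal Topology ENNReal ContDiff

namespace Pool.Agent.H36.Fill

set_option linter.unusedSectionVars false

variable {V : Type*} [NormedAddCommGroup V] [InnerProductSpace ℝ V] [FiniteDimensional ℝ V]
  [MeasurableSpace V] [BorelSpace V] {μ : Measure V} [μ.IsAddHaarMeasure]

namespace StratifiedGroup

variable (G : StratifiedGroup V)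

/-- Tilings by small measurable sets. -/
structure IsTiling (η : ℝ) (Z : Set V) {M : Type*} (T : M → Set V) (N : M → V) : Prop where
  meas : ∀ a, MeasurableSet (T a)
  disj : Pairwise (Function.onFun Disjoint T)
  union : (⋃ a, T a) = Z
  small : ∀ a, ∀ q ∈ T a, ‖G.mul (-(N a)) q‖ ≤ η
  bdd : Bornology.IsBounded Z

/-- The integral of the kernel over a set. -/
noncomputable def psi (μ : Measure V) (ρ : V → ℝ) (T : Set V) (x : V) : ℝ :=
  ∫ q in T, G.PP ρ (x, q) ∂μ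

variable {ρ : V → ℝ} {ε : ℝ}

lemma contDiff_psi (hρ : IsKer μ ρ ε) {T : Set V} (hT : Bornology.IsBounded T)
    (hTm : MeasurableSet T) : ContDiff ℝ 2 (G.psi μ ρ T) :=
  contDiff_two_setIntegral μ ((G.contDiff_PP hρ.smooth).of_le
    (WithTop.coe_le_coe.mpr (le_top : (3 : ℕ∞) ≤ ⊤))) hT hTm

lemma fderiv_psi_dL (hρ : IsKer μ ρ ε) {T : Set V} (hT : Bornology.IsBounded T)
    (hTm : MeasurableSet T) (x v : V) :
    fderiv ℝ (G.psi μ ρ T) x (G.dL x v) = ∫ q in T, G.gg ρ v (G.mul (-x) q) ∂μ := by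
  have h1 := hasFDerivAt_setIntegral μ ((G.contDiff_PP hρ.smooth).of_le (by simp)) hT hTm x
  have e : fderiv ℝ (G.psi μ ρ T) x = ∫ q in T, pd (G.PP ρ) (x, q) ∂μ := h1.fderiv
  have hpd : Continuous (pd (G.PP ρ)) :=
    (contDiff_pd (G.contDiff_PP hρ.smooth) (m := 0) (by simp)).continuous
  obtain ⟨R, hR⟩ := hT.subset_closedBall (0 : V)
  have hI : Integrable (fun q => pd (G.PP ρ) (x, q)) (μ.restrict T) := by
    have : IntegrableOn (fun q => pd (G.PP ρ) (x, q)) (Metric.closedBall (0 : V) R) μ :=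
      (hpd.comp (Continuous.prodMk_right x)).continuousOn.integrableOn_compact
        (isCompact_closedBall _ _)
    exact this.mono_set hR
  rw [e, ContinuousLinearMap.integral_apply hI]
  simp only [G.pd_PP_dL hρ.smooth]

/-! ### Translates of the kernel -/

lemma integrable_comp_mul {W : Type*} [NormedAddCommGroup W] [NormedSpace ℝ W] (x : V)
    {f : V → W} (hf : Integrable f μ) : Integrable (fun q => f (G.mul x q)) μ :=
  (G.measurePreserving_mul μ x).integrable_comp_of_integrable hf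

lemma integral_comp_le (x : V) {f : V → ℝ} (hf : Integrable f μ) (hf0 : ∀ z, 0 ≤ f z) (Z : Set V) :
    ∫ q in Z, f (G.mul x q) ∂μ ≤ ∫ z, f z ∂μ := by
  rw [← G.integral_mul_left μ x f]
  exact setIntegral_le_integral (G.integrable_comp_mul x hf) (Eventually.of_forall fun _ => hf0 _)

lemma integral_comp_eq {W : Type*} [NormedAddCommGroup W] [NormedSpace ℝ W] (x : V) {f : V → W}
    {Z : Set V} (hZ : ∀ q, q ∉ Z → f (G.mul x q) = 0) :
    ∫ q in Z, f (G.mul x q) ∂μ = ∫ z, f z ∂μ := by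
  rw [← G.integral_mul_left μ x f]
  exact setIntegral_eq_integral_of_forall_compl_eq_zero hZ

variable {G} {M : Type*} [Fintype M] {η : ℝ} {Z : Set V} {T : M → Set V} {N : M → V}

lemma IsTiling.subset (hT : G.IsTiling η Z T N) (a : M) : T a ⊆ Z := by
  rw [← hT.union]; exact subset_iUnion T a

lemma IsTiling.bdd' (hT : G.IsTiling η Z T N) (a : M) : Bornology.IsBounded (T a) :=
  hT.bdd.subset (hT.subset a)

lemma IsTiling.sum_integral {W : Type*} [NormedAddCommGroup W] [NormedSpace ℝ W]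
    (hT : G.IsTiling η Z T N) {f : V → W} (hf : Integrable f μ) :
    ∑ a, ∫ q in T a, f q ∂μ = ∫ q in Z, f q ∂μ := by
  rw [← hT.union, integral_iUnion_fintype hT.meas hT.disj fun a => hf.integrableOn]

lemma IsTiling.psi_nonneg (hρ : IsKer μ ρ ε) (a : M) (x : V) : 0 ≤ G.psi μ ρ (T a) x :=
  integral_nonneg fun _ => hρ.nonneg _

lemma IsTiling.sum_psi_le (hT : G.IsTiling η Z T N) (hρ : IsKer μ ρ ε) (x : V) :
    ∑ a, |G.psi μ ρ (T a) x| ≤ 1 := by
  have h1 : ∀ a, |G.psi μ ρ (T a) x| = ∫ q in T a, ρ (G.mul (-x) q) ∂μ := fun a =>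
    abs_of_nonneg (IsTiling.psi_nonneg hρ a x)
  simp only [h1]
  rw [hT.sum_integral (G.integrable_comp_mul (-x) hρ.integrable), ← hρ.int]
  exact G.integral_comp_le (-x) hρ.integrable hρ.nonneg Z

lemma IsTiling.sum_psi (hT : G.IsTiling η Z T N) (hρ : IsKer μ ρ ε) {x : V}
    (hx : ∀ q, ‖G.mul (-x) q‖ ≤ ε → q ∈ Z) : ∑ a, G.psi μ ρ (T a) x = 1 := by
  have h1 : ∀ a, G.psi μ ρ (T a) x = ∫ q in T a, ρ (G.mul (-x) q) ∂μ := fun a => rfl
  simp only [h1]
  rw [hT.sum_integral (G.integrable_comp_mul (-x) hρ.integrable), ← hρ.int]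
  refine G.integral_comp_eq (-x) fun q hq => hρ.supp _ ?_
  by_contra hcon
  exact hq (hx q (not_lt.mp hcon))

lemma IsTiling.sum_fderiv_psi (hT : G.IsTiling η Z T N) (hρ : IsKer μ ρ ε) {x : V}
    (hx : ∀ᶠ y in 𝓝 x, ∀ q, ‖G.mul (-y) q‖ ≤ ε → q ∈ Z) :
    ∑ a, fderiv ℝ (G.psi μ ρ (T a)) x = 0 := by
  have h1 : (fun y => ∑ a, G.psi μ ρ (T a) y) =ᶠ[𝓝 x] fun _ => 1 := by
    filter_upwards [hx] with y hy
    exact hT.sum_psi hρ hy
  have h2 : HasFDerivAt (fun y => ∑ a, G.psi μ ρ (T a) y)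
      (∑ a, fderiv ℝ (G.psi μ ρ (T a)) x) x := by
    refine HasFDerivAt.fun_sum fun a _ => ?_
    exact ((G.contDiff_psi hρ (hT.bdd' a) (hT.meas a)).differentiable two_ne_zero x).hasFDerivAt
  rw [← h2.fderiv, h1.fderiv_eq]
  simp

lemma IsTiling.sum_abs_fderiv_psi_le (hT : G.IsTiling η Z T N) (hρ : IsKer μ ρ ε) (x v : V) :
    ∑ a, |fderiv ℝ (G.psi μ ρ (T a)) x (G.dL x v)| ≤ ∫ z, |G.gg ρ v z| ∂μ := by
  have hint : Integrable (fun z => |G.gg ρ v z|) μ := (G.integrable_gg hρ v).abs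
  calc ∑ a, |fderiv ℝ (G.psi μ ρ (T a)) x (G.dL x v)|
      ≤ ∑ a, ∫ q in T a, |G.gg ρ v (G.mul (-x) q)| ∂μ := by
        refine Finset.sum_le_sum fun a _ => ?_
        rw [G.fderiv_psi_dL hρ (hT.bdd' a) (hT.meas a)]
        exact abs_integral_le_integral_abs
    _ = ∫ q in Z, |G.gg ρ v (G.mul (-x) q)| ∂μ :=
        hT.sum_integral (G.integrable_comp_mul (-x) hint)
    _ ≤ _ := G.integral_comp_le (-x) hint (fun _ => abs_nonneg _) Z

variable (G) in
/-- The constants in the estimates for the multiplication near the neutral element. -/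
lemma exists_mul_const : ∃ C : ℝ, 0 ≤ C ∧ ∀ z u : V, ‖z‖ ≤ 1 → ‖u‖ ≤ 1 →
    ‖G.mul z (-u)‖ ≤ C * (‖z‖ + ‖u‖) ∧ ‖G.mul z (-u) - z‖ ≤ C * ‖u‖ := by
  obtain ⟨K, hK⟩ := lipschitzOnWith_ball (G.contDiff_mulP.of_le (by simp) : ContDiff ℝ 1 G.mulP) 1
  refine ⟨K, K.2, fun z u hz hu => ⟨?_, ?_⟩⟩
  · have h := hK.dist_le_mul (z, -u) (by
      rw [mem_closedBall_zero_iff, Prod.norm_def]; simpa using ⟨hz, hu⟩) (0, 0) (by simp)
    rw [dist_eq_norm, dist_eq_norm] at h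
    simp only [mulP, G.mul_zero, sub_zero, Prod.mk_sub_mk] at h
    refine h.trans (mul_le_mul_of_nonneg_left ?_ K.2)
    rw [Prod.norm_def, norm_neg]
    exact max_le (by linarith [norm_nonneg u]) (by linarith [norm_nonneg z])
  · have h := hK.dist_le_mul (z, -u) (by
      rw [mem_closedBall_zero_iff, Prod.norm_def]; simpa using ⟨hz, hu⟩) (z, 0) (by
      rw [mem_closedBall_zero_iff, Prod.norm_def]; simpa using hz)
    rw [dist_eq_norm, dist_eq_norm] at h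
    simp only [mulP, G.mul_zero, sub_zero, Prod.mk_sub_mk, sub_self] at h
    refine h.trans (mul_le_mul_of_nonneg_left ?_ K.2)
    rw [Prod.norm_def, norm_zero, norm_neg]
    exact max_le (norm_nonneg _) le_rfl

variable (G) in
lemma mul_mul_neg (x n q : V) :
    G.mul (G.mul (-x) q) (-(G.mul (-n) q)) = G.mul (-x) n := by
  rw [G.neg_mul_rev, neg_neg, G.mul_assoc, G.mul_neg_cancel]

/-- Tiles which contribute at `x` have centers near `x`. -/
lemma IsTiling.exists_of_psi_ne (hρ : IsKer μ ρ ε) {a : M} {x : V}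
    (h : G.psi μ ρ (T a) x ≠ 0) : ∃ q ∈ T a, ‖G.mul (-x) q‖ ≤ ε := by
  by_contra hcon
  push Not at hcon
  apply h
  rw [psi]
  refine setIntegral_eq_zero_of_forall_eq_zero fun q hq => ?_
  exact hρ.supp _ (hcon q hq)

lemma IsTiling.exists_of_fderiv_psi_ne (hT : G.IsTiling η Z T N) (hρ : IsKer μ ρ ε) {a : M}
    {x v : V} (h : fderiv ℝ (G.psi μ ρ (T a)) x (G.dL x v) ≠ 0) :
    ∃ q ∈ T a, ‖G.mul (-x) q‖ ≤ ε := by
  by_contra hcon
  push Not at hcon
  apply h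
  rw [G.fderiv_psi_dL hρ (hT.bdd' a) (hT.meas a)]
  refine setIntegral_eq_zero_of_forall_eq_zero fun q hq => ?_
  exact G.gg_eq_zero hρ v (hcon q hq)

lemma IsTiling.center_near (hT : G.IsTiling η Z T N) {C : ℝ} (hC0 : 0 ≤ C)
    (hC : ∀ z u : V, ‖z‖ ≤ 1 → ‖u‖ ≤ 1 →
      ‖G.mul z (-u)‖ ≤ C * (‖z‖ + ‖u‖) ∧ ‖G.mul z (-u) - z‖ ≤ C * ‖u‖)
    (hε : ε ≤ 1) (hη : η ≤ ε) {a : M} {x : V} (h : ∃ q ∈ T a, ‖G.mul (-x) q‖ ≤ ε) :
    ‖G.mul (-x) (N a)‖ ≤ 2 * C * ε := by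
  obtain ⟨q, hq, hx⟩ := h
  have hu := hT.small a q hq
  have h1 := (hC _ _ (hx.trans hε) (hu.trans (hη.trans hε))).1
  rw [G.mul_mul_neg] at h1
  refine h1.trans ?_
  calc C * (‖G.mul (-x) q‖ + ‖G.mul (-(N a)) q‖) ≤ C * (ε + ε) := by
        refine mul_le_mul_of_nonneg_left ?_ hC0
        linarith
    _ = _ := by ring

/-- The first moment. -/
lemma IsTiling.moment_le (hT : G.IsTiling η Z T N) {C : ℝ} (hC0 : 0 ≤ C)
    (hC : ∀ z u : V, ‖z‖ ≤ 1 → ‖u‖ ≤ 1 →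
      ‖G.mul z (-u)‖ ≤ C * (‖z‖ + ‖u‖) ∧ ‖G.mul z (-u) - z‖ ≤ C * ‖u‖)
    (hε : ε ≤ 1) (hη : η ≤ ε) (hρ : IsKer μ ρ ε) {x : V}
    (hx : ∀ q, ‖G.mul (-x) q‖ ≤ ε → q ∈ Z) (v : V) :
    ‖∑ a, fderiv ℝ (G.psi μ ρ (T a)) x (G.dL x v) • G.mul (-x) (N a) -
      ∫ z, G.gg ρ v z • z ∂μ‖ ≤ C * η * ∫ z, |G.gg ρ v z| ∂μ := by
  have hgz : Integrable (fun z => G.gg ρ v z • z) μ := by
    refine ((G.continuous_gg hρ.smooth v).smul continuous_id).integrable_of_hasCompactSupport ?_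
    exact (G.hasCompactSupport_gg hρ v).smul_right
  have hg := G.integrable_gg hρ v
  have hgq := G.integrable_comp_mul (-x) hg
  have hgzq := G.integrable_comp_mul (-x) hgz
  have hgabs : Integrable (fun z => |G.gg ρ v z|) μ := hg.abs
  have hgabsq := G.integrable_comp_mul (-x) hgabs
  have e1 : ∫ z, G.gg ρ v z • z ∂μ =
      ∑ a, ∫ q in T a, G.gg ρ v (G.mul (-x) q) • G.mul (-x) q ∂μ := by
    rw [hT.sum_integral hgzq]
    refine (G.integral_comp_eq (f := fun z => G.gg ρ v z • z) (-x) fun q hq => ?_).symm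
    rw [G.gg_eq_zero hρ v, zero_smul]
    by_contra hcon
    exact hq (hx q (not_lt.mp hcon))
  have e2 : ∀ a, fderiv ℝ (G.psi μ ρ (T a)) x (G.dL x v) • G.mul (-x) (N a) =
      ∫ q in T a, G.gg ρ v (G.mul (-x) q) • G.mul (-x) (N a) ∂μ := by
    intro a
    rw [G.fderiv_psi_dL hρ (hT.bdd' a) (hT.meas a), integral_smul_const]
  rw [e1]
  simp only [e2]
  rw [← Finset.sum_sub_distrib]
  have e3 : ∀ a, (∫ q in T a, G.gg ρ v (G.mul (-x) q) • G.mul (-x) (N a) ∂μ) -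
      ∫ q in T a, G.gg ρ v (G.mul (-x) q) • G.mul (-x) q ∂μ =
      ∫ q in T a, G.gg ρ v (G.mul (-x) q) • (G.mul (-x) (N a) - G.mul (-x) q) ∂μ := by
    intro a
    rw [← integral_sub (hgq.smul_const _).integrableOn hgzq.integrableOn]
    simp only [smul_sub]
  simp only [e3]
  calc ‖∑ a, ∫ q in T a, G.gg ρ v (G.mul (-x) q) • (G.mul (-x) (N a) - G.mul (-x) q) ∂μ‖
      ≤ ∑ a, ‖∫ q in T a, G.gg ρ v (G.mul (-x) q) • (G.mul (-x) (N a) - G.mul (-x) q) ∂μ‖ :=
        norm_sum_le _ _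
    _ ≤ ∑ a, ∫ q in T a, |G.gg ρ v (G.mul (-x) q)| * (C * η) ∂μ := by
        refine Finset.sum_le_sum fun a _ => ?_
        refine norm_integral_le_of_norm_le (hgabsq.mul_const _).integrableOn ?_
        filter_upwards [ae_restrict_mem (hT.meas a)] with q hq
        rw [norm_smul, Real.norm_eq_abs]
        by_cases hz : ε < ‖G.mul (-x) q‖
        · rw [G.gg_eq_zero hρ v hz]; simp
        · refine mul_le_mul_of_nonneg_left ?_ (abs_nonneg _)
          have hu := hT.small a q hq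
          have h1 := (hC _ _ ((not_lt.mp hz).trans hε) (hu.trans (hη.trans hε))).2
          rw [G.mul_mul_neg] at h1
          exact h1.trans (mul_le_mul_of_nonneg_left hu hC0)
    _ = (∑ a, ∫ q in T a, |G.gg ρ v (G.mul (-x) q)| ∂μ) * (C * η) := by
        rw [Finset.sum_mul]
        exact Finset.sum_congr rfl fun a _ => integral_mul_const _ _
    _ = (∫ q in Z, |G.gg ρ v (G.mul (-x) q)| ∂μ) * (C * η) := by
        rw [hT.sum_integral hgabsq]
    _ = (∫ z, |G.gg ρ v z| ∂μ) * (C * η) := by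
        congr 1
        refine G.integral_comp_eq (f := fun z => |G.gg ρ v z|) (-x) fun q hq => ?_
        rw [G.gg_eq_zero hρ v, abs_zero]
        by_contra hcon
        exact hq (hx q (not_lt.mp hcon))
    _ = _ := by ring

end StratifiedGroup

end Pool.Agent.H36.Fill
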