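import Pool.Agent.H36.Fill.Defs

/-!
# Combinatorics of the standard and the ordered simplex
-/

open MeasureTheory Set Filter
open scoped NNReal Topology

namespace Pool.Agent.H36.Fill

/-! ### The extended sequence `1, t_1, ..., t_k, 0, 0, ...` -/

/-- The sequence `1, t_1, ..., t_k, 0, 0, ...`. -/
def hat {k : ℕ} (t : Fin k → ℝ) (m : ℕ) : ℝ :=
  if m = 0 then 1 else if h : m - 1 < k then t ⟨m - 1, h⟩ else 0

variable {k : ℕ}

@[simp] lemma hat_zero (t : Fin k → ℝ) : hat t 0 = 1 := by simp [hat]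

lemma hat_succ (t : Fin k → ℝ) (m : ℕ) : hat t (m + 1) = if h : m < k then t ⟨m, h⟩ else 0 := by
  simp [hat]

lemma hat_fin (t : Fin k → ℝ) (i : Fin k) : hat t (i + 1) = t i := by
  rw [hat_succ, dif_pos i.2]

lemma hat_of_lt (t : Fin k → ℝ) {m : ℕ} (h : k < m) : hat t m = 0 := by
  obtain ⟨m', rfl⟩ : ∃ m', m = m' + 1 := ⟨m - 1, by omega⟩
  rw [hat_succ, dif_neg (by omega)]

lemma cons_eq_hat (t : Fin k → ℝ) (i : Fin (k + 1)) :
    (Fin.cons 1 t : Fin (k + 1) → ℝ) i = hat t i := by
  refine Fin.cases ?_ (fun j => ?_) i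
  · simp
  · rw [Fin.cons_succ, Fin.val_succ, hat_fin]

lemma snoc_eq_hat (t : Fin k → ℝ) (i : Fin (k + 1)) :
    (Fin.snoc t 0 : Fin (k + 1) → ℝ) i = hat t (i + 1) := by
  refine Fin.lastCases ?_ (fun j => ?_) i
  · rw [Fin.snoc_last, Fin.val_last, hat_of_lt]; omega
  · rw [Fin.snoc_castSucc, Fin.val_castSucc, hat_fin]

lemma ord_eq_hat (t : Fin k → ℝ) (i : Fin (k + 1)) : ord t i = hat t i - hat t (i + 1) := by
  rw [ord, cons_eq_hat, snoc_eq_hat]

lemma sum_ord (t : Fin k → ℝ) : ∑ i, ord t i = 1 := by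
  simp only [ord_eq_hat]
  rw [Fin.sum_univ_eq_sum_range (fun m => hat t m - hat t (m + 1)) (k + 1),
    Finset.sum_range_sub', hat_zero, hat_of_lt _ (by omega), sub_zero]

lemma mem_ordSimplex_iff {t : Fin k → ℝ} :
    t ∈ ordSimplex k ↔ ∀ m, m < k + 1 → hat t (m + 1) ≤ hat t m := by
  constructor
  · intro h m hm
    have := h.1 ⟨m, hm⟩
    rw [ord_eq_hat] at this
    simpa using this
  · intro h
    refine ⟨fun i => ?_, sum_ord t⟩
    rw [ord_eq_hat]
    have := h i i.2
    linarith

lemma hat_insertNth (i : Fin (k + 1)) (s : ℝ) (t : Fin k → ℝ) (m : ℕ) :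
    hat (i.insertNth s t : Fin (k + 1) → ℝ) m =
      if m ≤ i then hat t m else if m = i + 1 then s else hat t (m - 1) := by
  rcases m with _ | m
  · simp
  rw [hat_succ]
  by_cases h : m < k + 1
  · rw [dif_pos h]
    rcases lt_trichotomy m (i : ℕ) with hlt | heq | hgt
    · have hm : m < k := by omega
      have e : (⟨m, h⟩ : Fin (k + 1)) = i.succAbove ⟨m, hm⟩ := by
        rw [Fin.succAbove_of_castSucc_lt]
        · rfl
        · exact hlt
      rw [e, Fin.insertNth_apply_succAbove, if_pos (by omega), hat_succ, dif_pos hm]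
    · have e : (⟨m, h⟩ : Fin (k + 1)) = i := Fin.ext heq
      rw [e, Fin.insertNth_apply_same, if_neg (by omega), if_pos (by omega)]
    · have hm : m - 1 < k := by omega
      have e : (⟨m, h⟩ : Fin (k + 1)) = i.succAbove ⟨m - 1, hm⟩ := by
        rw [Fin.succAbove_of_le_castSucc]
        · apply Fin.ext; simp; omega
        · rw [Fin.le_iff_val_le_val]; simp; omega
      rw [e, Fin.insertNth_apply_succAbove, if_neg (by omega), if_neg (by omega)]
      obtain ⟨m', rfl⟩ : ∃ m', m = m' + 1 := ⟨m - 1, by omega⟩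
      have : m' < k := by omega
      simp only [Nat.add_sub_cancel]
      rw [hat_succ, dif_pos this]
  · rw [dif_neg h, if_neg (by omega), if_neg (by omega), hat_of_lt]
    omega

/-! ### Faces in the coordinates of the ordered simplex -/

/-- The face map in the coordinates of the ordered simplex: it repeats the `j`-th entry of the
sequence `1, t_1, ..., t_k, 0`. -/
def dup (j : Fin (k + 2)) (t : Fin k → ℝ) : Fin (k + 1) → ℝ :=
  fun i => if (i : ℕ) < j then hat t (i + 1) else hat t i

lemma hat_dup (j : Fin (k + 2)) (t : Fin k → ℝ) (m : ℕ) :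
    hat (dup j t) m = if m ≤ j then hat t m else hat t (m - 1) := by
  rcases m with _ | m
  · simp
  rw [hat_succ]
  by_cases h : m < k + 1
  · rw [dif_pos h, dup]
    simp only
    by_cases h2 : m < (j : ℕ)
    · rw [if_pos h2, if_pos (by omega)]
    · rw [if_neg h2, if_neg (by omega), Nat.add_sub_cancel]
  · rw [dif_neg h]
    have := j.2
    by_cases h2 : m + 1 ≤ (j : ℕ)
    · omega
    · rw [if_neg h2, Nat.add_sub_cancel, hat_of_lt _ (by omega)]

lemma insertNth_cons (i : Fin (k + 1)) (t : Fin k → ℝ) :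
    (i.insertNth (hat t i) t : Fin (k + 1) → ℝ) = dup i.castSucc t := by
  funext l
  have h1 := hat_fin (i.insertNth (hat t i) t : Fin (k + 1) → ℝ) l
  have h2 := hat_fin (dup i.castSucc t) l
  rw [← h1, ← h2, hat_insertNth, hat_dup, Fin.val_castSucc]
  by_cases h : (l : ℕ) + 1 ≤ i
  · rw [if_pos h, if_pos h]
  · rw [if_neg h, if_neg h]
    by_cases h3 : (l : ℕ) + 1 = i + 1
    · rw [if_pos h3, Nat.add_sub_cancel]
      congr 1; omega
    · rw [if_neg h3]

lemma insertNth_snoc (i : Fin (k + 1)) (t : Fin k → ℝ) :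
    (i.insertNth (hat t (i + 1)) t : Fin (k + 1) → ℝ) = dup i.succ t := by
  funext l
  have h1 := hat_fin (i.insertNth (hat t (i + 1)) t : Fin (k + 1) → ℝ) l
  have h2 := hat_fin (dup i.succ t) l
  rw [← h1, ← h2, hat_insertNth, hat_dup, Fin.val_succ]
  by_cases h : (l : ℕ) + 1 ≤ i
  · rw [if_pos h, if_pos (by omega)]
  · rw [if_neg h]
    by_cases h3 : (l : ℕ) + 1 = i + 1
    · rw [if_pos h3, if_pos (by omega), h3]
    · rw [if_neg h3, if_neg (by omega)]

lemma insertNth_mem_ordSimplex {i : Fin (k + 1)} {s : ℝ} {t : Fin k → ℝ} :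
    (i.insertNth s t : Fin (k + 1) → ℝ) ∈ ordSimplex (k + 1) ↔
      t ∈ ordSimplex k ∧ s ∈ Icc (hat t (i + 1)) (hat t i) := by
  rw [mem_ordSimplex_iff, mem_ordSimplex_iff]
  simp only [hat_insertNth]
  have hi := i.2
  constructor
  · intro h
    have h1 := h i (by omega)
    rw [if_neg (by omega), if_pos rfl, if_pos (by omega)] at h1
    have h2 := h (i + 1) (by omega)
    rw [if_neg (by omega), if_neg (by omega), if_neg (by omega), if_pos rfl] at h2
    simp only [Nat.add_sub_cancel] at h2
    refine ⟨fun m hm => ?_, h2, h1⟩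
    rcases lt_trichotomy m (i : ℕ) with hlt | heq | hgt
    · have := h m (by omega)
      rwa [if_pos (by omega), if_pos (by omega)] at this
    · subst heq
      exact h2.trans h1
    · have := h (m + 1) (by omega)
      rw [if_neg (by omega), if_neg (by omega), if_neg (by omega), if_neg (by omega)] at this
      simpa only [Nat.add_sub_cancel] using this
  · rintro ⟨h, hs1, hs2⟩ m hm
    rcases lt_trichotomy m (i : ℕ) with hlt | heq | hgt
    · rw [if_pos (by omega), if_pos (by omega)]
      exact h m (by omega)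
    · subst heq
      rw [if_neg (by omega), if_pos rfl, if_pos (by omega)]
      exact hs2
    · rw [if_neg (by omega), if_neg (by omega), if_neg (by omega)]
      obtain ⟨m', rfl⟩ : ∃ m', m = m' + 1 := ⟨m - 1, by omega⟩
      simp only [Nat.add_sub_cancel]
      by_cases h3 : m' = i
      · subst h3; rw [if_pos rfl]; exact hs1
      · rw [if_neg (by omega)]
        exact h m' (by omega)

/-! ### Compatibility with the faces of the standard simplex -/

lemma coe_map_succAbove (j : Fin (k + 2)) (x : stdSimplex ℝ (Fin (k + 1))) :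
    (stdSimplex.map j.succAbove x).1 = j.insertNth 0 x.1 := by
  funext i
  have h : (stdSimplex.map j.succAbove x).1 i =
      ∑ l : Fin (k + 1) with j.succAbove l = i, x.1 l :=
    FunOnFinite.linearMap_apply_apply ℝ ℝ j.succAbove x.1 i
  rw [h]
  rcases Fin.eq_self_or_eq_succAbove j i with rfl | ⟨l, rfl⟩
  · rw [Fin.insertNth_apply_same, Finset.sum_eq_zero]
    intro l hl
    rw [Finset.mem_filter] at hl
    exact absurd hl.2 (Fin.succAbove_ne _ _)
  · rw [Fin.insertNth_apply_succAbove]
    simp [Fin.succAbove_right_inj, Finset.filter_eq']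

lemma ord_dup (j : Fin (k + 2)) (t : Fin k → ℝ) :
    ord (dup j t) = (j.insertNth 0 (ord t) : Fin (k + 2) → ℝ) := by
  funext l
  rw [ord_eq_hat, hat_dup, hat_dup]
  rcases Fin.eq_self_or_eq_succAbove j l with rfl | ⟨l, rfl⟩
  · rw [Fin.insertNth_apply_same, if_pos le_rfl, if_neg (by omega), Nat.add_sub_cancel, sub_self]
  · rw [Fin.insertNth_apply_succAbove, ord_eq_hat]
    rcases lt_or_ge l.castSucc j with h | h
    · rw [Fin.succAbove_of_castSucc_lt _ _ h, Fin.val_castSucc]
      have h' : (l : ℕ) < j := h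
      rw [if_pos (by omega), if_pos (by omega)]
    · rw [Fin.succAbove_of_le_castSucc _ _ h, Fin.val_succ]
      have h' : (j : ℕ) ≤ l := h
      rw [if_neg (by omega), if_neg (by omega), Nat.add_sub_cancel, Nat.add_sub_cancel]

lemma insertNth_zero_mem_iff {j : Fin (k + 2)} {x : Fin (k + 1) → ℝ} :
    (j.insertNth 0 x : Fin (k + 2) → ℝ) ∈ stdSimplex ℝ (Fin (k + 2)) ↔
      x ∈ stdSimplex ℝ (Fin (k + 1)) := by
  constructor
  · rintro ⟨h1, h2⟩
    refine ⟨fun i => ?_, ?_⟩
    · have := h1 (j.succAbove i)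
      rwa [Fin.insertNth_apply_succAbove] at this
    · rw [Fin.sum_univ_succAbove _ j] at h2
      simpa using h2
  · rintro ⟨h1, h2⟩
    refine ⟨fun i => ?_, ?_⟩
    · rcases Fin.eq_self_or_eq_succAbove j i with rfl | ⟨l, rfl⟩
      · rw [Fin.insertNth_apply_same]
      · rw [Fin.insertNth_apply_succAbove]; exact h1 l
    · rw [Fin.sum_univ_succAbove _ j]
      simpa using h2

lemma dup_mem_iff {j : Fin (k + 2)} {t : Fin k → ℝ} :
    dup j t ∈ ordSimplex (k + 1) ↔ t ∈ ordSimplex k := by
  rw [ordSimplex, mem_setOf_eq, ord_dup, insertNth_zero_mem_iff]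
  rfl

/-- Faces of a singular simplex in coordinates. -/
lemma inCoord_face {V : Type*} [Zero V] (σ : Simp V (k + 1)) (j : Fin (k + 2)) (t : Fin k → ℝ) :
    inCoord (fun x => σ (stdSimplex.map j.succAbove x)) t = inCoord σ (dup j t) := by
  by_cases h : ord t ∈ stdSimplex ℝ (Fin (k + 1))
  · have h2 : ord (dup j t) ∈ stdSimplex ℝ (Fin (k + 2)) := by
      rw [ord_dup]; exact insertNth_zero_mem_iff.mpr h
    rw [inCoord, dif_pos h, inCoord, dif_pos h2]
    congr 1
    apply Subtype.ext
    rw [coe_map_succAbove]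
    exact (ord_dup j t).symm
  · have h2 : ¬ ord (dup j t) ∈ stdSimplex ℝ (Fin (k + 2)) := by
      rw [ord_dup]; exact fun h' => h (insertNth_zero_mem_iff.mp h')
    rw [inCoord, dif_neg h, inCoord, dif_neg h2]

/-! ### Topology and measure of the ordered simplex -/

lemma continuous_hat (m : ℕ) : Continuous (fun t : Fin k → ℝ => hat t m) := by
  unfold hat
  split_ifs
  · exact continuous_const
  · exact continuous_apply _
  · exact continuous_const

lemma isClosed_ordSimplex : IsClosed (ordSimplex k) := by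
  have : ordSimplex k = ⋂ m : ℕ, ⋂ _ : m < k + 1, {t | hat t (m + 1) ≤ hat t m} := by
    ext t
    rw [mem_ordSimplex_iff]
    simp
  rw [this]
  exact isClosed_iInter fun m => isClosed_iInter fun _ =>
    isClosed_le (continuous_hat _) (continuous_hat _)

lemma hat_mem_Icc {t : Fin k → ℝ} (h : t ∈ ordSimplex k) (m : ℕ) : hat t m ∈ Icc (0 : ℝ) 1 := by
  rw [mem_ordSimplex_iff] at h
  have hanti : ∀ m, hat t (m + 1) ≤ hat t m := by
    intro m
    rcases lt_or_ge m (k + 1) with h1 | h1
    · exact h m h1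
    · rw [hat_of_lt t (by omega : k < m + 1), hat_of_lt t (by omega : k < m)]
  have ha : Antitone (hat t) := antitone_nat_of_succ_le hanti
  constructor
  · have h1 := ha (show m ≤ m + k + 1 by omega)
    rw [hat_of_lt t (by omega : k < m + k + 1)] at h1
    exact h1
  · have h1 := ha (Nat.zero_le m)
    rwa [hat_zero] at h1

lemma ordSimplex_subset_Icc : ordSimplex k ⊆ Icc 0 1 := by
  intro t h
  constructor
  · intro i
    have := (hat_mem_Icc h (i + 1)).1
    rwa [hat_fin] at this
  · intro i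
    have := (hat_mem_Icc h (i + 1)).2
    rwa [hat_fin] at this

lemma isCompact_ordSimplex : IsCompact (ordSimplex k) :=
  IsCompact.of_isClosed_subset isCompact_Icc isClosed_ordSimplex ordSimplex_subset_Icc

lemma measurableSet_ordSimplex : MeasurableSet (ordSimplex k) :=
  isClosed_ordSimplex.measurableSet

end Pool.Agent.H36.Fill
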