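import Pool.Agent.H36.Fill.Psi

/-!
# Smearing
-/

open MeasureTheory Set Filter
open scoped NNReal Topology ENNReal ContDiff

namespace Pool.Agent.H36.Fill

set_option linter.unusedSectionVars false

variable {V : Type*} [NormedAddCommGroup V] [InnerProductSpace ℝ V] [FiniteDimensional ℝ V]

lemma alternating_comp_det' {n : ℕ} (hn : Module.finrank ℝ V = n) (D : V [⋀^Fin n]→L[ℝ] ℝ)
    (L : V →L[ℝ] V) (u : Fin n → V) : D (fun i => L (u i)) = L.det * D u := by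
  subst hn
  exact StratifiedGroup.alternating_comp_det D L u

namespace StratifiedGroup

variable (G : StratifiedGroup V)

lemma exists_form {n : ℕ} (hn : Module.finrank ℝ V = n) :
    ∃ (D : V [⋀^Fin n]→L[ℝ] ℝ) (b : Fin n → V), 0 < ∑ σ : Equiv.Perm (Fin n),
      ((Equiv.Perm.sign σ : ℤ) : ℝ) * G.BB D (fun i => b (σ i)) := by
  subst hn
  exact ⟨G.volForm, G.bas, G.sum_sign_BB_pos G.volForm G.volForm_bas⟩

/-- Expansion of the Jacobian determinant in the left-invariant frame. -/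
lemma jdet_eq_sum {n : ℕ} (hn : Module.finrank ℝ V = n) (f : Fin n → V → ℝ) (b : Fin n → V)
    (x : V) : jdet f b x = ∑ σ : Equiv.Perm (Fin n), ((Equiv.Perm.sign σ : ℤ) : ℝ) *
      ∏ i, fderiv ℝ (f i) x (G.dL x (b (σ i))) := by
  set L : V →L[ℝ] (Fin n → ℝ) := ContinuousLinearMap.pi fun i => fderiv ℝ (f i) x with hL
  set D' : V [⋀^Fin n]→L[ℝ] ℝ := (detC n).compContinuousLinearMap L with hD'
  have h1 : ∀ u : Fin n → V, D' u = Matrix.det (Matrix.of fun i j => fderiv ℝ (f i) x (u j)) := by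
    intro u
    rw [← Matrix.det_transpose]
    rfl
  have h2 := alternating_comp_det' hn D' (G.dL x) b
  rw [G.det_dL, one_mul, h1, h1] at h2
  rw [jdet, ← h2, ← Matrix.det_transpose, Matrix.det_apply']
  rfl

end StratifiedGroup

namespace StratifiedGroup

variable [MeasurableSpace V] [BorelSpace V] {μ : Measure V} [μ.IsAddHaarMeasure]
  {G : StratifiedGroup V} {m : ℕ} {M : Type*} [Fintype M]

variable (G μ) in
/-- The weights. -/
noncomputable def wS (ρ : V → ℝ) (T : M → Set V) (b : Fin (m + 1) → V) (x : V)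
    (σ : Equiv.Perm (Fin (m + 1))) : Fin (m + 2) → M → ℝ :=
  Fin.cons (fun a => G.psi μ ρ (T a) x)
    (fun i a => fderiv ℝ (G.psi μ ρ (T a)) x (G.dL x (b (σ i))))

variable (G μ) in
/-- The local pairing of a cochain with the smeared fundamental chain. -/
noncomputable def SS (ρ : V → ℝ) (T : M → Set V) (N : M → V) (b : Fin (m + 1) → V)
    (F : (Fin (m + 2) → V) → ℝ) (x : V) : ℝ :=
  ∑ ν : Fin (m + 2) → M, G.psi μ ρ (T (ν 0)) x *
    jdet (fun i : Fin (m + 1) => G.psi μ ρ (T (ν i.succ))) b x * F (fun i => N (ν i))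

variable {ρ : V → ℝ} {ε η : ℝ} {Z : Set V} {T : M → Set V} {N : M → V}

lemma SS_eq (hm : Module.finrank ℝ V = m + 1) (b : Fin (m + 1) → V)
    (F : (Fin (m + 2) → V) → ℝ) (x : V) :
    G.SS μ ρ T N b F x = ∑ σ : Equiv.Perm (Fin (m + 1)), ((Equiv.Perm.sign σ : ℤ) : ℝ) *
      pairT (G.wS μ ρ T b x σ) (fun ν => F fun i => N (ν i)) := by
  rw [SS]
  simp only [pairT, Finset.mul_sum]
  rw [Finset.sum_comm]
  refine Finset.sum_congr rfl fun ν _ => ?_
  rw [G.jdet_eq_sum hm, Finset.mul_sum, Finset.sum_mul]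
  refine Finset.sum_congr rfl fun σ _ => ?_
  rw [Fin.prod_univ_succ (n := m + 1), wS]
  simp only [Fin.cons_zero, Fin.cons_succ]
  ring

lemma SS_sub (b : Fin (m + 1) → V) (F F' : (Fin (m + 2) → V) → ℝ) (x : V) :
    G.SS μ ρ T N b (fun p => F p - F' p) x = G.SS μ ρ T N b F x - G.SS μ ρ T N b F' x := by
  simp only [SS, mul_sub, Finset.sum_sub_distrib]

lemma SS_const_mul (b : Fin (m + 1) → V) (c : ℝ) (F : (Fin (m + 2) → V) → ℝ) (x : V) :
    G.SS μ ρ T N b (fun p => c * F p) x = c * G.SS μ ρ T N b F x := by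
  rw [SS, SS, Finset.mul_sum]
  exact Finset.sum_congr rfl fun ν _ => by ring

lemma continuous_jdet {E : Type*} [NormedAddCommGroup E] [NormedSpace ℝ E] {n : ℕ}
    {f : Fin n → E → ℝ} (hf : ∀ i, ContDiff ℝ 2 (f i)) (v : Fin n → E) :
    Continuous (jdet f v) := by
  refine Continuous.matrix_det (continuous_matrix fun i j => ?_)
  exact (((hf i).continuous_fderiv two_ne_zero).clm_apply continuous_const)

lemma continuous_SS (hT : G.IsTiling η Z T N) (hρ : IsKer μ ρ ε) (b : Fin (m + 1) → V)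
    (F : (Fin (m + 2) → V) → ℝ) : Continuous (G.SS μ ρ T N b F) := by
  have hc : ∀ a, ContDiff ℝ 2 (G.psi μ ρ (T a)) := fun a =>
    G.contDiff_psi hρ (hT.bdd' a) (hT.meas a)
  unfold SS
  refine continuous_finsetSum _ fun ν _ => ?_
  exact (((hc _).continuous).mul (continuous_jdet (fun i => hc _) b)).mul continuous_const

/-- Nonvanishing weights have nearby centers. -/
lemma near_of_wS_ne (hT : G.IsTiling η Z T N) (hρ : IsKer μ ρ ε) {b : Fin (m + 1) → V} {x : V}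
    {σ : Equiv.Perm (Fin (m + 1))} {i : Fin (m + 2)} {a : M} (h : G.wS μ ρ T b x σ i a ≠ 0) :
    ∃ q ∈ T a, ‖G.mul (-x) q‖ ≤ ε := by
  revert h
  refine Fin.cases ?_ (fun i => ?_) i
  · intro h
    exact IsTiling.exists_of_psi_ne hρ h
  · intro h
    exact hT.exists_of_fderiv_psi_ne hρ h

lemma bd_of_near {k : ℕ} {δ r : ℝ} (hr : ∀ x y : V, ‖x‖ ≤ δ → ‖y‖ ≤ δ → ‖G.mul x y‖ ≤ r) {x : V}
    {p : Fin k → V} (h : ∀ i, ‖G.mul (-x) (p i)‖ ≤ δ) : G.Bd r p := by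
  intro i j
  have e : G.mul (-(p i)) (p j) = G.mul (-(G.mul (-x) (p i))) (G.mul (-x) (p j)) := by
    rw [G.neg_mul_rev, neg_neg, G.mul_assoc, G.mul_neg_cancel]
  rw [e]
  exact hr _ _ (by rw [norm_neg]; exact h i) (h j)

lemma prod_wS_le (hT : G.IsTiling η Z T N) (hρ : IsKer μ ρ ε) {b : Fin (m + 1) → V} {Γ : ℝ}
    (hΓ : ∀ j, ∫ z, |G.gg ρ (b j) z| ∂μ ≤ Γ) (x : V) (σ : Equiv.Perm (Fin (m + 1))) :
    ∏ i, ∑ a, |G.wS μ ρ T b x σ i a| ≤ Γ ^ (m + 1) := by
  rw [Fin.prod_univ_succ (n := m + 1)]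
  have h1 : ∑ a, |G.wS μ ρ T b x σ 0 a| ≤ 1 := hT.sum_psi_le hρ x
  have h2 : ∏ i : Fin (m + 1), ∑ a, |G.wS μ ρ T b x σ i.succ a| ≤ Γ ^ (m + 1) := by
    calc ∏ i : Fin (m + 1), ∑ a, |G.wS μ ρ T b x σ i.succ a| ≤ ∏ _i : Fin (m + 1), Γ := by
          refine Finset.prod_le_prod (fun i _ => Finset.sum_nonneg fun _ _ => abs_nonneg _)
            fun i _ => ?_
          exact (hT.sum_abs_fderiv_psi_le hρ x _).trans (hΓ _)
      _ = _ := by rw [Finset.prod_const, Finset.card_univ, Fintype.card_fin]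
  calc _ ≤ 1 * Γ ^ (m + 1) := mul_le_mul h1 h2
        (Finset.prod_nonneg fun i _ => Finset.sum_nonneg fun _ _ => abs_nonneg _) zero_le_one
    _ = _ := one_mul _

lemma abs_sum_sign_le {n : ℕ} {f : Equiv.Perm (Fin n) → ℝ} {A : ℝ} (h : ∀ σ, |f σ| ≤ A) :
    |∑ σ : Equiv.Perm (Fin n), ((Equiv.Perm.sign σ : ℤ) : ℝ) * f σ| ≤ n.factorial * A := by
  refine (Finset.abs_sum_le_sum_abs _ _).trans ?_
  calc ∑ σ : Equiv.Perm (Fin n), |((Equiv.Perm.sign σ : ℤ) : ℝ) * f σ|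
      ≤ ∑ _σ : Equiv.Perm (Fin n), A := by
        refine Finset.sum_le_sum fun σ _ => ?_
        rw [abs_mul]
        have : |((Equiv.Perm.sign σ : ℤ) : ℝ)| = 1 := by
          rcases Int.units_eq_one_or (Equiv.Perm.sign σ) with h | h <;> simp [h]
        rw [this, one_mul]
        exact h σ
    _ = _ := by
      rw [Finset.sum_const, Finset.card_univ, Fintype.card_perm, Fintype.card_fin, nsmul_eq_mul]

/-- Upper bound for the pairing. -/
lemma abs_SS_le (hm : Module.finrank ℝ V = m + 1) (hT : G.IsTiling η Z T N) (hρ : IsKer μ ρ ε)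
    {b : Fin (m + 1) → V} {Γ A : ℝ} (hΓ : ∀ j, ∫ z, |G.gg ρ (b j) z| ∂μ ≤ Γ)
    (F : (Fin (m + 2) → V) → ℝ) (x : V) (hA : 0 ≤ A)
    (hF : ∀ ν : Fin (m + 2) → M, (∀ i, ∃ q ∈ T (ν i), ‖G.mul (-x) q‖ ≤ ε) →
      |F fun i => N (ν i)| ≤ A) :
    |G.SS μ ρ T N b F x| ≤ (m + 1).factorial * (A * Γ ^ (m + 1)) := by
  rw [SS_eq hm]
  refine abs_sum_sign_le fun σ => ?_
  refine (abs_pairT_le _ _ (A := A) fun ν hν => hF ν fun i => near_of_wS_ne hT hρ (hν i)).trans ?_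
  exact mul_le_mul_of_nonneg_left (prod_wS_le hT hρ hΓ x σ) hA

end StratifiedGroup

end Pool.Agent.H36.Fill
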