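import Pool.Agent.H36.Fill.Smear

/-!
# Smearing: the coboundary term and the volume term
-/

open MeasureTheory Set Filter
open scoped NNReal Topology ENNReal ContDiff

namespace Pool.Agent.H36.Fill

set_option linter.unusedSectionVars false

variable {V : Type*} [NormedAddCommGroup V] [InnerProductSpace ℝ V] [FiniteDimensional ℝ V]

namespace StratifiedGroup

variable [MeasurableSpace V] [BorelSpace V] {μ : Measure V} [μ.IsAddHaarMeasure]
  {G : StratifiedGroup V} {m : ℕ} {M : Type*} [Fintype M]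
  {ρ : V → ℝ} {ε η : ℝ} {Z : Set V} {T : M → Set V} {N : M → V}

/-- The pairing with a coboundary. -/
lemma SS_altSum (hm : Module.finrank ℝ V = m + 1) (hT : G.IsTiling η Z T N) (hρ : IsKer μ ρ ε)
    (b : Fin (m + 1) → V) (F : (Fin (m + 1) → V) → ℝ) {x : V}
    (hx : ∀ᶠ y in 𝓝 x, ∀ q, ‖G.mul (-y) q‖ ≤ ε → q ∈ Z) :
    G.SS μ ρ T N b (altSum F) x =
      ∑ ν : Fin (m + 1) → M, jdet (fun i => G.psi μ ρ (T (ν i))) b x * F fun i => N (ν i) := by
  rw [SS_eq hm]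
  have h1 : ∀ σ : Equiv.Perm (Fin (m + 1)),
      pairT (G.wS μ ρ T b x σ) (fun ν => altSum F fun i => N (ν i)) =
      pairT (fun i => G.wS μ ρ T b x σ i.succ) (fun ν => F fun i => N (ν i)) := by
    intro σ
    refine pairT_altSum _ N F (hT.sum_psi hρ hx.self_of_nhds) fun i => ?_
    have h := congrArg (fun A => A (G.dL x (b (σ i)))) (hT.sum_fderiv_psi hρ hx)
    simp only [sum_apply, zero_apply] at h
    exact h
  have h2 : ∑ σ : Equiv.Perm (Fin (m + 1)), ((Equiv.Perm.sign σ : ℤ) : ℝ) *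
      pairT (G.wS μ ρ T b x σ) (fun ν => altSum F fun i => N (ν i)) =
      ∑ σ : Equiv.Perm (Fin (m + 1)), ((Equiv.Perm.sign σ : ℤ) : ℝ) *
      pairT (fun i => G.wS μ ρ T b x σ i.succ) (fun ν => F fun i => N (ν i)) :=
    Finset.sum_congr rfl fun σ _ => by rw [h1 σ]
  rw [h2]
  simp only [pairT, Finset.mul_sum]
  rw [Finset.sum_comm]
  refine Finset.sum_congr rfl fun ν _ => ?_
  rw [G.jdet_eq_sum hm, Finset.sum_mul]
  refine Finset.sum_congr rfl fun σ _ => ?_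
  simp only [wS, Fin.cons_succ]
  ring

/-- The integrand after integration by parts. -/
noncomputable def RR (G : StratifiedGroup V) (μ : Measure V) (ρ : V → ℝ) (T : M → Set V)
    (N : M → V) (b : Fin (m + 1) → V) (χ : V → ℝ) (F : (Fin (m + 1) → V) → ℝ) (x : V) : ℝ :=
  ∑ ν : Fin (m + 1) → M, G.psi μ ρ (T (ν 0)) x *
    jdet (Fin.cons χ fun i : Fin m => G.psi μ ρ (T (ν i.succ))) b x * F fun i => N (ν i)

lemma abs_RR_le (hm : Module.finrank ℝ V = m + 1) (hT : G.IsTiling η Z T N) (hρ : IsKer μ ρ ε)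
    {b : Fin (m + 1) → V} {Γ B : ℝ} (hΓ : ∀ j, ∫ z, |G.gg ρ (b j) z| ∂μ ≤ Γ)
    (χ : V → ℝ) (F : (Fin (m + 1) → V) → ℝ) (x : V) (hB : 0 ≤ B)
    (hF : ∀ ν : Fin (m + 1) → M, (∀ i, ∃ q ∈ T (ν i), ‖G.mul (-x) q‖ ≤ ε) →
      |F fun i => N (ν i)| ≤ B) :
    |G.RR μ ρ T N b χ F x| ≤
      (m + 1).factorial * (B * (Γ ^ m * ∑ j, |fderiv ℝ χ x (G.dL x (b j))|)) := by
  set w : Equiv.Perm (Fin (m + 1)) → Fin (m + 1) → M → ℝ := fun σ =>
    Fin.cons (fun a => G.psi μ ρ (T a) x * fderiv ℝ χ x (G.dL x (b (σ 0))))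
      (fun i a => fderiv ℝ (G.psi μ ρ (T a)) x (G.dL x (b (σ i.succ)))) with hw
  have e : G.RR μ ρ T N b χ F x = ∑ σ : Equiv.Perm (Fin (m + 1)),
      ((Equiv.Perm.sign σ : ℤ) : ℝ) * pairT (w σ) (fun ν => F fun i => N (ν i)) := by
    rw [RR]
    simp only [pairT, Finset.mul_sum]
    rw [Finset.sum_comm]
    refine Finset.sum_congr rfl fun ν _ => ?_
    rw [G.jdet_eq_sum hm, Finset.mul_sum, Finset.sum_mul]
    refine Finset.sum_congr rfl fun σ _ => ?_
    rw [Fin.prod_univ_succ, Fin.prod_univ_succ (f := fun i => w σ i (ν i))]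
    simp only [hw, Fin.cons_zero, Fin.cons_succ]
    ring
  rw [e]
  refine abs_sum_sign_le fun σ => ?_
  have hne : ∀ i a, w σ i a ≠ 0 → ∃ q ∈ T a, ‖G.mul (-x) q‖ ≤ ε := by
    intro i a
    refine Fin.cases ?_ (fun i => ?_) i
    · intro h
      refine IsTiling.exists_of_psi_ne hρ (x := x) fun h0 => h ?_
      simp only [hw, Fin.cons_zero, h0, MulZeroClass.zero_mul]
    · intro h
      exact hT.exists_of_fderiv_psi_ne hρ h
  refine (abs_pairT_le _ _ (A := B) fun ν hν => hF ν fun i => hne i _ (hν i)).trans ?_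
  refine mul_le_mul_of_nonneg_left ?_ hB
  rw [Fin.prod_univ_succ]
  have h1 : ∑ a, |w σ 0 a| ≤ ∑ j, |fderiv ℝ χ x (G.dL x (b j))| := by
    simp only [hw, Fin.cons_zero, abs_mul]
    rw [← Finset.sum_mul]
    calc (∑ a, |G.psi μ ρ (T a) x|) * |fderiv ℝ χ x (G.dL x (b (σ 0)))|
        ≤ 1 * |fderiv ℝ χ x (G.dL x (b (σ 0)))| :=
          mul_le_mul_of_nonneg_right (hT.sum_psi_le hρ x) (abs_nonneg _)
      _ = |fderiv ℝ χ x (G.dL x (b (σ 0)))| := one_mul _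
      _ ≤ _ := Finset.single_le_sum (f := fun j => |fderiv ℝ χ x (G.dL x (b j))|)
          (fun _ _ => abs_nonneg _) (Finset.mem_univ (σ 0))
  have h2 : ∏ i : Fin m, ∑ a, |w σ i.succ a| ≤ Γ ^ m := by
    calc ∏ i : Fin m, ∑ a, |w σ i.succ a| ≤ ∏ _i : Fin m, Γ := by
          refine Finset.prod_le_prod (fun i _ => Finset.sum_nonneg fun _ _ => abs_nonneg _)
            fun i _ => ?_
          exact (hT.sum_abs_fderiv_psi_le hρ x _).trans (hΓ _)
      _ = _ := by rw [Finset.prod_const, Finset.card_univ, Fintype.card_fin]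
  calc _ ≤ (∑ j, |fderiv ℝ χ x (G.dL x (b j))|) * Γ ^ m := mul_le_mul h1 h2
        (Finset.prod_nonneg fun i _ => Finset.sum_nonneg fun _ _ => abs_nonneg _)
        (Finset.sum_nonneg fun _ _ => abs_nonneg _)
    _ = _ := mul_comm _ _

lemma hasCompactSupport_jdet_cons {n : ℕ} {χ : V → ℝ} (hc : HasCompactSupport χ)
    (f : Fin n → V → ℝ) (v : Fin (n + 1) → V) : HasCompactSupport (jdet (Fin.cons χ f) v) := by
  refine hc.isCompact.of_isClosed_subset (isClosed_tsupport _) ?_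
  refine closure_minimal ?_ (isClosed_tsupport _)
  intro x hx
  by_contra hcon
  apply hx
  refine jdet_eq_zero_of_row 0 ?_
  have := (notMem_tsupport_iff_eventuallyEq).mp hcon
  rw [Fin.cons_zero, this.fderiv_eq]
  exact fderiv_const_apply 0

lemma integral_SS_altSum (hm : Module.finrank ℝ V = m + 1) (hT : G.IsTiling η Z T N)
    (hρ : IsKer μ ρ ε) (b : Fin (m + 1) → V) (F : (Fin (m + 1) → V) → ℝ) {χ : V → ℝ}
    (hχ : ContDiff ℝ 2 χ) (hc : HasCompactSupport χ)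
    (hx : ∀ x ∈ tsupport χ, ∀ᶠ y in 𝓝 x, ∀ q, ‖G.mul (-y) q‖ ≤ ε → q ∈ Z) :
    ∫ x, χ x * G.SS μ ρ T N b (altSum F) x ∂μ = -∫ x, G.RR μ ρ T N b χ F x ∂μ := by
  have hpc : ∀ a, ContDiff ℝ 2 (G.psi μ ρ (T a)) := fun a =>
    G.contDiff_psi hρ (hT.bdd' a) (hT.meas a)
  have hcons : ∀ (ν : Fin (m + 1) → M) (i : Fin (m + 1)),
      ContDiff ℝ 2 ((Fin.cons χ fun i : Fin m => G.psi μ ρ (T (ν i.succ)) :
        Fin (m + 1) → V → ℝ) i) := by
    intro ν i
    refine Fin.cases ?_ (fun i => ?_) i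
    · exact hχ
    · exact hpc _
  have e1 : ∀ x, χ x * G.SS μ ρ T N b (altSum F) x =
      ∑ ν : Fin (m + 1) → M, (F fun i => N (ν i)) *
        (χ x * jdet (fun i => G.psi μ ρ (T (ν i))) b x) := by
    intro x
    by_cases hxs : x ∈ tsupport χ
    · rw [SS_altSum hm hT hρ b F (hx x hxs), Finset.mul_sum]
      exact Finset.sum_congr rfl fun ν _ => by ring
    · rw [image_eq_zero_of_notMem_tsupport hxs]
      simp
  have e2 : ∀ x, G.RR μ ρ T N b χ F x =
      ∑ ν : Fin (m + 1) → M, (F fun i => N (ν i)) * (G.psi μ ρ (T (ν 0)) x *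
        jdet (Fin.cons χ fun i : Fin m => G.psi μ ρ (T (ν i.succ))) b x) := by
    intro x
    rw [RR]
    exact Finset.sum_congr rfl fun ν _ => by ring
  simp only [e1, e2]
  rw [integral_finsetSum, integral_finsetSum, ← Finset.sum_neg_distrib]
  · refine Finset.sum_congr rfl fun ν _ => ?_
    rw [integral_const_mul, integral_const_mul,
      integral_mul_jdet μ (fun i => hpc (ν i)) hχ hc b, mul_neg]
  · intro ν _
    refine Integrable.const_mul ?_ _
    refine Continuous.integrable_of_hasCompactSupport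
      (((hpc _).continuous).mul (continuous_jdet (hcons ν) b)) ?_
    exact (hasCompactSupport_jdet_cons hc _ b).mul_left
  · intro ν _
    refine Integrable.const_mul ?_ _
    refine Continuous.integrable_of_hasCompactSupport
      (hχ.continuous.mul (continuous_jdet (fun i => hpc _) b)) ?_
    exact hc.mul_right

/-- The bound for the coboundary term. -/
lemma abs_integral_SS_altSum_le (hm : Module.finrank ℝ V = m + 1) (hT : G.IsTiling η Z T N)
    (hρ : IsKer μ ρ ε) {b : Fin (m + 1) → V} {Γ B : ℝ}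
    (hΓ : ∀ j, ∫ z, |G.gg ρ (b j) z| ∂μ ≤ Γ) (F : (Fin (m + 1) → V) → ℝ) {χ : V → ℝ}
    (hχ : ContDiff ℝ 2 χ) (hc : HasCompactSupport χ)
    (hx : ∀ x ∈ tsupport χ, ∀ᶠ y in 𝓝 x, ∀ q, ‖G.mul (-y) q‖ ≤ ε → q ∈ Z) (hB : 0 ≤ B)
    (hF : ∀ x, ∀ ν : Fin (m + 1) → M, (∀ i, ∃ q ∈ T (ν i), ‖G.mul (-x) q‖ ≤ ε) →
      |F fun i => N (ν i)| ≤ B) :
    |∫ x, χ x * G.SS μ ρ T N b (altSum F) x ∂μ| ≤
      (m + 1).factorial * (B * (Γ ^ m * ∑ j, ∫ x, |fderiv ℝ χ x (G.dL x (b j))| ∂μ)) := by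
  rw [integral_SS_altSum hm hT hρ b F hχ hc hx, abs_neg]
  have hcd : ∀ j, Continuous fun x => |fderiv ℝ χ x (G.dL x (b j))| := by
    intro j
    refine Continuous.abs ?_
    refine (hχ.continuous_fderiv two_ne_zero).clm_apply ?_
    exact G.continuous_dL.clm_apply continuous_const
  have hci : ∀ j, Integrable (fun x => |fderiv ℝ χ x (G.dL x (b j))|) μ := by
    intro j
    refine (hcd j).integrable_of_hasCompactSupport ?_
    refine (hc.fderiv (𝕜 := ℝ)).mono ?_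
    intro x hx
    rw [Function.mem_support] at hx ⊢
    intro h0
    apply hx
    rw [h0]; simp
  have hbound : Integrable (fun x => ((m + 1).factorial : ℝ) *
      (B * (Γ ^ m * ∑ j, |fderiv ℝ χ x (G.dL x (b j))|))) μ :=
    ((((integrable_finsetSum Finset.univ fun j _ => hci j).const_mul _).const_mul _).const_mul _)
  have h1 := norm_integral_le_of_norm_le hbound (Eventually.of_forall fun x => by
    rw [Real.norm_eq_abs]
    exact abs_RR_le hm hT hρ hΓ χ F x hB (hF x))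
  rw [Real.norm_eq_abs] at h1
  refine h1.trans (le_of_eq ?_)
  rw [integral_const_mul, integral_const_mul, integral_const_mul, integral_finsetSum]
  exact fun j _ => hci j

/-! ### The volume term -/

variable (G μ) in
/-- The first moment. -/
noncomputable def mom (ρ : V → ℝ) (T : M → Set V) (N : M → V) (x v : V) : V :=
  ∑ a, fderiv ℝ (G.psi μ ρ (T a)) x (G.dL x v) • G.mul (-x) (N a)

lemma abs_SS_cc_sub_le (hm : Module.finrank ℝ V = m + 1) (hT : G.IsTiling η Z T N)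
    (hρ : IsKer μ ρ ε) (D : V [⋀^Fin (m + 1)]→L[ℝ] ℝ) {b : Fin (m + 1) → V} {Γ C C4 : ℝ}
    (hΓ : ∀ j, ∫ z, |G.gg ρ (b j) z| ∂μ ≤ Γ) (hC0 : 0 ≤ C)
    (hC : ∀ z u : V, ‖z‖ ≤ 1 → ‖u‖ ≤ 1 →
      ‖G.mul z (-u)‖ ≤ C * (‖z‖ + ‖u‖) ∧ ‖G.mul z (-u) - z‖ ≤ C * ‖u‖)
    (hC40 : 0 ≤ C4)
    (hC4 : ∀ p : Fin (m + 2) → V, ‖p‖ ≤ 1 →
      |G.cc D p - G.BB D (fun i => p i.succ - p i.castSucc)| ≤ C4 * ‖p‖ ^ (m + 2))
    (hε0 : 0 ≤ ε) (hε : ε ≤ 1) (hη : η ≤ ε) (hδ : 2 * C * ε ≤ 1) {x : V}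
    (hx : ∀ᶠ y in 𝓝 x, ∀ q, ‖G.mul (-y) q‖ ≤ ε → q ∈ Z) :
    |G.SS μ ρ T N b (G.cc D) x - ∑ σ : Equiv.Perm (Fin (m + 1)),
      ((Equiv.Perm.sign σ : ℤ) : ℝ) * G.BB D (fun i => G.mom μ ρ T N x (b (σ i)))| ≤
      (m + 1).factorial * (C4 * (2 * C * ε) ^ (m + 2) * Γ ^ (m + 1)) := by
  rw [SS_eq hm, ← Finset.sum_sub_distrib]
  simp only [← mul_sub]
  refine abs_sum_sign_le fun σ => ?_
  set y : M → V := fun a => G.mul (-x) (N a) with hy
  set w := G.wS μ ρ T b x σ with hw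
  have e1 : G.BB D (fun i => G.mom μ ρ T N x (b (σ i))) =
      pairT w (fun ν => G.BB D fun i => y (ν i.succ) - y (ν i.castSucc)) := by
    rw [pairT_multilinear w (hT.sum_psi hρ hx.self_of_nhds) (fun i => ?_) (G.BB D) y]
    · rfl
    · have h := congrArg (fun A => A (G.dL x (b (σ i)))) (hT.sum_fderiv_psi hρ hx)
      simp only [sum_apply, zero_apply] at h
      exact h
  rw [e1, ← pairT_sub]
  refine (abs_pairT_le _ _ (A := C4 * (2 * C * ε) ^ (m + 2)) fun ν hν => ?_).trans ?_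
  · have hnear : ∀ i, ‖y (ν i)‖ ≤ 2 * C * ε := fun i =>
      hT.center_near hC0 hC hε hη (near_of_wS_ne hT hρ (hν i))
    have hn0 : 0 ≤ 2 * C * ε := by positivity
    have hnorm : ‖fun i => y (ν i)‖ ≤ 2 * C * ε := (pi_norm_le_iff_of_nonneg hn0).mpr hnear
    have e2 : G.cc D (fun i => N (ν i)) = G.cc D (fun i => y (ν i)) :=
      (G.cc_mul D hm (-x) fun i => N (ν i)).symm
    rw [e2]
    refine (hC4 _ (hnorm.trans hδ)).trans ?_
    exact mul_le_mul_of_nonneg_left (pow_le_pow_left₀ (norm_nonneg _) hnorm _) hC40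
  · exact mul_le_mul_of_nonneg_left (prod_wS_le hT hρ hΓ x σ) (by positivity)

end StratifiedGroup

end Pool.Agent.H36.Fill
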