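import Pool.Agent.H36.Fill.Smear2

/-!
# Smearing: choice of the parameters and the final inequality
-/

open MeasureTheory Set Filter
open scoped NNReal Topology ENNReal ContDiff

namespace Pool.Agent.H36.Fill

set_option linter.unusedSectionVars false

variable {V : Type*} [NormedAddCommGroup V] [InnerProductSpace ℝ V] [FiniteDimensional ℝ V]

namespace StratifiedGroup

lemma aux_pow (ε X Y : ℝ) (hε : ε ≠ 0) (m : ℕ) :
    (Y * ε) ^ (m + 2) * (X / ε) ^ (m + 1) = Y ^ (m + 2) * X ^ (m + 1) * ε := by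
  rw [mul_pow, div_pow, pow_succ ε (m + 1)]
  have : ε ^ (m + 1) ≠ 0 := pow_ne_zero _ hε
  field_simp

lemma eventually_mul_lt (K : ℝ) {δ : ℝ} (hδ : 0 < δ) : ∀ᶠ ε in 𝓝[>] (0 : ℝ), K * ε < δ := by
  have h : Tendsto (fun ε : ℝ => K * ε) (𝓝[>] 0) (𝓝 0) := by
    have h1 : Continuous fun ε : ℝ => K * ε := continuous_const.mul continuous_id
    have h2 := h1.tendsto 0
    rw [MulZeroClass.mul_zero] at h2
    exact h2.mono_left nhdsWithin_le_nhds
  exact h.eventually_lt_const hδ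

variable (G : StratifiedGroup V) {m : ℕ}

lemma continuous_BB {n : ℕ} (D : V [⋀^Fin n]→L[ℝ] ℝ) : Continuous fun u : Fin n → V => G.BB D u := by
  obtain ⟨C, _, hC⟩ := G.exists_BB_le D
  exact (G.BB D).continuous_of_bound C hC

variable [MeasurableSpace V] [BorelSpace V] (μ : Measure V) [μ.IsAddHaarMeasure]

lemma exists_params (hm : Module.finrank ℝ V = m + 1) :
    ∃ (D : V [⋀^Fin (m + 1)]→L[ℝ] ℝ) (b : Fin (m + 1) → V) (ρ : V → ℝ) (ε η κ Γ C : ℝ),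
      0 < ε ∧ ε ≤ 1 ∧ 0 < η ∧ η ≤ ε ∧ 0 < κ ∧ IsKer μ ρ ε ∧ 0 ≤ C ∧ 0 ≤ Γ ∧
      (∀ z u : V, ‖z‖ ≤ 1 → ‖u‖ ≤ 1 →
        ‖G.mul z (-u)‖ ≤ C * (‖z‖ + ‖u‖) ∧ ‖G.mul z (-u) - z‖ ≤ C * ‖u‖) ∧
      (∀ j, ∫ z, |G.gg ρ (b j) z| ∂μ ≤ Γ) ∧
      ∀ {s : ℕ} (T : Fin s → Set V) (N : Fin s → V) (Z : Set V), G.IsTiling η Z T N →
        ∀ x, (∀ᶠ y in 𝓝 x, ∀ q, ‖G.mul (-y) q‖ ≤ ε → q ∈ Z) →
          κ ≤ G.SS μ ρ T N b (G.cc D) x := by
  obtain ⟨D, b, hκ0⟩ := G.exists_form hm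
  set κ₀ := ∑ σ : Equiv.Perm (Fin (m + 1)),
    ((Equiv.Perm.sign σ : ℤ) : ℝ) * G.BB D (fun i => b (σ i)) with hκ₀
  set Θ : (Fin (m + 1) → V) → ℝ := fun u => ∑ σ : Equiv.Perm (Fin (m + 1)),
    ((Equiv.Perm.sign σ : ℤ) : ℝ) * G.BB D (fun i => u (σ i)) with hΘ
  have hΘc : Continuous Θ := by
    refine continuous_finsetSum _ fun σ _ => continuous_const.mul ?_
    exact (G.continuous_BB D).comp (continuous_pi fun i => continuous_apply (σ i))
  have hΘb : ∀ᶠ u in 𝓝 b, κ₀ / 2 < Θ u := by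
    have : Θ b = κ₀ := rfl
    exact (hΘc.tendsto b).eventually_const_lt (by rw [this]; linarith)
  obtain ⟨δ₀, hδ₀, hball⟩ := Metric.eventually_nhds_iff.mp hΘb
  obtain ⟨C, hC0, hC⟩ := G.exists_mul_const
  obtain ⟨C4, hC40, hC4⟩ := G.exists_cc_sub_le D
  obtain ⟨C5, hC50, hC5⟩ := G.exists_moment_le (μ := μ)
  obtain ⟨Cg, hCg0, hCg⟩ := G.exists_gg_le (μ := μ)
  obtain ⟨C0, hC00, hker⟩ := exists_ker μ
  set β := ‖b‖ with hβ
  have hβ0 : 0 ≤ β := norm_nonneg _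
  have hbj : ∀ j, ‖b j‖ ≤ β := fun j => norm_le_pi_norm b j
  set K1 := C * (Cg * β * C0) + C5 * β with hK1
  set K2 := ((m + 1).factorial : ℝ) * (C4 * (2 * C) ^ (m + 2) * (Cg * β * C0) ^ (m + 1)) with hK2
  have hex : ∀ᶠ ε in 𝓝[>] (0 : ℝ), 0 < ε ∧ 1 * ε < 1 ∧ 2 * C * ε < 1 ∧ K1 * ε < δ₀ ∧
      K2 * ε < κ₀ / 4 := by
    filter_upwards [self_mem_nhdsWithin, eventually_mul_lt 1 one_pos,
      eventually_mul_lt (2 * C) one_pos, eventually_mul_lt K1 hδ₀,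
      eventually_mul_lt K2 (by linarith : 0 < κ₀ / 4)] with ε h1 h2 h3 h4 h5
    exact ⟨h1, h2, h3, h4, h5⟩
  obtain ⟨ε, hε0, hε1', hε2, hε3, hε4⟩ := hex.exists
  have hε1 : ε ≤ 1 := by linarith
  obtain ⟨ρ, hρ, hρd⟩ := hker ε hε0
  set η := ε ^ 2 with hη
  have hη0 : 0 < η := by positivity
  have hηε : η ≤ ε := by rw [hη]; nlinarith
  set Γ := Cg * β * (C0 / ε) with hΓ
  have hΓ0 : 0 ≤ Γ := by positivity
  have hΓv : ∀ v, ‖v‖ ≤ β → ∫ z, |G.gg ρ v z| ∂μ ≤ Γ := by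
    intro v hv
    calc ∫ z, |G.gg ρ v z| ∂μ ≤ ∫ z, Cg * ‖v‖ * ‖fderiv ℝ ρ z‖ ∂μ := by
          refine integral_mono (G.integrable_gg hρ v).abs (hρ.integrable_fderiv.const_mul _) ?_
          intro z
          exact hCg ε hε1 ρ hρ v z
      _ = Cg * ‖v‖ * ∫ z, ‖fderiv ℝ ρ z‖ ∂μ := integral_const_mul _ _
      _ ≤ Cg * β * (C0 / ε) := by
          refine mul_le_mul ?_ hρd (integral_nonneg fun _ => norm_nonneg _) (by positivity)
          exact mul_le_mul_of_nonneg_left hv hCg0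
  have hΓj : ∀ j, ∫ z, |G.gg ρ (b j) z| ∂μ ≤ Γ := fun j => hΓv _ (hbj j)
  refine ⟨D, b, ρ, ε, η, κ₀ / 4, Γ, C, hε0, hε1, hη0, hηε, by linarith, hρ, hC0, hΓ0, hC, hΓj, ?_⟩
  intro s T N Z hT x hx
  have h1 := abs_SS_cc_sub_le hm hT hρ D hΓj hC0 hC hC40 hC4 hε0.le hε1 hηε hε2.le hx
  have hdist : dist (fun j => G.mom μ ρ T N x (b j)) b < δ₀ := by
    rw [dist_pi_lt_iff hδ₀]
    intro j
    rw [dist_eq_norm]
    have a1 := hT.moment_le hC0 hC hε1 hηε hρ hx.self_of_nhds (b j)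
    have a2 := hC5 ε hε0.le hε1 ρ hρ (b j)
    calc ‖G.mom μ ρ T N x (b j) - b j‖ = ‖(G.mom μ ρ T N x (b j) -
          ∫ z, G.gg ρ (b j) z • z ∂μ) + (∫ z, G.gg ρ (b j) z • z ∂μ - b j)‖ := by
          congr 1; abel
      _ ≤ ‖G.mom μ ρ T N x (b j) - ∫ z, G.gg ρ (b j) z • z ∂μ‖ +
          ‖∫ z, G.gg ρ (b j) z • z ∂μ - b j‖ := norm_add_le _ _
      _ ≤ C * η * Γ + C5 * ε * β := by
          refine add_le_add (a1.trans ?_) (a2.trans ?_)
          · exact mul_le_mul_of_nonneg_left (hΓj j) (by positivity)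
          · exact mul_le_mul_of_nonneg_left (hbj j) (by positivity)
      _ = K1 * ε := by
          have : ε ^ 2 * (C0 / ε) = C0 * ε := by field_simp
          rw [hK1, hη, hΓ]
          linear_combination C * Cg * β * this
      _ < δ₀ := hε3
  have h2 : κ₀ / 2 < Θ (fun j => G.mom μ ρ T N x (b j)) := hball hdist
  have h3 : ((m + 1).factorial : ℝ) * (C4 * (2 * C * ε) ^ (m + 2) * Γ ^ (m + 1)) = K2 * ε := by
    have h := aux_pow ε (Cg * β * C0) (2 * C) hε0.ne' m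
    rw [hK2, hΓ, show Cg * β * (C0 / ε) = (Cg * β * C0) / ε by ring]
    linear_combination ((m + 1).factorial : ℝ) * C4 * h
  rw [h3] at h1
  have h4 := (abs_le.mp h1).1
  have h5 : Θ (fun j => G.mom μ ρ T N x (b j)) = ∑ σ : Equiv.Perm (Fin (m + 1)),
      ((Equiv.Perm.sign σ : ℤ) : ℝ) * G.BB D (fun i => G.mom μ ρ T N x (b (σ i))) := rfl
  rw [← h5] at h4
  linarith

/-! ### Cut-off functions at large scales -/

lemma integral_comp_dil {f : V → ℝ} (hf : Continuous f) {L : ℝ} (hL : 0 < L) :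
    ∫ x, f (G.dil L⁻¹ x) ∂μ = L ^ G.homDim * ∫ x, f x ∂μ := by
  have hdet : LinearMap.det (G.dil L⁻¹) ≠ 0 := by
    rw [G.det_dil]; positivity
  have h1 := Measure.map_linearMap_addHaar_eq_smul_addHaar μ hdet
  have h2 : ∫ y, f y ∂(Measure.map (G.dil L⁻¹) μ) = ∫ x, f (G.dil L⁻¹ x) ∂μ :=
    integral_map (G.dilL L⁻¹).continuous.aemeasurable hf.aestronglyMeasurable
  rw [← h2, h1, integral_smul_measure, G.det_dil, smul_eq_mul]
  congr 1
  have hpos : 0 ≤ ((L⁻¹ ^ G.homDim)⁻¹ : ℝ) := by positivity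
  rw [abs_of_nonneg hpos, ENNReal.toReal_ofReal hpos, inv_pow, inv_inv]

lemma exists_cutoffs {n : ℕ} (b : Fin n → V) :
    ∃ I K : ℝ, 0 < I ∧ 0 ≤ K ∧ ∀ L : ℝ, 1 ≤ L → ∃ χ : V → ℝ, ContDiff ℝ 2 χ ∧
      HasCompactSupport χ ∧ (∀ x, 0 ≤ χ x) ∧ ∫ x, χ x ∂μ = L ^ G.homDim * I ∧
      ∑ j, ∫ x, |fderiv ℝ χ x (G.dL x (b j))| ∂μ ≤ K * L ^ G.homDim * L⁻¹ := by
  let φ : ContDiffBump (0 : V) := ⟨1, 2, by norm_num, by norm_num⟩
  obtain ⟨Cd, hCd0, hCd⟩ := G.exists_norm_dil_le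
  have hφ2 : ContDiff ℝ 2 (φ : V → ℝ) := φ.contDiff.of_le le_rfl
  set Φ : V → ℝ := fun x => ‖fderiv ℝ φ x‖ * ‖G.dL x‖ with hΦ
  have hΦc : Continuous Φ :=
    (hφ2.continuous_fderiv two_ne_zero).norm.mul G.continuous_dL.norm
  have hΦ0 : ∀ x, 0 ≤ Φ x := fun x => by positivity
  have hΦs : HasCompactSupport Φ :=
    ((φ.hasCompactSupport.fderiv (𝕜 := ℝ)).norm).mul_right
  refine ⟨∫ x, φ x ∂μ, Cd * (∑ j, ‖b j‖) * ∫ x, Φ x ∂μ, φ.integral_pos, ?_, fun L hL => ?_⟩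
  · have := integral_nonneg (μ := μ) (f := Φ) hΦ0
    have h2 : 0 ≤ ∑ j, ‖b j‖ := Finset.sum_nonneg fun _ _ => norm_nonneg _
    positivity
  have hL0 : 0 < L := by linarith
  have hhomeo : Topology.IsClosedEmbedding (G.dilL L⁻¹) := by
    have e : ∀ x, G.dilL L (G.dilL L⁻¹ x) = x := fun x => G.dil_inv_cancel hL0 x
    have e' : ∀ x, G.dilL L⁻¹ (G.dilL L x) = x := fun x => G.dil_cancel_inv hL0 x
    exact (Homeomorph.mk ⟨G.dilL L⁻¹, G.dilL L, e, e'⟩ (G.dilL L⁻¹).continuous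
      (G.dilL L).continuous).isClosedEmbedding
  set χ : V → ℝ := fun x => φ (G.dilL L⁻¹ x) with hχ
  have hχs : HasCompactSupport χ := φ.hasCompactSupport.comp_isClosedEmbedding hhomeo
  have hχc : ContDiff ℝ 2 χ := hφ2.comp (G.dilL L⁻¹).contDiff
  refine ⟨χ, hχc, hχs, fun x => φ.nonneg, G.integral_comp_dil μ φ.continuous hL0, ?_⟩
  have hfd : ∀ x v, fderiv ℝ χ x (G.dL x v) =
      fderiv ℝ φ (G.dil L⁻¹ x) (G.dL (G.dil L⁻¹ x) (G.dil L⁻¹ v)) := by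
    intro x v
    have h1 : HasFDerivAt χ ((fderiv ℝ φ (G.dilL L⁻¹ x)).comp (G.dilL L⁻¹)) x :=
      ((hφ2.differentiable two_ne_zero _).hasFDerivAt).comp x (G.dilL L⁻¹).hasFDerivAt
    rw [h1.fderiv, G.dL_dil (inv_pos.mpr hL0)]
    simp only [ContinuousLinearMap.comp_apply, dilL_apply, inv_inv]
    rw [G.dil_inv_cancel hL0]
  have hest : ∀ j x, |fderiv ℝ χ x (G.dL x (b j))| ≤ (Cd * L⁻¹ * ‖b j‖) * Φ (G.dil L⁻¹ x) := by
    intro j x
    rw [hfd]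
    have h1 : ‖G.dil L⁻¹ (b j)‖ ≤ Cd * L⁻¹ * ‖b j‖ :=
      hCd _ ⟨by positivity, inv_le_one_of_one_le₀ hL⟩ _
    calc |fderiv ℝ φ (G.dil L⁻¹ x) (G.dL (G.dil L⁻¹ x) (G.dil L⁻¹ (b j)))|
        ≤ ‖fderiv ℝ φ (G.dil L⁻¹ x)‖ * ‖G.dL (G.dil L⁻¹ x) (G.dil L⁻¹ (b j))‖ :=
          (fderiv ℝ φ (G.dil L⁻¹ x)).le_opNorm _
      _ ≤ ‖fderiv ℝ φ (G.dil L⁻¹ x)‖ * (‖G.dL (G.dil L⁻¹ x)‖ * (Cd * L⁻¹ * ‖b j‖)) := by
          refine mul_le_mul_of_nonneg_left ?_ (norm_nonneg _)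
          refine ((G.dL (G.dil L⁻¹ x)).le_opNorm _).trans ?_
          exact mul_le_mul_of_nonneg_left h1 (norm_nonneg _)
      _ = _ := by rw [hΦ]; ring
  have hΦi : Integrable (fun x => Φ (G.dil L⁻¹ x)) μ := by
    refine (hΦc.comp (G.dilL L⁻¹).continuous).integrable_of_hasCompactSupport ?_
    exact hΦs.comp_isClosedEmbedding hhomeo
  calc ∑ j, ∫ x, |fderiv ℝ χ x (G.dL x (b j))| ∂μ
      ≤ ∑ j, ∫ x, (Cd * L⁻¹ * ‖b j‖) * Φ (G.dil L⁻¹ x) ∂μ := by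
        refine Finset.sum_le_sum fun j _ => ?_
        refine integral_mono_of_nonneg (Eventually.of_forall fun _ => abs_nonneg _)
          (hΦi.const_mul _) (Eventually.of_forall (hest j))
    _ = ∑ j, (Cd * L⁻¹ * ‖b j‖) * (L ^ G.homDim * ∫ x, Φ x ∂μ) := by
        refine Finset.sum_congr rfl fun j _ => ?_
        rw [integral_const_mul, G.integral_comp_dil μ hΦc hL0]
    _ = Cd * (∑ j, ‖b j‖) * (∫ x, Φ x ∂μ) * L ^ G.homDim * L⁻¹ := by
        rw [← Finset.sum_mul, ← Finset.mul_sum]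
        ring
    _ ≤ _ := le_rfl

/-- Proposition B: the volume cochain of the model simplices is not cohomologous, by bounded
cochains, to a small cochain. -/
theorem propB (μ : Measure V) [μ.IsAddHaarMeasure] (hm : Module.finrank ℝ V = m + 1) :
    ∃ (D : V [⋀^Fin (m + 1)]→L[ℝ] ℝ) (r κ K : ℝ), 0 < κ ∧ 0 ≤ K ∧ 0 ≤ r ∧
      ∀ (lam A B : ℝ) (c : (Fin (m + 2) → V) → ℝ) (b : (Fin (m + 1) → V) → ℝ), 0 ≤ lam →
        (∀ p, c p - lam * G.cc D p = altSum b p) → (∀ p, G.Bd r p → |c p| ≤ A) →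
        (∀ p, G.Bd r p → |b p| ≤ B) → lam * κ ≤ K * A := by
  obtain ⟨D, v, ρ, ε, η, κ, Γ, C, hε0, hε1, hη0, hηε, hκ, hρ, hC0, hΓ0, hC, hΓ, hpos⟩ :=
    G.exists_params μ hm
  obtain ⟨r, hr1, hr⟩ := G.exists_norm_mul_le (2 * C)
  obtain ⟨I, K, hI, hK, hcut⟩ := G.exists_cutoffs μ v
  refine ⟨D, r, κ, (m + 1).factorial * Γ ^ (m + 1), hκ, by positivity, by linarith, ?_⟩
  intro lam A B c b hlam hcb hA hB
  have hbd0 : ∀ k, G.Bd r (fun _ : Fin k => (0 : V)) := by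
    intro k i j
    rw [G.neg_mul_self, norm_zero]; linarith
  have hA0 : 0 ≤ A := (abs_nonneg _).trans (hA _ (hbd0 _))
  have hB0 : 0 ≤ B := (abs_nonneg _).trans (hB _ (hbd0 _))
  -- the inequality at scale `L`
  have key : ∀ L : ℝ, 1 ≤ L → (lam * κ - (m + 1).factorial * Γ ^ (m + 1) * A) * I ≤
      ((m + 1).factorial * (B * Γ ^ m) * K) * L⁻¹ := by
    intro L hL
    obtain ⟨χ, hχ, hχs, hχ0, hχI, hχK⟩ := hcut L hL
    have hL0 : 0 < L := by linarith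
    obtain ⟨RL, hRL⟩ := hχs.isCompact.isBounded.subset_closedBall (0 : V)
    obtain ⟨RZ, hRZ1, hRZ⟩ := G.exists_norm_mul_le (|RL| + 2)
    obtain ⟨s, T, N, hTm, hTd, hTu, hTs⟩ :=
      G.exists_tiles hη0 (isCompact_closedBall (0 : V) RZ)
    have hT : G.IsTiling η (Metric.closedBall (0 : V) RZ) T N :=
      ⟨hTm, hTd, hTu, hTs, Metric.isBounded_closedBall⟩
    have hx : ∀ x ∈ tsupport χ, ∀ᶠ y in 𝓝 x, ∀ q, ‖G.mul (-y) q‖ ≤ ε →
        q ∈ Metric.closedBall (0 : V) RZ := by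
      intro x hxs
      have h1 := hRL hxs
      rw [mem_closedBall_zero_iff] at h1
      have h2 : x ∈ Metric.ball (0 : V) (|RL| + 1) := by
        rw [mem_ball_zero_iff]
        linarith [le_abs_self RL]
      filter_upwards [Metric.isOpen_ball.mem_nhds h2] with y hy q hq
      rw [mem_ball_zero_iff] at hy
      rw [mem_closedBall_zero_iff]
      have h3 := hRZ y (G.mul (-y) q) (by linarith) (by linarith [abs_nonneg RL])
      rwa [G.mul_neg_cancel] at h3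
    have hnear : ∀ {k : ℕ} (x : V) (ν : Fin k → Fin s),
        (∀ i, ∃ q ∈ T (ν i), ‖G.mul (-x) q‖ ≤ ε) → G.Bd r fun i => N (ν i) := by
      intro k x ν hν
      refine bd_of_near hr (x := x) fun i => ?_
      refine (hT.center_near hC0 hC hε1 hηε (hν i)).trans ?_
      nlinarith
    -- the three integrals
    have hSSc : ∀ F : (Fin (m + 2) → V) → ℝ, Integrable (fun x => χ x * G.SS μ ρ T N v F x) μ :=
      fun F => Continuous.integrable_of_hasCompactSupport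
        (hχ.continuous.mul (continuous_SS hT hρ v F)) hχs.mul_right
    have hχi : Integrable χ μ := hχ.continuous.integrable_of_hasCompactSupport hχs
    have i1 : κ * ∫ x, χ x ∂μ ≤ ∫ x, χ x * G.SS μ ρ T N v (G.cc D) x ∂μ := by
      rw [← integral_const_mul]
      refine integral_mono (hχi.const_mul _) (hSSc _) fun x => ?_
      by_cases hxs : x ∈ tsupport χ
      · have := hpos T N _ hT x (hx x hxs)
        calc κ * χ x = χ x * κ := mul_comm _ _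
          _ ≤ _ := mul_le_mul_of_nonneg_left this (hχ0 x)
      · simp only [image_eq_zero_of_notMem_tsupport hxs]
        simp
    have i2 : ∫ x, χ x * G.SS μ ρ T N v c x ∂μ ≤
        ((m + 1).factorial * (A * Γ ^ (m + 1))) * ∫ x, χ x ∂μ := by
      rw [← integral_const_mul]
      refine integral_mono (hSSc _) (hχi.const_mul _) fun x => ?_
      have h1 := abs_SS_le hm hT hρ hΓ c x hA0 fun ν hν => hA _ (hnear x ν hν)
      calc χ x * G.SS μ ρ T N v c x ≤ χ x * ((m + 1).factorial * (A * Γ ^ (m + 1))) :=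
            mul_le_mul_of_nonneg_left ((le_abs_self _).trans h1) (hχ0 x)
        _ = _ := mul_comm _ _
    have i3 := abs_integral_SS_altSum_le hm hT hρ hΓ b hχ hχs hx hB0
      fun x ν hν => hB _ (hnear x ν hν)
    have i4 : ∫ x, χ x * G.SS μ ρ T N v c x ∂μ -
        lam * ∫ x, χ x * G.SS μ ρ T N v (G.cc D) x ∂μ =
        ∫ x, χ x * G.SS μ ρ T N v (altSum b) x ∂μ := by
      rw [← integral_const_mul, ← integral_sub (hSSc _) ((hSSc _).const_mul _)]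
      congr 1
      funext x
      have : altSum b = fun p => c p - lam * G.cc D p := by funext p; exact (hcb p).symm
      rw [this, SS_sub, SS_const_mul]
      ring
    have i5 : -(∫ x, χ x * G.SS μ ρ T N v (altSum b) x ∂μ) ≤
        (m + 1).factorial * (B * (Γ ^ m * (K * L ^ G.homDim * L⁻¹))) := by
      refine (neg_le_abs _).trans (i3.trans ?_)
      refine mul_le_mul_of_nonneg_left ?_ (by positivity)
      refine mul_le_mul_of_nonneg_left ?_ hB0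
      exact mul_le_mul_of_nonneg_left hχK (by positivity)
    have i6 := mul_le_mul_of_nonneg_left i1 hlam
    rw [hχI] at i2 i6
    have hLQ : 0 < L ^ G.homDim := by positivity
    have i7 : ((lam * κ - (m + 1).factorial * Γ ^ (m + 1) * A) * I) * L ^ G.homDim ≤
        (((m + 1).factorial * (B * Γ ^ m) * K) * L⁻¹) * L ^ G.homDim := by
      linarith
    exact le_of_mul_le_mul_right i7 hLQ
  by_contra hcon
  push Not at hcon
  set a := (lam * κ - (m + 1).factorial * Γ ^ (m + 1) * A) * I with ha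
  have ha0 : 0 < a := mul_pos (by linarith) hI
  set K' := ((m + 1).factorial * (B * Γ ^ m) * K : ℝ) with hK'
  have hlim : Tendsto (fun L : ℝ => K' * L⁻¹) atTop (𝓝 0) := by
    have := tendsto_inv_atTop_zero.const_mul K'
    simpa using this
  obtain ⟨L, hL1, hL2⟩ := ((eventually_ge_atTop (1 : ℝ)).and (hlim.eventually_lt_const ha0)).exists
  have := key L hL1
  linarith

end StratifiedGroup

end Pool.Agent.H36.Fill
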