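import Pool.Agent.H36.Fill.Simplex

/-!
# Stokes' theorem on the ordered simplex for smooth forms
-/

open MeasureTheory Set Filter
open scoped NNReal Topology

namespace Pool.Agent.H36.Fill

variable {k : ℕ}

lemma hasDerivAt_insertNth (i : Fin (k + 1)) (t : Fin k → ℝ) (s : ℝ) :
    HasDerivAt (fun s : ℝ => (i.insertNth s t : Fin (k + 1) → ℝ)) (Pi.single i 1) s := by
  rw [hasDerivAt_pi]
  intro l
  rcases Fin.eq_self_or_eq_succAbove i l with rfl | ⟨l, rfl⟩
  · simp only [Fin.insertNth_apply_same, Pi.single_eq_same]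
    exact hasDerivAt_id s
  · simp only [Fin.insertNth_apply_succAbove]
    rw [Pi.single_eq_of_ne (Fin.succAbove_ne i l)]
    exact hasDerivAt_const s _

/-- The fundamental theorem of calculus in the direction of a coordinate, on the ordered
simplex. -/
lemma integral_ordSimplex_fderiv (i : Fin (k + 1)) {g : (Fin (k + 1) → ℝ) → ℝ}
    (hg : ContDiff ℝ 1 g) :
    ∫ t in ordSimplex (k + 1), fderiv ℝ g t (Pi.single i 1) =
      ∫ t in ordSimplex k, (g (dup i.castSucc t) - g (dup i.succ t)) := by
  set F : (Fin (k + 1) → ℝ) → ℝ := fun t => fderiv ℝ g t (Pi.single i 1) with hF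
  have hFc : Continuous F := (hg.continuous_fderiv one_ne_zero).clm_apply continuous_const
  let e := MeasurableEquiv.piFinSuccAbove (fun _ : Fin (k + 1) => ℝ) i
  have he : MeasurePreserving e.symm (volume.prod volume) volume :=
    (volume_preserving_piFinSuccAbove (fun _ : Fin (k + 1) => ℝ) i).symm _
  have hint : Integrable (indicator (ordSimplex (k + 1)) F) volume :=
    (hFc.continuousOn.integrableOn_compact isCompact_ordSimplex).integrable_indicator
      measurableSet_ordSimplex
  have hint2 : Integrable (fun z => indicator (ordSimplex (k + 1)) F (e.symm z))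
      (volume.prod volume) := (he.integrable_comp_emb e.symm.measurableEmbedding).mpr hint
  rw [← integral_indicator measurableSet_ordSimplex,
    ← he.integral_comp e.symm.measurableEmbedding, integral_prod_symm _ hint2,
    ← integral_indicator measurableSet_ordSimplex]
  congr 1
  funext t
  have hes : ∀ s : ℝ, e.symm (s, t) = (i.insertNth s t : Fin (k + 1) → ℝ) := fun s => rfl
  simp only [hes]
  by_cases ht : t ∈ ordSimplex k
  · rw [indicator_of_mem ht]
    have hab : hat t (i + 1) ≤ hat t i := mem_ordSimplex_iff.mp ht i i.2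
    have e1 : ∀ s : ℝ, indicator (ordSimplex (k + 1)) F (i.insertNth s t) =
        indicator (Icc (hat t (i + 1)) (hat t i)) (fun s => F (i.insertNth s t)) s := by
      intro s
      by_cases hs : s ∈ Icc (hat t (i + 1)) (hat t i)
      · rw [indicator_of_mem hs, indicator_of_mem (insertNth_mem_ordSimplex.mpr ⟨ht, hs⟩)]
      · rw [indicator_of_notMem hs,
          indicator_of_notMem fun h => hs (insertNth_mem_ordSimplex.mp h).2]
    simp only [e1]
    rw [integral_indicator measurableSet_Icc, integral_Icc_eq_integral_Ioc,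
      ← intervalIntegral.integral_of_le hab]
    have hd : ∀ s ∈ uIcc (hat t (i + 1)) (hat t i),
        HasDerivAt (fun s : ℝ => g (i.insertNth s t)) (F (i.insertNth s t)) s := by
      intro s _
      exact (hg.differentiable one_ne_zero _).hasFDerivAt.comp_hasDerivAt s
        (hasDerivAt_insertNth i t s)
    have hcont : Continuous fun s : ℝ => F (i.insertNth s t) :=
      hFc.comp (continuous_iff_continuousAt.mpr fun s => (hasDerivAt_insertNth i t s).continuousAt)
    rw [intervalIntegral.integral_eq_sub_of_hasDerivAt hd (hcont.intervalIntegrable _ _),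
      insertNth_cons, insertNth_snoc]
  · rw [indicator_of_notMem ht]
    have e1 : ∀ s : ℝ, indicator (ordSimplex (k + 1)) F (i.insertNth s t) = 0 := by
      intro s
      rw [indicator_of_notMem fun h => ht (insertNth_mem_ordSimplex.mp h).1]
    simp only [e1, integral_zero]

/-! ### The face maps and their derivatives -/

/-- The derivative of the face map `dup j` on the basis vector `l`. -/
noncomputable def dupE (j : Fin (k + 2)) (l : Fin k) : Fin (k + 1) → ℝ :=
  (if (l : ℕ) < j then Pi.single l.castSucc 1 else 0) +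
    (if (j : ℕ) ≤ l + 1 then Pi.single l.succ 1 else 0)

lemma hat_eq_sum (t : Fin k → ℝ) (m : ℕ) :
    hat t m = (if m = 0 then 1 else 0) + ∑ l : Fin k, if m = l + 1 then t l else 0 := by
  rcases m with _ | m
  · simp
  · rw [hat_succ, if_neg (by omega), zero_add]
    by_cases h : m < k
    · rw [dif_pos h, Finset.sum_eq_single ⟨m, h⟩]
      · simp
      · intro l _ hl
        rw [if_neg]
        intro h2
        apply hl
        apply Fin.ext
        simp at h2 ⊢
        omega
      · simp
    · rw [dif_neg h, Finset.sum_eq_zero]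
      intro l _
      rw [if_neg]
      omega

lemma dup_eq (j : Fin (k + 2)) (t : Fin k → ℝ) :
    dup j t = dup j 0 + ∑ l, t l • dupE j l := by
  funext i
  simp only [Pi.add_apply, Finset.sum_apply, Pi.smul_apply, smul_eq_mul, dupE]
  have e : ∀ l : Fin k, t l * ((if (l : ℕ) < j then (Pi.single l.castSucc 1 : Fin (k + 1) → ℝ) else 0) i +
      (if (j : ℕ) ≤ l + 1 then (Pi.single l.succ 1 : Fin (k + 1) → ℝ) else 0) i) =
      if (i : ℕ) < j then (if (i : ℕ) + 1 = l + 1 then t l else 0) else
        (if (i : ℕ) = l + 1 then t l else 0) := by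
    intro l
    have h1 : (if (l : ℕ) < j then (Pi.single l.castSucc 1 : Fin (k + 1) → ℝ) else 0) i =
        if (l : ℕ) < j ∧ (i : ℕ) = l then 1 else 0 := by
      by_cases h : (l : ℕ) < j
      · rw [if_pos h]
        by_cases h2 : (i : ℕ) = l
        · have : i = l.castSucc := Fin.ext h2
          rw [if_pos ⟨h, h2⟩, this, Pi.single_eq_same]
        · rw [if_neg (fun h' => h2 h'.2), Pi.single_eq_of_ne]
          intro h3; apply h2; rw [h3]; rfl
      · rw [if_neg h, if_neg (fun h' => h h'.1)]; rfl
    have h3 : (if (j : ℕ) ≤ l + 1 then (Pi.single l.succ 1 : Fin (k + 1) → ℝ) else 0) i =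
        if (j : ℕ) ≤ l + 1 ∧ (i : ℕ) = l + 1 then 1 else 0 := by
      by_cases h : (j : ℕ) ≤ l + 1
      · rw [if_pos h]
        by_cases h2 : (i : ℕ) = l + 1
        · have : i = l.succ := Fin.ext h2
          rw [if_pos ⟨h, h2⟩, this, Pi.single_eq_same]
        · rw [if_neg (fun h' => h2 h'.2), Pi.single_eq_of_ne]
          intro h3; apply h2; rw [h3]; rfl
      · rw [if_neg h, if_neg (fun h' => h h'.1)]; rfl
    rw [h1, h3]
    by_cases hij : (i : ℕ) < j
    · rw [if_pos hij]
      by_cases h4 : (i : ℕ) = l
      · rw [if_pos ⟨by omega, h4⟩, if_neg (by omega), if_pos (by omega)]; ring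
      · rw [if_neg (by omega), if_neg (by omega), if_neg (by omega)]; ring
    · rw [if_neg hij]
      by_cases h4 : (i : ℕ) = l + 1
      · rw [if_neg (by omega), if_pos ⟨by omega, h4⟩, if_pos h4]; ring
      · rw [if_neg (by omega), if_neg (by omega), if_neg h4]; ring
  rw [Finset.sum_congr rfl fun l _ => e l]
  simp only [dup]
  by_cases hij : (i : ℕ) < j
  · simp only [if_pos hij]
    rw [hat_eq_sum t, hat_eq_sum (0 : Fin k → ℝ)]
    simp
  · simp only [if_neg hij]
    rw [hat_eq_sum t, hat_eq_sum (0 : Fin k → ℝ)]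
    simp

lemma hasFDerivAt_dup (j : Fin (k + 2)) (t : Fin k → ℝ) :
    HasFDerivAt (dup j) (∑ l, (ContinuousLinearMap.proj (R := ℝ) (φ := fun _ : Fin k => ℝ) l).smulRight (dupE j l)) t := by
  have h : dup j = fun t => dup j 0 + ∑ l, t l • dupE j l := by funext t; exact dup_eq j t
  rw [h]
  refine HasFDerivAt.const_add _ ?_
  refine HasFDerivAt.fun_sum fun l _ => ?_
  exact ((ContinuousLinearMap.proj (R := ℝ) (φ := fun _ : Fin k => ℝ) l).smulRight
    (dupE j l)).hasFDerivAt

lemma fderiv_dup_single (j : Fin (k + 2)) (t : Fin k → ℝ) (l : Fin k) :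
    fderiv ℝ (dup j) t (Pi.single l 1) = dupE j l := by
  rw [(hasFDerivAt_dup j t).fderiv]
  simp [Pi.single_apply]

lemma contDiff_dup (j : Fin (k + 2)) {n : WithTop ℕ∞} : ContDiff ℝ n (dup (k := k) j) := by
  have h : dup (k := k) j = fun t => dup j 0 + ∑ l, t l • dupE j l := by
    funext t; exact dup_eq j t
  rw [h]
  refine contDiff_const.add (ContDiff.sum fun l _ => ?_)
  exact (contDiff_apply ℝ ℝ l).smul contDiff_const

/-- Value of an alternating form on the vectors `dupE j`. -/
lemma apply_dupE (η : (Fin (k + 1) → ℝ) [⋀^Fin k]→L[ℝ] ℝ) (j : Fin (k + 2)) :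
    η (fun l => dupE j l) =
      (if h : (j : ℕ) < k + 1 then
        η (fun l => Pi.single ((⟨j, h⟩ : Fin (k + 1)).succAbove l) 1) else 0) +
      (if h : 0 < (j : ℕ) then
        η (fun l => Pi.single ((⟨j - 1, by omega⟩ : Fin (k + 1)).succAbove l) 1) else 0) := by
  have hj := j.2
  by_cases h1 : (j : ℕ) < k + 1
  · by_cases h2 : 0 < (j : ℕ)
    · -- middle case
      rw [dif_pos h1, dif_pos h2]
      let l0 : Fin k := ⟨j - 1, by omega⟩
      set F0 : Fin k → (Fin (k + 1) → ℝ) :=
        fun l => Pi.single ((⟨j, h1⟩ : Fin (k + 1)).succAbove l) 1 with hF0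
      have hA : (fun l => dupE j l) =
          Function.update F0 l0 (Pi.single l0.castSucc 1 + Pi.single l0.succ 1) := by
        funext l
        by_cases hl : l = l0
        · subst hl
          have a1 : (l0 : ℕ) < j := by show (j : ℕ) - 1 < j; omega
          have a2 : (j : ℕ) ≤ (l0 : ℕ) + 1 := by show (j : ℕ) ≤ (j : ℕ) - 1 + 1; omega
          rw [Function.update_self, dupE, if_pos a1, if_pos a2]
        · rw [Function.update_of_ne hl]
          have hne : (l : ℕ) ≠ j - 1 := fun h => hl (Fin.ext h)
          simp only [dupE, F0]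
          by_cases h3 : (l : ℕ) < j
          · rw [if_pos h3, if_neg (by omega), add_zero, Fin.succAbove_of_castSucc_lt]
            exact h3
          · rw [if_neg h3, if_pos (by omega), zero_add, Fin.succAbove_of_le_castSucc]
            rw [Fin.le_iff_val_le_val]; simp; omega
      have hB : Function.update F0 l0 (Pi.single l0.castSucc 1) = F0 := by
        rw [Function.update_eq_self_iff]
        simp only [F0]
        rw [Fin.succAbove_of_castSucc_lt]
        show (j : ℕ) - 1 < (j : ℕ)
        omega
      have hC : Function.update F0 l0 (Pi.single l0.succ 1) =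
          fun l => Pi.single ((⟨j - 1, by omega⟩ : Fin (k + 1)).succAbove l) 1 := by
        funext l
        by_cases hl : l = l0
        · subst hl
          rw [Function.update_self, Fin.succAbove_of_le_castSucc]
          exact le_rfl
        · rw [Function.update_of_ne hl]
          have hne : (l : ℕ) ≠ j - 1 := fun h => hl (Fin.ext h)
          simp only [F0]
          by_cases h3 : (l : ℕ) < j - 1
          · rw [Fin.succAbove_of_castSucc_lt, Fin.succAbove_of_castSucc_lt]
            · exact h3
            · show (l : ℕ) < (j : ℕ); omega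
          · rw [Fin.succAbove_of_le_castSucc, Fin.succAbove_of_le_castSucc]
            · rw [Fin.le_iff_val_le_val]; simp; omega
            · rw [Fin.le_iff_val_le_val]; simp; omega
      rw [hA, ContinuousAlternatingMap.map_update_add, hB, hC]
    · rw [dif_pos h1, dif_neg h2, add_zero]
      congr 1
      funext l
      rw [dupE, if_neg (by omega), if_pos (by omega), zero_add, Fin.succAbove_of_le_castSucc]
      rw [Fin.le_iff_val_le_val]; simp; omega
  · rw [dif_neg h1, dif_pos (by omega), zero_add]
    congr 1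
    funext l
    have hl := l.2
    rw [dupE, if_pos (by omega), if_neg (by omega), add_zero, Fin.succAbove_of_castSucc_lt]
    show (l : ℕ) < (j : ℕ) - 1
    omega

/-- Stokes' theorem for forms on the ordered simplex. -/
theorem stokes_form (η : (Fin (k + 1) → ℝ) → (Fin (k + 1) → ℝ) [⋀^Fin k]→L[ℝ] ℝ)
    (hη : Differentiable ℝ η)
    (hg : ∀ i : Fin (k + 1), ContDiff ℝ 1 fun t => η t fun l => Pi.single (i.succAbove l) 1) :
    ∫ t in ordSimplex (k + 1), extDeriv η t (fun i => Pi.single i 1) =
      ∑ j : Fin (k + 2), (-1) ^ (j : ℕ) * ∫ t in ordSimplex k, η (dup j t) (fun l => dupE j l) := by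
  set g : Fin (k + 1) → (Fin (k + 1) → ℝ) → ℝ :=
    fun i t => η t fun l => Pi.single (i.succAbove l) 1 with hgdef
  have hint : ∀ (i : Fin (k + 1)) (j : Fin (k + 2)),
      IntegrableOn (fun t => g i (dup j t)) (ordSimplex k) volume := by
    intro i j
    exact ((hg i).continuous.comp (contDiff_dup j (n := 0)).continuous).continuousOn
      |>.integrableOn_compact isCompact_ordSimplex
  have hL : ∫ t in ordSimplex (k + 1), extDeriv η t (fun i => Pi.single i 1) =
      ∑ i : Fin (k + 1), (-1) ^ (i : ℕ) *
        ((∫ t in ordSimplex k, g i (dup i.castSucc t)) - ∫ t in ordSimplex k, g i (dup i.succ t)) := by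
    have e1 : ∀ t, extDeriv η t (fun i => Pi.single i 1) =
        ∑ i : Fin (k + 1), (-1) ^ (i : ℕ) * fderiv ℝ (g i) t (Pi.single i 1) := by
      intro t
      rw [extDeriv_apply (hη t)]
      refine Finset.sum_congr rfl fun i _ => ?_
      rw [zsmul_eq_mul]
      push_cast
      rfl
    simp only [e1]
    rw [integral_finsetSum]
    · refine Finset.sum_congr rfl fun i _ => ?_
      rw [integral_const_mul, integral_ordSimplex_fderiv i (hg i),
        integral_sub (hint i i.castSucc) (hint i i.succ)]
    · intro i _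
      refine Integrable.const_mul ?_ _
      exact (((hg i).continuous_fderiv one_ne_zero).clm_apply continuous_const).continuousOn
        |>.integrableOn_compact isCompact_ordSimplex
  rw [hL]
  have hR : ∀ j : Fin (k + 2), (∫ t in ordSimplex k, η (dup j t) (fun l => dupE j l)) =
      (if h : (j : ℕ) < k + 1 then ∫ t in ordSimplex k, g ⟨j, h⟩ (dup j t) else 0) +
      (if h : 0 < (j : ℕ) then ∫ t in ordSimplex k, g ⟨j - 1, by omega⟩ (dup j t) else 0) := by
    intro j
    by_cases h1 : (j : ℕ) < k + 1
    · by_cases h2 : 0 < (j : ℕ)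
      · simp only [apply_dupE, dif_pos h1, dif_pos h2]
        exact integral_add (hint _ _) (hint _ _)
      · simp only [apply_dupE, dif_pos h1, dif_neg h2, add_zero]
        rfl
    · have h2 : 0 < (j : ℕ) := by omega
      simp only [apply_dupE, dif_neg h1, dif_pos h2, zero_add]
      rfl
  simp only [hR, mul_add, Finset.sum_add_distrib, mul_sub, Finset.sum_sub_distrib]
  rw [sub_eq_add_neg]
  congr 1
  · rw [Fin.sum_univ_castSucc (n := k + 1)]
    have : ¬ ((Fin.last (k + 1) : Fin (k + 2)) : ℕ) < k + 1 := by simp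
    rw [dif_neg this, mul_zero, add_zero]
    refine Finset.sum_congr rfl fun i _ => ?_
    have h3 : ((i.castSucc : Fin (k + 2)) : ℕ) < k + 1 := i.2
    rw [dif_pos h3]
    rfl
  · rw [Fin.sum_univ_succ (n := k + 1)]
    have : ¬ 0 < ((0 : Fin (k + 2)) : ℕ) := by simp
    rw [dif_neg this, mul_zero, zero_add, ← Finset.sum_neg_distrib]
    refine Finset.sum_congr rfl fun i _ => ?_
    have h3 : 0 < ((i.succ : Fin (k + 2)) : ℕ) := by simp
    rw [dif_pos h3]
    have e2 : (⟨((i.succ : Fin (k + 2)) : ℕ) - 1, by simp; omega⟩ : Fin (k + 1)) = i :=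
      Fin.ext (by simp)
    rw [e2]
    simp only [Fin.val_succ, pow_succ]
    ring

/-! ### The pulled back form -/

variable {W : Type*} [NormedAddCommGroup W] [NormedSpace ℝ W]

/-- The integral over the ordered simplex of `D(g, ∂_1 g, ..., ∂_k g)`. -/
noncomputable def bdInt (D : W [⋀^Fin (k + 1)]→L[ℝ] ℝ) (g : (Fin k → ℝ) → W) : ℝ :=
  ∫ t in ordSimplex k, D (Matrix.vecCons (g t) fun l => fderiv ℝ g t (Pi.single l 1))

/-- The exterior derivative of the form `y ↦ D(y, ⬝)`. -/
lemma extDeriv_curryLeft (D : W [⋀^Fin (k + 1)]→L[ℝ] ℝ) (y : W) :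
    extDeriv (fun y => D.curryLeft y) y = (k + 1) • D := by
  rw [extDeriv, ContinuousLinearMap.fderiv, ContinuousAlternatingMap.alternatizeUncurryFin_curryLeft]

lemma extDeriv_pullback_curryLeft {E : Type*} [NormedAddCommGroup E] [NormedSpace ℝ E]
    (D : W [⋀^Fin (k + 1)]→L[ℝ] ℝ) {f : E → W} (hf : ContDiff ℝ 2 f) (x : E) :
    extDeriv (fun x => (D.curryLeft (f x)).compContinuousLinearMap (fderiv ℝ f x)) x =
      (k + 1) • D.compContinuousLinearMap (fderiv ℝ f x) := by
  have h := extDeriv_pullback (𝕜 := ℝ) (ω := fun y => D.curryLeft y) (f := f) (x := x) (r := 2)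
    (D.curryLeft.differentiableAt) hf.contDiffAt (by simp)
  rw [h, extDeriv_curryLeft]
  rfl

lemma differentiable_pullback_curryLeft {E : Type*} [NormedAddCommGroup E] [NormedSpace ℝ E]
    (D : W [⋀^Fin (k + 1)]→L[ℝ] ℝ) {f : E → W} (hf : ContDiff ℝ 2 f) :
    Differentiable ℝ (fun x => (D.curryLeft (f x)).compContinuousLinearMap (fderiv ℝ f x)) := by
  intro x
  refine DifferentiableAt.continuousAlternatingMapCompContinuousLinearMap ?_ ?_
  · exact D.curryLeft.differentiableAt.comp x (hf.differentiable two_ne_zero x)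
  · exact (hf.fderiv_right (m := 1) (by norm_num)).differentiable one_ne_zero x

lemma contDiff_pullback_apply {E : Type*} [NormedAddCommGroup E] [NormedSpace ℝ E]
    (D : W [⋀^Fin (k + 1)]→L[ℝ] ℝ) {f : E → W} (hf : ContDiff ℝ 2 f) (v : Fin k → E) :
    ContDiff ℝ 1 fun x => D (Matrix.vecCons (f x) fun l => fderiv ℝ f x (v l)) := by
  refine D.toContinuousMultilinearMap.contDiff.comp ?_
  rw [contDiff_pi]
  intro i
  refine Fin.cases ?_ (fun l => ?_) i
  · simp only [Matrix.cons_val_zero]
    exact hf.of_le one_le_two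
  · simp only [Matrix.cons_val_succ]
    exact (hf.fderiv_right (m := 1) (by norm_num)).clm_apply contDiff_const

/-- Stokes' theorem for smooth maps from the ordered simplex. -/
theorem stokes_map (D : W [⋀^Fin (k + 1)]→L[ℝ] ℝ) {f : (Fin (k + 1) → ℝ) → W}
    (hf : ContDiff ℝ 2 f) :
    (k + 1 : ℝ) * ∫ t in ordSimplex (k + 1), D (fun i => fderiv ℝ f t (Pi.single i 1)) =
      ∑ j : Fin (k + 2), (-1) ^ (j : ℕ) * bdInt D (fun t => f (dup j t)) := by
  have h := stokes_form (fun x => (D.curryLeft (f x)).compContinuousLinearMap (fderiv ℝ f x))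
    (differentiable_pullback_curryLeft D hf)
    (fun i => contDiff_pullback_apply D hf fun l => Pi.single (i.succAbove l) 1)
  simp only [extDeriv_pullback_curryLeft D hf] at h
  have e1 : ∀ t : Fin (k + 1) → ℝ, ((k + 1) • D.compContinuousLinearMap (fderiv ℝ f t))
      (fun i => Pi.single i 1) = (k + 1 : ℝ) * D (fun i => fderiv ℝ f t (Pi.single i 1)) := by
    intro t
    rw [ContinuousAlternatingMap.smul_apply, nsmul_eq_mul]
    push_cast
    rfl
  simp only [e1] at h
  rw [integral_const_mul] at h
  rw [h]
  refine Finset.sum_congr rfl fun j _ => ?_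
  congr 1
  unfold bdInt
  congr 1
  funext t
  have e2 : ∀ l : Fin k, fderiv ℝ (fun t => f (dup j t)) t (Pi.single l 1) =
      fderiv ℝ f (dup j t) (dupE j l) := by
    intro l
    have := fderiv_comp (𝕜 := ℝ) t (g := f) (f := dup j) (hf.differentiable two_ne_zero _)
      ((hasFDerivAt_dup j t).differentiableAt)
    rw [show (fun t => f (dup j t)) = f ∘ dup j from rfl, this,
      ContinuousLinearMap.comp_apply, fderiv_dup_single]
  simp only [e2]
  rfl

end Pool.Agent.H36.Fill
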