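import Pool.Agent.H36.Fill.Pair

/-!
# Stokes' theorem for compactly supported functions
-/

open MeasureTheory Set Filter
open scoped NNReal Topology ENNReal ContDiff

namespace Pool.Agent.H36.Fill

set_option linter.unusedSectionVars false

variable {E : Type*} [NormedAddCommGroup E] [NormedSpace ℝ E] [FiniteDimensional ℝ E]
  [MeasurableSpace E] [BorelSpace E] (μ : Measure E) [μ.IsAddHaarMeasure]

lemma integral_fderiv_apply_eq_zero {g : E → ℝ} (hg : ContDiff ℝ 1 g) (hc : HasCompactSupport g)
    (v : E) : ∫ x, fderiv ℝ g x v ∂μ = 0 := by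
  have hgi : Integrable g μ := hg.continuous.integrable_of_hasCompactSupport hc
  have hgi' : Integrable (fun x => fderiv ℝ g x v) μ := by
    refine Continuous.integrable_of_hasCompactSupport
      ((hg.continuous_fderiv one_ne_zero).clm_apply continuous_const) ?_
    exact hc.fderiv_apply (𝕜 := ℝ) v
  have h := integral_mul_fderiv_eq_neg_fderiv_mul_of_integrable (μ := μ) (v := v)
    (f := fun _ : E => (1 : ℝ)) (g := g) (by simp) (by simpa using hgi') (by simpa using hgi)
    (fun x _ => differentiableAt_const _) (fun x _ => hg.differentiable one_ne_zero x)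
  simpa using h

variable {W : Type*} [NormedAddCommGroup W] [NormedSpace ℝ W] {k : ℕ}

/-- Stokes' theorem for compactly supported maps. -/
lemma integral_pullback_eq_zero (D : W [⋀^Fin (k + 1)]→L[ℝ] ℝ) {f : E → W}
    (hf : ContDiff ℝ 2 f) (hc : HasCompactSupport f) (v : Fin (k + 1) → E) :
    ∫ x, D (fun i => fderiv ℝ f x (v i)) ∂μ = 0 := by
  set η : E → E [⋀^Fin k]→L[ℝ] ℝ := fun x =>
    (D.curryLeft (f x)).compContinuousLinearMap (fderiv ℝ f x) with hη
  have hd : Differentiable ℝ η := differentiable_pullback_curryLeft D hf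
  set g : Fin (k + 1) → E → ℝ := fun i x => η x fun l => v (i.succAbove l) with hg
  have hgs : ∀ i, ContDiff ℝ 1 (g i) := fun i =>
    contDiff_pullback_apply D hf fun l => v (i.succAbove l)
  have hgc : ∀ i, HasCompactSupport (g i) := by
    intro i
    refine hc.mono fun x hx => ?_
    rw [Function.mem_support] at hx ⊢
    intro h0
    apply hx
    simp only [hg, hη, h0, map_zero]
    rfl
  have e1 : ∀ x, ((k : ℝ) + 1) * D (fun i => fderiv ℝ f x (v i)) =
      ∑ i : Fin (k + 1), (-1) ^ (i : ℕ) * fderiv ℝ (g i) x (v i) := by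
    intro x
    have h1 := extDeriv_pullback_curryLeft D hf x
    have h2 := extDeriv_apply (hd x) v
    rw [hη, h1] at h2
    have h3 : ((k + 1) • D.compContinuousLinearMap (fderiv ℝ f x)) v =
        ((k : ℝ) + 1) * D (fun i => fderiv ℝ f x (v i)) := by
      rw [ContinuousAlternatingMap.smul_apply, nsmul_eq_mul]
      push_cast
      rfl
    rw [← h3, h2]
    refine Finset.sum_congr rfl fun i _ => ?_
    rw [zsmul_eq_mul]
    push_cast
    rfl
  have h4 : ((k : ℝ) + 1) * ∫ x, D (fun i => fderiv ℝ f x (v i)) ∂μ = 0 := by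
    rw [← integral_const_mul]
    simp only [e1]
    rw [integral_finsetSum]
    · refine Finset.sum_eq_zero fun i _ => ?_
      rw [integral_const_mul, integral_fderiv_apply_eq_zero μ (hgs i) (hgc i), mul_zero]
    · intro i _
      refine Integrable.const_mul ?_ _
      refine Continuous.integrable_of_hasCompactSupport
        (((hgs i).continuous_fderiv one_ne_zero).clm_apply continuous_const) ?_
      exact (hgc i).fderiv_apply (𝕜 := ℝ) (v i)
  have hk : (k : ℝ) + 1 ≠ 0 := by positivity
  exact (mul_eq_zero.mp h4).resolve_left hk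

/-- The determinant as a continuous alternating map. -/
noncomputable def detC (n : ℕ) : (Fin n → ℝ) [⋀^Fin n]→L[ℝ] ℝ :=
  { Matrix.detRowAlternating (R := ℝ) (n := Fin n) with
    cont := by
      show Continuous (fun v : Fin n → Fin n → ℝ => Matrix.det v)
      exact Continuous.matrix_det continuous_id }

lemma detC_apply {n : ℕ} (u : Fin n → Fin n → ℝ) : detC n u = Matrix.det (Matrix.of u) := rfl

/-- The Jacobian determinant of a family of functions along vectors. -/
noncomputable def jdet {n : ℕ} (f : Fin n → E → ℝ) (v : Fin n → E) (x : E) : ℝ :=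
  Matrix.det (Matrix.of fun i j => fderiv ℝ (f i) x (v j))

omit [FiniteDimensional ℝ E] [MeasurableSpace E] [BorelSpace E] in
lemma jdet_eq_zero_of_row {n : ℕ} {f : Fin n → E → ℝ} {v : Fin n → E} {x : E} (i : Fin n)
    (h : fderiv ℝ (f i) x = 0) : jdet f v x = 0 := by
  refine Matrix.det_eq_zero_of_row_eq_zero i fun j => ?_
  simp [h]

lemma exists_cutoff {χ : E → ℝ} (hc : HasCompactSupport χ) :
    ∃ θ : E → ℝ, ContDiff ℝ ∞ θ ∧ HasCompactSupport θ ∧ ∀ x ∈ tsupport χ, θ =ᶠ[𝓝 x] fun _ => 1 := by
  obtain ⟨R, hR⟩ := hc.isCompact.isBounded.subset_ball (0 : E)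
  let b : ContDiffBump (0 : E) := ⟨max R 1, max R 1 + 1, by positivity, by linarith⟩
  refine ⟨b, b.contDiff, b.hasCompactSupport, fun x hx => ?_⟩
  refine b.eventuallyEq_one_of_mem_ball ?_
  have h1 := hR hx
  rw [Metric.mem_ball] at h1 ⊢
  exact lt_of_lt_of_le h1 (le_max_left _ _)

/-- Integration by parts for Jacobian determinants. -/
lemma integral_mul_jdet {m : ℕ} {f : Fin (m + 1) → E → ℝ} (hf : ∀ i, ContDiff ℝ 2 (f i))
    {χ : E → ℝ} (hχ : ContDiff ℝ 2 χ) (hc : HasCompactSupport χ) (v : Fin (m + 1) → E) :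
    ∫ x, χ x * jdet f v x ∂μ =
      - ∫ x, f 0 x * jdet (Fin.cons χ fun i => f i.succ) v x ∂μ := by
  obtain ⟨θ, hθ, hθc, hθ1⟩ := exists_cutoff hc
  have hθ2 : ContDiff ℝ 2 θ := hθ.of_le (WithTop.coe_le_coe.mpr (le_top : (2 : ℕ∞) ≤ ⊤))
  set F : E → Fin (m + 1) → ℝ := fun x =>
    Fin.cons (χ x * f 0 x) (fun i => θ x * f i.succ x) with hF
  have hF0 : ∀ x, F x 0 = χ x * f 0 x := fun x => rfl
  have hFs : ∀ x (i : Fin m), F x i.succ = θ x * f i.succ x := fun x i => rfl
  have hFc : ContDiff ℝ 2 F := by
    rw [contDiff_pi]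
    intro i
    refine Fin.cases ?_ (fun i => ?_) i
    · exact hχ.mul (hf 0)
    · exact hθ2.mul (hf i.succ)
  have hFcs : HasCompactSupport F := by
    refine HasCompactSupport.of_support_subset_isCompact (hc.isCompact.union hθc.isCompact) ?_
    intro x hx
    rw [Function.mem_support] at hx
    by_contra hcon
    rw [mem_union, not_or] at hcon
    apply hx
    have a : χ x = 0 := image_eq_zero_of_notMem_tsupport hcon.1
    have b : θ x = 0 := image_eq_zero_of_notMem_tsupport hcon.2
    funext i
    refine Fin.cases ?_ (fun i => ?_) i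
    · rw [hF0, a]; simp
    · rw [hFs, b]; simp
  have hkey : ∀ x, detC (m + 1) (fun j => fderiv ℝ F x (v j)) =
      χ x * jdet f v x + f 0 x * jdet (Fin.cons χ fun i => f i.succ) v x := by
    intro x
    have hcomp : ∀ i j, fderiv ℝ F x (v j) i = fderiv ℝ (fun y => F y i) x (v j) := by
      intro i j
      have := hasFDerivAt_pi'.mp ((hFc.differentiable two_ne_zero x).hasFDerivAt) i
      rw [this.fderiv]
      rfl
    have e1 : detC (m + 1) (fun j => fderiv ℝ F x (v j)) = jdet (fun i y => F y i) v x := by
      rw [detC_apply, jdet, ← Matrix.det_transpose]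
      congr 1
      ext i j
      exact hcomp i j
    rw [e1]
    by_cases hx : x ∈ tsupport χ
    · have hs : ∀ i : Fin m, fderiv ℝ (fun y => F y i.succ) x = fderiv ℝ (f i.succ) x := by
        intro i
        apply Filter.EventuallyEq.fderiv_eq
        filter_upwards [hθ1 x hx] with y hy
        rw [hFs, hy, one_mul]
      have h0 : fderiv ℝ (fun y => F y 0) x = χ x • fderiv ℝ (f 0) x + f 0 x • fderiv ℝ χ x := by
        simp only [hF0]
        exact ((hχ.differentiable two_ne_zero x).hasFDerivAt.mul
          ((hf 0).differentiable two_ne_zero x).hasFDerivAt).fderiv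
      have hm : (Matrix.of fun i j => fderiv ℝ (fun y => F y i) x (v j)) =
          (Matrix.of fun i j => fderiv ℝ (f i) x (v j)).updateRow 0
            (χ x • (fun j => fderiv ℝ (f 0) x (v j)) + f 0 x • fun j => fderiv ℝ χ x (v j)) := by
        ext i j
        refine Fin.cases ?_ (fun i => ?_) i
        · rw [Matrix.updateRow_self, Matrix.of_apply, h0]
          simp
        · rw [Matrix.updateRow_ne (Fin.succ_ne_zero i), Matrix.of_apply, Matrix.of_apply, hs]
      rw [jdet, hm, Matrix.det_updateRow_add, Matrix.det_updateRow_smul,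
        Matrix.det_updateRow_smul]
      congr 2
      · congr 1
        ext i j
        refine Fin.cases ?_ (fun i => ?_) i
        · rw [Matrix.updateRow_self]; rfl
        · rw [Matrix.updateRow_ne (Fin.succ_ne_zero i)]
      · rw [jdet]
        congr 1
        ext i j
        refine Fin.cases ?_ (fun i => ?_) i
        · rw [Matrix.updateRow_self]; rfl
        · rw [Matrix.updateRow_ne (Fin.succ_ne_zero i)]; rfl
    · have hχ0 : χ =ᶠ[𝓝 x] fun _ => 0 := by
        have := (notMem_tsupport_iff_eventuallyEq).mp hx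
        exact this
      have h1 : fderiv ℝ (fun y => F y 0) x = 0 := by
        have : (fun y => F y 0) =ᶠ[𝓝 x] fun _ => (0 : ℝ) := by
          filter_upwards [hχ0] with y hy
          rw [hF0, hy, zero_mul]
        rw [this.fderiv_eq]; simp
      have h2 : fderiv ℝ χ x = 0 := by rw [hχ0.fderiv_eq]; simp
      rw [jdet_eq_zero_of_row 0 h1, hχ0.self_of_nhds,
        jdet_eq_zero_of_row (f := Fin.cons χ fun i => f i.succ) 0 (by rw [Fin.cons_zero]; exact h2)]
      simp
  have hint := integral_pullback_eq_zero μ (detC (m + 1)) hFc hFcs v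
  simp only [hkey] at hint
  have hjc : ∀ f : Fin (m + 1) → E → ℝ, (∀ i, ContDiff ℝ 2 (f i)) → Continuous (jdet f v) := by
    intro f hf
    refine Continuous.matrix_det (continuous_matrix fun i j => ?_)
    exact (((hf i).continuous_fderiv two_ne_zero).clm_apply continuous_const)
  have hcons : ∀ i, ContDiff ℝ 2 ((Fin.cons χ fun i => f i.succ : Fin (m + 1) → E → ℝ) i) := by
    intro i
    refine Fin.cases ?_ (fun i => ?_) i
    · exact hχ
    · exact hf i.succ
  rw [integral_add] at hint
  · linarith
  · refine Continuous.integrable_of_hasCompactSupport (hχ.continuous.mul (hjc f hf)) ?_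
    exact hc.mul_right
  · refine Continuous.integrable_of_hasCompactSupport ((hf 0).continuous.mul (hjc _ hcons)) ?_
    refine HasCompactSupport.mul_left ?_
    refine hc.isCompact.of_isClosed_subset (isClosed_tsupport _) ?_
    refine closure_minimal ?_ (isClosed_tsupport _)
    intro x hx
    by_contra hcon
    apply hx
    refine jdet_eq_zero_of_row 0 ?_
    have := (notMem_tsupport_iff_eventuallyEq).mp hcon
    rw [Fin.cons_zero, this.fderiv_eq]
    exact fderiv_const_apply 0

end Pool.Agent.H36.Fill
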