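import Pool.Agent.H36.Fill.Kernel2

/-!
# Small tiles
-/

open MeasureTheory Set Filter
open scoped NNReal Topology ENNReal ContDiff

namespace Pool.Agent.H36.Fill

set_option linter.unusedSectionVars false

variable {V : Type*} [NormedAddCommGroup V] [InnerProductSpace ℝ V] [FiniteDimensional ℝ V]
  [MeasurableSpace V] [BorelSpace V]

namespace StratifiedGroup

variable (G : StratifiedGroup V)

/-- A compact set is a finite disjoint union of small measurable tiles. -/
lemma exists_tiles {η : ℝ} (hη : 0 < η) {Z : Set V} (hZ : IsCompact Z) :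
    ∃ (s : ℕ) (T : Fin s → Set V) (N : Fin s → V), (∀ a, MeasurableSet (T a)) ∧
      Pairwise (Function.onFun Disjoint T) ∧ (⋃ a, T a) = Z ∧
      ∀ a, ∀ q ∈ T a, ‖G.mul (-(N a)) q‖ ≤ η := by
  set U : V → Set V := fun N => {q | ‖G.mul (-N) q‖ < η} with hU
  have hUo : ∀ N, IsOpen (U N) := fun N =>
    isOpen_lt ((G.contDiff_mul_left (-N)).continuous.norm) continuous_const
  have hUm : ∀ N, N ∈ U N := by
    intro N
    change ‖G.mul (-N) N‖ < η
    rw [G.neg_mul_self, norm_zero]; exact hη
  obtain ⟨t, -, ht⟩ := hZ.elim_nhds_subcover U fun x _ => (hUo x).mem_nhds (hUm x)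
  let e : Fin t.card ≃ t := t.equivFin.symm
  set f : Fin t.card → Set V := fun a => Z ∩ U (e a) with hf
  refine ⟨t.card, disjointed f, fun a => e a, fun a => ?_, disjoint_disjointed f, ?_, ?_⟩
  · have hm : ∀ a, MeasurableSet (f a) := fun a => hZ.measurableSet.inter (hUo _).measurableSet
    exact disjointedRec (p := MeasurableSet) (fun t i ht => ht.diff (hm i)) (hm a)
  · rw [iUnion_disjointed]
    apply subset_antisymm
    · exact iUnion_subset fun a => inter_subset_left
    · intro q hq
      have h1 := ht hq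
      rw [mem_iUnion₂] at h1
      obtain ⟨x, hx, hqx⟩ := h1
      rw [mem_iUnion]
      refine ⟨e.symm ⟨x, hx⟩, hq, ?_⟩
      rw [Equiv.apply_symm_apply]
      exact hqx
  · intro a q hq
    have h1 := disjointed_subset f a hq
    exact (h1.2 : ‖G.mul (-((e a : t) : V)) q‖ < η).le

end StratifiedGroup

end Pool.Agent.H36.Fill
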